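import Pool.Agent.V11325.CCLower

namespace V11325.CC

open Real

section leaf

variable {ε ρ A0 A1 C0 C1 e b1 b2 w : ℝ}

/-- No singleton column: only the two points with Bob holding the pair. -/
theorem S_bounds (hρ : 0 < ρ)
    (hA0 : 0 ≤ A0) (hA1 : 0 ≤ A1) (hC0 : 0 ≤ C0) (hC1 : 0 ≤ C1) (he : 0 ≤ e) (hw : 0 ≤ w)
    (hP : 0 < mass ε A0 A1 C0 C1 e 0 0 w) (hε : 0 < ε) (hL : 0 ≤ log (ρ / ε) - ρ) :
    (hel (A0 * w) (A1 * 0) + hel (C0 * w) (C1 * 0) ≤
      12 * (leafI ε A0 A1 C0 C1 e 0 0 w (mass ε A0 A1 C0 C1 e 0 0 w)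
        - mass ε A0 A1 C0 C1 e 0 0 w * log 2)) ∧
    ((log (ρ / ε) - ρ) * (ε / 2) * (e * 0 + e * 0 - 25 / 16 * (e * w)) ≤
      (leafI ε A0 A1 C0 C1 e 0 0 w (mass ε A0 A1 C0 C1 e 0 0 w)
        - mass ε A0 A1 C0 C1 e 0 0 w * log 2) +
        ρ * (25 / 2) * ((A0 + A1) * (√0 - √w) ^ 2 + (C0 + C1) * (√0 - √w) ^ 2)) := by
  set P := mass ε A0 A1 C0 C1 e 0 0 w with hPdef
  have hPe : P = 1 / 8 * (A0 * w) + 1 / 8 * (C0 * w) := by
    rw [hPdef]; unfold mass; ring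
  have hu1 : 0 ≤ A0 * w := mul_nonneg hA0 hw
  have hu2 : 0 ≤ C0 * w := mul_nonneg hC0 hw
  have h4P : 0 < 4 * P := by linarith
  have key : ∀ u : ℝ, 0 ≤ u → u * log (u / P) = u * log (u / (4 * P)) + 2 * (u * log 2) := by
    intro u hu
    rcases eq_or_lt_of_le hu with h | h
    · rw [← h]; ring
    · have : log (u / P) = log (u / (4 * P)) + log 4 := by
        rw [← Real.log_mul (by positivity) (by norm_num)]
        congr 1; field_simp
      rw [this, show (4 : ℝ) = 2 ^ 2 by norm_num, Real.log_pow]; push_cast; ring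
  have hI : leafI ε A0 A1 C0 C1 e 0 0 w P - P * log 2 =
      1 / 8 * (A0 * w * log (A0 * w / (4 * P))) + 1 / 8 * (C0 * w * log (C0 * w / (4 * P)))
        + P * log 2 := by
    unfold leafI
    have k1 := key _ hu1
    have k2 := key _ hu2
    have : P * log 2 = (1 / 8 * (A0 * w) + 1 / 8 * (C0 * w)) * log 2 := by rw [← hPe]
    simp only [mul_zero, zero_mul, add_zero]
    linear_combination (1 / 8) * k1 + (1 / 8) * k2 - 2 * this
  rw [hI]
  have g1 := G1 hu1 h4P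
  have g2 := G1 hu2 h4P
  have l2 : (0.69 : ℝ) ≤ log 2 := by linarith [Real.log_two_gt_d9]
  have low : P * log 2 ≤ 1 / 8 * (A0 * w * log (A0 * w / (4 * P))) +
      1 / 8 * (C0 * w * log (C0 * w / (4 * P))) + P * log 2 := by nlinarith [hPe]
  have hPl : 0.69 * P ≤ P * log 2 := by nlinarith
  constructor
  · rw [hel_eq hu1 (by simp), hel_eq hu2 (by simp)]
    simp only [mul_zero, Real.sqrt_zero, add_zero, sub_zero]
    nlinarith [hPe]
  · have h0 : 0 ≤ (log (ρ / ε) - ρ) * (ε / 2) := by positivity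
    have h1 : 0 ≤ e * w := mul_nonneg he hw
    have h2 : 0 ≤ ρ * (25 / 2) * ((A0 + A1) * (√0 - √w) ^ 2 + (C0 + C1) * (√0 - √w) ^ 2) := by
      positivity
    have h3 : (log (ρ / ε) - ρ) * (ε / 2) * (e * 0 + e * 0 - 25 / 16 * (e * w)) ≤ 0 := by
      have : e * 0 + e * 0 - 25 / 16 * (e * w) ≤ 0 := by linarith
      exact mul_nonpos_of_nonneg_of_nonpos h0 this
    linarith

/-- Both singleton columns: only the two points with Alice holding the pair. -/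
theorem T_bounds (hε : 0 < ε) (hε1 : ε ≤ 1 / 4) (hρ : 0 < ρ) (hρ1 : ρ ≤ 1 / 2)
    (he : 0 ≤ e) (hb1 : 0 ≤ b1) (hb2 : 0 ≤ b2) (hw : 0 ≤ w)
    (hP : 0 < mass ε 0 0 0 0 e b1 b2 w) (hL : 0 ≤ log (ρ / ε) - ρ) :
    (hel (0 * w) (0 * b1) + hel (0 * w) (0 * b2) ≤
      12 * (leafI ε 0 0 0 0 e b1 b2 w (mass ε 0 0 0 0 e b1 b2 w)
        - mass ε 0 0 0 0 e b1 b2 w * log 2)) ∧
    ((log (ρ / ε) - ρ) * (ε / 2) * (e * b1 + e * b2 - 25 / 16 * (e * w)) ≤
      (leafI ε 0 0 0 0 e b1 b2 w (mass ε 0 0 0 0 e b1 b2 w)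
        - mass ε 0 0 0 0 e b1 b2 w * log 2) +
        ρ * (25 / 2) * ((0 + 0) * (√b1 - √w) ^ 2 + (0 + 0) * (√b2 - √w) ^ 2)) := by
  set P := mass ε 0 0 0 0 e b1 b2 w with hPdef
  have hPe : P = ε / 2 * (e * b1) + ε / 2 * (e * b2) := by
    rw [hPdef]; unfold mass; ring
  have hu1 : 0 ≤ e * b1 := mul_nonneg he hb1
  have hu2 : 0 ≤ e * b2 := mul_nonneg he hb2
  have hPv : 0 < P / ε := by positivity
  have key : ∀ u : ℝ, 0 ≤ u → u * log (u / P) = u * log (u / (P / ε)) + u * log (1 / ε) := by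
    intro u hu
    rcases eq_or_lt_of_le hu with h | h
    · rw [← h]; ring
    · rw [← mul_add, ← Real.log_mul (by positivity) (by positivity)]
      congr 2; field_simp
  have hI : leafI ε 0 0 0 0 e b1 b2 w P - P * log 2 =
      ε / 2 * (e * b1 * log (e * b1 / (P / ε))) + ε / 2 * (e * b2 * log (e * b2 / (P / ε)))
        + P * (log (1 / ε) - log 2) := by
    unfold leafI
    have k1 := key _ hu1
    have k2 := key _ hu2
    have : P * log (1 / ε) = (ε / 2 * (e * b1) + ε / 2 * (e * b2)) * log (1 / ε) := by rw [← hPe]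
    simp only [mul_zero, zero_mul, zero_add]
    linear_combination (ε / 2) * k1 + (ε / 2) * k2 - this
  rw [hI]
  have g1 := G1 hu1 hPv
  have g2 := G1 hu2 hPv
  have e1 := mul_le_mul_of_nonneg_left g1 (show (0 : ℝ) ≤ ε / 2 by linarith)
  have e2 := mul_le_mul_of_nonneg_left g2 (show (0 : ℝ) ≤ ε / 2 by linarith)
  have hεP : ε / 2 * (P / ε) = P / 2 := by field_simp
  have low : P * (log (1 / ε) - log 2) ≤
      ε / 2 * (e * b1 * log (e * b1 / (P / ε))) + ε / 2 * (e * b2 * log (e * b2 / (P / ε)))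
        + P * (log (1 / ε) - log 2) := by nlinarith [hPe]
  have hlog : log (ρ / ε) - ρ ≤ log (1 / ε) - log 2 := by
    have h1 : log (ρ / ε) = log ρ + log (1 / ε) := by
      rw [← Real.log_mul (by positivity) (by positivity)]
      congr 1; field_simp
    have h2 : log ρ ≤ - log 2 := by
      rw [← Real.log_inv]
      exact Real.log_le_log hρ (by norm_num; linarith)
    linarith
  have hnn : 0 ≤ log (1 / ε) - log 2 := hL.trans hlog
  constructor
  · simp only [zero_mul]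
    have : hel 0 0 = 0 := by unfold hel; simp
    rw [this]
    have := mul_nonneg hP.le hnn
    nlinarith
  · have h1 : (log (ρ / ε) - ρ) * (ε / 2) * (e * b1 + e * b2 - 25 / 16 * (e * w)) ≤
        (log (ρ / ε) - ρ) * P := by
      have : (log (ρ / ε) - ρ) * P = (log (ρ / ε) - ρ) * (ε / 2) * (e * b1 + e * b2) := by
        rw [hPe]; ring
      rw [this]
      apply mul_le_mul_of_nonneg_left _ (by positivity)
      have := mul_nonneg he hw
      linarith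
    have h2 : (log (ρ / ε) - ρ) * P ≤ P * (log (1 / ε) - log 2) := by
      rw [mul_comm]; exact mul_le_mul_of_nonneg_left hlog hP.le
    simp only [add_zero, zero_mul, mul_zero]
    linarith

/-- The two inequalities used at every leaf. -/
theorem leaf_bounds (hε : 0 < ε) (hε1 : ε ≤ 1 / 4) (hρ : 0 < ρ) (hρ1 : ρ ≤ 1 / 2) (hρε : ε ≤ ρ)
    (hA0 : 0 ≤ A0) (hA1 : 0 ≤ A1) (hC0 : 0 ≤ C0) (hC1 : 0 ≤ C1)
    (he : 0 ≤ e) (hb1 : 0 ≤ b1) (hb2 : 0 ≤ b2) (hw : 0 ≤ w) (hL : 0 ≤ log (ρ / ε) - ρ)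
    (hok : Okay A0 A1 C0 C1 e b1 b2 w) :
    (hel (A0 * w) (A1 * b1) + hel (C0 * w) (C1 * b2) ≤
      12 * (leafI ε A0 A1 C0 C1 e b1 b2 w (mass ε A0 A1 C0 C1 e b1 b2 w)
        - mass ε A0 A1 C0 C1 e b1 b2 w * log 2)) ∧
    ((log (ρ / ε) - ρ) * (ε / 2) * (e * b1 + e * b2 - 25 / 16 * (e * w)) ≤
      (leafI ε A0 A1 C0 C1 e b1 b2 w (mass ε A0 A1 C0 C1 e b1 b2 w)
        - mass ε A0 A1 C0 C1 e b1 b2 w * log 2) +
        ρ * (25 / 2) * ((A0 + A1) * (√b1 - √w) ^ 2 + (C0 + C1) * (√b2 - √w) ^ 2)) := by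
  have hκ : (0 : ℝ) < (3 / 4 - ε) / 2 := by linarith
  have hu1 : 0 ≤ A0 * w := mul_nonneg hA0 hw
  have hu2 : 0 ≤ C0 * w := mul_nonneg hC0 hw
  have hu3 : 0 ≤ A1 * b1 := mul_nonneg hA1 hb1
  have hu4 : 0 ≤ C1 * b2 := mul_nonneg hC1 hb2
  have hu5 : 0 ≤ e * b1 := mul_nonneg he hb1
  have hu6 : 0 ≤ e * b2 := mul_nonneg he hb2
  have hP0 : 0 ≤ mass ε A0 A1 C0 C1 e b1 b2 w := by unfold mass; positivity
  rcases eq_or_lt_of_le hP0 with hz | hP
  · -- empty leaf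
    have hm : 1 / 8 * (A0 * w) + 1 / 8 * (C0 * w) + (3 / 4 - ε) / 2 * (A1 * b1) +
        (3 / 4 - ε) / 2 * (C1 * b2) + ε / 2 * (e * b1) + ε / 2 * (e * b2) = 0 := hz.symm
    have p1 : 0 ≤ 1 / 8 * (A0 * w) := by positivity
    have p2 : 0 ≤ 1 / 8 * (C0 * w) := by positivity
    have p3 : 0 ≤ (3 / 4 - ε) / 2 * (A1 * b1) := by positivity
    have p4 : 0 ≤ (3 / 4 - ε) / 2 * (C1 * b2) := by positivity
    have p5 : 0 ≤ ε / 2 * (e * b1) := by positivity
    have p6 : 0 ≤ ε / 2 * (e * b2) := by positivity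
    have z1 : A0 * w = 0 := by linarith
    have z2 : C0 * w = 0 := by linarith
    have z3 : A1 * b1 = 0 := by
      have : (3 / 4 - ε) / 2 * (A1 * b1) = 0 := by linarith
      exact (mul_eq_zero.1 this).resolve_left hκ.ne'
    have z4 : C1 * b2 = 0 := by
      have : (3 / 4 - ε) / 2 * (C1 * b2) = 0 := by linarith
      exact (mul_eq_zero.1 this).resolve_left hκ.ne'
    have z5 : e * b1 = 0 := by
      have : ε / 2 * (e * b1) = 0 := by linarith
      exact (mul_eq_zero.1 this).resolve_left (by positivity)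
    have z6 : e * b2 = 0 := by
      have : ε / 2 * (e * b2) = 0 := by linarith
      exact (mul_eq_zero.1 this).resolve_left (by positivity)
    rw [← hz]
    have hI : leafI ε A0 A1 C0 C1 e b1 b2 w 0 = 0 := by
      unfold leafI; rw [z1, z2, z3, z4, z5, z6]; simp
    rw [hI, z1, z2, z3, z4, z5, z6]
    have hh : hel 0 0 = 0 := by unfold hel; simp
    refine ⟨by rw [hh]; simp, ?_⟩
    have h0 : 0 ≤ (log (ρ / ε) - ρ) * (ε / 2) := by positivity
    have h1 : 0 ≤ e * w := mul_nonneg he hw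
    have h2 : 0 ≤ ρ * (25 / 2) * ((A0 + A1) * (√b1 - √w) ^ 2 + (C0 + C1) * (√b2 - √w) ^ 2) := by
      positivity
    have h3 : (log (ρ / ε) - ρ) * (ε / 2) * (0 + 0 - 25 / 16 * (e * w)) ≤ 0 :=
      mul_nonpos_of_nonneg_of_nonpos h0 (by linarith)
    linarith
  · have hok' : A0 * b2 = 0 ∧ A1 * b2 = 0 ∧ C0 * b1 = 0 ∧ C1 * b1 = 0 := by
      rcases hok with h | ⟨h1, _, h3, _, _, h6, _, h8, h9, h10, _⟩
      · exact h
      · exfalso
        have : mass ε A0 A1 C0 C1 e b1 b2 w = 0 := by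
          unfold mass; rw [h1, h3, h6, h8, h9, h10]; ring
        exact hP.ne' this
    obtain ⟨o1, o2, o3, o4⟩ := hok'
    rcases eq_or_lt_of_le hb1 with hb1' | hb1' <;> rcases eq_or_lt_of_le hb2 with hb2' | hb2'
    · subst hb1'; subst hb2'
      exact S_bounds hρ hA0 hA1 hC0 hC1 he hw hP hε hL
    · -- star leaf of type 2
      have hA0' : A0 = 0 := (mul_eq_zero.1 o1).resolve_right hb2'.ne'
      have hA1' : A1 = 0 := (mul_eq_zero.1 o2).resolve_right hb2'.ne'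
      subst hb1'
      subst hA0'; subst hA1'
      rw [mass_swap] at hP
      have := star_bounds hε hε1 hρ hρε hC0 hC1 he hb2 hw hP hL
      rw [mass_swap, leafI_swap]
      have hh : hel 0 0 = 0 := by unfold hel; simp
      simp only [zero_mul, mul_zero, add_zero, zero_add, hh]
      exact this
    · have hC0' : C0 = 0 := (mul_eq_zero.1 o3).resolve_right hb1'.ne'
      have hC1' : C1 = 0 := (mul_eq_zero.1 o4).resolve_right hb1'.ne'
      subst hb2'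
      subst hC0'; subst hC1'
      have := star_bounds hε hε1 hρ hρε hA0 hA1 he hb1 hw hP hL
      have hh : hel 0 0 = 0 := by unfold hel; simp
      simp only [zero_mul, mul_zero, add_zero, hh]
      exact this
    · have hA0' : A0 = 0 := (mul_eq_zero.1 o1).resolve_right hb2'.ne'
      have hA1' : A1 = 0 := (mul_eq_zero.1 o2).resolve_right hb2'.ne'
      have hC0' : C0 = 0 := (mul_eq_zero.1 o3).resolve_right hb1'.ne'
      have hC1' : C1 = 0 := (mul_eq_zero.1 o4).resolve_right hb1'.ne'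
      subst hA0'; subst hA1'; subst hC0'; subst hC1'
      exact T_bounds hε hε1 hρ hρ1 he hb1 hb2 hw hP hL

end leaf

/-- The averaged lower bound over a finite set of leaves. -/
theorem total_bound {T : Type*} [Fintype T] {ε : ℝ} (hε : 0 < ε) (hε1 : ε ≤ 1 / 300)
    (hL : 0 ≤ log ((1 / 300) / ε) - 1 / 300)
    (A0 A1 C0 C1 e b1 b2 w : T → ℝ)
    (hA0 : ∀ t, 0 ≤ A0 t) (hA1 : ∀ t, 0 ≤ A1 t) (hC0 : ∀ t, 0 ≤ C0 t) (hC1 : ∀ t, 0 ≤ C1 t)
    (he : ∀ t, 0 ≤ e t) (hb1 : ∀ t, 0 ≤ b1 t) (hb2 : ∀ t, 0 ≤ b2 t) (hw : ∀ t, 0 ≤ w t)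
    (hok : ∀ t, Okay (A0 t) (A1 t) (C0 t) (C1 t) (e t) (b1 t) (b2 t) (w t))
    (s1 : ∑ t, A0 t * w t = 1) (s2 : ∑ t, C0 t * w t = 1) (s3 : ∑ t, A1 t * b1 t = 1)
    (s4 : ∑ t, C1 t * b2 t = 1) (s5 : ∑ t, e t * b1 t = 1) (s6 : ∑ t, e t * b2 t = 1)
    (s7 : ∑ t, e t * w t = 1) (s8 : ∑ t, A0 t * b1 t = 1) (s9 : ∑ t, A1 t * w t = 1)
    (s10 : ∑ t, C0 t * b2 t = 1) (s11 : ∑ t, C1 t * w t = 1) :
    log 2 + 7 / 64 * ε * (log ((1 / 300) / ε) - 1 / 300) ≤
      ∑ t, leafI ε (A0 t) (A1 t) (C0 t) (C1 t) (e t) (b1 t) (b2 t) (w t)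
        (mass ε (A0 t) (A1 t) (C0 t) (C1 t) (e t) (b1 t) (b2 t) (w t)) := by
  set L := log ((1 / 300) / ε) - 1 / 300 with hLdef
  set I : T → ℝ := fun t => leafI ε (A0 t) (A1 t) (C0 t) (C1 t) (e t) (b1 t) (b2 t) (w t)
        (mass ε (A0 t) (A1 t) (C0 t) (C1 t) (e t) (b1 t) (b2 t) (w t)) with hI
  set M : T → ℝ := fun t => mass ε (A0 t) (A1 t) (C0 t) (C1 t) (e t) (b1 t) (b2 t) (w t) with hM
  have hb := fun t => leaf_bounds (ε := ε) (ρ := 1 / 300) hε (by linarith) (by norm_num)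
    (by norm_num) hε1 (hA0 t) (hA1 t) (hC0 t) (hC1 t) (he t) (hb1 t) (hb2 t) (hw t) hL (hok t)
  have hMsum : ∑ t, M t = 1 := by
    simp only [hM, mass, Finset.sum_add_distrib, ← Finset.mul_sum, s1, s2, s3, s4, s5, s6]
    ring
  have h1 : ∑ t, (hel (A0 t * w t) (A1 t * b1 t) + hel (C0 t * w t) (C1 t * b2 t)) ≤
      12 * (∑ t, I t - log 2) := by
    calc _ ≤ ∑ t, 12 * (I t - M t * log 2) := Finset.sum_le_sum fun t _ => (hb t).1
      _ = 12 * (∑ t, I t - log 2) := by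
        rw [← Finset.mul_sum, Finset.sum_sub_distrib, ← Finset.sum_mul, hMsum, one_mul]
  have h2 : L * (ε / 2) * (1 + 1 - 25 / 16) ≤ (∑ t, I t - log 2) +
      1 / 300 * (25 / 2) * (∑ t, ((A0 t + A1 t) * (√(b1 t) - √(w t)) ^ 2 +
        (C0 t + C1 t) * (√(b2 t) - √(w t)) ^ 2)) := by
    calc L * (ε / 2) * (1 + 1 - 25 / 16) =
        ∑ t, L * (ε / 2) * (e t * b1 t + e t * b2 t - 25 / 16 * (e t * w t)) := by
          rw [← Finset.mul_sum, Finset.sum_sub_distrib, Finset.sum_add_distrib, ← Finset.mul_sum,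
            s5, s6, s7]; ring
      _ ≤ ∑ t, ((I t - M t * log 2) + 1 / 300 * (25 / 2) * ((A0 t + A1 t) *
          (√(b1 t) - √(w t)) ^ 2 + (C0 t + C1 t) * (√(b2 t) - √(w t)) ^ 2)) :=
          Finset.sum_le_sum fun t _ => (hb t).2
      _ = _ := by
        rw [Finset.sum_add_distrib, Finset.sum_sub_distrib, ← Finset.sum_mul, hMsum, one_mul,
          ← Finset.mul_sum]
  -- comparison of the Hellinger quantities
  have comp : ∀ (P0 P1 b : T → ℝ), (∀ t, 0 ≤ P0 t) → (∀ t, 0 ≤ P1 t) → (∀ t, 0 ≤ b t) →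
      ∑ t, P0 t * w t = 1 → ∑ t, P1 t * b t = 1 → ∑ t, P0 t * b t = 1 → ∑ t, P1 t * w t = 1 →
      ∑ t, (P0 t + P1 t) * (√(b t) - √(w t)) ^ 2 ≤ 2 * ∑ t, hel (P0 t * w t) (P1 t * b t) := by
    intro P0 P1 b h0 h1 hb t1 t2 t3 t4
    have e1 : ∑ t, hel (P0 t * w t) (P1 t * b t) =
        2 - 2 * ∑ t, √(P0 t * w t) * √(P1 t * b t) := by
      rw [Finset.sum_congr rfl fun t _ => hel_eq (mul_nonneg (h0 t) (hw t))
        (mul_nonneg (h1 t) (hb t)), Finset.sum_sub_distrib, Finset.sum_add_distrib, t1, t2,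
        ← Finset.mul_sum]; ring
    have e2 : ∀ t, (P0 t + P1 t) * (√(b t) - √(w t)) ^ 2 ≤
        P0 t * b t + P0 t * w t + P1 t * b t + P1 t * w t -
          4 * (√(P0 t * w t) * √(P1 t * b t)) := by
      intro t
      rw [Real.sqrt_mul (h0 t), Real.sqrt_mul (h1 t)]
      have q0 := Real.mul_self_sqrt (h0 t)
      have q1 := Real.mul_self_sqrt (h1 t)
      have qb := Real.mul_self_sqrt (hb t)
      have qw := Real.mul_self_sqrt (hw t)
      set x0 := √(P0 t)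
      set x1 := √(P1 t)
      set y := √(b t)
      set z := √(w t)
      have hy : 0 ≤ y := Real.sqrt_nonneg _
      have hz : 0 ≤ z := Real.sqrt_nonneg _
      rw [← q0, ← q1, ← qb, ← qw]
      have : 0 ≤ 2 * ((x0 - x1) ^ 2 * (y * z)) := by positivity
      nlinarith [this]
    calc ∑ t, (P0 t + P1 t) * (√(b t) - √(w t)) ^ 2 ≤
        ∑ t, (P0 t * b t + P0 t * w t + P1 t * b t + P1 t * w t -
          4 * (√(P0 t * w t) * √(P1 t * b t))) := Finset.sum_le_sum fun t _ => e2 t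
      _ = 4 - 4 * ∑ t, √(P0 t * w t) * √(P1 t * b t) := by
        rw [Finset.sum_sub_distrib, Finset.sum_add_distrib, Finset.sum_add_distrib,
          Finset.sum_add_distrib, t1, t2, t3, t4, ← Finset.mul_sum]; ring
      _ = _ := by rw [e1]; ring
  have c1 := comp A0 A1 b1 hA0 hA1 hb1 s1 s3 s8 s9
  have c2 := comp C0 C1 b2 hC0 hC1 hb2 s2 s4 s10 s11
  rw [Finset.sum_add_distrib] at h1 h2
  have : 7 / 64 * ε * L ≤ ∑ t, I t - log 2 := by nlinarith
  linarith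

end V11325.CC
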