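import Pool.Agent.V11325.CCProto
import Pool.Agent.V11325.CCLeaf

/-!
# The example: set intersection on two elements, and the single-copy lower bound
-/

namespace V11325.CC

open Finset Real

/-- Three-bit strings. -/
abbrev W3 : Type := Fin 3 → Bool

/-- Intersection of subsets of a two-element set, coded by the first two bits (the third bit of each
input is a dummy variable). -/
def FI (x y : W3) : Bool := (x 0 && y 0) || (x 1 && y 1)

/-- The six points carrying almost all of the mass. -/
def pt : Fin 6 → W3 × W3 :=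
  ![(![true, false, false], ![true, true, false]), (![false, true, false], ![true, true, false]),
    (![true, false, true], ![true, false, false]), (![false, true, true], ![false, true, false]),
    (![true, true, true], ![true, false, false]), (![true, true, true], ![false, true, false])]

/-- Their weights. -/
noncomputable def wt (ε : ℝ) : Fin 6 → ℝ :=
  ![1 / 8, 1 / 8, (3 / 4 - ε) / 2, (3 / 4 - ε) / 2, ε / 2, ε / 2]

/-- The six-point distribution. -/
noncomputable def muS (ε : ℝ) (z : W3 × W3) : ℝ := ∑ k, wt ε k * (if z = pt k then 1 else 0)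

/-- The full-support distribution. -/
noncomputable def muF (ε ξ : ℝ) (z : W3 × W3) : ℝ := (1 - ξ) * muS ε z + ξ / 64

theorem card_W3 : (Fintype.card (W3 × W3) : ℝ) = 64 := by
  simp [Fintype.card_prod, W3]

theorem wt_nonneg {ε : ℝ} (h0 : 0 ≤ ε) (h1 : ε ≤ 3 / 4) (k : Fin 6) : 0 ≤ wt ε k := by
  fin_cases k <;> simp [wt] <;> linarith

theorem muS_nonneg {ε : ℝ} (h0 : 0 ≤ ε) (h1 : ε ≤ 3 / 4) (z : W3 × W3) : 0 ≤ muS ε z :=
  Finset.sum_nonneg fun k _ => mul_nonneg (wt_nonneg h0 h1 k) (by split_ifs <;> norm_num)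

theorem sum_muS_mul (ε : ℝ) (g : W3 × W3 → ℝ) :
    ∑ z, muS ε z * g z = ∑ k, wt ε k * g (pt k) := by
  unfold muS
  simp only [Finset.sum_mul]
  rw [Finset.sum_comm]
  refine Finset.sum_congr rfl fun k _ => ?_
  rw [Finset.sum_eq_single (pt k)]
  · simp
  · intro z _ hz; simp [hz]
  · intro h; exact absurd (Finset.mem_univ _) h

theorem sum_wt (ε : ℝ) : ∑ k, wt ε k = 1 := by
  simp [Fin.sum_univ_six, wt]; ring

theorem sum_muS (ε : ℝ) : ∑ z, muS ε z = 1 := by
  have := sum_muS_mul ε (fun _ => 1)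
  simp only [mul_one] at this
  rw [this, sum_wt]

theorem sum_muF (ε ξ : ℝ) : ∑ z, muF ε ξ z = 1 := by
  unfold muF
  rw [Finset.sum_add_distrib, ← Finset.mul_sum, sum_muS, Finset.sum_const, Finset.card_univ,
    nsmul_eq_mul, card_W3]
  ring

/-- The golden formula: replacing the true transcript law by another one increases the sum. -/
theorem golden {Z T : Type*} [Fintype Z] [Fintype T] (ν : Z → ℝ) (hν : ∀ z, 0 ≤ ν z)
    (p : Z → T → ℝ) (hp : ∀ z t, 0 ≤ p z t) (Q : T → ℝ) (hQ : ∀ t, 0 ≤ Q t)
    (hQ1 : ∑ t, Q t = ∑ t, ∑ z, ν z * p z t) (hQp : ∀ t, Q t = 0 → ∀ z, p z t = 0) :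
    ∑ t, ∑ z, ν z * p z t * log (p z t / ∑ w, ν w * p w t) ≤
      ∑ t, ∑ z, ν z * p z t * log (p z t / Q t) := by
  have key : ∀ t, ∑ z, ν z * p z t * log (p z t / ∑ w, ν w * p w t) +
      ((∑ w, ν w * p w t) - Q t) ≤ ∑ z, ν z * p z t * log (p z t / Q t) := by
    intro t
    set S := ∑ w, ν w * p w t with hS
    have hS0 : 0 ≤ S := Finset.sum_nonneg fun w _ => mul_nonneg (hν w) (hp w t)
    rcases eq_or_lt_of_le hS0 with h | h
    · have hz : ∀ z, ν z * p z t = 0 := by
        intro z
        have := (Finset.sum_eq_zero_iff_of_nonneg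
          (fun w _ => mul_nonneg (hν w) (hp w t))).1 (hS.symm.trans h.symm) z (Finset.mem_univ z)
        exact this
      simp only [hz, zero_mul, Finset.sum_const_zero, ← h]
      linarith [hQ t]
    · have hQt : 0 < Q t := by
        rcases eq_or_lt_of_le (hQ t) with h' | h'
        · exfalso
          have := hQp t h'.symm
          have : S = 0 := by rw [hS]; exact Finset.sum_eq_zero fun w _ => by rw [this w, mul_zero]
          exact h.ne' this
        · exact h'
      have e1 : ∀ z, ν z * p z t * log (p z t / Q t) =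
          ν z * p z t * log (p z t / S) + ν z * p z t * log (S / Q t) := by
        intro z
        rcases eq_or_lt_of_le (hp z t) with h' | h'
        · rw [← h']; simp
        · rw [← mul_add, ← Real.log_mul (by positivity) (by positivity)]
          congr 2; field_simp
      rw [Finset.sum_congr rfl fun z _ => e1 z, Finset.sum_add_distrib, ← Finset.sum_mul, ← hS]
      have := G1 hS0 hQt
      linarith
  have := Finset.sum_le_sum fun t (_ : t ∈ Finset.univ) => key t
  rw [Finset.sum_add_distrib, Finset.sum_sub_distrib, ← hQ1, sub_self, add_zero] at this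
  exact this

/-- The zero-error constraint at every transcript. -/
theorem okay_of_zeroError (P : Proto W3 W3 Bool) (hP : ZeroError FI P)
    (a b : W3 → Tr P → ℝ)
    (h : ∀ x y t, prob P x y t = a x t * b y t) (t : Tr P) :
    Okay (a ![true, false, false] t) (a ![true, false, true] t) (a ![false, true, false] t)
      (a ![false, true, true] t) (a ![true, true, true] t)
      (b ![true, false, false] t) (b ![false, true, false] t) (b ![true, true, false] t) := by
  have hz : ∀ x y, outv P t ≠ FI x y → a x t * b y t = 0 := by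
    intro x y hne
    by_contra hcon
    have h0 : 0 < prob P x y t := lt_of_le_of_ne (prob_nonneg P x y t) (by rw [h]; exact fun h' => hcon h'.symm)
    exact hne (hP x y t h0)
  rcases hb : outv P t with _ | _
  · right
    rw [hb] at hz
    refine ⟨?_, ?_, ?_, ?_, ?_, ?_, ?_, ?_, ?_, ?_, ?_⟩ <;> (apply hz; decide)
  · left
    rw [hb] at hz
    refine ⟨?_, ?_, ?_, ?_⟩ <;> (apply hz; decide)

/-- Single-copy lower bound for the six-point distribution (in nats). -/
theorem info_muS (P : Proto W3 W3 Bool) (hP : ZeroError FI P) {ε : ℝ} (hε : 0 < ε)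
    (hε1 : ε ≤ 1 / 300) (hL : 0 ≤ log ((1 / 300) / ε) - 1 / 300) :
    log 2 + 7 / 64 * ε * (log ((1 / 300) / ε) - 1 / 300) ≤
      ∑ t : Tr P, ∑ z : W3 × W3, muS ε z * prob P z.1 z.2 t *
        log (prob P z.1 z.2 t / ∑ w : W3 × W3, muS ε w * prob P w.1 w.2 t) := by
  obtain ⟨a, b, ha, hb, h⟩ := prob_factor P
  have hs : ∀ x y, ∑ t, a x t * b y t = 1 := by
    intro x y; rw [← sum_prob P x y]; exact Finset.sum_congr rfl fun t _ => (h x y t).symm
  have main := total_bound hε hε1 hL (a ![true, false, false]) (a ![true, false, true])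
    (a ![false, true, false]) (a ![false, true, true]) (a ![true, true, true])
    (b ![true, false, false]) (b ![false, true, false]) (b ![true, true, false])
    (ha _) (ha _) (ha _) (ha _) (ha _) (hb _) (hb _) (hb _)
    (okay_of_zeroError P hP a b h) (hs _ _) (hs _ _) (hs _ _) (hs _ _) (hs _ _) (hs _ _) (hs _ _)
    (hs _ _) (hs _ _) (hs _ _) (hs _ _)
  refine main.trans (le_of_eq ?_)
  refine Finset.sum_congr rfl fun t _ => ?_
  have hM : ∑ w : W3 × W3, muS ε w * prob P w.1 w.2 t =
      mass ε (a ![true, false, false] t) (a ![true, false, true] t)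
      (a ![false, true, false] t) (a ![false, true, true] t) (a ![true, true, true] t)
      (b ![true, false, false] t) (b ![false, true, false] t) (b ![true, true, false] t) := by
    rw [sum_muS_mul ε (fun w => prob P w.1 w.2 t)]
    simp only [h, Fin.sum_univ_six]
    simp only [pt, wt, mass]
    rfl
  rw [hM]
  simp only [mul_assoc]
  rw [sum_muS_mul ε (fun z => prob P z.1 z.2 t * log (prob P z.1 z.2 t / _))]
  simp only [h, Fin.sum_univ_six]
  simp only [pt, wt, leafI, mul_assoc]
  rfl

theorem muF_pos {ε ξ : ℝ} (h0 : 0 ≤ ε) (h1 : ε ≤ 3 / 4) (hξ : 0 < ξ) (hξ1 : ξ ≤ 1)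
    (z : W3 × W3) : 0 < muF ε ξ z := by
  have := muS_nonneg h0 h1 z
  unfold muF
  have h2 : 0 ≤ (1 - ξ) * muS ε z := mul_nonneg (by linarith) this
  linarith

/-- Single-copy lower bound for the full-support distribution (in bits). -/
theorem info_muF (P : Proto W3 W3 Bool) (hP : ZeroError FI P) {ε ξ : ℝ} (hε : 0 < ε)
    (hε1 : ε ≤ 1 / 300) (hL : 0 ≤ log ((1 / 300) / ε) - 1 / 300) (hξ : 0 < ξ) (hξ1 : ξ ≤ 1) :
    (1 - ξ) * ((log 2 + 7 / 64 * ε * (log ((1 / 300) / ε) - 1 / 300)) / log 2) ≤
      info (muF ε ξ) P := by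
  have hl2 : 0 < log 2 := Real.log_pos (by norm_num)
  have hpos := muF_pos (ε := ε) (ξ := ξ) hε.le (by linarith) hξ hξ1
  set Q : Tr P → ℝ := fun t => ∑ w : W3 × W3, muF ε ξ w * prob P w.1 w.2 t with hQ
  have hQ0 : ∀ t, 0 ≤ Q t := fun t =>
    Finset.sum_nonneg fun w _ => mul_nonneg (hpos w).le (prob_nonneg P _ _ t)
  have hswap : ∀ ν : W3 × W3 → ℝ, ∑ z, ν z = 1 →
      ∑ t : Tr P, ∑ z : W3 × W3, ν z * prob P z.1 z.2 t = 1 := by
    intro ν h1
    rw [Finset.sum_comm]
    simp only [← Finset.mul_sum, sum_prob, mul_one]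
    exact h1
  have hQ1 : ∑ t, Q t = 1 := hswap _ (sum_muF ε ξ)
  have hQp : ∀ t, Q t = 0 → ∀ z : W3 × W3, prob P z.1 z.2 t = 0 := by
    intro t ht z
    have := (Finset.sum_eq_zero_iff_of_nonneg
      (fun w _ => mul_nonneg (hpos w).le (prob_nonneg P _ _ t))).1 ht z (Finset.mem_univ z)
    exact (mul_eq_zero.1 this).resolve_left (hpos z).ne'
  have g1 := golden (muS ε) (muS_nonneg hε.le (by linarith)) (fun z t => prob P z.1 z.2 t)
    (fun z t => prob_nonneg P _ _ t) Q hQ0 (by rw [hQ1, hswap _ (sum_muS ε)]) hQp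
  have g2 : 0 ≤ ∑ t, ∑ z : W3 × W3, ξ / 64 * prob P z.1 z.2 t * log (prob P z.1 z.2 t / Q t) := by
    rw [Finset.sum_comm]
    refine Finset.sum_nonneg fun z _ => ?_
    simp only [mul_assoc]
    rw [← Finset.mul_sum]
    refine mul_nonneg (by positivity) ?_
    have : ∀ t, prob P z.1 z.2 t - Q t ≤ prob P z.1 z.2 t * log (prob P z.1 z.2 t / Q t) := by
      intro t
      rcases eq_or_lt_of_le (hQ0 t) with h | h
      · rw [hQp t h.symm z, ← h]; simp
      · exact G1 (prob_nonneg P _ _ t) h
    have := Finset.sum_le_sum fun t (_ : t ∈ Finset.univ) => this t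
    rw [Finset.sum_sub_distrib, sum_prob, hQ1, sub_self] at this
    exact this
  have hinfo : info (muF ε ξ) P * log 2 =
      (1 - ξ) * (∑ t, ∑ z : W3 × W3, muS ε z * prob P z.1 z.2 t * log (prob P z.1 z.2 t / Q t)) +
      ∑ t, ∑ z : W3 × W3, ξ / 64 * prob P z.1 z.2 t * log (prob P z.1 z.2 t / Q t) := by
    unfold info
    rw [Finset.sum_mul, Finset.mul_sum, ← Finset.sum_add_distrib]
    refine Finset.sum_congr rfl fun t _ => ?_
    rw [Finset.sum_mul, Finset.mul_sum, ← Finset.sum_add_distrib]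
    refine Finset.sum_congr rfl fun z _ => ?_
    rw [Real.logb, mul_assoc, div_mul_cancel₀ _ hl2.ne']
    unfold muF
    simp only [hQ, muF]
    ring
  have hS := info_muS P hP hε hε1 hL
  have fin : (1 - ξ) * (log 2 + 7 / 64 * ε * (log ((1 / 300) / ε) - 1 / 300)) ≤
      info (muF ε ξ) P * log 2 := by
    rw [hinfo]
    have h1 := mul_le_mul_of_nonneg_left (hS.trans g1) (show 0 ≤ 1 - ξ by linarith)
    linarith
  rw [← mul_div_assoc, div_le_iff₀ hl2]
  exact fin

end V11325.CC
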