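import Pool.Agent.V11325.CCUpper

/-!
# Subadditivity of the amortized cost and the final comparison
-/

namespace V11325.CC

open Finset Real Filter Topology

variable {A B O : Type}

theorem bddBelow_CC [Fintype A] [Fintype B] (F : A → B → O) {μ : A × B → ℝ} (hμ : ∀ z, 0 ≤ μ z)
    (n : ℕ) : BddBelow {r : ℝ | ∃ P : Proto (Fin n → A) (Fin n → B) (Fin n → O),
    ZeroError (powF F n) P ∧ avgBits (powD μ n) P = r} := by
  refine ⟨0, ?_⟩
  rintro r ⟨P, _, rfl⟩
  rw [avgBits_eq]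
  exact Finset.sum_nonneg fun z _ => mul_nonneg (powD_nonneg hμ n z) (cost_nonneg P _ _)

theorem CC_le [Fintype A] [Fintype B] (F : A → B → O) {μ : A × B → ℝ} (hμ : ∀ z, 0 ≤ μ z)
    (n : ℕ) (P : Proto (Fin n → A) (Fin n → B) (Fin n → O)) (hP : ZeroError (powF F n) P) :
    CC F μ n ≤ avgBits (powD μ n) P :=
  csInf_le (bddBelow_CC F hμ n) ⟨P, hP, rfl⟩

theorem CC_nonneg [Fintype A] [Fintype B] (F : A → B → O) {μ : A × B → ℝ} (hμ : ∀ z, 0 ≤ μ z)
    (n : ℕ) : 0 ≤ CC F μ n := by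
  refine Real.sInf_nonneg ?_
  rintro r ⟨P, _, rfl⟩
  rw [avgBits_eq]
  exact Finset.sum_nonneg fun z _ => mul_nonneg (powD_nonneg hμ n z) (cost_nonneg P _ _)

/-- Run `P` on the first `m` coordinates and then `Q` on the other ones. -/
def seqP {m n : ℕ} (P : Proto (Fin m → A) (Fin m → B) (Fin m → O))
    (Q : Proto (Fin n → A) (Fin n → B) (Fin n → O)) :
    Proto (Fin (m + n) → A) (Fin (m + n) → B) (Fin (m + n) → O) :=
  bind (comap (fun x i => x (Fin.castAdd n i)) (fun y i => y (Fin.castAdd n i)) P) fun o =>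
    bind (comap (fun x j => x (Fin.natAdd m j)) (fun y j => y (Fin.natAdd m j)) Q) fun o' =>
      .out (Fin.append o o')

theorem seqP_zeroError (F : A → B → O) {m n : ℕ} (P : Proto (Fin m → A) (Fin m → B) (Fin m → O))
    (Q : Proto (Fin n → A) (Fin n → B) (Fin n → O)) (hP : ZeroError (powF F m) P)
    (hQ : ZeroError (powF F n) Q) : ZeroError (powF F (m + n)) (seqP P Q) := by
  rw [zeroError_iff] at hP hQ ⊢
  intro x y o ho
  unfold seqP at ho
  rw [reach_bind] at ho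
  obtain ⟨o1, h1, h2⟩ := ho
  rw [reach_bind] at h2
  obtain ⟨o2, h3, h4⟩ := h2
  rw [reach_comap] at h1 h3
  rw [reach_out] at h4
  rw [← h4, hP _ _ _ h1, hQ _ _ _ h3]
  funext i
  refine Fin.addCases (fun i => ?_) (fun i => ?_) i
  · rw [Fin.append_left]; rfl
  · rw [Fin.append_right]; rfl

theorem cost_seqP {m n : ℕ} (P : Proto (Fin m → A) (Fin m → B) (Fin m → O))
    (Q : Proto (Fin n → A) (Fin n → B) (Fin n → O)) (x : Fin (m + n) → A) (y : Fin (m + n) → B) :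
    cost (seqP P Q) x y =
      cost P (fun i => x (Fin.castAdd n i)) (fun i => y (Fin.castAdd n i)) +
      cost Q (fun j => x (Fin.natAdd m j)) (fun j => y (Fin.natAdd m j)) := by
  unfold seqP
  rw [cost_bind _ _ x y (cost Q (fun j => x (Fin.natAdd m j)) (fun j => y (Fin.natAdd m j))),
    cost_comap]
  intro o
  rw [cost_bind _ _ x y 0, cost_comap, add_zero]
  intro o'
  exact cost_out _ _ _

theorem avg_seqP [Fintype A] [Fintype B] {μ : A × B → ℝ} (h1 : ∑ z, μ z = 1) {m n : ℕ}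
    (P : Proto (Fin m → A) (Fin m → B) (Fin m → O))
    (Q : Proto (Fin n → A) (Fin n → B) (Fin n → O)) :
    avgBits (powD μ (m + n)) (seqP P Q) = avgBits (powD μ m) P + avgBits (powD μ n) Q := by
  rw [avgBits_eq, avgBits_eq, avgBits_eq]
  let E : ((Fin m → A) × (Fin m → B)) × ((Fin n → A) × (Fin n → B)) ≃
      (Fin (m + n) → A) × (Fin (m + n) → B) :=
    (Equiv.prodProdProdComm (Fin m → A) (Fin m → B) (Fin n → A) (Fin n → B)).trans
      (Equiv.prodCongr (Fin.appendEquiv m n) (Fin.appendEquiv m n))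
  rw [← Equiv.sum_comp E, Fintype.sum_prod_type]
  have key : ∀ (p : (Fin m → A) × (Fin m → B)) (q : (Fin n → A) × (Fin n → B)),
      powD μ (m + n) (E (p, q)) * cost (seqP P Q) (E (p, q)).1 (E (p, q)).2 =
      powD μ m p * cost P p.1 p.2 * powD μ n q + powD μ m p * (powD μ n q * cost Q q.1 q.2) := by
    intro p q
    have e1 : (E (p, q)).1 = Fin.append p.1 q.1 := rfl
    have e2 : (E (p, q)).2 = Fin.append p.2 q.2 := rfl
    rw [cost_seqP, e1, e2]
    have hD : powD μ (m + n) (E (p, q)) = powD μ m p * powD μ n q := by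
      unfold powD
      rw [Fin.prod_univ_add, e1, e2]
      simp only [Fin.append_left, Fin.append_right]
    rw [hD]
    simp only [Fin.append_left, Fin.append_right]
    ring
  simp only [key, Finset.sum_add_distrib, ← Finset.mul_sum]
  rw [← Finset.sum_mul, ← Finset.sum_mul]
  simp only [sum_powD μ h1, mul_one, one_mul]

theorem CC_subadditive [Fintype A] [Fintype B] (F : A → B → O) {μ : A × B → ℝ}
    (hμ : ∀ z, 0 ≤ μ z) (h1 : ∑ z, μ z = 1)
    (hne : ∀ n, ∃ P : Proto (Fin n → A) (Fin n → B) (Fin n → O), ZeroError (powF F n) P) :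
    Subadditive (CC F μ) := by
  intro m n
  refine le_of_forall_pos_le_add fun δ hδ => ?_
  obtain ⟨Pm, hPm⟩ := hne m
  obtain ⟨Pn, hPn⟩ := hne n
  obtain ⟨r, ⟨P, hP, rfl⟩, hr⟩ := exists_lt_of_csInf_lt (b := sInf {r : ℝ |
    ∃ P : Proto (Fin m → A) (Fin m → B) (Fin m → O), ZeroError (powF F m) P ∧
      avgBits (powD μ m) P = r} + δ / 2) (s := {r : ℝ |
    ∃ P : Proto (Fin m → A) (Fin m → B) (Fin m → O), ZeroError (powF F m) P ∧
      avgBits (powD μ m) P = r}) ⟨_, Pm, hPm, rfl⟩ (by linarith)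
  obtain ⟨r, ⟨Q, hQ, rfl⟩, hr'⟩ := exists_lt_of_csInf_lt (b := sInf {r : ℝ |
    ∃ P : Proto (Fin n → A) (Fin n → B) (Fin n → O), ZeroError (powF F n) P ∧
      avgBits (powD μ n) P = r} + δ / 2) (s := {r : ℝ |
    ∃ P : Proto (Fin n → A) (Fin n → B) (Fin n → O), ZeroError (powF F n) P ∧
      avgBits (powD μ n) P = r}) ⟨_, Pn, hPn, rfl⟩ (by linarith)
  have := CC_le F hμ (m + n) (seqP P Q) (seqP_zeroError F P Q hP hQ)
  rw [avg_seqP h1] at this
  unfold CC at this ⊢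
  linarith

/-! ### The example -/

theorem nonempty_FI (n : ℕ) : ∃ P : Proto (Fin n → W3) (Fin n → W3) (Fin n → Bool),
    ZeroError (powF FI n) P :=
  ⟨upP n 0 fun _ => Fin.elim0, upP_zeroError _ _ _⟩

theorem nonempty_FI1 : ∃ P : Proto W3 W3 Bool, ZeroError FI P := by
  refine ⟨sendA 3 (fun x => x) fun m => sendB 1 (fun y _ => FI m y) fun o => .out (o 0), ?_⟩
  rw [zeroError_iff]
  intro x y o ho
  have : Runs (sendA 3 (fun x : W3 => x) fun m => sendB 1 (fun y _ => FI m y) fun o =>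
      (.out (o 0) : Proto W3 W3 Bool)) x y (FI x y) (0 + ((1 : ℕ) : ℝ) + ((3 : ℕ) : ℝ)) := by
    refine runs_sendA 3 _ _ x y _ _ ?_
    refine runs_sendB 1 _ _ x y _ _ ?_
    exact runs_out _ _ _
  exact this.1 o ho

theorem CC_FI_subadditive {μ : W3 × W3 → ℝ} (hμ : ∀ z, 0 ≤ μ z) (h1 : ∑ z, μ z = 1) :
    Subadditive (CC FI μ) := CC_subadditive FI hμ h1 nonempty_FI

theorem CC_FI_bdd {μ : W3 × W3 → ℝ} (hμ : ∀ z, 0 ≤ μ z) :
    BddBelow (Set.range fun n : ℕ => CC FI μ n / n) := by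
  refine ⟨0, ?_⟩
  rintro r ⟨n, rfl⟩
  exact div_nonneg (CC_nonneg FI hμ n) (Nat.cast_nonneg n)

theorem avg_continuous (ε : ℝ) (n : ℕ) (P : Proto (Fin n → W3) (Fin n → W3) (Fin n → Bool)) :
    Continuous fun ξ : ℝ => avgBits (powD (muF ε ξ) n) P := by
  simp only [avgBits_eq]
  refine continuous_finset_sum _ fun z _ => Continuous.mul ?_ continuous_const
  unfold powD
  refine continuous_finset_prod _ fun i _ => ?_
  unfold muF
  fun_prop

/-- The main comparison. -/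
theorem main : ∃ μ : W3 × W3 → ℝ, (∀ z, 0 < μ z) ∧ ∑ z, μ z = 1 ∧
    ∃ L : ℝ, Tendsto (fun n : ℕ => CC FI μ n / n) atTop (𝓝 L) ∧ L < ICext FI μ := by
  set N : ℕ := 2 ^ 100 with hN
  have hN2 : 2 ≤ N := by rw [hN]; norm_num
  have hNr : (N : ℝ) = 2 ^ 100 := by rw [hN]; norm_num
  clear_value N
  set ε : ℝ := 1 / N with hε
  have hε0 : 0 < ε := by rw [hε, hNr]; positivity
  have hε1 : ε ≤ 1 / 300 := by
    rw [hε, hNr]
    apply one_div_le_one_div_of_le <;> norm_num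
  have hl2 : (0.69 : ℝ) < log 2 := by linarith [Real.log_two_gt_d9]
  have hlog : 90 * log 2 ≤ log ((1 / 300) / ε) - 1 / 300 := by
    have e : (1 / 300) / ε = 2 ^ 100 / 300 := by rw [hε, hNr]; field_simp
    rw [e]
    have h1 : log (2 ^ 91) ≤ log ((2 : ℝ) ^ 100 / 300) := by
      apply Real.log_le_log (by positivity)
      rw [le_div_iff₀ (by norm_num)]
      norm_num
    rw [Real.log_pow] at h1
    push_cast at h1
    linarith
  have hL : 0 ≤ log ((1 / 300) / ε) - 1 / 300 := by linarith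
  -- the block protocol
  obtain ⟨n, hn0, P, hP, hPc⟩ : ∃ n : ℕ, 0 < n ∧ ∃ P : Proto (Fin n → W3) (Fin n → W3)
      (Fin n → Bool), ZeroError (powF FI n) P ∧
      avgBits (powD (muS ε) n) P < n * (1 + 4 * ε) := by
    obtain ⟨P, hP, hPc⟩ := upper N hN2
    exact ⟨_, by positivity, P, hP, hPc⟩
  have hnr : (0 : ℝ) < n := by exact_mod_cast hn0
  have hcont := avg_continuous ε n P
  have hzero : muF ε 0 = muS ε := by funext z; unfold muF; ring
  have hlt0 : avgBits (powD (muF ε 0) n) P < n * (1 + 4 * ε) := by rw [hzero]; exact hPc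
  have ev1 : ∀ᶠ ξ in 𝓝 (0 : ℝ), avgBits (powD (muF ε ξ) n) P < n * (1 + 4 * ε) :=
    (hcont.tendsto 0).eventually (gt_mem_nhds hlt0)
  have hcont2 : Continuous fun ξ : ℝ => (1 - ξ) * (1 + 9 * ε) := by fun_prop
  have ev2 : ∀ᶠ ξ in 𝓝 (0 : ℝ), 1 + 4 * ε < (1 - ξ) * (1 + 9 * ε) :=
    (hcont2.tendsto 0).eventually (lt_mem_nhds (by simp; linarith))
  have ev3 : ∀ᶠ ξ in 𝓝 (0 : ℝ), ξ < 1 := gt_mem_nhds (by norm_num)
  have ev4 : ∀ᶠ ξ in 𝓝[>] (0 : ℝ), 0 < ξ := eventually_mem_nhdsWithin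
  obtain ⟨ξ, ⟨⟨h1, h2⟩, h3⟩, h4⟩ :=
    (((ev1.and ev2).and ev3).filter_mono nhdsWithin_le_nhds |>.and ev4).exists
  have hpos := muF_pos (ε := ε) (ξ := ξ) hε0.le (by linarith) h4 h3.le
  have hsum := sum_muF ε ξ
  refine ⟨muF ε ξ, hpos, hsum, ?_⟩
  have hsub := CC_FI_subadditive (fun z => (hpos z).le) hsum
  have hbdd := CC_FI_bdd (μ := muF ε ξ) (fun z => (hpos z).le)
  refine ⟨hsub.lim, hsub.tendsto_lim hbdd, ?_⟩
  have hlim : hsub.lim < 1 + 4 * ε := by
    calc hsub.lim ≤ CC FI (muF ε ξ) n / n := hsub.lim_le_div hbdd hn0.ne'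
      _ ≤ avgBits (powD (muF ε ξ) n) P / n := by
        gcongr; exact CC_le FI (fun z => (hpos z).le) n P hP
      _ < 1 + 4 * ε := by rw [div_lt_iff₀ hnr, mul_comm]; exact h1
  have hIC : (1 - ξ) * (1 + 9 * ε) ≤ ICext FI (muF ε ξ) := by
    unfold ICext
    refine le_csInf ?_ ?_
    · obtain ⟨P, hP⟩ := nonempty_FI1
      exact ⟨_, P, hP, rfl⟩
    · rintro r ⟨Q, hQ, rfl⟩
      refine le_trans ?_ (info_muF Q hQ hε0 hε1 hL h4 h3.le)
      refine mul_le_mul_of_nonneg_left ?_ (by linarith)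
      rw [le_div_iff₀ (by linarith)]
      have : 7 / 64 * ε * (90 * log 2) ≤ 7 / 64 * ε * (log ((1 / 300) / ε) - 1 / 300) :=
        mul_le_mul_of_nonneg_left hlog (by positivity)
      nlinarith [mul_pos hε0 (show 0 < log 2 by linarith)]
  linarith

end V11325.CC
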