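import Mathlib

/-!
# The single-copy lower bound: analytic part

Abstract setting: the leaves of a zero-error protocol, with the factors of the rectangle structure at
the five rows `A0, C0` (singletons, Bob has the pair), `A1, C1` (singletons, Bob has the singleton),
`e` (Alice has the pair) and the three columns `b1, b2` (singletons), `w` (the pair).
-/

namespace V11325.CC

open Real

theorem G3 {u v c : ℝ} (hu : 0 ≤ u) (hv : 0 < v) (hc : 0 < c) :
    u * log c + u - c * v ≤ u * log (u / v) := by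
  rcases eq_or_lt_of_le hu with h | h
  · rw [← h]; simp only [zero_mul, zero_add, zero_sub]
    nlinarith
  · have h1 : log (u / v) = log c + log (u / (c * v)) := by
      rw [← Real.log_mul (ne_of_gt hc) (by positivity)]
      congr 1; field_simp
    have h2 := Real.one_sub_inv_le_log_of_pos (show 0 < u / (c * v) by positivity)
    have h3 : u * (1 - (u / (c * v))⁻¹) = u - c * v := by
      field_simp
    rw [h1]
    nlinarith [mul_le_mul_of_nonneg_left h2 hu]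

theorem G1 {u v : ℝ} (hu : 0 ≤ u) (hv : 0 < v) : u - v ≤ u * log (u / v) := by
  have := G3 hu hv one_pos
  simpa using this

theorem G2 {u v : ℝ} (hu : 0 ≤ u) (hv : 0 < v) :
    2 * u - 2 * (√u * √v) ≤ u * log (u / v) := by
  rcases eq_or_lt_of_le hu with h | h
  · rw [← h]; simp
  · have h1 : log (u / v) = 2 * log (√u / √v) := by
      rw [← Real.sqrt_div hu, Real.log_sqrt (by positivity)]; ring
    have hsu : 0 < √u := Real.sqrt_pos.2 h
    have hsv : 0 < √v := Real.sqrt_pos.2 hv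
    have h2 := Real.one_sub_inv_le_log_of_pos (show 0 < √u / √v by positivity)
    have h3 : u * (1 - (√u / √v)⁻¹) = u - √u * √v := by
      have : u = √u * √u := (Real.mul_self_sqrt hu).symm
      field_simp
      nlinarith [this]
    rw [h1]
    nlinarith [mul_le_mul_of_nonneg_left h2 hu]

/-- Total mass of a leaf. -/
noncomputable def mass (ε A0 A1 C0 C1 e b1 b2 w : ℝ) : ℝ :=
  1 / 8 * (A0 * w) + 1 / 8 * (C0 * w) + (3 / 4 - ε) / 2 * (A1 * b1) + (3 / 4 - ε) / 2 * (C1 * b2)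
    + ε / 2 * (e * b1) + ε / 2 * (e * b2)

/-- Information (in nats) contributed by a leaf. -/
noncomputable def leafI (ε A0 A1 C0 C1 e b1 b2 w P : ℝ) : ℝ :=
  1 / 8 * (A0 * w) * log (A0 * w / P) + 1 / 8 * (C0 * w) * log (C0 * w / P)
    + (3 / 4 - ε) / 2 * (A1 * b1) * log (A1 * b1 / P)
    + (3 / 4 - ε) / 2 * (C1 * b2) * log (C1 * b2 / P)
    + ε / 2 * (e * b1) * log (e * b1 / P) + ε / 2 * (e * b2) * log (e * b2 / P)

/-- The zero-error constraint at a leaf. -/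
def Okay (A0 A1 C0 C1 e b1 b2 w : ℝ) : Prop :=
  (A0 * b2 = 0 ∧ A1 * b2 = 0 ∧ C0 * b1 = 0 ∧ C1 * b1 = 0) ∨
  (A0 * w = 0 ∧ A1 * w = 0 ∧ C0 * w = 0 ∧ C1 * w = 0 ∧ A0 * b1 = 0 ∧ A1 * b1 = 0 ∧
    C0 * b2 = 0 ∧ C1 * b2 = 0 ∧ e * b1 = 0 ∧ e * b2 = 0 ∧ e * w = 0)

/-- Hellinger-type quantity. -/
noncomputable def hel (x y : ℝ) : ℝ := (√x - √y) ^ 2

theorem hel_nonneg (x y : ℝ) : 0 ≤ hel x y := sq_nonneg _

theorem hel_eq {x y : ℝ} (hx : 0 ≤ x) (hy : 0 ≤ y) : hel x y = x + y - 2 * (√x * √y) := by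
  unfold hel
  nlinarith [Real.sq_sqrt hx, Real.sq_sqrt hy]

section leaf

variable {ε ρ A0 A1 C0 C1 e b1 b2 w : ℝ}

theorem mass_swap : mass ε A0 A1 C0 C1 e b1 b2 w = mass ε C0 C1 A0 A1 e b2 b1 w := by
  unfold mass; ring

theorem leafI_swap (P : ℝ) :
    leafI ε A0 A1 C0 C1 e b1 b2 w P = leafI ε C0 C1 A0 A1 e b2 b1 w P := by
  unfold leafI; ring

/-- star leaf of type 1: `b1 > 0`, `b2 = 0`, `C0 = C1 = 0`. -/
theorem star_bounds (hε : 0 < ε) (hε1 : ε ≤ 1 / 4) (hρ : 0 < ρ) (hρε : ε ≤ ρ)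
    (hA0 : 0 ≤ A0) (hA1 : 0 ≤ A1) (he : 0 ≤ e) (hb1 : 0 ≤ b1) (hw : 0 ≤ w)
    (hP : 0 < mass ε A0 A1 0 0 e b1 0 w) (hL : 0 ≤ log (ρ / ε) - ρ) :
    (hel (A0 * w) (A1 * b1) ≤ 12 * (leafI ε A0 A1 0 0 e b1 0 w (mass ε A0 A1 0 0 e b1 0 w)
        - mass ε A0 A1 0 0 e b1 0 w * log 2)) ∧
    ((log (ρ / ε) - ρ) * (ε / 2) * (e * b1 - 25 / 16 * (e * w)) ≤
      (leafI ε A0 A1 0 0 e b1 0 w (mass ε A0 A1 0 0 e b1 0 w)
        - mass ε A0 A1 0 0 e b1 0 w * log 2) + ρ * (25 / 2) * ((A0 + A1) * (√b1 - √w) ^ 2)) := by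
  set P := mass ε A0 A1 0 0 e b1 0 w with hPdef
  have hPe : P = 1 / 8 * (A0 * w) + (3 / 4 - ε) / 2 * (A1 * b1) + ε / 2 * (e * b1) := by
    rw [hPdef]; unfold mass; ring
  have hu1 : 0 ≤ A0 * w := mul_nonneg hA0 hw
  have hu3 : 0 ≤ A1 * b1 := mul_nonneg hA1 hb1
  have hu5 : 0 ≤ e * b1 := mul_nonneg he hb1
  have h2P : 0 < 2 * P := by linarith
  have key : ∀ u : ℝ, 0 ≤ u → u * log (u / P) = u * log (u / (2 * P)) + u * log 2 := by
    intro u hu
    rcases eq_or_lt_of_le hu with h | h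
    · rw [← h]; ring
    · rw [← mul_add, ← Real.log_mul (by positivity) (by norm_num)]
      congr 2; field_simp
  have hI : leafI ε A0 A1 0 0 e b1 0 w P - P * log 2 =
      1 / 8 * (A0 * w * log (A0 * w / (2 * P))) +
      (3 / 4 - ε) / 2 * (A1 * b1 * log (A1 * b1 / (2 * P))) +
      ε / 2 * (e * b1 * log (e * b1 / (2 * P))) := by
    unfold leafI
    have k1 := key _ hu1
    have k3 := key _ hu3
    have k5 := key _ hu5
    have : P * log 2 = (1 / 8 * (A0 * w) + (3 / 4 - ε) / 2 * (A1 * b1) + ε / 2 * (e * b1)) * log 2 := by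
      rw [← hPe]
    rw [this]
    linear_combination (1 / 8) * k1 + (3 / 4 - ε) / 2 * k3 + ε / 2 * k5
  rw [hI]
  have hκ : (0 : ℝ) ≤ (3 / 4 - ε) / 2 := by linarith
  constructor
  · -- Hellinger bound
    have g1 := G2 hu1 h2P
    have g3 := G2 hu3 h2P
    have g5 := G2 hu5 h2P
    set s := √(2 * P) with hs
    have hss : s * s = 2 * P := Real.mul_self_sqrt h2P.le
    have q1 : √(A0 * w) * √(A0 * w) = A0 * w := Real.mul_self_sqrt hu1
    have q3 : √(A1 * b1) * √(A1 * b1) = A1 * b1 := Real.mul_self_sqrt hu3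
    have q5 : √(e * b1) * √(e * b1) = e * b1 := Real.mul_self_sqrt hu5
    set r1 := √(A0 * w)
    set r3 := √(A1 * b1)
    set r5 := √(e * b1)
    have lower : 1 / 8 * (r1 - s) ^ 2 + (3 / 4 - ε) / 2 * (r3 - s) ^ 2 ≤
        1 / 8 * (A0 * w * log (A0 * w / (2 * P))) +
        (3 / 4 - ε) / 2 * (A1 * b1 * log (A1 * b1 / (2 * P))) +
        ε / 2 * (e * b1 * log (e * b1 / (2 * P))) := by
      have e1 := mul_le_mul_of_nonneg_left g1 (show (0 : ℝ) ≤ 1 / 8 by norm_num)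
      have e3 := mul_le_mul_of_nonneg_left g3 hκ
      have e5 := mul_le_mul_of_nonneg_left g5 (show (0 : ℝ) ≤ ε / 2 by linarith)
      have : 0 ≤ ε / 2 * (r5 - s) ^ 2 := by positivity
      nlinarith [hss, q1, q3, q5, hPe]
    have up : (r1 - r3) ^ 2 ≤ 12 * (1 / 8 * (r1 - s) ^ 2 + (3 / 4 - ε) / 2 * (r3 - s) ^ 2) := by
      -- (x - y)^2 ≤ (8 + 4) (x^2/8 + y^2/4)
      have hh : (3 / 4 - ε) / 2 ≥ 1 / 4 := by linarith
      have : 1 / 4 * (r3 - s) ^ 2 ≤ (3 / 4 - ε) / 2 * (r3 - s) ^ 2 :=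
        mul_le_mul_of_nonneg_right hh (sq_nonneg _)
      nlinarith [sq_nonneg ((r1 - s) + 2 * (r3 - s)), this]
    calc hel (A0 * w) (A1 * b1) = (r1 - r3) ^ 2 := rfl
      _ ≤ _ := up
      _ ≤ _ := by linarith [lower]
  · -- bad leaves
    have g1 := G1 hu1 h2P
    have g3 := G1 hu3 h2P
    have e1 := mul_le_mul_of_nonneg_left g1 (show (0 : ℝ) ≤ 1 / 8 by norm_num)
    have e3 := mul_le_mul_of_nonneg_left g3 hκ
    by_cases hb : 16 * b1 ≤ 25 * w
    · have g5 := G1 hu5 h2P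
      have e5 := mul_le_mul_of_nonneg_left g5 (show (0 : ℝ) ≤ ε / 2 by linarith)
      have l1 : (log (ρ / ε) - ρ) * (ε / 2) * (e * b1 - 25 / 16 * (e * w)) ≤ 0 := by
        have : e * b1 - 25 / 16 * (e * w) ≤ 0 := by nlinarith
        have h0 : 0 ≤ (log (ρ / ε) - ρ) * (ε / 2) := by positivity
        nlinarith
      have l2 : 0 ≤ ρ * (25 / 2) * ((A0 + A1) * (√b1 - √w) ^ 2) := by positivity
      have l3 : 0 ≤ 1 / 8 * (A0 * w * log (A0 * w / (2 * P))) +
        (3 / 4 - ε) / 2 * (A1 * b1 * log (A1 * b1 / (2 * P))) +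
        ε / 2 * (e * b1 * log (e * b1 / (2 * P))) := by nlinarith [hPe]
      linarith
    · push Not at hb
      have hc : 0 < ρ / ε := by positivity
      have g5 := G3 hu5 h2P hc
      have e5 := mul_le_mul_of_nonneg_left g5 (show (0 : ℝ) ≤ ε / 2 by linarith)
      -- sqrt comparison
      have hb1' : 0 < b1 := by nlinarith
      have sw : √w ≤ 4 / 5 * √b1 := by
        rw [show (4 / 5 : ℝ) = √(16 / 25) by
          rw [show (16 / 25 : ℝ) = (4 / 5) ^ 2 by norm_num, Real.sqrt_sq (by norm_num)],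
          ← Real.sqrt_mul (by norm_num)]
        exact Real.sqrt_le_sqrt (by linarith)
      have qb : √b1 * √b1 = b1 := Real.mul_self_sqrt hb1
      have qw : √w * √w = w := Real.mul_self_sqrt hw
      have sb0 : 0 ≤ √b1 := Real.sqrt_nonneg _
      have sw0 : 0 ≤ √w := Real.sqrt_nonneg _
      have c1 : b1 ≤ 25 * (√b1 - √w) ^ 2 := by
        have : √b1 ≤ 5 * (√b1 - √w) := by linarith
        nlinarith [mul_self_le_mul_self sb0 this]
      have c2 : w ≤ 16 * (√b1 - √w) ^ 2 := by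
        have : √w ≤ 4 * (√b1 - √w) := by linarith
        nlinarith [mul_self_le_mul_self sw0 this]
      have d : 1 / 8 * (A0 * w) + (3 / 4 - ε) / 2 * (A1 * b1) ≤
          25 / 2 * ((A0 + A1) * (√b1 - √w) ^ 2) := by
        have x1 : A0 * w ≤ A0 * (16 * (√b1 - √w) ^ 2) := mul_le_mul_of_nonneg_left c2 hA0
        have x2 : A1 * b1 ≤ A1 * (25 * (√b1 - √w) ^ 2) := mul_le_mul_of_nonneg_left c1 hA1
        have x3 : (3 / 4 - ε) / 2 * (A1 * b1) ≤ 1 / 2 * (A1 * b1) :=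
          mul_le_mul_of_nonneg_right (by linarith) hu3
        have x4 : 0 ≤ A0 * (√b1 - √w) ^ 2 := by positivity
        nlinarith
      have hL0 : (log (ρ / ε) - ρ) * (ε / 2) * (e * b1 - 25 / 16 * (e * w)) ≤
          (log (ρ / ε) - ρ) * (ε / 2) * (e * b1) := by
        apply mul_le_mul_of_nonneg_left _ (by positivity)
        have := mul_nonneg he hw
        linarith
      have hερ : ε / 2 * (ρ / ε * (2 * P)) = ρ * P := by field_simp
      have fin : (log (ρ / ε) - ρ) * (ε / 2) * (e * b1) - ρ * (1 / 8 * (A0 * w) + (3 / 4 - ε) / 2 * (A1 * b1))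
          ≤ 1 / 8 * (A0 * w * log (A0 * w / (2 * P))) +
        (3 / 4 - ε) / 2 * (A1 * b1 * log (A1 * b1 / (2 * P))) +
        ε / 2 * (e * b1 * log (e * b1 / (2 * P))) := by
        have hεP : 0 ≤ ε * P := by positivity
        have expand : ρ * P = ρ * (1 / 8 * (A0 * w) + (3 / 4 - ε) / 2 * (A1 * b1) + ε / 2 * (e * b1)) := by
          rw [← hPe]
        nlinarith [e1, e3, e5, hερ, hPe, expand]
      have := mul_le_mul_of_nonneg_left d hρ.le
      nlinarith [hL0, fin, this]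

end leaf

end V11325.CC
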