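import Mathlib

/-!
# Two-party communication protocols, zero error, external information, amortized cost

Definitions used in the results file `Pool/Agent/Results/MP_ea601a_lc/ExternalBeatsAmortized.lean`,
and their basic theory.
-/

namespace V11325.CC

open Finset Filter Topology

/-- A two-party communication protocol with inputs in `A` (Alice) and `B` (Bob) and outputs in `O`:
a finite binary tree.  At an `alice` node Alice sends one bit, which is `1` with probability `p x`
(private randomness, `x` is her input), at a `bob` node Bob does, at a `coin` node both players see a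
public random bit for free, and at a leaf `out o` the protocol stops with output `o`. -/
inductive Proto (A B O : Type) : Type
  | out (o : O) : Proto A B O
  | alice (p : A → unitInterval) (l r : Proto A B O) : Proto A B O
  | bob (p : B → unitInterval) (l r : Proto A B O) : Proto A B O
  | coin (p : unitInterval) (l r : Proto A B O) : Proto A B O

variable {A B O A' B' O' : Type}

/-- The transcripts of a protocol (its root-to-leaf paths, including the public coins). -/
def Tr : Proto A B O → Type
  | .out _ => Unit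
  | .alice _ l r => Tr l ⊕ Tr r
  | .bob _ l r => Tr l ⊕ Tr r
  | .coin _ l r => Tr l ⊕ Tr r

/-- There are finitely many transcripts. -/
def trFintype : (P : Proto A B O) → Fintype (Tr P)
  | .out _ => inferInstanceAs (Fintype Unit)
  | .alice _ l r => @instFintypeSum _ _ (trFintype l) (trFintype r)
  | .bob _ l r => @instFintypeSum _ _ (trFintype l) (trFintype r)
  | .coin _ l r => @instFintypeSum _ _ (trFintype l) (trFintype r)

instance (P : Proto A B O) : Fintype (Tr P) := trFintype P

/-- `prob P x y t`: the probability of transcript `t` when the inputs are `x` and `y`. -/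
def prob : (P : Proto A B O) → A → B → Tr P → ℝ
  | .out _ => fun _ _ _ => 1
  | .alice p l r => fun x y => Sum.elim (fun t => (1 - (p x : ℝ)) * prob l x y t)
      (fun t => (p x : ℝ) * prob r x y t)
  | .bob p l r => fun x y => Sum.elim (fun t => (1 - (p y : ℝ)) * prob l x y t)
      (fun t => (p y : ℝ) * prob r x y t)
  | .coin p l r => fun x y => Sum.elim (fun t => (1 - (p : ℝ)) * prob l x y t)
      (fun t => (p : ℝ) * prob r x y t)

/-- The output of the protocol on a transcript. -/
def outv : (P : Proto A B O) → Tr P → O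
  | .out o => fun _ => o
  | .alice _ l r => Sum.elim (outv l) (outv r)
  | .bob _ l r => Sum.elim (outv l) (outv r)
  | .coin _ l r => Sum.elim (outv l) (outv r)

/-- The number of bits exchanged on a transcript (public coins are free). -/
def bits : (P : Proto A B O) → Tr P → ℕ
  | .out _ => fun _ => 0
  | .alice _ l r => Sum.elim (fun t => bits l t + 1) (fun t => bits r t + 1)
  | .bob _ l r => Sum.elim (fun t => bits l t + 1) (fun t => bits r t + 1)
  | .coin _ l r => Sum.elim (bits l) (bits r)

/-- The protocol computes `F` with zero error: on every pair of inputs (inside or outside of the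
support of the input distribution) every transcript that can occur has the right output. -/
def ZeroError (F : A → B → O) (P : Proto A B O) : Prop :=
  ∀ x y t, 0 < prob P x y t → outv P t = F x y

/-- Shannon mutual information (in bits) `I(Π ; X Y)` between the transcript and the pair of inputs,
for `(X, Y) ~ μ`. -/
noncomputable def info [Fintype A] [Fintype B] (μ : A × B → ℝ) (P : Proto A B O) : ℝ :=
  ∑ t : Tr P, ∑ z : A × B, μ z * prob P z.1 z.2 t *
    Real.logb 2 (prob P z.1 z.2 t / ∑ w : A × B, μ w * prob P w.1 w.2 t)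

/-- Expected number of bits exchanged, for inputs `(X, Y) ~ μ`. -/
noncomputable def avgBits [Fintype A] [Fintype B] (μ : A × B → ℝ) (P : Proto A B O) : ℝ :=
  ∑ z : A × B, μ z * ∑ t : Tr P, prob P z.1 z.2 t * (bits P t : ℝ)

/-- Zero-error external information complexity of `F` under `μ`. -/
noncomputable def ICext [Fintype A] [Fintype B] (F : A → B → O) (μ : A × B → ℝ) : ℝ :=
  sInf {r : ℝ | ∃ P : Proto A B O, ZeroError F P ∧ info μ P = r}

/-- `F^n`: compute `F` on `n` coordinates. -/
def powF (F : A → B → O) (n : ℕ) : (Fin n → A) → (Fin n → B) → (Fin n → O) :=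
  fun x y i => F (x i) (y i)

/-- The product distribution `μ^n`. -/
def powD (μ : A × B → ℝ) (n : ℕ) : (Fin n → A) × (Fin n → B) → ℝ :=
  fun z => ∏ i, μ (z.1 i, z.2 i)

/-- Expected communication complexity of `F^n` under `μ^n` for zero-error protocols. -/
noncomputable def CC [Fintype A] [Fintype B] (F : A → B → O) (μ : A × B → ℝ) (n : ℕ) : ℝ :=
  sInf {r : ℝ | ∃ P : Proto (Fin n → A) (Fin n → B) (Fin n → O),
    ZeroError (powF F n) P ∧ avgBits (powD μ n) P = r}

/-! ### Basic facts -/

theorem sum_tr_alice (p : A → unitInterval) (l r : Proto A B O)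
    (f : Tr (.alice p l r : Proto A B O) → ℝ) :
    ∑ t, f t = ∑ t : Tr l, f (Sum.inl t) + ∑ t : Tr r, f (Sum.inr t) :=
  @Fintype.sum_sum_type (Tr l) (Tr r) _ _ _ _ f

theorem sum_tr_bob (p : B → unitInterval) (l r : Proto A B O)
    (f : Tr (.bob p l r : Proto A B O) → ℝ) :
    ∑ t, f t = ∑ t : Tr l, f (Sum.inl t) + ∑ t : Tr r, f (Sum.inr t) :=
  @Fintype.sum_sum_type (Tr l) (Tr r) _ _ _ _ f

theorem sum_tr_coin (p : unitInterval) (l r : Proto A B O)
    (f : Tr (.coin p l r : Proto A B O) → ℝ) :
    ∑ t, f t = ∑ t : Tr l, f (Sum.inl t) + ∑ t : Tr r, f (Sum.inr t) :=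
  @Fintype.sum_sum_type (Tr l) (Tr r) _ _ _ _ f

theorem sum_tr_out (o : O) (f : Tr (.out o : Proto A B O) → ℝ) :
    ∑ t, f t = f () :=
  Fintype.sum_unique (ι := Unit) f

theorem prob_nonneg (P : Proto A B O) (x : A) (y : B) (t : Tr P) : 0 ≤ prob P x y t := by
  induction P with
  | out o => exact zero_le_one
  | alice p l r ihl ihr =>
    rcases t with t | t
    · exact mul_nonneg (by linarith [(p x).2.2]) (ihl t)
    · exact mul_nonneg (p x).2.1 (ihr t)
  | bob p l r ihl ihr =>
    rcases t with t | t
    · exact mul_nonneg (by linarith [(p y).2.2]) (ihl t)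
    · exact mul_nonneg (p y).2.1 (ihr t)
  | coin p l r ihl ihr =>
    rcases t with t | t
    · exact mul_nonneg (by linarith [p.2.2]) (ihl t)
    · exact mul_nonneg p.2.1 (ihr t)

theorem sum_prob (P : Proto A B O) (x : A) (y : B) : ∑ t, prob P x y t = 1 := by
  induction P with
  | out o => rw [sum_tr_out]; rfl
  | alice p l r ihl ihr =>
    rw [sum_tr_alice]
    simp only [prob, Sum.elim_inl, Sum.elim_inr]
    rw [← Finset.mul_sum, ← Finset.mul_sum, ihl, ihr]; ring
  | bob p l r ihl ihr =>
    rw [sum_tr_bob]
    simp only [prob, Sum.elim_inl, Sum.elim_inr]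
    rw [← Finset.mul_sum, ← Finset.mul_sum, ihl, ihr]; ring
  | coin p l r ihl ihr =>
    rw [sum_tr_coin]
    simp only [prob, Sum.elim_inl, Sum.elim_inr]
    rw [← Finset.mul_sum, ← Finset.mul_sum, ihl, ihr]; ring

/-- Rectangle structure of the transcript probabilities. -/
theorem prob_factor (P : Proto A B O) :
    ∃ (a : A → Tr P → ℝ) (b : B → Tr P → ℝ), (∀ x t, 0 ≤ a x t) ∧ (∀ y t, 0 ≤ b y t) ∧
      ∀ x y t, prob P x y t = a x t * b y t := by
  induction P with
  | out o => exact ⟨fun _ _ => 1, fun _ _ => 1, fun _ _ => zero_le_one, fun _ _ => zero_le_one,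
      fun _ _ _ => (one_mul 1).symm⟩
  | alice p l r ihl ihr =>
    obtain ⟨a, b, ha, hb, h⟩ := ihl
    obtain ⟨a', b', ha', hb', h'⟩ := ihr
    refine ⟨fun x => Sum.elim (fun t => (1 - (p x : ℝ)) * a x t) (fun t => (p x : ℝ) * a' x t),
      fun y => Sum.elim (b y) (b' y), ?_, ?_, ?_⟩
    · rintro x (t | t)
      · exact mul_nonneg (by linarith [(p x).2.2]) (ha x t)
      · exact mul_nonneg (p x).2.1 (ha' x t)
    · rintro y (t | t)
      · exact hb y t
      · exact hb' y t
    · rintro x y (t | t)
      · simp only [prob, Sum.elim_inl, h]; ring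
      · simp only [prob, Sum.elim_inr, h']; ring
  | bob p l r ihl ihr =>
    obtain ⟨a, b, ha, hb, h⟩ := ihl
    obtain ⟨a', b', ha', hb', h'⟩ := ihr
    refine ⟨fun x => Sum.elim (a x) (a' x),
      fun y => Sum.elim (fun t => (1 - (p y : ℝ)) * b y t) (fun t => (p y : ℝ) * b' y t), ?_, ?_, ?_⟩
    · rintro x (t | t)
      · exact ha x t
      · exact ha' x t
    · rintro y (t | t)
      · exact mul_nonneg (by linarith [(p y).2.2]) (hb y t)
      · exact mul_nonneg (p y).2.1 (hb' y t)
    · rintro x y (t | t)
      · simp only [prob, Sum.elim_inl, h]; ring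
      · simp only [prob, Sum.elim_inr, h']; ring
  | coin p l r ihl ihr =>
    obtain ⟨a, b, ha, hb, h⟩ := ihl
    obtain ⟨a', b', ha', hb', h'⟩ := ihr
    refine ⟨fun x => Sum.elim (fun t => (1 - (p : ℝ)) * a x t) (fun t => (p : ℝ) * a' x t),
      fun y => Sum.elim (b y) (b' y), ?_, ?_, ?_⟩
    · rintro x (t | t)
      · exact mul_nonneg (by linarith [p.2.2]) (ha x t)
      · exact mul_nonneg p.2.1 (ha' x t)
    · rintro y (t | t)
      · exact hb y t
      · exact hb' y t
    · rintro x y (t | t)
      · simp only [prob, Sum.elim_inl, h]; ring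
      · simp only [prob, Sum.elim_inr, h']; ring

/-- Expected number of bits on fixed inputs. -/
noncomputable def cost (P : Proto A B O) (x : A) (y : B) : ℝ :=
  ∑ t : Tr P, prob P x y t * (bits P t : ℝ)

theorem avgBits_eq [Fintype A] [Fintype B] (μ : A × B → ℝ) (P : Proto A B O) :
    avgBits μ P = ∑ z : A × B, μ z * cost P z.1 z.2 := rfl

theorem cost_nonneg (P : Proto A B O) (x : A) (y : B) : 0 ≤ cost P x y :=
  Finset.sum_nonneg fun t _ => mul_nonneg (prob_nonneg P x y t) (Nat.cast_nonneg _)

theorem cost_out (o : O) (x : A) (y : B) : cost (.out o : Proto A B O) x y = 0 := by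
  unfold cost; rw [sum_tr_out]; simp [bits]

theorem cost_alice (p : A → unitInterval) (l r : Proto A B O) (x : A) (y : B) :
    cost (.alice p l r : Proto A B O) x y =
      1 + (1 - (p x : ℝ)) * cost l x y + (p x : ℝ) * cost r x y := by
  unfold cost
  rw [sum_tr_alice]
  simp only [prob, bits, Sum.elim_inl, Sum.elim_inr, Nat.cast_add, Nat.cast_one]
  have h1 : ∀ t : Tr l, (1 - (p x : ℝ)) * prob l x y t * ((bits l t : ℝ) + 1) =
      (1 - (p x : ℝ)) * (prob l x y t * (bits l t : ℝ)) + (1 - (p x : ℝ)) * prob l x y t := by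
    intro t; ring
  have h2 : ∀ t : Tr r, (p x : ℝ) * prob r x y t * ((bits r t : ℝ) + 1) =
      (p x : ℝ) * (prob r x y t * (bits r t : ℝ)) + (p x : ℝ) * prob r x y t := by
    intro t; ring
  simp only [h1, h2, Finset.sum_add_distrib, ← Finset.mul_sum, sum_prob]
  ring

theorem cost_bob (p : B → unitInterval) (l r : Proto A B O) (x : A) (y : B) :
    cost (.bob p l r : Proto A B O) x y =
      1 + (1 - (p y : ℝ)) * cost l x y + (p y : ℝ) * cost r x y := by
  unfold cost
  rw [sum_tr_bob]
  simp only [prob, bits, Sum.elim_inl, Sum.elim_inr, Nat.cast_add, Nat.cast_one]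
  have h1 : ∀ t : Tr l, (1 - (p y : ℝ)) * prob l x y t * ((bits l t : ℝ) + 1) =
      (1 - (p y : ℝ)) * (prob l x y t * (bits l t : ℝ)) + (1 - (p y : ℝ)) * prob l x y t := by
    intro t; ring
  have h2 : ∀ t : Tr r, (p y : ℝ) * prob r x y t * ((bits r t : ℝ) + 1) =
      (p y : ℝ) * (prob r x y t * (bits r t : ℝ)) + (p y : ℝ) * prob r x y t := by
    intro t; ring
  simp only [h1, h2, Finset.sum_add_distrib, ← Finset.mul_sum, sum_prob]
  ring

theorem cost_coin (p : unitInterval) (l r : Proto A B O) (x : A) (y : B) :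
    cost (.coin p l r : Proto A B O) x y =
      (1 - (p : ℝ)) * cost l x y + (p : ℝ) * cost r x y := by
  unfold cost
  rw [sum_tr_coin]
  simp only [prob, bits, Sum.elim_inl, Sum.elim_inr, mul_assoc]
  rw [← Finset.mul_sum, ← Finset.mul_sum]

/-- `o` is a possible output on inputs `x`, `y`. -/
def Reach (P : Proto A B O) (x : A) (y : B) (o : O) : Prop :=
  ∃ t, 0 < prob P x y t ∧ outv P t = o

theorem zeroError_iff (F : A → B → O) (P : Proto A B O) :
    ZeroError F P ↔ ∀ x y o, Reach P x y o → o = F x y := by
  constructor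
  · rintro h x y o ⟨t, ht, rfl⟩; exact h x y t ht
  · intro h x y t ht; exact h x y _ ⟨t, ht, rfl⟩

theorem reach_out (o o' : O) (x : A) (y : B) : Reach (.out o : Proto A B O) x y o' ↔ o = o' := by
  constructor
  · rintro ⟨t, _, h⟩; exact h
  · intro h; exact ⟨(), zero_lt_one, h⟩

theorem reach_alice (p : A → unitInterval) (l r : Proto A B O) (x : A) (y : B) (o : O) :
    Reach (.alice p l r : Proto A B O) x y o ↔
      ((p x : ℝ) < 1 ∧ Reach l x y o) ∨ (0 < (p x : ℝ) ∧ Reach r x y o) := by
  constructor
  · rintro ⟨t | t, ht, h⟩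
    · left
      simp only [prob, Sum.elim_inl] at ht
      have := (pos_and_pos_or_neg_and_neg_of_mul_pos ht)
      rcases this with ⟨h1, h2⟩ | ⟨h1, h2⟩
      · exact ⟨by linarith, t, h2, h⟩
      · exact absurd h2 (not_lt.2 (prob_nonneg l x y t))
    · right
      simp only [prob, Sum.elim_inr] at ht
      have := (pos_and_pos_or_neg_and_neg_of_mul_pos ht)
      rcases this with ⟨h1, h2⟩ | ⟨h1, h2⟩
      · exact ⟨h1, t, h2, h⟩
      · exact absurd h2 (not_lt.2 (prob_nonneg r x y t))
  · rintro (⟨h1, t, ht, h⟩ | ⟨h1, t, ht, h⟩)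
    · exact ⟨Sum.inl t, mul_pos (by linarith) ht, h⟩
    · exact ⟨Sum.inr t, mul_pos h1 ht, h⟩

theorem reach_bob (p : B → unitInterval) (l r : Proto A B O) (x : A) (y : B) (o : O) :
    Reach (.bob p l r : Proto A B O) x y o ↔
      ((p y : ℝ) < 1 ∧ Reach l x y o) ∨ (0 < (p y : ℝ) ∧ Reach r x y o) := by
  constructor
  · rintro ⟨t | t, ht, h⟩
    · left
      simp only [prob, Sum.elim_inl] at ht
      have := (pos_and_pos_or_neg_and_neg_of_mul_pos ht)
      rcases this with ⟨h1, h2⟩ | ⟨h1, h2⟩
      · exact ⟨by linarith, t, h2, h⟩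
      · exact absurd h2 (not_lt.2 (prob_nonneg l x y t))
    · right
      simp only [prob, Sum.elim_inr] at ht
      have := (pos_and_pos_or_neg_and_neg_of_mul_pos ht)
      rcases this with ⟨h1, h2⟩ | ⟨h1, h2⟩
      · exact ⟨h1, t, h2, h⟩
      · exact absurd h2 (not_lt.2 (prob_nonneg r x y t))
  · rintro (⟨h1, t, ht, h⟩ | ⟨h1, t, ht, h⟩)
    · exact ⟨Sum.inl t, mul_pos (by linarith) ht, h⟩
    · exact ⟨Sum.inr t, mul_pos h1 ht, h⟩

theorem reach_coin (p : unitInterval) (l r : Proto A B O) (x : A) (y : B) (o : O) :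
    Reach (.coin p l r : Proto A B O) x y o ↔
      ((p : ℝ) < 1 ∧ Reach l x y o) ∨ (0 < (p : ℝ) ∧ Reach r x y o) := by
  constructor
  · rintro ⟨t | t, ht, h⟩
    · left
      simp only [prob, Sum.elim_inl] at ht
      have := (pos_and_pos_or_neg_and_neg_of_mul_pos ht)
      rcases this with ⟨h1, h2⟩ | ⟨h1, h2⟩
      · exact ⟨by linarith, t, h2, h⟩
      · exact absurd h2 (not_lt.2 (prob_nonneg l x y t))
    · right
      simp only [prob, Sum.elim_inr] at ht
      have := (pos_and_pos_or_neg_and_neg_of_mul_pos ht)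
      rcases this with ⟨h1, h2⟩ | ⟨h1, h2⟩
      · exact ⟨h1, t, h2, h⟩
      · exact absurd h2 (not_lt.2 (prob_nonneg r x y t))
  · rintro (⟨h1, t, ht, h⟩ | ⟨h1, t, ht, h⟩)
    · exact ⟨Sum.inl t, mul_pos (by linarith) ht, h⟩
    · exact ⟨Sum.inr t, mul_pos h1 ht, h⟩

/-! ### Change of inputs and sequential composition -/

/-- Run a protocol on transformed inputs. -/
def comap (f : A' → A) (g : B' → B) : Proto A B O → Proto A' B' O
  | .out o => .out o
  | .alice p l r => .alice (fun x => p (f x)) (comap f g l) (comap f g r)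
  | .bob p l r => .bob (fun y => p (g y)) (comap f g l) (comap f g r)
  | .coin p l r => .coin p (comap f g l) (comap f g r)

/-- Sequential composition. -/
def bind : Proto A B O → (O → Proto A B O') → Proto A B O'
  | .out o, k => k o
  | .alice p l r, k => .alice p (bind l k) (bind r k)
  | .bob p l r, k => .bob p (bind l k) (bind r k)
  | .coin p l r, k => .coin p (bind l k) (bind r k)

theorem reach_comap (f : A' → A) (g : B' → B) (P : Proto A B O) (x : A') (y : B') (o : O) :
    Reach (comap f g P) x y o ↔ Reach P (f x) (g y) o := by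
  induction P with
  | out o' => simp only [comap, reach_out]
  | alice p l r ihl ihr => simp only [comap, reach_alice, ihl, ihr]
  | bob p l r ihl ihr => simp only [comap, reach_bob, ihl, ihr]
  | coin p l r ihl ihr => simp only [comap, reach_coin, ihl, ihr]

theorem cost_comap (f : A' → A) (g : B' → B) (P : Proto A B O) (x : A') (y : B') :
    cost (comap f g P) x y = cost P (f x) (g y) := by
  induction P with
  | out o' => simp only [comap, cost_out]
  | alice p l r ihl ihr => simp only [comap, cost_alice, ihl, ihr]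
  | bob p l r ihl ihr => simp only [comap, cost_bob, ihl, ihr]
  | coin p l r ihl ihr => simp only [comap, cost_coin, ihl, ihr]

theorem reach_bind (P : Proto A B O) (k : O → Proto A B O') (x : A) (y : B) (o' : O') :
    Reach (bind P k) x y o' ↔ ∃ o, Reach P x y o ∧ Reach (k o) x y o' := by
  induction P with
  | out o => simp only [bind, reach_out]; constructor
             · intro h; exact ⟨o, rfl, h⟩
             · rintro ⟨_, rfl, h⟩; exact h
  | alice p l r ihl ihr =>
    simp only [bind, reach_alice, ihl, ihr]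
    constructor
    · rintro (⟨h1, o, h2, h3⟩ | ⟨h1, o, h2, h3⟩)
      · exact ⟨o, Or.inl ⟨h1, h2⟩, h3⟩
      · exact ⟨o, Or.inr ⟨h1, h2⟩, h3⟩
    · rintro ⟨o, ⟨h1, h2⟩ | ⟨h1, h2⟩, h3⟩
      · exact Or.inl ⟨h1, o, h2, h3⟩
      · exact Or.inr ⟨h1, o, h2, h3⟩
  | bob p l r ihl ihr =>
    simp only [bind, reach_bob, ihl, ihr]
    constructor
    · rintro (⟨h1, o, h2, h3⟩ | ⟨h1, o, h2, h3⟩)
      · exact ⟨o, Or.inl ⟨h1, h2⟩, h3⟩
      · exact ⟨o, Or.inr ⟨h1, h2⟩, h3⟩
    · rintro ⟨o, ⟨h1, h2⟩ | ⟨h1, h2⟩, h3⟩
      · exact Or.inl ⟨h1, o, h2, h3⟩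
      · exact Or.inr ⟨h1, o, h2, h3⟩
  | coin p l r ihl ihr =>
    simp only [bind, reach_coin, ihl, ihr]
    constructor
    · rintro (⟨h1, o, h2, h3⟩ | ⟨h1, o, h2, h3⟩)
      · exact ⟨o, Or.inl ⟨h1, h2⟩, h3⟩
      · exact ⟨o, Or.inr ⟨h1, h2⟩, h3⟩
    · rintro ⟨o, ⟨h1, h2⟩ | ⟨h1, h2⟩, h3⟩
      · exact Or.inl ⟨h1, o, h2, h3⟩
      · exact Or.inr ⟨h1, o, h2, h3⟩

theorem cost_bind (P : Proto A B O) (k : O → Proto A B O') (x : A) (y : B) (c : ℝ)
    (h : ∀ o, cost (k o) x y = c) : cost (bind P k) x y = cost P x y + c := by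
  induction P with
  | out o => simp only [bind, cost_out, h]; ring
  | alice p l r ihl ihr => simp only [bind, cost_alice, ihl, ihr]; ring
  | bob p l r ihl ihr => simp only [bind, cost_bob, ihl, ihr]; ring
  | coin p l r ihl ihr => simp only [bind, cost_coin, ihl, ihr]; ring

/-! ### Deterministic messages -/

/-- The protocol surely outputs `o` with exactly `c` bits on inputs `x`, `y`. -/
def Runs (P : Proto A B O) (x : A) (y : B) (o : O) (c : ℝ) : Prop :=
  (∀ o', Reach P x y o' → o' = o) ∧ cost P x y = c

/-- A deterministic bit. -/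
def det (b : Bool) : unitInterval := if b then 1 else 0

@[simp] theorem det_true : ((det true : unitInterval) : ℝ) = 1 := rfl
@[simp] theorem det_false : ((det false : unitInterval) : ℝ) = 0 := rfl

theorem runs_out (o : O) (x : A) (y : B) : Runs (.out o : Proto A B O) x y o 0 :=
  ⟨fun o' h => ((reach_out o o' x y).1 h).symm, cost_out o x y⟩

theorem runs_alice (f : A → Bool) (l r : Proto A B O) (x : A) (y : B) (o : O) (c : ℝ)
    (h : Runs (if f x then r else l) x y o c) :
    Runs (.alice (fun x => det (f x)) l r) x y o (c + 1) := by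
  rcases hb : f x with _ | _
  · rw [hb] at h
    refine ⟨fun o' h' => ?_, ?_⟩
    · rw [reach_alice, hb] at h'
      rcases h' with ⟨_, h'⟩ | ⟨h', _⟩
      · exact h.1 o' h'
      · simp at h'
    · rw [cost_alice, hb, det_false]
      have := h.2
      simp only [Bool.false_eq_true, if_false] at this
      rw [this]; ring
  · rw [hb] at h
    refine ⟨fun o' h' => ?_, ?_⟩
    · rw [reach_alice, hb] at h'
      rcases h' with ⟨h', _⟩ | ⟨_, h'⟩
      · simp at h'
      · exact h.1 o' h'
    · rw [cost_alice, hb, det_true]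
      have := h.2
      simp only [if_true] at this
      rw [this]; ring

theorem runs_bob (f : B → Bool) (l r : Proto A B O) (x : A) (y : B) (o : O) (c : ℝ)
    (h : Runs (if f y then r else l) x y o c) :
    Runs (.bob (fun y => det (f y)) l r) x y o (c + 1) := by
  rcases hb : f y with _ | _
  · rw [hb] at h
    refine ⟨fun o' h' => ?_, ?_⟩
    · rw [reach_bob, hb] at h'
      rcases h' with ⟨_, h'⟩ | ⟨h', _⟩
      · exact h.1 o' h'
      · simp at h'
    · rw [cost_bob, hb, det_false]
      have := h.2
      simp only [Bool.false_eq_true, if_false] at this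
      rw [this]; ring
  · rw [hb] at h
    refine ⟨fun o' h' => ?_, ?_⟩
    · rw [reach_bob, hb] at h'
      rcases h' with ⟨h', _⟩ | ⟨_, h'⟩
      · simp at h'
      · exact h.1 o' h'
    · rw [cost_bob, hb, det_true]
      have := h.2
      simp only [if_true] at this
      rw [this]; ring

/-- Alice sends `n` bits that are a function of her input. -/
def sendA : (n : ℕ) → (A → Fin n → Bool) → ((Fin n → Bool) → Proto A B O) → Proto A B O
  | 0, _, k => k Fin.elim0
  | n + 1, f, k => .alice (fun x => det (f x 0))
      (sendA n (fun x i => f x i.succ) (fun m => k (Fin.cons false m)))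
      (sendA n (fun x i => f x i.succ) (fun m => k (Fin.cons true m)))

/-- Bob sends `n` bits that are a function of his input. -/
def sendB : (n : ℕ) → (B → Fin n → Bool) → ((Fin n → Bool) → Proto A B O) → Proto A B O
  | 0, _, k => k Fin.elim0
  | n + 1, f, k => .bob (fun y => det (f y 0))
      (sendB n (fun y i => f y i.succ) (fun m => k (Fin.cons false m)))
      (sendB n (fun y i => f y i.succ) (fun m => k (Fin.cons true m)))

theorem runs_sendA (n : ℕ) : ∀ (f : A → Fin n → Bool) (k : (Fin n → Bool) → Proto A B O)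
    (x : A) (y : B) (o : O) (c : ℝ), Runs (k (f x)) x y o c →
    Runs (sendA n f k) x y o (c + n) := by
  induction n with
  | zero =>
    intro f k x y o c h
    have : (Fin.elim0 : Fin 0 → Bool) = f x := funext fun i => i.elim0
    simp only [sendA, this, Nat.cast_zero, add_zero]
    exact h
  | succ n ih =>
    intro f k x y o c h
    have hc : Fin.cons (f x 0) (fun i => f x i.succ) = f x := by
      funext i
      refine Fin.cases ?_ (fun j => ?_) i
      · rfl
      · rfl
    have := runs_alice (fun x => f x 0)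
      (sendA n (fun x i => f x i.succ) (fun m => k (Fin.cons false m)))
      (sendA n (fun x i => f x i.succ) (fun m => k (Fin.cons true m))) x y o (c + n) ?_
    · simp only [sendA, Nat.cast_add, Nat.cast_one]
      rw [← add_assoc]; exact this
    · split_ifs with hb
      · refine ih _ _ x y o c ?_
        have : Fin.cons true (fun i => f x i.succ) = f x := by rw [← hc, hb]; rfl
        simp only [this]; exact h
      · refine ih _ _ x y o c ?_
        have hb' : f x 0 = false := by simpa using hb
        have : Fin.cons false (fun i => f x i.succ) = f x := by rw [← hc, hb']; rfl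
        simp only [this]; exact h

theorem runs_sendB (n : ℕ) : ∀ (f : B → Fin n → Bool) (k : (Fin n → Bool) → Proto A B O)
    (x : A) (y : B) (o : O) (c : ℝ), Runs (k (f y)) x y o c →
    Runs (sendB n f k) x y o (c + n) := by
  induction n with
  | zero =>
    intro f k x y o c h
    have : (Fin.elim0 : Fin 0 → Bool) = f y := funext fun i => i.elim0
    simp only [sendB, this, Nat.cast_zero, add_zero]
    exact h
  | succ n ih =>
    intro f k x y o c h
    have hc : Fin.cons (f y 0) (fun i => f y i.succ) = f y := by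
      funext i
      refine Fin.cases ?_ (fun j => ?_) i
      · rfl
      · rfl
    have := runs_bob (fun y => f y 0)
      (sendB n (fun y i => f y i.succ) (fun m => k (Fin.cons false m)))
      (sendB n (fun y i => f y i.succ) (fun m => k (Fin.cons true m))) x y o (c + n) ?_
    · simp only [sendB, Nat.cast_add, Nat.cast_one]
      rw [← add_assoc]; exact this
    · split_ifs with hb
      · refine ih _ _ x y o c ?_
        have : Fin.cons true (fun i => f y i.succ) = f y := by rw [← hc, hb]; rfl
        simp only [this]; exact h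
      · refine ih _ _ x y o c ?_
        have hb' : f y 0 = false := by simpa using hb
        have : Fin.cons false (fun i => f y i.succ) = f y := by rw [← hc, hb']; rfl
        simp only [this]; exact h

end V11325.CC
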