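import Pool.Agent.V11325.CCExample

/-!
# The block protocol: hashing what Alice does not know, then certifying
-/

namespace V11325.CC

open Finset Real

/-! ### Product sums -/

theorem sum_powD_mul {A B : Type} [Fintype A] [Fintype B] (μ g : A × B → ℝ) (n : ℕ) :
    ∑ z : (Fin n → A) × (Fin n → B), powD μ n z * ∏ i, g (z.1 i, z.2 i) =
      (∑ z, μ z * g z) ^ n := by
  rw [← Fin.prod_const, Finset.prod_univ_sum, Fintype.piFinset_univ]
  rw [← Equiv.sum_comp (Equiv.arrowProdEquivProdArrow (Fin n) (fun _ => A) (fun _ => B))]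
  refine Finset.sum_congr rfl fun z _ => ?_
  simp only [powD, Equiv.arrowProdEquivProdArrow, Equiv.coe_fn_mk, ← Finset.prod_mul_distrib]

theorem sum_powD {A B : Type} [Fintype A] [Fintype B] (μ : A × B → ℝ) (h : ∑ z, μ z = 1) (n : ℕ) :
    ∑ z : (Fin n → A) × (Fin n → B), powD μ n z = 1 := by
  have := sum_powD_mul μ (fun _ => 1) n
  simpa [h] using this

theorem powD_nonneg {A B : Type} {μ : A × B → ℝ} (h : ∀ z, 0 ≤ μ z) (n : ℕ)
    (z : (Fin n → A) × (Fin n → B)) : 0 ≤ powD μ n z :=
  Finset.prod_nonneg fun _ _ => h _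

/-! ### Counting hash functions -/

/-- Functions agreeing at two points, together with a value, are all functions. -/
def agreeEquiv {S C : Type} [DecidableEq S] (q q' : S) (h : q ≠ q') :
    {H : S → C // H q' = H q} × C ≃ (S → C) where
  toFun p := Function.update p.1.1 q' p.2
  invFun G := (⟨Function.update G q' (G q), by
    rw [Function.update_self, Function.update_of_ne h]⟩, G q')
  left_inv := by
    rintro ⟨⟨H, hH⟩, c⟩
    simp only [Prod.mk.injEq, Subtype.mk.injEq]
    constructor
    · rw [Function.update_idem, Function.update_of_ne h]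
      rw [← hH, Function.update_eq_self]
    · rw [Function.update_self]
  right_inv := by
    intro G
    simp only [Function.update_idem, Function.update_eq_self]

theorem card_agree {S C : Type} [Fintype S] [Fintype C] [DecidableEq S] [DecidableEq C]
    (q q' : S) (h : q ≠ q') :
    ((univ.filter fun H : S → C => H q' = H q).card : ℝ) * Fintype.card C =
      Fintype.card (S → C) := by
  rw [← Fintype.card_subtype, ← Nat.cast_mul, ← Fintype.card_prod,
    Fintype.card_congr (agreeEquiv q q' h)]

/-! ### The protocol -/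

/-- Alice's candidates for Bob's hint bit. -/
def cand (x : W3) : Finset Bool :=
  if x 0 && x 1 then {false, true} else if x 1 && x 2 then {true} else {false}

/-- Bob's hint bit: his set is `{2}`. -/
def hint (y : W3) : Bool := y 1 && !(y 0)

/-- The element of her set that Alice announces. -/
def pick (x : W3) (q : Bool) : Bool := if x 0 && x 1 then q else x 1

/-- Membership of an element in a set. -/
def mem (x : W3) (r : Bool) : Bool := if r then x 1 else x 0

theorem FI_of_mem (x y : W3) (r : Bool) (hx : mem x r = true) (hy : mem y r = true) :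
    FI x y = true := by
  unfold mem at hx hy; unfold FI
  cases r <;> simp_all

theorem pt_good (k : Fin 6) : hint (pt k).2 ∈ cand (pt k).1 ∧
    mem (pt k).1 (pick (pt k).1 (hint (pt k).2)) = true ∧
    mem (pt k).2 (pick (pt k).1 (hint (pt k).2)) = true := by
  fin_cases k <;> decide

theorem muS_good {ε : ℝ} (z : W3 × W3) (hz : muS ε z ≠ 0) :
    hint z.2 ∈ cand z.1 ∧ mem z.1 (pick z.1 (hint z.2)) = true ∧
      mem z.2 (pick z.1 (hint z.2)) = true := by
  unfold muS at hz
  obtain ⟨k, _, hk⟩ := Finset.exists_ne_zero_of_sum_ne_zero hz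
  have : z = pt k := by
    by_contra h; simp [h] at hk
  rw [this]; exact pt_good k

/-- Alice's candidate strings. -/
def candS {n : ℕ} (x : Fin n → W3) : Finset (Fin n → Bool) := Fintype.piFinset fun i => cand (x i)

open Classical in
/-- Alice decodes the hash. -/
noncomputable def dec {n k : ℕ} (H : (Fin n → Bool) → (Fin k → Bool)) (x : Fin n → W3)
    (h : Fin k → Bool) : Fin n → Bool :=
  if hq : ∃ q ∈ candS x, H q = h then hq.choose else fun _ => false

theorem dec_eq {n k : ℕ} (H : (Fin n → Bool) → (Fin k → Bool)) (x : Fin n → W3)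
    (q : Fin n → Bool) (hq : q ∈ candS x) (huniq : ∀ q' ∈ candS x, q' ≠ q → H q' ≠ H q) :
    dec H x (H q) = q := by
  unfold dec
  have hex : ∃ q' ∈ candS x, H q' = H q := ⟨q, hq, rfl⟩
  rw [dif_pos hex]
  by_contra hne
  exact huniq _ hex.choose_spec.1 hne hex.choose_spec.2

/-- Alice's announced elements. -/
noncomputable def ann {n k : ℕ} (H : (Fin n → Bool) → (Fin k → Bool)) (x : Fin n → W3)
    (h : Fin k → Bool) : Fin n → Bool := fun i => pick (x i) (dec H x h i)

/-- All announced elements belong to the sets. -/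
def allMem {n : ℕ} (x : Fin n → W3) (r : Fin n → Bool) : Bool := decide (∀ i, mem (x i) (r i) = true)

/-- The block protocol. -/
noncomputable def upP (n k : ℕ) (H : (Fin n → Bool) → (Fin k → Bool)) :
    Proto (Fin n → W3) (Fin n → W3) (Fin n → Bool) :=
  sendB k (fun y => H (fun i => hint (y i))) fun h =>
  sendA n (fun x => ann H x h) fun r =>
  sendA 1 (fun x _ => allMem x r) fun v =>
  sendB 1 (fun y _ => allMem y r) fun u =>
  if (v 0 && u 0) = true then .out (fun _ => true)
  else sendA (n * 3) (fun x j => x (finProdFinEquiv.symm j).1 (finProdFinEquiv.symm j).2) fun m =>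
    sendB n (fun y i => FI (fun c => m (finProdFinEquiv (i, c))) (y i)) fun o => .out o

/-- The event that the cheap branch is taken. -/
noncomputable def good {n k : ℕ} (H : (Fin n → Bool) → (Fin k → Bool)) (x y : Fin n → W3) : Bool :=
  allMem x (ann H x (H fun i => hint (y i))) && allMem y (ann H x (H fun i => hint (y i)))

theorem upP_runs (n k : ℕ) (H : (Fin n → Bool) → (Fin k → Bool)) (x y : Fin n → W3) :
    Runs (upP n k H) x y (powF FI n x y)
      ((if good H x y = true then 0 else 4 * (n : ℝ)) + ((1 : ℕ) : ℝ) + ((1 : ℕ) : ℝ) + n + k) := by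
  unfold upP
  refine runs_sendB k _ _ x y _ _ ?_
  refine runs_sendA n _ _ x y _ _ ?_
  refine runs_sendA 1 _ _ x y _ _ ?_
  refine runs_sendB 1 _ _ x y _ _ ?_
  by_cases hg : good H x y = true
  · rw [if_pos hg]
    have hg' : (allMem x (ann H x (H fun i => hint (y i))) &&
        allMem y (ann H x (H fun i => hint (y i)))) = true := hg
    rw [if_pos hg']
    have ho : powF FI n x y = fun _ => true := by
      funext i
      rw [Bool.and_eq_true] at hg'
      exact FI_of_mem _ _ _ (of_decide_eq_true hg'.1 i) (of_decide_eq_true hg'.2 i)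
    rw [ho]
    exact runs_out _ _ _
  · rw [if_neg hg]
    have hg' : ¬ (allMem x (ann H x (H fun i => hint (y i))) &&
        allMem y (ann H x (H fun i => hint (y i)))) = true := hg
    rw [if_neg hg']
    have hc : (4 * (n : ℝ)) = 0 + (n : ℝ) + ((n * 3 : ℕ) : ℝ) := by push_cast; ring
    rw [hc]
    refine runs_sendA (n * 3) _ _ x y _ _ ?_
    refine runs_sendB n _ _ x y _ _ ?_
    have ho : (fun i => FI (fun c => x (finProdFinEquiv.symm (finProdFinEquiv (i, c))).1
        (finProdFinEquiv.symm (finProdFinEquiv (i, c))).2) (y i)) = powF FI n x y := by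
      funext i
      simp only [Equiv.symm_apply_apply]
      rfl
    rw [ho]
    exact runs_out _ _ _

theorem upP_zeroError (n k : ℕ) (H : (Fin n → Bool) → (Fin k → Bool)) :
    ZeroError (powF FI n) (upP n k H) := by
  rw [zeroError_iff]
  intro x y o ho
  exact (upP_runs n k H x y).1 o ho

/-- On the support, a failure forces a collision of the hash function. -/
theorem collision {n k : ℕ} (H : (Fin n → Bool) → (Fin k → Bool)) {ε : ℝ}
    (z : (Fin n → W3) × (Fin n → W3)) (hz : powD (muS ε) n z ≠ 0) (hb : good H z.1 z.2 ≠ true) :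
    ∃ q' ∈ candS z.1, q' ≠ (fun i => hint (z.2 i)) ∧ H q' = H (fun i => hint (z.2 i)) := by
  by_contra hcon
  push Not at hcon
  apply hb
  have hi : ∀ i, muS ε (z.1 i, z.2 i) ≠ 0 := by
    intro i hi
    exact hz (Finset.prod_eq_zero (Finset.mem_univ i) hi)
  have hmem : (fun i => hint (z.2 i)) ∈ candS z.1 := by
    unfold candS
    rw [Fintype.mem_piFinset]
    intro i; exact (muS_good _ (hi i)).1
  have hd := dec_eq H z.1 _ hmem hcon
  unfold good allMem ann
  rw [hd, Bool.and_eq_true]
  exact ⟨decide_eq_true fun i => (muS_good _ (hi i)).2.1,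
    decide_eq_true fun i => (muS_good _ (hi i)).2.2⟩

theorem card_candS {n : ℕ} (x : Fin n → W3) :
    ((candS x).card : ℝ) = ∏ i, ((cand (x i)).card : ℝ) := by
  unfold candS
  rw [Fintype.card_piFinset]; push_cast; rfl

theorem sum_cand (ε : ℝ) : ∑ z, muS ε z * ((cand z.1).card : ℝ) = 1 + ε := by
  rw [sum_muS_mul ε (fun z => ((cand z.1).card : ℝ)), Fin.sum_univ_six]
  have h0 : (cand (pt 0).1).card = 1 := by decide
  have h1 : (cand (pt 1).1).card = 1 := by decide
  have h2 : (cand (pt 2).1).card = 1 := by decide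
  have h3 : (cand (pt 3).1).card = 1 := by decide
  have h4 : (cand (pt 4).1).card = 2 := by decide
  have h5 : (cand (pt 5).1).card = 2 := by decide
  simp only [h0, h1, h2, h3, h4, h5, wt]
  simp
  ring

/-- Some hash function fails with small probability. -/
theorem exists_hash (n k : ℕ) {ε : ℝ} (h0 : 0 ≤ ε) (h1 : ε ≤ 3 / 4) :
    ∃ H : (Fin n → Bool) → (Fin k → Bool),
      ∑ z, powD (muS ε) n z * (if good H z.1 z.2 = true then 0 else 1) ≤ (1 + ε) ^ n / 2 ^ k := by
  classical
  have hμ := muS_nonneg h0 h1
  set tot : ℝ := (Fintype.card ((Fin n → Bool) → (Fin k → Bool)) : ℝ) with htot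
  have htot0 : 0 < tot := by rw [htot]; exact_mod_cast Fintype.card_pos
  have hper : ∀ z : (Fin n → W3) × (Fin n → W3),
      ∑ H : (Fin n → Bool) → (Fin k → Bool),
        powD (muS ε) n z * (if good H z.1 z.2 = true then (0 : ℝ) else 1) ≤
      powD (muS ε) n z * (∏ i, ((cand (z.1 i)).card : ℝ)) * (tot / 2 ^ k) := by
    intro z
    have hz0 := powD_nonneg hμ n z
    rcases eq_or_lt_of_le hz0 with hz | hz
    · simp [← hz]
    · rw [← Finset.mul_sum, mul_assoc]
      refine mul_le_mul_of_nonneg_left ?_ hz0
      set q : Fin n → Bool := fun i => hint (z.2 i) with hq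
      calc ∑ H : (Fin n → Bool) → (Fin k → Bool), (if good H z.1 z.2 = true then (0 : ℝ) else 1)
          ≤ ∑ H : (Fin n → Bool) → (Fin k → Bool),
              ∑ q' ∈ (candS z.1).filter (fun q' => q ≠ q'), (if H q' = H q then (1 : ℝ) else 0) := by
            refine Finset.sum_le_sum fun H _ => ?_
            split_ifs with hg
            · exact Finset.sum_nonneg fun _ _ => by split_ifs <;> norm_num
            · obtain ⟨q', h1', h2', h3'⟩ := collision H z hz.ne' hg
              have hm : q' ∈ (candS z.1).filter (fun q' => q ≠ q') := by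
                rw [Finset.mem_filter]; exact ⟨h1', fun h => h2' h.symm⟩
              have := Finset.single_le_sum
                (f := fun q' => (if H q' = H q then (1 : ℝ) else 0))
                (fun _ _ => by split_ifs <;> norm_num) hm
              simp only [hq] at this
              rw [if_pos h3'] at this
              exact this
        _ = ∑ q' ∈ (candS z.1).filter (fun q' => q ≠ q'), (tot / 2 ^ k) := by
            rw [Finset.sum_comm]
            refine Finset.sum_congr rfl fun q' hq' => ?_
            have hne := (Finset.mem_filter.1 hq').2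
            have hc := card_agree (C := Fin k → Bool) q q' hne
            rw [Finset.sum_boole, eq_div_iff (by positivity)]
            rw [htot, ← hc]
            congr 1
            simp
        _ ≤ ∑ q' ∈ candS z.1, (tot / 2 ^ k) :=
            Finset.sum_le_sum_of_subset_of_nonneg (Finset.filter_subset _ _)
              fun _ _ _ => by positivity
        _ = (∏ i, ((cand (z.1 i)).card : ℝ)) * (tot / 2 ^ k) := by
            rw [Finset.sum_const, nsmul_eq_mul, card_candS]
  have hsum : ∑ H : (Fin n → Bool) → (Fin k → Bool),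
      ∑ z, powD (muS ε) n z * (if good H z.1 z.2 = true then (0 : ℝ) else 1) ≤
      ∑ _H : (Fin n → Bool) → (Fin k → Bool), (1 + ε) ^ n / 2 ^ k := by
    rw [Finset.sum_comm, Finset.sum_const, nsmul_eq_mul, Finset.card_univ, ← htot]
    calc _ ≤ ∑ z, powD (muS ε) n z * (∏ i, ((cand (z.1 i)).card : ℝ)) * (tot / 2 ^ k) :=
          Finset.sum_le_sum fun z _ => hper z
      _ = (1 + ε) ^ n * (tot / 2 ^ k) := by
          rw [← Finset.sum_mul, sum_powD_mul (muS ε) (fun z => ((cand z.1).card : ℝ)) n, sum_cand]
      _ ≤ _ := le_of_eq (by ring)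
  obtain ⟨H, _, hH⟩ := Finset.exists_le_of_sum_le Finset.univ_nonempty hsum
  exact ⟨H, hH⟩

/-- The block protocol beats `1 + 4/N` bits per coordinate. -/
theorem upper (N : ℕ) (hN : 2 ≤ N) :
    ∃ P : Proto (Fin (N * (4 * N + 3)) → W3) (Fin (N * (4 * N + 3)) → W3)
        (Fin (N * (4 * N + 3)) → Bool),
      ZeroError (powF FI (N * (4 * N + 3))) P ∧
      avgBits (powD (muS (1 / N)) (N * (4 * N + 3))) P <
        ((N * (4 * N + 3) : ℕ) : ℝ) * (1 + 4 * (1 / (N : ℝ))) := by
  have hN' : (2 : ℝ) ≤ N := by exact_mod_cast hN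
  set M : ℕ := 4 * N + 3 with hM
  set n : ℕ := N * M with hn
  set ε : ℝ := 1 / N with hε
  have hε0 : 0 ≤ ε := by positivity
  have hε1 : ε ≤ 3 / 4 := by
    rw [hε, div_le_iff₀ (by linarith)]; linarith
  obtain ⟨H, hH⟩ := exists_hash n (3 * M) hε0 hε1
  refine ⟨upP n (3 * M) H, upP_zeroError _ _ _, ?_⟩
  have havg : avgBits (powD (muS ε) n) (upP n (3 * M) H) =
      4 * n * ∑ z, powD (muS ε) n z * (if good H z.1 z.2 = true then 0 else 1) +
        (2 + n + (3 * M : ℕ)) := by
    rw [avgBits_eq]
    have hc : ∀ z : (Fin n → W3) × (Fin n → W3), powD (muS ε) n z * cost (upP n (3 * M) H) z.1 z.2 =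
        4 * n * (powD (muS ε) n z * (if good H z.1 z.2 = true then 0 else 1)) +
          powD (muS ε) n z * (2 + n + (3 * M : ℕ)) := by
      intro z
      rw [(upP_runs n (3 * M) H z.1 z.2).2]
      split_ifs <;> push_cast <;> ring
    rw [Finset.sum_congr rfl fun z _ => hc z, Finset.sum_add_distrib, ← Finset.mul_sum,
      ← Finset.sum_mul, sum_powD _ (sum_muS ε), one_mul]
  rw [havg]
  -- the failure probability is at most 2^{-M}
  have hfail : (1 + ε) ^ n / 2 ^ (3 * M) ≤ 1 / 2 ^ M := by
    have h1 : (1 + ε) ^ n ≤ 4 ^ M := by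
      calc (1 + ε) ^ n ≤ (Real.exp ε) ^ n := by
            refine pow_le_pow_left₀ (by positivity) ?_ n
            linarith [Real.add_one_le_exp ε]
        _ = (Real.exp 1) ^ M := by
            rw [← Real.exp_nat_mul, ← Real.exp_nat_mul]
            congr 1
            rw [hn, hε]; push_cast; field_simp
        _ ≤ 4 ^ M := pow_le_pow_left₀ (Real.exp_pos 1).le
            (by linarith [Real.exp_one_lt_d9]) M
    rw [div_le_div_iff₀ (by positivity) (by positivity), one_mul]
    calc (1 + ε) ^ n * 2 ^ M ≤ 4 ^ M * 2 ^ M := by gcongr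
      _ = 2 ^ (3 * M) := by
        rw [show (4 : ℝ) = 2 ^ 2 by norm_num, ← pow_mul, ← pow_add]; congr 1; ring
  have h2M : (M : ℝ) ≤ 2 ^ M := by exact_mod_cast (Nat.lt_two_pow_self (n := M)).le
  have hp : (0 : ℝ) < 2 ^ M := by positivity
  have hnM : (n : ℝ) = N * M := by rw [hn]; push_cast; ring
  have hterm : 4 * (n : ℝ) * ∑ z, powD (muS ε) n z * (if good H z.1 z.2 = true then 0 else 1) ≤
      4 * N := by
    calc _ ≤ 4 * (n : ℝ) * (1 / 2 ^ M) := by
          refine mul_le_mul_of_nonneg_left (hH.trans hfail) (by positivity)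
      _ ≤ 4 * N := by
          rw [hnM, mul_one_div, div_le_iff₀ hp]
          nlinarith
  have hMr : (M : ℝ) = 4 * N + 3 := by rw [hM]; push_cast; ring
  have hNε : (N : ℝ) * M * (1 + 4 * ε) = N * M + 4 * M := by
    rw [hε]; field_simp
  have e1 : (n : ℝ) * (1 + 4 * ε) = N * M + 4 * M := by rw [hnM]; exact hNε
  rw [e1]
  push_cast
  linarith

end V11325.CC
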