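import Mathlib

/-!
# Attractors of cellular automata which erode finite islands of both phases

If a nearest-neighbour cellular automaton on `ℤ²` with states `Bool` erodes finite islands in the
background `false` and in the background `true`, then a configuration made of concentric shells of
alternating phases, with rapidly growing radii, is an attractor.
-/

namespace Pool.Agent.V11325.CaAttr

/-- configurations -/
abbrev Cf : Type := ℤ × ℤ → Bool

/-- the sup-norm -/
def rad (s : ℤ × ℤ) : ℕ := max s.1.natAbs s.2.natAbs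

/-- locality -/
def Local (Φ : Cf → Cf) : Prop :=
  ∀ (y y' : Cf) (s : ℤ × ℤ),
    (∀ u : ℤ × ℤ, |u.1 - s.1| ≤ 1 → |u.2 - s.2| ≤ 1 → y u = y' u) → Φ y s = Φ y' s

/-- erosion of islands in the background `a` -/
def Erodes (Φ : Cf → Cf) (T : ℕ → ℕ) (a : Bool) : Prop :=
  ∀ (L : ℕ) (y : Cf), (∀ s, L < rad s → y s = a) → ∀ n, T L ≤ n → ∀ s, (Φ^[n] y) s = a

theorem rad_le_of_near {s u : ℤ × ℤ} (h1 : |u.1 - s.1| ≤ 1) (h2 : |u.2 - s.2| ≤ 1) :
    rad u ≤ rad s + 1 ∧ rad s ≤ rad u + 1 := by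
  unfold rad
  rw [abs_le] at h1 h2
  omega

theorem inside {Φ : Cf → Cf} (hΦ : Local Φ) {y y' : Cf} {R : ℕ}
    (h : ∀ s, rad s ≤ R → y s = y' s) :
    ∀ n s, rad s + n ≤ R → (Φ^[n] y) s = (Φ^[n] y') s := by
  intro n
  induction n with
  | zero => intro s hs; exact h s (by omega)
  | succ n ih =>
    intro s hs
    rw [Function.iterate_succ', Function.comp, Function.comp]
    refine hΦ _ _ s fun u h1 h2 => ih u ?_
    have := (rad_le_of_near h1 h2).1
    omega

theorem outside {Φ : Cf → Cf} (hΦ : Local Φ) {y y' : Cf} {R : ℕ}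
    (h : ∀ s, R < rad s → y s = y' s) :
    ∀ n s, R + n < rad s → (Φ^[n] y) s = (Φ^[n] y') s := by
  intro n
  induction n with
  | zero => intro s hs; exact h s (by omega)
  | succ n ih =>
    intro s hs
    rw [Function.iterate_succ', Function.comp, Function.comp]
    refine hΦ _ _ s fun u h1 h2 => ih u ?_
    have := (rad_le_of_near h1 h2).2
    omega

/-- the radii of the shells -/
def rr (T : ℕ → ℕ) : ℕ → ℕ
  | 0 => 0
  | k + 1 => rr T k + 2 * T (rr T k) + 1

theorem rr_lt (T : ℕ → ℕ) (k : ℕ) : rr T k < rr T (k + 1) := by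
  rw [rr]
  omega

theorem rr_mono (T : ℕ → ℕ) : StrictMono (rr T) := strictMono_nat_of_lt_succ (rr_lt T)

theorem le_rr (T : ℕ → ℕ) (k : ℕ) : k ≤ rr T k := (rr_mono T).id_le k

theorem exists_rr (T : ℕ → ℕ) (r : ℕ) : ∃ k, r ≤ rr T k := ⟨r, le_rr T r⟩

open Classical in
/-- the index of the shell -/
noncomputable def idx (T : ℕ → ℕ) (r : ℕ) : ℕ := Nat.find (exists_rr T r)

theorem idx_eq (T : ℕ → ℕ) {r k : ℕ} (h1 : rr T k < r) (h2 : r ≤ rr T (k + 1)) :
    idx T r = k + 1 := by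
  unfold idx
  rw [Nat.find_eq_iff]
  refine ⟨h2, fun m hm => ?_⟩
  have : rr T m ≤ rr T k := (rr_mono T).monotone (by omega)
  omega

/-- the phase of a shell -/
def ph (k : ℕ) : Bool := decide (k % 2 = 1)

/-- the shell configuration -/
noncomputable def shell (T : ℕ → ℕ) : Cf := fun s => ph (idx T (rad s))

variable {Φ : Cf → Cf} {T : ℕ → ℕ}

theorem claimA (hΦ : Local Φ) (h0 : Erodes Φ T false) (h1 : Erodes Φ T true) (k : ℕ) {y' : Cf}
    (hy' : ∀ s, rr T k < rad s → y' s = shell T s) {n : ℕ} (hn : T (rr T k) ≤ n) {s : ℤ × ℤ}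
    (hs : rad s + n ≤ rr T (k + 1)) : (Φ^[n] y') s = ph (k + 1) := by
  have her : Erodes Φ T (ph (k + 1)) := by
    cases h : ph (k + 1)
    · exact h0
    · exact h1
  set z : Cf := fun u => if rad u ≤ rr T (k + 1) then y' u else ph (k + 1) with hz
  have hz1 : ∀ u, rr T k < rad u → z u = ph (k + 1) := by
    intro u hu
    simp only [hz]
    split_ifs with h
    · rw [hy' u hu]
      unfold shell
      rw [idx_eq T hu h]
    · rfl
  rw [inside hΦ (y := y') (y' := z) (R := rr T (k + 1)) (fun u hu => by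
    simp only [hz, if_pos hu]) n s hs]
  exact her _ z hz1 n hn s

theorem rad_finite (R : ℕ) : {s : ℤ × ℤ | rad s ≤ R}.Finite := by
  refine ((Set.finite_Icc (-(R : ℤ)) R).prod (Set.finite_Icc (-(R : ℤ)) R)).subset ?_
  rintro ⟨a, b⟩ h
  have h' : max a.natAbs b.natAbs ≤ R := h
  simp only [Set.mem_prod, Set.mem_Icc]
  omega

theorem claimC (hΦ : Local Φ) (h0 : Erodes Φ T false) (h1 : Erodes Φ T true) {y' : Cf}
    (hy' : {s | shell T s ≠ y' s}.Finite) :
    {p : (ℤ × ℤ) × ℕ | (Φ^[p.2] (shell T)) p.1 ≠ (Φ^[p.2] y') p.1}.Finite := by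
  -- choose the shell
  obtain ⟨R, hR⟩ : ∃ R : ℕ, ∀ s, shell T s ≠ y' s → rad s ≤ R := by
    obtain ⟨R, hR⟩ := (hy'.image rad).bddAbove
    exact ⟨R, fun s hs => hR ⟨s, hs, rfl⟩⟩
  have hag : ∀ s, rr T R < rad s → y' s = shell T s := by
    intro s hs
    by_contra hne
    have := hR s (fun h => hne h.symm)
    have := le_rr T R
    omega
  have heq : Φ^[T (rr T R)] (shell T) = Φ^[T (rr T R)] y' := by
    funext s
    by_cases hs : rad s ≤ rr T R + T (rr T R)
    · have hs' : rad s + T (rr T R) ≤ rr T (R + 1) := by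
        rw [rr]
        omega
      rw [claimA hΦ h0 h1 R (fun _ _ => rfl) le_rfl hs', claimA hΦ h0 h1 R hag le_rfl hs']
    · exact (outside hΦ hag _ s (by omega)).symm
  have heq' : ∀ n, T (rr T R) ≤ n → Φ^[n] (shell T) = Φ^[n] y' := by
    intro n hn
    obtain ⟨m, rfl⟩ := Nat.exists_eq_add_of_le hn
    rw [add_comm, Function.iterate_add, Function.comp, Function.comp, heq]
  refine ((rad_finite (rr T R + T (rr T R))).prod (Set.finite_Iio (T (rr T R)))).subset ?_
  rintro ⟨s, n⟩ hp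
  simp only [Set.mem_ofPred_eq] at hp
  simp only [Set.mem_prod, Set.mem_ofPred_eq, Set.mem_Iio]
  have hn : n < T (rr T R) := by
    by_contra hn
    push Not at hn
    exact hp (congrFun (heq' n hn) s)
  refine ⟨?_, hn⟩
  by_contra hs
  push Not at hs
  exact hp (outside hΦ hag n s (by omega)).symm

theorem claimD (hΦ : Local Φ) (h0 : Erodes Φ T false) (h1 : Erodes Φ T true) (s : ℤ × ℤ)
    (a : Bool) (n₀ : ℕ) : ∃ n, n₀ ≤ n ∧ (Φ^[n] (shell T)) s = a := by
  -- a large index of the right parity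
  obtain ⟨k, hk, hka⟩ : ∃ k, n₀ + rad s ≤ k ∧ ph (k + 1) = a := by
    cases a
    · refine ⟨2 * (n₀ + rad s) + 1, by omega, ?_⟩
      unfold ph
      rw [decide_eq_false_iff_not]
      omega
    · refine ⟨2 * (n₀ + rad s), by omega, ?_⟩
      unfold ph
      rw [decide_eq_true_iff]
      omega
  have h2 := le_rr T k
  have h3 : rr T (k + 1) = rr T k + 2 * T (rr T k) + 1 := by rw [rr]
  refine ⟨rr T (k + 1) - rad s, by omega, ?_⟩
  rw [← hka]
  exact claimA hΦ h0 h1 k (fun _ _ => rfl) (by omega) (by omega)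

theorem shell_infinite (T : ℕ → ℕ) (a : Bool) : {s | shell T s = a}.Infinite := by
  intro hfin
  obtain ⟨R, hR⟩ := (hfin.image rad).bddAbove
  obtain ⟨k, hk, hka⟩ : ∃ k, R ≤ k ∧ ph (k + 1) = a := by
    cases a
    · refine ⟨2 * R + 1, by omega, ?_⟩
      unfold ph
      rw [decide_eq_false_iff_not]
      omega
    · refine ⟨2 * R, by omega, ?_⟩
      unfold ph
      rw [decide_eq_true_iff]
      omega
  have hrad : rad ((rr T (k + 1) : ℤ), (0 : ℤ)) = rr T (k + 1) := by
    unfold rad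
    simp
  have h1 : shell T ((rr T (k + 1) : ℤ), (0 : ℤ)) = a := by
    unfold shell
    rw [hrad, idx_eq T (rr_lt T k) le_rfl, hka]
  have h2 : rad ((rr T (k + 1) : ℤ), (0 : ℤ)) ≤ R := hR ⟨_, h1, rfl⟩
  have h3 := le_rr T (k + 1)
  omega

end Pool.Agent.V11325.CaAttr
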