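import Pool.Agent.V11325.CaAttr

/-!
# The flattening automaton: definitions and erosion
-/

namespace Pool.Agent.V11325.Flat

/-- `F(a, b, c, d) = max (min (a, b), min (c, d))`. -/
def F (a b c d : Bool) : Bool := (a && b) || (c && d)

/-- One step of the flattening automaton:
`x_{i,j,t} = F(x_{i,j,t-1}, x_{i,j-1,t-1}, x_{i-1,j,t-1}, x_{i-1,j-1,t-1})`. -/
def step (x : ℤ × ℤ → Bool) (s : ℤ × ℤ) : Bool :=
  F (x (s.1, s.2)) (x (s.1, s.2 - 1)) (x (s.1 - 1, s.2)) (x (s.1 - 1, s.2 - 1))

/-- The trajectory: `TR x s n` is the value at the site `s` at time `n - 1`, so that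
`TR x s 0 = x s` is the initial configuration (time `-1`). -/
def TR (x : ℤ × ℤ → Bool) (s : ℤ × ℤ) (n : ℕ) : Bool := (step^[n] x) s

/-- `x` is an attractor: for every finite perturbation `x'` of `x`, the trajectories of `x` and
`x'` differ at only finitely many space-time points. -/
def IsAttractor (x : ℤ × ℤ → Bool) : Prop :=
  ∀ x' : ℤ × ℤ → Bool, {s | x s ≠ x' s}.Finite →
    {p : (ℤ × ℤ) × ℕ | TR x p.1 p.2 ≠ TR x' p.1 p.2}.Finite

open CaAttr

theorem local_step : Local step := by
  intro y y' s h
  unfold step
  rw [h (s.1, s.2) (by simp) (by simp), h (s.1, s.2 - 1) (by simp) (by simp),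
    h (s.1 - 1, s.2) (by simp) (by simp), h (s.1 - 1, s.2 - 1) (by simp) (by simp)]

theorem F_true {a b c d : Bool} (h : F a b c d = true) :
    (a = true ∧ b = true) ∨ (c = true ∧ d = true) := by
  revert h
  cases a <;> cases b <;> cases c <;> cases d <;> simp [F]

theorem F_false {a b c d : Bool} (h : F a b c d = false) :
    (a = false ∨ b = false) ∧ (c = false ∨ d = false) := by
  revert h
  cases a <;> cases b <;> cases c <;> cases d <;> simp [F]

theorem bound_true (L : ℕ) (y : ℤ × ℤ → Bool) (hy : ∀ s, L < rad s → y s = false) :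
    ∀ n s, (step^[n] y) s = true → -(L : ℤ) + n ≤ s.2 ∧ s.2 ≤ L := by
  intro n
  induction n with
  | zero =>
    intro s hs
    have h1 : rad s ≤ L := by
      by_contra h
      push Not at h
      have := hy s h
      rw [Function.iterate_zero, id] at hs
      rw [this] at hs
      exact absurd hs (by simp)
    unfold rad at h1
    push_cast
    omega
  | succ n ih =>
    intro s hs
    rw [Function.iterate_succ', Function.comp] at hs
    rcases F_true hs with ⟨h1, h2⟩ | ⟨h1, h2⟩
    · have h3 := ih _ h1
      have h4 := ih _ h2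
      push_cast
      simp only at h3 h4
      omega
    · have h3 := ih _ h1
      have h4 := ih _ h2
      push_cast
      simp only at h3 h4
      omega

theorem bound_false (L : ℕ) (y : ℤ × ℤ → Bool) (hy : ∀ s, L < rad s → y s = true) :
    ∀ n s, (step^[n] y) s = false → -(L : ℤ) + n ≤ s.1 ∧ s.1 ≤ L := by
  intro n
  induction n with
  | zero =>
    intro s hs
    have h1 : rad s ≤ L := by
      by_contra h
      push Not at h
      have := hy s h
      rw [Function.iterate_zero, id] at hs
      rw [this] at hs
      exact absurd hs (by simp)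
    unfold rad at h1
    push_cast
    omega
  | succ n ih =>
    intro s hs
    rw [Function.iterate_succ', Function.comp] at hs
    obtain ⟨h1, h2⟩ := F_false hs
    have h3 : -(L : ℤ) + n ≤ s.1 ∧ s.1 ≤ L := by
      rcases h1 with h1 | h1 <;> simpa using ih _ h1
    have h4 : -(L : ℤ) + n ≤ s.1 - 1 ∧ s.1 - 1 ≤ L := by
      rcases h2 with h2 | h2 <;> exact ih _ h2
    push_cast
    omega

theorem erodes_false : Erodes step (fun L => 2 * L + 1) false := by
  intro L y hy n hn s
  by_contra h
  have h' : (step^[n] y) s = true := by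
    cases h2 : (step^[n] y) s
    · exact absurd h2 h
    · rfl
  have := bound_true L y hy n s h'
  simp only at hn
  omega

theorem erodes_true : Erodes step (fun L => 2 * L + 1) true := by
  intro L y hy n hn s
  by_contra h
  have h' : (step^[n] y) s = false := by
    cases h2 : (step^[n] y) s
    · rfl
    · exact absurd h2 h
  have := bound_false L y hy n s h'
  simp only at hn
  omega

end Pool.Agent.V11325.Flat
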