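import Pool.Agent.V11325.CaAttr

/-!
# Deterministic NEC-voting: definitions and erosion
-/

namespace Pool.Agent.V11325.Nec

/-- The majority of three bits. -/
def maj (a b c : Bool) : Bool := (a && b) || (a && c) || (b && c)

/-- One step of deterministic NEC-voting: the new value at `s` is the majority of the old values
at `s`, `s + e₁` and `s + e₂`. -/
def step (y : ℤ × ℤ → Bool) (s : ℤ × ℤ) : Bool :=
  maj (y s) (y (s.1 + 1, s.2)) (y (s.1, s.2 + 1))

/-- The trajectory: `TR y s n` is the value at the site `s` at time `n - 1`, so that
`TR y s 0 = y s` is the initial configuration (time `-1`). -/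
def TR (y : ℤ × ℤ → Bool) (s : ℤ × ℤ) (n : ℕ) : Bool := (step^[n] y) s

/-- `y` is an attractor: for every finite perturbation `y'` of `y`, the trajectories of `y` and
`y'` differ at only finitely many space-time points. -/
def IsAttractor (y : ℤ × ℤ → Bool) : Prop :=
  ∀ y' : ℤ × ℤ → Bool, {s | y s ≠ y' s}.Finite →
    {p : (ℤ × ℤ) × ℕ | TR y p.1 p.2 ≠ TR y' p.1 p.2}.Finite

open CaAttr

theorem local_step : Local step := by
  intro y y' s h
  unfold step
  rw [h s (by simp) (by simp), h (s.1 + 1, s.2) (by simp) (by simp),
    h (s.1, s.2 + 1) (by simp) (by simp)]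

theorem maj_true {a b c : Bool} (h : maj a b c = true) :
    (a = true ∧ b = true) ∨ (a = true ∧ c = true) ∨ (b = true ∧ c = true) := by
  revert h
  cases a <;> cases b <;> cases c <;> simp [maj]

theorem bound_true (L : ℕ) (y : ℤ × ℤ → Bool) (hy : ∀ s, L < rad s → y s = false) :
    ∀ n s, (step^[n] y) s = true →
      -(L : ℤ) ≤ s.1 ∧ -(L : ℤ) ≤ s.2 ∧ s.1 + s.2 ≤ 2 * L - n := by
  intro n
  induction n with
  | zero =>
    intro s hs
    have h1 : rad s ≤ L := by
      by_contra h
      push Not at h
      have := hy s h
      rw [Function.iterate_zero, id] at hs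
      rw [this] at hs
      exact absurd hs (by simp)
    unfold rad at h1
    push_cast
    omega
  | succ n ih =>
    intro s hs
    rw [Function.iterate_succ', Function.comp] at hs
    rcases maj_true hs with ⟨h1, h2⟩ | ⟨h1, h2⟩ | ⟨h1, h2⟩
    · have h3 := ih _ h1
      have h4 := ih _ h2
      push_cast
      simp only at h4
      omega
    · have h3 := ih _ h1
      have h4 := ih _ h2
      push_cast
      simp only at h4
      omega
    · have h3 := ih _ h1
      have h4 := ih _ h2
      push_cast
      simp only at h3 h4
      omega

theorem erodes_false : Erodes step (fun L => 4 * L + 1) false := by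
  intro L y hy n hn s
  by_contra h
  have h' : (step^[n] y) s = true := by
    cases h2 : (step^[n] y) s
    · exact absurd h2 h
    · rfl
  have := bound_true L y hy n s h'
  simp only at hn
  omega

theorem maj_not (a b c : Bool) : maj (!a) (!b) (!c) = !(maj a b c) := by
  cases a <;> cases b <;> cases c <;> rfl

theorem step_not (y : ℤ × ℤ → Bool) : step (fun s => !(y s)) = fun s => !(step y s) := by
  funext s
  unfold step
  exact maj_not _ _ _

theorem iterate_not (y : ℤ × ℤ → Bool) (n : ℕ) :
    step^[n] (fun s => !(y s)) = fun s => !((step^[n] y) s) := by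
  induction n with
  | zero => rfl
  | succ n ih =>
    rw [Function.iterate_succ', Function.comp, ih, step_not, Function.comp]

theorem erodes_true : Erodes step (fun L => 4 * L + 1) true := by
  intro L y hy n hn s
  have h1 := erodes_false L (fun s => !(y s)) (fun s hs => by rw [hy s hs]; rfl) n hn s
  rw [iterate_not] at h1
  simpa using h1

end Pool.Agent.V11325.Nec
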