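import Mathlib

/-!
# Chase-escape with conversion on the square lattice: definitions
-/

namespace Pool.Agent.V11325.Chase

/-- The vertices of the square lattice. -/
abbrev V : Type := ℤ × ℤ

/-- The four nearest neighbours of a vertex. -/
def nb (x : V) : Finset V := {(x.1 + 1, x.2), (x.1 - 1, x.2), (x.1, x.2 + 1), (x.1, x.2 - 1)}

/-- A state with finitely many non-white vertices: the pair (set of red vertices, set of blue
vertices); all the other vertices are white. -/
abbrev State : Type := Finset V × Finset V

/-- The total rate of all the transitions out of `s`. For each red `x` these are: each white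
neighbour turns red at rate `lam` (through `x`), and `x` turns blue at rate `al` (conversion) plus
the number of its blue neighbours (predation). -/
noncomputable def total (lam al : ℝ) (s : State) : ℝ :=
  ∑ x ∈ s.1, (lam * ((nb x \ (s.1 ∪ s.2)).card : ℝ) + (al + ((nb x ∩ s.2).card : ℝ)))

/-- The sum over all the transitions out of `s` of (rate) × (value of `f` at the new state). -/
noncomputable def flow (lam al : ℝ) (f : State → ℝ) (s : State) : ℝ :=
  ∑ x ∈ s.1, (lam * ∑ y ∈ nb x \ (s.1 ∪ s.2), f (insert y s.1, s.2) +
    (al + ((nb x ∩ s.2).card : ℝ)) * f (s.1.erase x, insert x s.2))

/-- `fixedBy lam al n s` is the probability that chase-escape with conversion with parameters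
`lam`, `al`, started from `s`, fixates after at most `n` jumps (from a state with positive total
rate the process jumps to each possible new state with probability rate / total rate). -/
noncomputable def fixedBy (lam al : ℝ) : ℕ → State → ℝ
  | 0, s => if total lam al s = 0 then 1 else 0
  | n + 1, s => if total lam al s = 0 then 1 else flow lam al (fixedBy lam al n) s / total lam al s

/-- The initial state: the origin is red, every other vertex is white. -/
def s₀ : State := ({(0, 0)}, ∅)

/-- `P_{lam,al}(X < ∞)`: the probability that the process started from `s₀` ever fixates. -/
noncomputable def probFinite (lam al : ℝ) : ℝ := ⨆ n, fixedBy lam al n s₀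

/-- The critical value `λ_c(al) = sup {lam > 0 : P_{lam,al}(X < ∞) = 1}`. -/
noncomputable def lamC (al : ℝ) : ℝ := sSup {lam | 0 < lam ∧ probFinite lam al = 1}

end Pool.Agent.V11325.Chase
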