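import Pool.Agent.V11325.ChaseModel

/-!
# The process without predation: the abelian recursion for the law of the final size
-/

open Finset

namespace Pool.Agent.V11325.Chase

/-- white neighbours -/
def wn (x : V) (R B : Finset V) : Finset V := nb x \ (R ∪ B)

theorem mem_wn {x y : V} {R B : Finset V} : y ∈ wn x R B ↔ y ∈ nb x ∧ y ∉ R ∧ y ∉ B := by
  unfold wn
  rw [mem_sdiff, mem_union, not_or]

theorem union_insert_card {y : V} {R B : Finset V} (h : y ∉ R ∪ B) :
    (insert y R ∪ B).card = (R ∪ B).card + 1 := by
  rw [insert_union, card_insert_of_notMem h]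

theorem union_erase_insert {x : V} {R B : Finset V} (h : x ∈ R) :
    R.erase x ∪ insert x B = R ∪ B := by
  ext z
  simp only [mem_union, mem_erase, mem_insert]
  constructor
  · rintro (⟨_, h1⟩ | h1 | h1)
    · exact Or.inl h1
    · exact Or.inl (h1 ▸ h)
    · exact Or.inr h1
  · rintro (h1 | h1)
    · by_cases hz : z = x
      · exact Or.inr (Or.inl hz)
      · exact Or.inl ⟨hz, h1⟩
    · exact Or.inr (Or.inr h1)

/-- The probability that the process without predation started from `(R, B)` ends with at most `m`
non-white vertices. -/
noncomputable def u (lam al : ℝ) (m : ℕ) (R B : Finset V) : ℝ :=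
  if h1 : m < (R ∪ B).card then 0
  else if h2 : R.Nonempty then
    (lam * ∑ y ∈ (wn h2.choose R B).attach, u lam al m (insert y.1 R) B +
      al * u lam al m (R.erase h2.choose) (insert h2.choose B)) /
      (lam * ((wn h2.choose R B).card : ℝ) + al)
  else 1
termination_by 2 * (m + 1 - (R ∪ B).card) + R.card
decreasing_by
  · have hy := mem_wn.1 y.2
    have h3 : y.1 ∉ R ∪ B := by
      rw [mem_union, not_or]
      exact hy.2
    have h4 := union_insert_card h3
    have h5 : (insert y.1 R).card = R.card + 1 := card_insert_of_notMem hy.2.1
    omega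
  · have h3 := h2.choose_spec
    have h4 : (R.erase h2.choose ∪ insert h2.choose B).card = (R ∪ B).card := by
      rw [union_erase_insert h3]
    have h5 := card_erase_lt_of_mem h3
    omega

variable {lam al : ℝ} {m : ℕ}

theorem u_big {R B : Finset V} (h : m < (R ∪ B).card) : u lam al m R B = 0 := by
  rw [u, dif_pos h]

theorem u_empty {B : Finset V} (h : B.card ≤ m) : u lam al m ∅ B = 1 := by
  rw [u, dif_neg (by rw [empty_union]; omega), dif_neg Finset.not_nonempty_empty]

theorem u_choose {R B : Finset V} (h : (R ∪ B).card ≤ m) (h2 : R.Nonempty) (hal : 0 < al)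
    (hlam : 0 ≤ lam) :
    (lam * ((wn h2.choose R B).card : ℝ) + al) * u lam al m R B =
      lam * ∑ y ∈ wn h2.choose R B, u lam al m (insert y R) B +
        al * u lam al m (R.erase h2.choose) (insert h2.choose B) := by
  rw [u, dif_neg (by omega), dif_pos h2]
  have h3 : lam * ((wn h2.choose R B).card : ℝ) + al ≠ 0 := by positivity
  rw [mul_div_cancel₀ _ h3, Finset.sum_attach (wn h2.choose R B)
    (fun y => u lam al m (insert y R) B)]

/-- the measure of a state -/
def meas (m : ℕ) (R B : Finset V) : ℕ := 2 * (m + 1 - (R ∪ B).card) + R.card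

theorem meas_insert {y : V} {R B : Finset V} (h : (R ∪ B).card ≤ m) (hR : y ∉ R) (hB : y ∉ B) :
    meas m (insert y R) B < meas m R B := by
  unfold meas
  have h3 : y ∉ R ∪ B := by
    rw [mem_union, not_or]
    exact ⟨hR, hB⟩
  have h4 := union_insert_card h3
  have h5 : (insert y R).card = R.card + 1 := card_insert_of_notMem hR
  omega

theorem meas_erase {x : V} {R B : Finset V} (hx : x ∈ R) :
    meas m (R.erase x) (insert x B) < meas m R B := by
  unfold meas
  rw [union_erase_insert hx]
  have h5 := card_erase_lt_of_mem hx
  omega

theorem wn_insert {x y : V} {R B : Finset V} : wn x (insert y R) B = (wn x R B).erase y := by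
  ext z
  rw [mem_erase, mem_wn, mem_wn, mem_insert, not_or]
  tauto

theorem wn_erase {x x' : V} {R B : Finset V} (hx : x ∈ R) :
    wn x' (R.erase x) (insert x B) = wn x' R B := by
  unfold wn
  rw [union_erase_insert hx]

/-- rewriting the one-vertex equation at `s + y` with the white neighbours of `s` -/
theorem shift_eq {x y : V} {R B : Finset V}
    (h : (lam * ((wn x (insert y R) B).card : ℝ) + al) * u lam al m (insert y R) B =
      lam * ∑ z ∈ wn x (insert y R) B, u lam al m (insert z (insert y R)) B +
        al * u lam al m ((insert y R).erase x) (insert x B)) :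
    (lam * ((wn x R B).card : ℝ) + al) * u lam al m (insert y R) B =
      lam * ∑ z ∈ wn x R B, u lam al m (insert z (insert y R)) B +
        al * u lam al m ((insert y R).erase x) (insert x B) := by
  by_cases hy : y ∈ wn x R B
  · rw [wn_insert] at h
    have h1 : ((wn x R B).card : ℝ) = (((wn x R B).erase y).card : ℝ) + 1 := by
      have := card_erase_add_one hy
      exact_mod_cast this.symm
    rw [h1, ← Finset.add_sum_erase _ _ hy, insert_idem]
    linarith
  · rw [wn_insert, erase_eq_of_notMem hy] at h
    exact h

/-- **Abelian property.** The equation obtained by letting an arbitrary red vertex act. -/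
theorem u_harm (hal : 0 < al) (hlam : 0 ≤ lam) : ∀ (k : ℕ) (R B : Finset V), meas m R B = k →
    ∀ x ∈ R, (lam * ((wn x R B).card : ℝ) + al) * u lam al m R B =
      lam * ∑ y ∈ wn x R B, u lam al m (insert y R) B +
        al * u lam al m (R.erase x) (insert x B) := by
  intro k
  induction k using Nat.strong_induction_on with
  | _ k ih =>
    intro R B hk x' hx'
    by_cases hbig : m < (R ∪ B).card
    · rw [u_big hbig, mul_zero]
      have h1 : ∀ y ∈ wn x' R B, u lam al m (insert y R) B = 0 := by
        intro y hy
        apply u_big
        have hy' := mem_wn.1 hy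
        rw [union_insert_card (by rw [mem_union, not_or]; exact hy'.2)]
        omega
      rw [Finset.sum_eq_zero h1, u_big (by rw [union_erase_insert hx']; exact hbig)]
      ring
    · push Not at hbig
      have hne : R.Nonempty := ⟨x', hx'⟩
      set x := hne.choose with hxdef
      have hx : x ∈ R := hne.choose_spec
      have hch := u_choose hbig hne hal hlam
      rw [← hxdef] at hch
      by_cases hxx : x = x'
      · rw [← hxx]; exact hch
      -- the two-step equations
      have h1 : ∀ y ∈ wn x R B, (lam * ((wn x' R B).card : ℝ) + al) * u lam al m (insert y R) B =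
          lam * ∑ z ∈ wn x' R B, u lam al m (insert z (insert y R)) B +
            al * u lam al m ((insert y R).erase x') (insert x' B) := by
        intro y hy
        have hy' := mem_wn.1 hy
        exact shift_eq (ih _ (hk ▸ meas_insert hbig hy'.2.1 hy'.2.2) _ _ rfl x'
          (mem_insert_of_mem hx'))
      have h2 : ∀ y ∈ wn x' R B, (lam * ((wn x R B).card : ℝ) + al) * u lam al m (insert y R) B =
          lam * ∑ z ∈ wn x R B, u lam al m (insert z (insert y R)) B +
            al * u lam al m ((insert y R).erase x) (insert x B) := by
        intro y hy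
        have hy' := mem_wn.1 hy
        exact shift_eq (ih _ (hk ▸ meas_insert hbig hy'.2.1 hy'.2.2) _ _ rfl x
          (mem_insert_of_mem hx))
      have h3 : (lam * ((wn x' R B).card : ℝ) + al) * u lam al m (R.erase x) (insert x B) =
          lam * ∑ z ∈ wn x' R B, u lam al m (insert z (R.erase x)) (insert x B) +
            al * u lam al m ((R.erase x).erase x') (insert x' (insert x B)) := by
        have := ih _ (hk ▸ meas_erase (m := m) (B := B) hx) (R.erase x) (insert x B) rfl x'
          (mem_erase.2 ⟨fun h => hxx h.symm, hx'⟩)
        rwa [wn_erase hx] at this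
      have h4 : (lam * ((wn x R B).card : ℝ) + al) * u lam al m (R.erase x') (insert x' B) =
          lam * ∑ z ∈ wn x R B, u lam al m (insert z (R.erase x')) (insert x' B) +
            al * u lam al m ((R.erase x').erase x) (insert x (insert x' B)) := by
        have := ih _ (hk ▸ meas_erase (m := m) (B := B) hx') (R.erase x') (insert x' B) rfl x
          (mem_erase.2 ⟨hxx, hx⟩)
        rwa [wn_erase hx'] at this
      have hpos : 0 < lam * ((wn x R B).card : ℝ) + al := by positivity
      apply mul_left_cancel₀ hpos.ne'
      -- left side
      have hL : (lam * ((wn x R B).card : ℝ) + al) *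
          ((lam * ((wn x' R B).card : ℝ) + al) * u lam al m R B) =
          lam * ∑ y ∈ wn x R B, (lam * ∑ z ∈ wn x' R B, u lam al m (insert z (insert y R)) B +
            al * u lam al m ((insert y R).erase x') (insert x' B)) +
          al * (lam * ∑ z ∈ wn x' R B, u lam al m (insert z (R.erase x)) (insert x B) +
            al * u lam al m ((R.erase x).erase x') (insert x' (insert x B))) := by
        rw [← h3, ← Finset.sum_congr rfl h1, ← Finset.mul_sum]
        linear_combination (lam * ((wn x' R B).card : ℝ) + al) * hch
      have hR : (lam * ((wn x R B).card : ℝ) + al) *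
          (lam * ∑ y ∈ wn x' R B, u lam al m (insert y R) B +
            al * u lam al m (R.erase x') (insert x' B)) =
          lam * ∑ y ∈ wn x' R B, (lam * ∑ z ∈ wn x R B, u lam al m (insert z (insert y R)) B +
            al * u lam al m ((insert y R).erase x) (insert x B)) +
          al * (lam * ∑ z ∈ wn x R B, u lam al m (insert z (R.erase x')) (insert x' B) +
            al * u lam al m ((R.erase x').erase x) (insert x (insert x' B))) := by
        rw [← h4, ← Finset.sum_congr rfl h2, ← Finset.mul_sum]
        ring
      rw [hL, hR]
      simp only [Finset.sum_add_distrib, ← Finset.mul_sum]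
      have e1 : ∑ y ∈ wn x R B, ∑ z ∈ wn x' R B, u lam al m (insert z (insert y R)) B =
          ∑ y ∈ wn x' R B, ∑ z ∈ wn x R B, u lam al m (insert z (insert y R)) B := by
        rw [Finset.sum_comm]
        refine Finset.sum_congr rfl fun y _ => Finset.sum_congr rfl fun z _ => ?_
        rw [Finset.insert_comm]
      have e2 : ∑ y ∈ wn x R B, u lam al m ((insert y R).erase x') (insert x' B) =
          ∑ z ∈ wn x R B, u lam al m (insert z (R.erase x')) (insert x' B) := by
        refine Finset.sum_congr rfl fun y hy => ?_
        have hy' := mem_wn.1 hy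
        have hne : y ≠ x' := by
          rintro rfl
          exact hy'.2.1 hx'
        rw [Finset.erase_insert_of_ne hne]
      have e3 : ∑ y ∈ wn x' R B, u lam al m ((insert y R).erase x) (insert x B) =
          ∑ z ∈ wn x' R B, u lam al m (insert z (R.erase x)) (insert x B) := by
        refine Finset.sum_congr rfl fun y hy => ?_
        have hy' := mem_wn.1 hy
        have hne : y ≠ x := by
          rintro rfl
          exact hy'.2.1 hx
        rw [Finset.erase_insert_of_ne hne]
      rw [e1, e2, e3, Finset.erase_right_comm, Finset.insert_comm x' x B]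
      ring

theorem harm (hal : 0 < al) (hlam : 0 ≤ lam) {R B : Finset V} {x : V} (hx : x ∈ R) :
    (lam * ((wn x R B).card : ℝ) + al) * u lam al m R B =
      lam * ∑ y ∈ wn x R B, u lam al m (insert y R) B +
        al * u lam al m (R.erase x) (insert x B) := u_harm hal hlam _ R B rfl x hx

/-- bounds -/
theorem u_bounds (hal : 0 < al) (hlam : 0 ≤ lam) : ∀ (k : ℕ) (R B : Finset V), meas m R B = k →
    0 ≤ u lam al m R B ∧ u lam al m R B ≤ 1 := by
  intro k
  induction k using Nat.strong_induction_on with
  | _ k ih =>
    intro R B hk
    by_cases hbig : m < (R ∪ B).card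
    · rw [u_big hbig]
      norm_num
    · push Not at hbig
      rcases R.eq_empty_or_nonempty with hR | hR
      · subst hR
        rw [empty_union] at hbig
        rw [u_empty hbig]
        norm_num
      · obtain ⟨x, hx⟩ := hR
        have h := harm (m := m) hal hlam (B := B) hx
        have hpos : 0 < lam * ((wn x R B).card : ℝ) + al := by positivity
        have h1 : ∀ y ∈ wn x R B, 0 ≤ u lam al m (insert y R) B ∧
            u lam al m (insert y R) B ≤ 1 := by
          intro y hy
          have hy' := mem_wn.1 hy
          exact ih _ (hk ▸ meas_insert hbig hy'.2.1 hy'.2.2) _ _ rfl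
        have h2 := ih _ (hk ▸ meas_erase (m := m) (B := B) hx) (R.erase x) (insert x B) rfl
        have h3 : 0 ≤ ∑ y ∈ wn x R B, u lam al m (insert y R) B :=
          Finset.sum_nonneg fun y hy => (h1 y hy).1
        have h4 : ∑ y ∈ wn x R B, u lam al m (insert y R) B ≤ ((wn x R B).card : ℝ) := by
          calc ∑ y ∈ wn x R B, u lam al m (insert y R) B ≤ ∑ _y ∈ wn x R B, (1 : ℝ) :=
                Finset.sum_le_sum fun y hy => (h1 y hy).2
            _ = _ := by simp
        constructor
        · by_contra hneg
          push Not at hneg
          have h5 : (lam * ((wn x R B).card : ℝ) + al) * u lam al m R B < 0 :=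
            mul_neg_of_pos_of_neg hpos hneg
          have h6 : 0 ≤ lam * ∑ y ∈ wn x R B, u lam al m (insert y R) B +
              al * u lam al m (R.erase x) (insert x B) :=
            add_nonneg (mul_nonneg hlam h3) (mul_nonneg hal.le h2.1)
          linarith
        · have h5 : (lam * ((wn x R B).card : ℝ) + al) * u lam al m R B ≤
              (lam * ((wn x R B).card : ℝ) + al) * 1 := by
            rw [h, mul_one]
            exact add_le_add (mul_le_mul_of_nonneg_left h4 hlam)
              (by nlinarith [h2.2])
          exact le_of_mul_le_mul_left h5 hpos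

theorem u_nonneg (hal : 0 < al) (hlam : 0 ≤ lam) (R B : Finset V) : 0 ≤ u lam al m R B :=
  (u_bounds hal hlam _ R B rfl).1

theorem u_le_one (hal : 0 < al) (hlam : 0 ≤ lam) (R B : Finset V) : u lam al m R B ≤ 1 :=
  (u_bounds hal hlam _ R B rfl).2

/-- adding a red vertex decreases `u` -/
theorem u_insert_le (hal : 0 < al) (hlam : 0 ≤ lam) : ∀ (k : ℕ) (R B : Finset V),
    meas m R B = k → ∀ y, y ∉ R → y ∉ B → u lam al m (insert y R) B ≤ u lam al m R B := by
  intro k
  induction k using Nat.strong_induction_on with
  | _ k ih =>
    intro R B hk y hyR hyB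
    have hyU : y ∉ R ∪ B := by
      rw [mem_union, not_or]
      exact ⟨hyR, hyB⟩
    by_cases hbig : m ≤ (R ∪ B).card
    · rw [u_big (by rw [union_insert_card hyU]; omega)]
      exact u_nonneg hal hlam R B
    · push Not at hbig
      rcases R.eq_empty_or_nonempty with hR | hR
      · subst hR
        rw [empty_union] at hbig
        rw [u_empty hbig.le]
        exact u_le_one hal hlam _ _
      · obtain ⟨x, hx⟩ := hR
        have hxy : x ≠ y := fun h => hyR (h ▸ hx)
        have hpos : 0 < lam * ((wn x R B).card : ℝ) + al := by positivity
        refine le_of_mul_le_mul_left ?_ hpos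
        rw [shift_eq (harm (m := m) hal hlam (B := B) (mem_insert_of_mem hx)),
          harm (m := m) hal hlam (B := B) hx]
        have h1 : ∑ z ∈ wn x R B, u lam al m (insert z (insert y R)) B ≤
            ∑ z ∈ wn x R B, u lam al m (insert z R) B := by
          refine Finset.sum_le_sum fun z hz => ?_
          have hz' := mem_wn.1 hz
          by_cases hzy : z = y
          · rw [hzy, insert_idem]
          · rw [Finset.insert_comm]
            exact ih _ (hk ▸ meas_insert hbig.le hz'.2.1 hz'.2.2) _ _ rfl y
              (by rw [mem_insert, not_or]; exact ⟨fun h => hzy h.symm, hyR⟩) hyB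
        have h2 : u lam al m ((insert y R).erase x) (insert x B) ≤
            u lam al m (R.erase x) (insert x B) := by
          rw [Finset.erase_insert_of_ne hxy.symm]
          exact ih _ (hk ▸ meas_erase (m := m) (B := B) hx) _ _ rfl y
            (fun h => hyR (mem_of_mem_erase h))
            (by rw [mem_insert, not_or]; exact ⟨hxy.symm, hyB⟩)
        exact add_le_add (mul_le_mul_of_nonneg_left h1 hlam)
          (mul_le_mul_of_nonneg_left h2 hal.le)

theorem insert_le (hal : 0 < al) (hlam : 0 ≤ lam) {R B : Finset V} {y : V} (hR : y ∉ R)
    (hB : y ∉ B) : u lam al m (insert y R) B ≤ u lam al m R B :=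
  u_insert_le hal hlam _ R B rfl y hR hB

/-- removing a red vertex increases `u` -/
theorem le_erase (hal : 0 < al) (hlam : 0 ≤ lam) {R B : Finset V} {x : V} (hx : x ∈ R) :
    u lam al m R B ≤ u lam al m (R.erase x) (insert x B) := by
  have h := harm (m := m) hal hlam (B := B) hx
  have h1 : ∑ y ∈ wn x R B, u lam al m (insert y R) B ≤
      ((wn x R B).card : ℝ) * u lam al m R B := by
    calc ∑ y ∈ wn x R B, u lam al m (insert y R) B ≤ ∑ _y ∈ wn x R B, u lam al m R B := by
          refine Finset.sum_le_sum fun y hy => ?_
          have hy' := mem_wn.1 hy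
          exact insert_le hal hlam hy'.2.1 hy'.2.2
      _ = _ := by rw [sum_const, nsmul_eq_mul]
  have h2 : al * u lam al m R B ≤ al * u lam al m (R.erase x) (insert x B) := by
    have := mul_le_mul_of_nonneg_left h1 hlam
    nlinarith
  exact le_of_mul_le_mul_left h2 hal

end Pool.Agent.V11325.Chase
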