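import Mathlib

/-!
# Finite continuous-time Markov chains: the matrix exponential of a generator
-/

open Filter Topology Matrix

namespace Pool.Agent.V11325.Ctmc

variable {S : Type} [Fintype S] [DecidableEq S]

/-- The transition function `exp (t Q)` of the chain with generator `Q`. -/
noncomputable def expQ (Q : Matrix S S ℝ) (t : ℝ) : Matrix S S ℝ := NormedSpace.exp (t • Q)

section
open scoped Matrix.Norms.Operator

theorem hasDerivAt_expQ (Q : Matrix S S ℝ) (t : ℝ) :
    HasDerivAt (expQ Q) (expQ Q t * Q) t := hasDerivAt_exp_smul_const (𝕂 := ℝ) Q t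

theorem hasDerivAt_expQ' (Q : Matrix S S ℝ) (t : ℝ) :
    HasDerivAt (expQ Q) (Q * expQ Q t) t := hasDerivAt_exp_smul_const' (𝕂 := ℝ) Q t

theorem hasDerivAt_mulVec_aux {F : ℝ → Matrix S S ℝ} {F' : Matrix S S ℝ} {t : ℝ}
    (h : HasDerivAt F F' t) (f : S → ℝ) (x : S) :
    HasDerivAt (fun u => (F u *ᵥ f) x) ((F' *ᵥ f) x) t := by
  let L : Matrix S S ℝ →ₗ[ℝ] ℝ :=
    { toFun := fun M => (M *ᵥ f) x
      map_add' := fun M N => by rw [Matrix.add_mulVec]; rfl
      map_smul' := fun c M => by rw [Matrix.smul_mulVec]; rfl }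
  have h1 := L.toContinuousLinearMap.hasFDerivAt.comp_hasDerivAt t h
  exact h1

end

theorem expQ_zero (Q : Matrix S S ℝ) : expQ Q 0 = 1 := by
  unfold expQ
  rw [zero_smul, NormedSpace.exp_zero]

/-- backward equation -/
theorem hasDerivAt_back (Q : Matrix S S ℝ) (f : S → ℝ) (x : S) (t : ℝ) :
    HasDerivAt (fun u => (expQ Q u *ᵥ f) x) (∑ y, Q x y * (expQ Q t *ᵥ f) y) t := by
  have h1 := hasDerivAt_mulVec_aux (hasDerivAt_expQ' Q t) f x
  rw [← Matrix.mulVec_mulVec] at h1
  exact h1

/-- forward equation -/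
theorem hasDerivAt_forw (Q : Matrix S S ℝ) (f : S → ℝ) (x : S) (t : ℝ) :
    HasDerivAt (fun u => (expQ Q u *ᵥ f) x) ((expQ Q t *ᵥ (Q *ᵥ f)) x) t := by
  have h1 := hasDerivAt_mulVec_aux (hasDerivAt_expQ Q t) f x
  rw [← Matrix.mulVec_mulVec] at h1
  exact h1

/-- A scalar linear equation with vanishing forcing. -/
theorem ode_tendsto {u r : ℝ → ℝ} {q : ℝ} (hq : 0 < q)
    (hu : ∀ t, HasDerivAt u (-q * u t + r t) t) (hr : Tendsto r atTop (𝓝 0)) :
    Tendsto u atTop (𝓝 0) := by
  -- one-sided estimate
  have key : ∀ (u r : ℝ → ℝ), (∀ t, HasDerivAt u (-q * u t + r t) t) → Tendsto r atTop (𝓝 0) →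
      ∀ ε > 0, ∀ᶠ t in atTop, u t < ε := by
    intro u r hu hr ε hε
    have h1 : ∀ᶠ t in atTop, r t < q * (ε / 2) := by
      have h2 : (0 : ℝ) < q * (ε / 2) := by positivity
      exact hr.eventually (gt_mem_nhds h2)
    obtain ⟨T, hT⟩ := eventually_atTop.1 h1
    -- `exp (q t) (u t - ε / 2)` is antitone on `[T, ∞)`
    have hd : ∀ t, HasDerivAt (fun t => Real.exp (q * t) * (u t - ε / 2))
        (Real.exp (q * t) * (r t - q * (ε / 2))) t := by
      intro t
      have h3 : HasDerivAt (fun t : ℝ => Real.exp (q * t)) (Real.exp (q * t) * q) t := by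
        have := ((hasDerivAt_id t).const_mul q).exp
        simpa using this
      have h4 := h3.mul ((hu t).sub_const (ε / 2))
      refine h4.congr_deriv ?_
      ring
    have hanti : AntitoneOn (fun t => Real.exp (q * t) * (u t - ε / 2)) (Set.Ici T) := by
      apply antitoneOn_of_deriv_nonpos (convex_Ici T)
      · exact fun t _ => (hd t).continuousAt.continuousWithinAt
      · exact fun t _ => (hd t).differentiableAt.differentiableWithinAt
      · intro t ht
        rw [interior_Ici] at ht
        rw [(hd t).deriv]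
        have h5 := hT t ht.le
        have h6 := Real.exp_pos (q * t)
        nlinarith
    have h7 : ∀ t, T ≤ t → u t ≤ ε / 2 + Real.exp (q * T) * |u T - ε / 2| * Real.exp (-(q * t)) := by
      intro t ht
      have h8 : Real.exp (q * t) * (u t - ε / 2) ≤ Real.exp (q * T) * (u T - ε / 2) :=
        hanti (Set.mem_Ici.2 le_rfl) (Set.mem_Ici.2 ht) ht
      have h9 : Real.exp (q * T) * (u T - ε / 2) ≤ Real.exp (q * T) * |u T - ε / 2| :=
        mul_le_mul_of_nonneg_left (le_abs_self _) (Real.exp_pos _).le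
      have h10 : u t - ε / 2 = Real.exp (-(q * t)) * (Real.exp (q * t) * (u t - ε / 2)) := by
        rw [← mul_assoc, ← Real.exp_add, neg_add_cancel, Real.exp_zero, one_mul]
      have h11 : Real.exp (-(q * t)) * (Real.exp (q * t) * (u t - ε / 2)) ≤
          Real.exp (-(q * t)) * (Real.exp (q * T) * |u T - ε / 2|) :=
        mul_le_mul_of_nonneg_left (h8.trans h9) (Real.exp_pos _).le
      linarith
    have h12 : Tendsto (fun t : ℝ => ε / 2 + Real.exp (q * T) * |u T - ε / 2| *
        Real.exp (-(q * t))) atTop (𝓝 (ε / 2 + Real.exp (q * T) * |u T - ε / 2| * 0)) := by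
      refine (Tendsto.const_mul _ ?_).const_add _
      exact Real.tendsto_exp_neg_atTop_nhds_zero.comp (tendsto_id.const_mul_atTop hq)
    have h13 : ε / 2 + Real.exp (q * T) * |u T - ε / 2| * 0 < ε := by
      rw [mul_zero, add_zero]
      linarith
    filter_upwards [h12.eventually (gt_mem_nhds h13), eventually_ge_atTop T] with t h14 h15
    exact (h7 t h15).trans_lt h14
  have hneg : ∀ t, HasDerivAt (fun t => -u t) (-q * (-u t) + (-r t)) t := by
    intro t
    refine (hu t).neg.congr_deriv ?_
    ring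
  have hrneg : Tendsto (fun t => -r t) atTop (𝓝 0) := by
    have := hr.neg
    rwa [neg_zero] at this
  rw [Metric.tendsto_nhds]
  intro ε hε
  filter_upwards [key u r hu hr ε hε, key _ _ hneg hrneg ε hε] with t h1 h2
  rw [Real.dist_eq, sub_zero, abs_lt]
  exact ⟨by linarith, h1⟩

/-- **Absorption.** Let the chain with generator `Q` jump only to states of smaller rank. If `R` is
closed under jumps and `h` is harmonic on `R`, equal to `f` at the absorbing states of `R`, then
`E_x f(X_t) → h x` for every `x ∈ R`. -/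
theorem absorb (Q : Matrix S S ℝ) (rk : S → ℕ) (R : Set S)
    (hrk : ∀ x ∈ R, ∀ y, y ≠ x → Q x y ≠ 0 → rk y < rk x ∧ y ∈ R)
    (hQ : ∀ x ∈ R, Q x x < 0 ∨ ∀ y, Q x y = 0) (f h : S → ℝ)
    (hharm : ∀ x ∈ R, ∑ y, Q x y * h y = 0)
    (habs : ∀ x ∈ R, (∀ y, Q x y = 0) → h x = f x) :
    ∀ x ∈ R, Tendsto (fun t => (expQ Q t *ᵥ f) x) atTop (𝓝 (h x)) := by
  intro x
  induction hn : rk x using Nat.strong_induction_on generalizing x with
  | _ n ih =>
    intro hx
    rcases hQ x hx with hneg | hzero
    · have hu : ∀ t, HasDerivAt (fun t => (expQ Q t *ᵥ f) x - h x)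
          (-(-Q x x) * ((expQ Q t *ᵥ f) x - h x) +
            ∑ y ∈ Finset.univ.erase x, Q x y * ((expQ Q t *ᵥ f) y - h y)) t := by
        intro t
        refine ((hasDerivAt_back Q f x t).sub_const (h x)).congr_deriv ?_
        have h1 := hharm x hx
        have h2 : ∑ y, Q x y * (expQ Q t *ᵥ f) y =
            ∑ y, Q x y * ((expQ Q t *ᵥ f) y - h y) := by
          have h3 : ∑ y, Q x y * ((expQ Q t *ᵥ f) y - h y) =
              ∑ y, Q x y * (expQ Q t *ᵥ f) y - ∑ y, Q x y * h y := by
            rw [← Finset.sum_sub_distrib]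
            exact Finset.sum_congr rfl fun y _ => by ring
          rw [h3, h1, sub_zero]
        rw [h2, ← Finset.add_sum_erase _ _ (Finset.mem_univ x)]
        ring
      have hr : Tendsto (fun t => ∑ y ∈ Finset.univ.erase x,
          Q x y * ((expQ Q t *ᵥ f) y - h y)) atTop (𝓝 0) := by
        have h4 : Tendsto (fun t => ∑ y ∈ Finset.univ.erase x,
            Q x y * ((expQ Q t *ᵥ f) y - h y)) atTop
            (𝓝 (∑ y ∈ Finset.univ.erase x, (0 : ℝ))) := by
          apply tendsto_finsetSum
          intro y hy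
          by_cases hxy : Q x y = 0
          · simp only [hxy, zero_mul]
            exact tendsto_const_nhds
          · obtain ⟨h5, h6⟩ := hrk x hx y (Finset.ne_of_mem_erase hy) hxy
            have h7 := ih (rk y) (by omega) y rfl h6
            have h8 := (h7.sub_const (h y)).const_mul (Q x y)
            rwa [sub_self, mul_zero] at h8
        rwa [Finset.sum_const_zero] at h4
      have h9 := ode_tendsto (by linarith : 0 < -Q x x) hu hr
      have h10 := h9.add_const (h x)
      simp only [sub_add_cancel, zero_add] at h10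
      exact h10
    · have hconst : ∀ t, (expQ Q t *ᵥ f) x = (expQ Q 0 *ᵥ f) x := by
        intro t
        have hd : ∀ t, HasDerivAt (fun t => (expQ Q t *ᵥ f) x) 0 t := by
          intro t
          refine (hasDerivAt_back Q f x t).congr_deriv ?_
          exact Finset.sum_eq_zero fun y _ => by rw [hzero y, zero_mul]
        exact is_const_of_deriv_eq_zero (fun t => (hd t).differentiableAt)
          (fun t => (hd t).deriv) t 0
      have h1 : (expQ Q 0 *ᵥ f) x = h x := by
        rw [expQ_zero, Matrix.one_mulVec, habs x hx hzero]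
      simp only [hconst, h1]
      exact tendsto_const_nhds

end Pool.Agent.V11325.Ctmc
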