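import Pool.Agent.V11325.Ctmc

/-!
# Positivity of the transition function, and a growth bound
-/

open Filter Topology Matrix

namespace Pool.Agent.V11325.Ctmc

variable {S : Type} [Fintype S] [DecidableEq S]

section
open scoped Matrix.Norms.Operator

theorem exp_nonneg_of_nonneg {A : Matrix S S ℝ} (hA : ∀ x y, 0 ≤ A x y) (x y : S) :
    0 ≤ NormedSpace.exp A x y := by
  have h1 := NormedSpace.exp_series_hasSum_exp' (𝕂 := ℝ) A
  have h2 : HasSum (fun n : ℕ => ((n.factorial : ℝ)⁻¹ • A ^ n) x y) (NormedSpace.exp A x y) := by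
    have h3 := (Pi.hasSum.1 h1) x
    exact (Pi.hasSum.1 h3) y
  have hpow : ∀ n : ℕ, ∀ x y, 0 ≤ (A ^ n) x y := by
    intro n
    induction n with
    | zero =>
      intro x y
      rw [pow_zero, Matrix.one_apply]
      split_ifs <;> norm_num
    | succ n ih =>
      intro x y
      rw [pow_succ, Matrix.mul_apply]
      exact Finset.sum_nonneg fun z _ => mul_nonneg (ih x z) (hA z y)
  refine h2.nonneg fun n => ?_
  rw [Matrix.smul_apply, smul_eq_mul]
  exact mul_nonneg (by positivity) (hpow n x y)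

end

theorem expQ_nonneg {Q : Matrix S S ℝ} (hQ : ∀ x y, x ≠ y → 0 ≤ Q x y) {t : ℝ} (ht : 0 ≤ t)
    (x y : S) : 0 ≤ expQ Q t x y := by
  set c : ℝ := ∑ z, |Q z z| with hc
  have h1 : t • Q = t • (Q + c • (1 : Matrix S S ℝ)) + (-(t * c)) • (1 : Matrix S S ℝ) := by
    rw [smul_add, smul_smul, add_assoc, ← add_smul]
    simp
  have hcomm : Commute (t • (Q + c • (1 : Matrix S S ℝ))) ((-(t * c)) • (1 : Matrix S S ℝ)) := by
    apply Commute.smul_right
    exact Commute.one_right _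
  have h2 : NormedSpace.exp ((-(t * c)) • (1 : Matrix S S ℝ)) =
      Real.exp (-(t * c)) • (1 : Matrix S S ℝ) := by
    rw [Matrix.smul_one_eq_diagonal, Matrix.smul_one_eq_diagonal, Matrix.exp_diagonal]
    congr 1
    funext i
    rw [Real.exp_eq_exp_ℝ]
    exact Pi.coe_exp _ i
  have hE : expQ Q t = Real.exp (-(t * c)) •
      NormedSpace.exp (t • (Q + c • (1 : Matrix S S ℝ))) := by
    unfold expQ
    rw [h1, Matrix.exp_add_of_commute _ _ hcomm, h2, Matrix.mul_smul, mul_one]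
  rw [hE, Matrix.smul_apply, smul_eq_mul]
  refine mul_nonneg (Real.exp_pos _).le (exp_nonneg_of_nonneg ?_ x y)
  intro a b
  rw [Matrix.smul_apply, smul_eq_mul]
  refine mul_nonneg ht ?_
  rw [Matrix.add_apply, Matrix.smul_apply, Matrix.one_apply]
  by_cases hab : a = b
  · subst hab
    simp only [if_true, smul_eq_mul, mul_one]
    have h4 : |Q a a| ≤ c := Finset.single_le_sum (f := fun z => |Q z z|)
      (fun z _ => abs_nonneg _) (Finset.mem_univ a)
    have h5 := neg_abs_le (Q a a)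
    linarith
  · simp only [if_neg hab, smul_eq_mul, mul_zero, add_zero]
    exact hQ a b hab

theorem expQ_sum {Q : Matrix S S ℝ} (hQ : ∀ x, ∑ y, Q x y = 0) (t : ℝ) (x : S) :
    ∑ y, expQ Q t x y = 1 := by
  have h0 : ∀ u, ∑ y, expQ Q u x y = (expQ Q u *ᵥ (fun _ => (1 : ℝ))) x := by
    intro u
    simp [Matrix.mulVec, dotProduct]
  have h1 : (Q *ᵥ (fun _ => (1 : ℝ))) = 0 := by
    funext z
    simp [Matrix.mulVec, dotProduct, hQ z]
  have hd : ∀ u, HasDerivAt (fun u => (expQ Q u *ᵥ (fun _ => (1 : ℝ))) x) 0 u := by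
    intro u
    refine (hasDerivAt_forw Q (fun _ => (1 : ℝ)) x u).congr_deriv ?_
    rw [h1, Matrix.mulVec_zero]
    rfl
  have h2 := is_const_of_deriv_eq_zero (fun u => (hd u).differentiableAt)
    (fun u => (hd u).deriv) t 0
  rw [h0, h2, expQ_zero, Matrix.one_mulVec]

/-- If `Q f ≤ c` then `E_x f(X_t) ≤ f x + c t`. -/
theorem expQ_growth {Q : Matrix S S ℝ} (hoff : ∀ x y, x ≠ y → 0 ≤ Q x y)
    (hrow : ∀ x, ∑ y, Q x y = 0) (f : S → ℝ) (c : ℝ) (hf : ∀ x, ∑ y, Q x y * f y ≤ c)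
    {t : ℝ} (ht : 0 ≤ t) (x : S) :
    ∑ y, expQ Q t x y * f y ≤ f x + c * t := by
  have hd : ∀ u, HasDerivAt (fun u => (expQ Q u *ᵥ f) x - c * u)
      ((expQ Q u *ᵥ (Q *ᵥ f)) x - c) u := by
    intro u
    refine (hasDerivAt_forw Q f x u).sub ?_
    simpa using (hasDerivAt_id u).const_mul c
  have hanti : AntitoneOn (fun u => (expQ Q u *ᵥ f) x - c * u) (Set.Ici 0) := by
    apply antitoneOn_of_deriv_nonpos (convex_Ici 0)
    · exact fun u _ => (hd u).continuousAt.continuousWithinAt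
    · exact fun u _ => (hd u).differentiableAt.differentiableWithinAt
    · intro u hu
      rw [interior_Ici] at hu
      rw [(hd u).deriv]
      have h1 : (expQ Q u *ᵥ (Q *ᵥ f)) x ≤ c := by
        have h2 : (expQ Q u *ᵥ (Q *ᵥ f)) x = ∑ y, expQ Q u x y * ∑ z, Q y z * f z := rfl
        rw [h2]
        calc ∑ y, expQ Q u x y * ∑ z, Q y z * f z ≤ ∑ y, expQ Q u x y * c :=
              Finset.sum_le_sum fun y _ =>
                mul_le_mul_of_nonneg_left (hf y) (expQ_nonneg hoff (le_of_lt hu) x y)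
          _ = c := by rw [← Finset.sum_mul, expQ_sum hrow, one_mul]
      linarith
  have h3 := hanti (Set.mem_Ici.2 le_rfl) (Set.mem_Ici.2 ht) ht
  simp only [expQ_zero, Matrix.one_mulVec, mul_zero, sub_zero] at h3
  have h4 : (expQ Q t *ᵥ f) x = ∑ y, expQ Q t x y * f y := rfl
  linarith

end Pool.Agent.V11325.Ctmc
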