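import Mathlib

/-!
# Doeblin contraction for finite stochastic matrices
-/

open Filter Topology Matrix

namespace Pool.Agent.V11325.Doeblin

variable {S : Type} [Fintype S] [DecidableEq S]

/-- stochastic matrices -/
structure Stoch (P : Matrix S S ℝ) : Prop where
  nonneg : ∀ x y, 0 ≤ P x y
  sum : ∀ x, ∑ y, P x y = 1

theorem Stoch.one : Stoch (1 : Matrix S S ℝ) := by
  refine ⟨fun x y => ?_, fun x => ?_⟩
  · rw [Matrix.one_apply]
    split_ifs <;> norm_num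
  · simp [Matrix.one_apply]

theorem Stoch.mul {P Q : Matrix S S ℝ} (hP : Stoch P) (hQ : Stoch Q) : Stoch (P * Q) := by
  refine ⟨fun x y => ?_, fun x => ?_⟩
  · rw [Matrix.mul_apply]
    exact Finset.sum_nonneg fun z _ => mul_nonneg (hP.nonneg _ _) (hQ.nonneg _ _)
  · simp only [Matrix.mul_apply]
    rw [Finset.sum_comm]
    simp only [← Finset.mul_sum, hQ.sum, mul_one, hP.sum]

theorem Stoch.pow {P : Matrix S S ℝ} (hP : Stoch P) (n : ℕ) : Stoch (P ^ n) := by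
  induction n with
  | zero => rw [pow_zero]; exact Stoch.one
  | succ n ih => rw [pow_succ]; exact ih.mul hP

theorem sum_vecMul {P : Matrix S S ℝ} (hP : Stoch P) (σ : S → ℝ) :
    ∑ y, (σ ᵥ* P) y = ∑ x, σ x := by
  simp only [Matrix.vecMul, dotProduct]
  rw [Finset.sum_comm]
  simp only [← Finset.mul_sum, hP.sum, mul_one]

theorem norm_vecMul {P : Matrix S S ℝ} (hP : Stoch P) (σ : S → ℝ) :
    ∑ y, |(σ ᵥ* P) y| ≤ ∑ x, |σ x| := by
  have h1 : ∀ y, |(σ ᵥ* P) y| ≤ ∑ x, |σ x| * P x y := by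
    intro y
    simp only [Matrix.vecMul, dotProduct]
    refine (Finset.abs_sum_le_sum_abs _ _).trans (Finset.sum_le_sum fun x _ => ?_)
    rw [abs_mul, abs_of_nonneg (hP.nonneg x y)]
  refine (Finset.sum_le_sum fun y _ => h1 y).trans ?_
  rw [Finset.sum_comm]
  simp only [← Finset.mul_sum, hP.sum, mul_one]
  exact le_rfl

theorem contraction {P : Matrix S S ℝ} (hP : Stoch P) {δ : ℝ} (hδ : ∀ x y, δ ≤ P x y)
    (σ : S → ℝ) (hσ : ∑ x, σ x = 0) :
    ∑ y, |(σ ᵥ* P) y| ≤ (1 - Fintype.card S * δ) * ∑ x, |σ x| := by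
  have h1 : ∀ y, |(σ ᵥ* P) y| ≤ ∑ x, |σ x| * (P x y - δ) := by
    intro y
    have h2 : (σ ᵥ* P) y = ∑ x, σ x * (P x y - δ) := by
      simp only [Matrix.vecMul, dotProduct, mul_sub, Finset.sum_sub_distrib, ← Finset.sum_mul, hσ,
        zero_mul, sub_zero]
    rw [h2]
    refine (Finset.abs_sum_le_sum_abs _ _).trans (Finset.sum_le_sum fun x _ => ?_)
    rw [abs_mul, abs_of_nonneg (sub_nonneg.2 (hδ x y))]
  refine (Finset.sum_le_sum fun y _ => h1 y).trans ?_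
  rw [Finset.sum_comm]
  simp only [← Finset.mul_sum, Finset.sum_sub_distrib, hP.sum, Finset.sum_const, Finset.card_univ,
    nsmul_eq_mul, ← Finset.sum_mul]
  rw [mul_comm]

/-- **Convergence.** If some power of a stochastic matrix is positive then signed vectors of total
mass zero are contracted to zero. -/
theorem tendsto_zero [Nonempty S] {P : Matrix S S ℝ} (hP : Stoch P) {k : ℕ} (hk : 0 < k)
    (hpos : ∀ x y, 0 < (P ^ k) x y) (σ : S → ℝ) (hσ : ∑ x, σ x = 0) (y : S) :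
    Tendsto (fun n => (σ ᵥ* P ^ n) y) atTop (𝓝 0) := by
  obtain ⟨δ, hδ0, hδ⟩ : ∃ δ : ℝ, 0 < δ ∧ ∀ x y, δ ≤ (P ^ k) x y := by
    obtain ⟨p, hp⟩ := Finite.exists_min (fun p : S × S => (P ^ k) p.1 p.2)
    exact ⟨(P ^ k) p.1 p.2, hpos _ _, fun x y => hp (x, y)⟩
  set ρ : ℝ := 1 - Fintype.card S * δ with hρ
  have hcard : (0 : ℝ) < Fintype.card S := by exact_mod_cast Fintype.card_pos
  have hρ1 : ρ < 1 := by
    rw [hρ]
    have : 0 < (Fintype.card S : ℝ) * δ := by positivity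
    linarith
  have hρ0 : 0 ≤ ρ := by
    obtain ⟨x⟩ := (inferInstance : Nonempty S)
    have h1 := (hP.pow k).sum x
    have h2 : ∑ y : S, δ ≤ ∑ y, (P ^ k) x y := Finset.sum_le_sum fun y _ => hδ x y
    rw [h1, Finset.sum_const, Finset.card_univ, nsmul_eq_mul] at h2
    rw [hρ]
    linarith
  have hsum : ∀ n, ∑ y, (σ ᵥ* P ^ n) y = 0 := by
    intro n
    rw [sum_vecMul (hP.pow n), hσ]
  have hblock : ∀ m, ∑ y, |(σ ᵥ* P ^ (k * m)) y| ≤ ρ ^ m * ∑ x, |σ x| := by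
    intro m
    induction m with
    | zero => simp
    | succ m ih =>
      have h1 : σ ᵥ* P ^ (k * (m + 1)) = (σ ᵥ* P ^ (k * m)) ᵥ* P ^ k := by
        rw [Matrix.vecMul_vecMul, ← pow_add, mul_add, mul_one]
      rw [h1]
      refine (contraction (hP.pow k) hδ _ (hsum _)).trans ?_
      rw [← hρ, pow_succ]
      calc ρ * ∑ x, |(σ ᵥ* P ^ (k * m)) x| ≤ ρ * (ρ ^ m * ∑ x, |σ x|) :=
            mul_le_mul_of_nonneg_left ih hρ0
        _ = ρ ^ m * ρ * ∑ x, |σ x| := by ring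
  have hall : ∀ n, |(σ ᵥ* P ^ n) y| ≤ ρ ^ (n / k) * ∑ x, |σ x| := by
    intro n
    have h1 : σ ᵥ* P ^ n = (σ ᵥ* P ^ (k * (n / k))) ᵥ* P ^ (n % k) := by
      rw [Matrix.vecMul_vecMul, ← pow_add, Nat.div_add_mod]
    have h2 : |(σ ᵥ* P ^ n) y| ≤ ∑ y, |(σ ᵥ* P ^ n) y| :=
      Finset.single_le_sum (f := fun y => |(σ ᵥ* P ^ n) y|) (fun _ _ => abs_nonneg _)
        (Finset.mem_univ y)
    refine h2.trans ?_
    rw [h1]
    exact (norm_vecMul (hP.pow _) _).trans (hblock _)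
  have hdiv : Tendsto (fun n : ℕ => n / k) atTop atTop :=
    Nat.tendsto_div_const_atTop hk.ne'
  have hlim : Tendsto (fun n : ℕ => ρ ^ (n / k) * ∑ x, |σ x|) atTop (𝓝 (0 * ∑ x, |σ x|)) :=
    ((tendsto_pow_atTop_nhds_zero_of_lt_one hρ0 hρ1).comp hdiv).mul_const _
  rw [zero_mul] at hlim
  exact squeeze_zero_norm (fun n => hall n) hlim

end Pool.Agent.V11325.Doeblin
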