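import Pool.Agent.V11325.ExclStat

/-!
# Exclusion on a segment: the deterministic lower bound on the distance to equilibrium
-/

open Finset

namespace Pool.Agent.V11325.ExclRE

variable {N k : ℕ}

/-- extension of the environment to `ℕ` -/
noncomputable def ext (ω : Fin N → ℝ) (i : ℕ) : ℝ := if h : i < N then ω ⟨i, h⟩ else 1 / 2

/-- the reversible measure of one particle -/
noncomputable def mm (ω : Fin N → ℝ) (x : Fin N) : ℝ :=
  ∏ i ∈ Finset.range x.val, ext ω i / (1 - ext ω (i + 1))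

theorem ext_val (ω : Fin N → ℝ) (x : Fin N) : ext ω x.val = ω x := by
  unfold ext
  rw [dif_pos x.2]

theorem ext_mem {ω : Fin N → ℝ} (h : ∀ x, 0 < ω x ∧ ω x < 1) (i : ℕ) :
    0 < ext ω i ∧ ext ω i < 1 := by
  unfold ext
  split_ifs with hi
  · exact h _
  · norm_num

theorem mm_pos {ω : Fin N → ℝ} (h : ∀ x, 0 < ω x ∧ ω x < 1) (x : Fin N) : 0 < mm ω x := by
  unfold mm
  refine Finset.prod_pos fun i _ => div_pos (ext_mem h i).1 ?_
  linarith [(ext_mem h (i + 1)).2]

theorem mm_succ {ω : Fin N → ℝ} (h : ∀ x, 0 < ω x ∧ ω x < 1) {x y : Fin N}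
    (hxy : y.val = x.val + 1) : mm ω y * (1 - ω y) = mm ω x * ω x := by
  have h1 : mm ω y = mm ω x * (ω x / (1 - ω y)) := by
    unfold mm
    rw [hxy, Finset.prod_range_succ, ext_val, ← hxy, ext_val]
  rw [h1]
  have := (h y).2
  have h2 : (1 - ω y) ≠ 0 := by linarith
  field_simp

theorem mm_rev {ω : Fin N → ℝ} (h : ∀ x, 0 < ω x ∧ ω x < 1) : Rev ω (mm ω) := by
  intro x y
  unfold jump
  by_cases h1 : y.val = x.val + 1
  · rw [if_pos h1, if_neg (by omega), if_pos h1]
    exact (mm_succ h h1).symm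
  · by_cases h2 : x.val = y.val + 1
    · rw [if_neg h1, if_pos h2, if_pos h2]
      exact mm_succ h h2
    · rw [if_neg h1, if_neg h2, if_neg h2, if_neg h1, mul_zero, mul_zero]

/-- `ρ` -/
noncomputable def rho (w : ℝ) : ℝ := (1 - w) / w

/-- the factors of the bound on `m x / m y` -/
noncomputable def fac (x z : Fin N) (w : ℝ) : ℝ := if z = x then 1 + rho w else rho w

theorem prod_formula (w : ℕ → ℝ) (hw : ∀ i, 0 < w i ∧ w i < 1) (x d : ℕ) :
    ∏ i ∈ Finset.Ico x (x + d + 1), (1 - w (i + 1)) / w i =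
      (∏ i ∈ Finset.Ico x (x + d + 1), if i = x then 1 + rho (w i) else rho (w i)) *
        (1 - w (x + d + 1)) := by
  induction d with
  | zero =>
    simp only [add_zero, Nat.Ico_succ_singleton, Finset.prod_singleton, if_true]
    unfold rho
    have := (hw x).1.ne'
    field_simp
    ring
  | succ d ih =>
    rw [show x + (d + 1) + 1 = (x + d + 1) + 1 by ring,
      Finset.prod_Ico_succ_top (show x ≤ x + d + 1 by omega),
      Finset.prod_Ico_succ_top (show x ≤ x + d + 1 by omega)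
        (fun i => if i = x then 1 + rho (w i) else rho (w i)), ih,
      if_neg (by omega)]
    unfold rho
    have := (hw (x + d + 1)).1.ne'
    field_simp

theorem prod_fin (x y : Fin N) (f : ℕ → ℝ) :
    ∏ i ∈ Finset.Ico x.val y.val, f i = ∏ z ∈ Finset.Ico x y, f z.val := by
  rw [← Fin.map_valEmbedding_Ico, Finset.prod_map]
  rfl

theorem mm_ratio {ω : Fin N → ℝ} (h : ∀ x, 0 < ω x ∧ ω x < 1) {x y : Fin N} (hxy : x < y) :
    mm ω x / mm ω y ≤ ∏ z ∈ Finset.Ico x y, fac x z (ω z) := by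
  obtain ⟨d, hd⟩ : ∃ d, y.val = x.val + d + 1 := ⟨y.val - x.val - 1, by
    have : x.val < y.val := hxy
    omega⟩
  have hw := ext_mem h
  have h1 : mm ω x / mm ω y =
      ∏ i ∈ Finset.Ico x.val y.val, (1 - ext ω (i + 1)) / ext ω i := by
    have h2 : mm ω y = mm ω x * ∏ i ∈ Finset.Ico x.val y.val, ext ω i / (1 - ext ω (i + 1)) := by
      unfold mm
      rw [Finset.prod_range_mul_prod_Ico _ (by omega)]
    rw [h2]
    have h3 := (mm_pos h x).ne'
    have h4 : ∏ i ∈ Finset.Ico x.val y.val, ext ω i / (1 - ext ω (i + 1)) ≠ 0 := by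
      refine Finset.prod_ne_zero_iff.2 fun i _ => ?_
      refine div_ne_zero (hw i).1.ne' ?_
      linarith [(hw (i + 1)).2]
    rw [div_mul_eq_div_div, div_self h3, one_div, ← Finset.prod_inv_distrib]
    exact Finset.prod_congr rfl fun i _ => inv_div _ _
  have h5 : ∏ z ∈ Finset.Ico x y, fac x z (ω z) =
      ∏ i ∈ Finset.Ico x.val y.val,
        if i = x.val then 1 + rho (ext ω i) else rho (ext ω i) := by
    rw [prod_fin]
    refine Finset.prod_congr rfl fun z _ => ?_
    rw [ext_val]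
    unfold fac
    by_cases hz : z = x
    · rw [if_pos hz, if_pos (by rw [hz])]
    · rw [if_neg hz, if_neg (fun h' => hz (Fin.ext h'))]
  rw [h1, h5, hd, prod_formula _ hw]
  have h6 : 0 ≤ ∏ i ∈ Finset.Ico x.val (x.val + d + 1),
      (if i = x.val then 1 + rho (ext ω i) else rho (ext ω i)) := by
    refine Finset.prod_nonneg fun i _ => ?_
    have h7 : 0 ≤ rho (ext ω i) := div_nonneg (by linarith [(hw i).2]) (hw i).1.le
    split_ifs <;> linarith
  have h8 : (1 - ext ω (x.val + d + 1)) ≤ 1 := by linarith [(hw (x.val + d + 1)).1]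
  calc _ ≤ _ * 1 := mul_le_mul_of_nonneg_left h8 h6
    _ = _ := mul_one _

/-- the bad set: some particle among the first `M` sites -/
def Bad (M : ℕ) (η : Conf N k) : Prop := ∃ x ∈ η.1, x.val < M

open Classical in
theorem stat_bad {ω : Fin N → ℝ} (h : ∀ x, 0 < ω x ∧ ω x < 1) {π : Conf N k → ℝ}
    (hπ : IsStat ω π) {M : ℕ} (hM : M + k + 1 ≤ N) :
    ∑ η with Bad M η, π η ≤ ∑ x : Fin N with x.val < M, ∑ y : Fin N with N ≤ y.val + k + 1,
      ∏ z ∈ Finset.Ico x y, fac x z (ω z) := by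
  have hw : ∀ x, 0 ≤ ω x ∧ ω x ≤ 1 := fun x => ⟨(h x).1.le, (h x).2.le⟩
  obtain ⟨c, hc⟩ := StatUnique.unique_stat (gen (k := k) ω) (wt (mm ω)) (wt_pos (mm_pos h))
    (stationary_of_rev (mm_pos h) (mm_rev h)) (fun a b hab => gen_off_nonneg hw a b hab)
    (irreducible h) π hπ.2.2
  have hsum : c * ∑ ζ : Conf N k, wt (mm ω) ζ = 1 := by
    rw [Finset.mul_sum, ← hπ.2.1]
    exact Finset.sum_congr rfl fun ζ _ => (hc ζ).symm
  have hZ : 0 ≤ ∑ ζ : Conf N k, wt (mm ω) ζ :=
    Finset.sum_nonneg fun ζ _ => (wt_pos (mm_pos h) ζ).le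
  have hc0 : 0 ≤ c := by
    by_contra hneg
    push Not at hneg
    nlinarith
  -- the pair bound
  have hpair : ∀ x y : Fin N, x < y → ∑ η : Conf N k with x ∈ η.1 ∧ y ∉ η.1, π η ≤
      ∏ z ∈ Finset.Ico x y, fac x z (ω z) := by
    intro x y hxy
    have h1 := swap_bound (k := k) (mm_pos h) x y
    calc ∑ η : Conf N k with x ∈ η.1 ∧ y ∉ η.1, π η
        = c * ∑ η : Conf N k with x ∈ η.1 ∧ y ∉ η.1, wt (mm ω) η := by
          rw [Finset.mul_sum]
          exact Finset.sum_congr rfl fun η _ => hc η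
      _ ≤ c * ((mm ω x / mm ω y) * ∑ ζ : Conf N k, wt (mm ω) ζ) :=
          mul_le_mul_of_nonneg_left h1 hc0
      _ = mm ω x / mm ω y := by
          rw [mul_left_comm, hsum, mul_one]
      _ ≤ _ := mm_ratio h hxy
  -- every bad configuration has such a pair
  have hex : ∀ η : Conf N k, Bad M η → ∃ x y : Fin N, x.val < M ∧ N ≤ y.val + k + 1 ∧
      x ∈ η.1 ∧ y ∉ η.1 := by
    rintro η ⟨x, hx, hxM⟩
    by_contra hcon
    push Not at hcon
    have h1 : (univ.filter fun y : Fin N => N ≤ y.val + k + 1) ⊆ η.1 := by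
      intro y hy
      simp only [mem_filter, mem_univ, true_and] at hy
      exact hcon x y hxM hy hx
    have h2 := Finset.card_le_card h1
    rw [η.2] at h2
    have h3 : (univ.filter fun y : Fin N => N ≤ y.val + k + 1).card = k + 1 := by
      have h4 : (univ.filter fun y : Fin N => N ≤ y.val + k + 1) =
          Finset.Ici (⟨N - k - 1, by omega⟩ : Fin N) := by
        ext y
        simp only [mem_filter, mem_univ, true_and, Finset.mem_Ici, Fin.le_def]
        omega
      rw [h4, Fin.card_Ici]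
      simp only
      omega
    omega
  have hpos : ∀ η, 0 ≤ π η := hπ.1
  calc ∑ η with Bad M η, π η
      ≤ ∑ η : Conf N k, ∑ x : Fin N with x.val < M, ∑ y : Fin N with N ≤ y.val + k + 1,
          if x ∈ η.1 ∧ y ∉ η.1 then π η else 0 := by
        rw [Finset.sum_filter]
        refine Finset.sum_le_sum fun η _ => ?_
        have hnn : ∀ x y : Fin N, 0 ≤ if x ∈ η.1 ∧ y ∉ η.1 then π η else 0 := by
          intro x y
          split_ifs
          · exact hpos η
          · exact le_rfl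
        split_ifs with hb
        · obtain ⟨x, y, h1, h2, h3, h4⟩ := hex η hb
          have h5 : π η = if x ∈ η.1 ∧ y ∉ η.1 then π η else 0 := by rw [if_pos ⟨h3, h4⟩]
          calc π η = if x ∈ η.1 ∧ y ∉ η.1 then π η else 0 := h5
            _ ≤ ∑ y : Fin N with N ≤ y.val + k + 1, if x ∈ η.1 ∧ y ∉ η.1 then π η else 0 :=
                Finset.single_le_sum (f := fun y => if x ∈ η.1 ∧ y ∉ η.1 then π η else 0)
                  (fun y _ => hnn x y) (by simp [h2])
            _ ≤ _ := Finset.single_le_sum (f := fun x => ∑ y : Fin N with N ≤ y.val + k + 1,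
                  if x ∈ η.1 ∧ y ∉ η.1 then π η else 0)
                  (fun x _ => Finset.sum_nonneg fun y _ => hnn x y) (by simp [h1])
        · exact Finset.sum_nonneg fun x _ => Finset.sum_nonneg fun y _ => hnn x y
    _ = ∑ x : Fin N with x.val < M, ∑ y : Fin N with N ≤ y.val + k + 1,
          ∑ η : Conf N k with x ∈ η.1 ∧ y ∉ η.1, π η := by
        rw [Finset.sum_comm]
        refine Finset.sum_congr rfl fun x _ => ?_
        rw [Finset.sum_comm]
        refine Finset.sum_congr rfl fun y _ => ?_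
        rw [Finset.sum_filter]
    _ ≤ _ := by
        refine Finset.sum_le_sum fun x hx => Finset.sum_le_sum fun y hy => hpair x y ?_
        simp only [mem_filter, mem_univ, true_and] at hx hy
        rw [Fin.lt_def]
        omega

/-- the number of particles strictly to the right of `x₀` -/
def cnt (x₀ : Fin N) (η : Conf N k) : ℝ := ((η.1.filter fun x => x₀ < x).card : ℝ)

theorem cnt_move {x₀ x y : Fin N} {η ζ : Conf N k} (hx : x ∈ η.1) (hy : y ∉ η.1)
    (hζ : ζ.1 = insert y (η.1.erase x)) :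
    cnt x₀ ζ - cnt x₀ η = (if x₀ < y then 1 else 0) - (if x₀ < x then 1 else 0) := by
  unfold cnt
  have h1 : ∀ s : Finset (Fin N), ((s.filter fun x => x₀ < x).card : ℝ) =
      ∑ x ∈ s, if x₀ < x then (1 : ℝ) else 0 := by
    intro s
    rw [Finset.card_filter]
    push_cast
    rfl
  rw [h1, h1, hζ, Finset.sum_insert (fun h => hy (Finset.mem_of_mem_erase h)),
    ← Finset.add_sum_erase η.1 (fun x => if x₀ < x then (1 : ℝ) else 0) hx]
  ring

theorem sum_ite_le {α : Type} [Fintype α] (p : α → Prop) [DecidablePred p] {c : ℝ} (hc : 0 ≤ c)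
    (h : ∀ a b, p a → p b → a = b) : ∑ a, (if p a then c else 0) ≤ c := by
  rw [← Finset.sum_filter, Finset.sum_const, nsmul_eq_mul]
  have h1 : (univ.filter p).card ≤ 1 := by
    rw [Finset.card_le_one]
    intro a ha b hb
    simp only [mem_filter, mem_univ, true_and] at ha hb
    exact h a b ha hb
  have h2 : ((univ.filter p).card : ℝ) ≤ 1 := by exact_mod_cast h1
  calc _ ≤ 1 * c := mul_le_mul_of_nonneg_right h2 hc
    _ = c := one_mul c

theorem drift {ω : Fin N → ℝ} (hw : ∀ x, 0 ≤ ω x ∧ ω x ≤ 1) (x₀ : Fin N) (η : Conf N k) :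
    ∑ ζ, gen ω η ζ * cnt x₀ ζ ≤ ω x₀ := by
  rw [gen_apply_sum]
  have h1 : ∀ ζ : Conf N k, rate ω η ζ * (cnt x₀ ζ - cnt x₀ η) ≤
      ∑ x : Fin N, ∑ y : Fin N,
        if x = x₀ ∧ y.val = x₀.val + 1 ∧ ζ.1 = insert y (η.1.erase x) then ω x₀ else 0 := by
    intro ζ
    unfold rate
    rw [Finset.sum_mul]
    refine Finset.sum_le_sum fun x _ => ?_
    rw [Finset.sum_mul]
    refine Finset.sum_le_sum fun y _ => ?_
    have hR : 0 ≤ (if x = x₀ ∧ y.val = x₀.val + 1 ∧ ζ.1 = insert y (η.1.erase x) then ω x₀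
        else 0) := by
      split_ifs
      · exact (hw x₀).1
      · exact le_rfl
    by_cases hc : x ∈ η.1 ∧ y ∉ η.1 ∧ ζ.1 = insert y (η.1.erase x)
    · rw [if_pos hc, cnt_move hc.1 hc.2.1 hc.2.2]
      unfold jump
      by_cases h2 : y.val = x.val + 1
      · rw [if_pos h2]
        by_cases h3 : x = x₀
        · subst h3
          rw [if_pos (show x < y by rw [Fin.lt_def]; omega), if_neg (lt_irrefl x),
            if_pos ⟨rfl, h2, hc.2.2⟩]
          simp
        · have h4 : (x₀ < y) ↔ (x₀ < x) := by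
            rw [Fin.lt_def, Fin.lt_def]
            have : x.val ≠ x₀.val := fun h' => h3 (Fin.ext h')
            omega
          simp only [h4, sub_self, mul_zero]
          exact hR
      · rw [if_neg h2]
        by_cases h3 : x.val = y.val + 1
        · rw [if_pos h3]
          have h4 : ((if x₀ < y then (1 : ℝ) else 0) - (if x₀ < x then (1 : ℝ) else 0)) ≤ 0 := by
            by_cases h5 : x₀ < y
            · have h6 : x₀ < x := by
                rw [Fin.lt_def] at h5 ⊢
                omega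
              rw [if_pos h5, if_pos h6]
              norm_num
            · rw [if_neg h5]
              split_ifs <;> norm_num
          refine le_trans ?_ hR
          exact mul_nonpos_of_nonneg_of_nonpos (by linarith [(hw x).2]) h4
        · rw [if_neg h3, zero_mul]
          exact hR
    · rw [if_neg hc, zero_mul]
      exact hR
  refine (Finset.sum_le_sum fun ζ _ => h1 ζ).trans ?_
  have h2 := sum_ite_le (α := Conf N k × Fin N × Fin N)
    (fun q => q.2.1 = x₀ ∧ q.2.2.val = x₀.val + 1 ∧ q.1.1 = insert q.2.2 (η.1.erase q.2.1))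
    (hw x₀).1 (by
      rintro ⟨ζ, x, y⟩ ⟨ζ', x', y'⟩ ⟨ha, hb, hc⟩ ⟨ha', hb', hc'⟩
      simp only at ha hb hc ha' hb' hc'
      have h3 : y = y' := Fin.ext (by omega)
      subst h3
      subst ha
      subst ha'
      have h4 : ζ = ζ' := Subtype.ext (hc.trans hc'.symm)
      rw [h4])
  rw [Fintype.sum_prod_type] at h2
  simp only [Fintype.sum_prod_type] at h2
  exact h2

theorem tv_ge {S : Type} [Fintype S] {p q : S → ℝ} (hp : ∑ s, p s = 1) (hq : ∑ s, q s = 1)
    (A : S → Prop) [DecidablePred A] : ∑ s with A s, (p s - q s) ≤ tv p q := by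
  unfold tv
  have h1 : ∑ s with A s, (p s - q s) + ∑ s with ¬A s, (p s - q s) = 0 := by
    rw [Finset.sum_filter_add_sum_filter_not, Finset.sum_sub_distrib, hp, hq, sub_self]
  have h2 : ∑ s, |p s - q s| = ∑ s with A s, |p s - q s| + ∑ s with ¬A s, |p s - q s| :=
    (Finset.sum_filter_add_sum_filter_not univ A _).symm
  have h3 : ∑ s with A s, (p s - q s) ≤ ∑ s with A s, |p s - q s| :=
    Finset.sum_le_sum fun s _ => le_abs_self _
  have h4 : -∑ s with ¬A s, (p s - q s) ≤ ∑ s with ¬A s, |p s - q s| := by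
    rw [← Finset.sum_neg_distrib]
    exact Finset.sum_le_sum fun s _ => neg_le_abs _
  rw [h2]
  linarith

open Classical in
/-- The lower bound on the distance to equilibrium. -/
theorem tv_lower {ω : Fin N → ℝ} (h : ∀ x, 0 < ω x ∧ ω x < 1) {π : Conf N k → ℝ}
    (hπ : IsStat ω π) {M : ℕ} (hM : M + k + 1 ≤ N) (hk : 0 < k) {x₀ : Fin N}
    (hx₀ : k ≤ x₀.val) (hx₀' : x₀.val < M) {t : ℝ} (ht : 0 ≤ t) :
    ∃ η₀ : Conf N k, 1 - ω x₀ * t / k -
      ∑ x : Fin N with x.val < M, ∑ y : Fin N with N ≤ y.val + k + 1,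
        ∏ z ∈ Finset.Ico x y, fac x z (ω z) ≤ tv (law ω t η₀) π := by
  have hw : ∀ x, 0 ≤ ω x ∧ ω x ≤ 1 := fun x => ⟨(h x).1.le, (h x).2.le⟩
  -- the left-packed configuration
  have hcard : (univ.filter (fun x : Fin N => x.val < k)).card = k := by
    have h4 : (univ.filter fun x : Fin N => x.val < k) =
        Finset.Iio (⟨k, by omega⟩ : Fin N) := by
      ext y
      simp only [mem_filter, mem_univ, true_and, Finset.mem_Iio, Fin.lt_def]
    rw [h4, Fin.card_Iio]
  let η₀ : Conf N k := ⟨univ.filter (fun x : Fin N => x.val < k), hcard⟩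
  refine ⟨η₀, ?_⟩
  have hlaw : ∀ η, law ω t η₀ η = Ctmc.expQ (gen ω) t η₀ η := fun η => rfl
  have hoff : ∀ a b : Conf N k, a ≠ b → 0 ≤ gen ω a b := fun a b hab => gen_off_nonneg hw a b hab
  have hlnn : ∀ η, 0 ≤ law ω t η₀ η := fun η => Ctmc.expQ_nonneg hoff ht _ _
  have hlsum : ∑ η, law ω t η₀ η = 1 := Ctmc.expQ_sum (gen_row ω) t η₀
  have hf0 : cnt x₀ η₀ = 0 := by
    unfold cnt
    rw [Nat.cast_eq_zero, Finset.card_eq_zero, Finset.filter_eq_empty_iff]
    intro x hx hlt
    have h1 : x.val < k := by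
      have := hx
      simp only [η₀, mem_filter, mem_univ, true_and] at this
      exact this
    rw [Fin.lt_def] at hlt
    omega
  have hgrow := Ctmc.expQ_growth hoff (gen_row ω) (cnt x₀) (ω x₀) (drift hw x₀) ht η₀
  rw [hf0, zero_add] at hgrow
  -- good configurations have `cnt = k`
  have hgood : ∀ η : Conf N k, ¬Bad M η → cnt x₀ η = k := by
    intro η hη
    unfold cnt
    have h1 : (η.1.filter fun x => x₀ < x) = η.1 := by
      rw [Finset.filter_eq_self]
      intro x hx
      have h2 : ¬x.val < M := fun h' => hη ⟨x, hx, h'⟩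
      rw [Fin.lt_def]
      omega
    rw [h1, η.2]
  have hk' : (0 : ℝ) < k := by exact_mod_cast hk
  have hgoodprob : ∑ η with ¬Bad M η, law ω t η₀ η ≤ ω x₀ * t / k := by
    rw [le_div_iff₀ hk', Finset.sum_mul]
    refine le_trans ?_ hgrow
    rw [← Finset.sum_filter_add_sum_filter_not univ (fun η : Conf N k => ¬Bad M η)]
    have h1 : ∑ η with ¬Bad M η, law ω t η₀ η * k =
        ∑ η with ¬Bad M η, Ctmc.expQ (gen ω) t η₀ η * cnt x₀ η := by
      refine Finset.sum_congr rfl fun η hη => ?_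
      simp only [mem_filter, mem_univ, true_and] at hη
      rw [hgood η hη, hlaw]
    rw [h1]
    have h2 : 0 ≤ ∑ η with ¬¬Bad M η, Ctmc.expQ (gen ω) t η₀ η * cnt x₀ η := by
      refine Finset.sum_nonneg fun η _ => mul_nonneg (hlnn η) ?_
      unfold cnt
      positivity
    linarith
  have hstat := stat_bad h hπ hM
  have htv := tv_ge hlsum hπ.2.1 (Bad M)
  rw [Finset.sum_sub_distrib] at htv
  have hsplit : ∑ η with Bad M η, law ω t η₀ η + ∑ η with ¬Bad M η, law ω t η₀ η = 1 := by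
    rw [Finset.sum_filter_add_sum_filter_not, hlsum]
  linarith

theorem exists_stat {ω : Fin N → ℝ} (h : ∀ x, 0 < ω x ∧ ω x < 1) (hk : k ≤ N) :
    ∃! π : Conf N k → ℝ, IsStat ω π := by
  have hw : ∀ x, 0 ≤ ω x ∧ ω x ≤ 1 := fun x => ⟨(h x).1.le, (h x).2.le⟩
  have hne : Nonempty (Conf N k) := by
    obtain ⟨s, -, hs⟩ := Finset.exists_subset_card_eq (s := (univ : Finset (Fin N)))
      (n := k) (by rw [Finset.card_univ, Fintype.card_fin]; exact hk)
    exact ⟨⟨s, hs⟩⟩
  have hZ : 0 < ∑ ζ : Conf N k, wt (mm ω) ζ :=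
    Finset.sum_pos (fun ζ _ => wt_pos (mm_pos h) ζ) univ_nonempty
  refine ⟨fun η => wt (mm ω) η / ∑ ζ : Conf N k, wt (mm ω) ζ, ⟨?_, ?_, ?_⟩, ?_⟩
  · intro η
    exact div_nonneg (wt_pos (mm_pos h) η).le hZ.le
  · rw [← Finset.sum_div, div_self hZ.ne']
  · intro ζ
    have h1 := stationary_of_rev (mm_pos h) (mm_rev h) ζ
    have h2 : ∑ η, wt (mm ω) η / (∑ ξ : Conf N k, wt (mm ω) ξ) * gen ω η ζ =
        (∑ η, wt (mm ω) η * gen ω η ζ) / ∑ ξ : Conf N k, wt (mm ω) ξ := by
      rw [Finset.sum_div]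
      exact Finset.sum_congr rfl fun η _ => by ring
    rw [h2, h1, zero_div]
  · intro π hπ
    obtain ⟨c, hc⟩ := StatUnique.unique_stat (gen (k := k) ω) (wt (mm ω)) (wt_pos (mm_pos h))
      (stationary_of_rev (mm_pos h) (mm_rev h)) (fun a b hab => gen_off_nonneg hw a b hab)
      (irreducible h) π hπ.2.2
    have hsum : c * ∑ ζ : Conf N k, wt (mm ω) ζ = 1 := by
      rw [Finset.mul_sum, ← hπ.2.1]
      exact Finset.sum_congr rfl fun ζ _ => (hc ζ).symm
    funext η
    rw [hc η, eq_div_iff hZ.ne', mul_assoc, mul_comm (wt (mm ω) η), ← mul_assoc, hsum, one_mul]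

end Pool.Agent.V11325.ExclRE
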