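import Pool.Agent.V11325.ExclProb

/-!
# Exclusion on a segment: the law of the environment, and the asymptotics
-/

open Finset MeasureTheory ProbabilityTheory Filter Topology

namespace Pool.Agent.V11325.ExclRE

/-- the density `3 v²` on `(0, 1]` -/
noncomputable def nu : Measure ℝ :=
  (volume.restrict (Set.Ioc 0 1)).withDensity (fun v => ENNReal.ofReal (3 * v ^ 2))

/-- the map `v ↦ 4 v² / (1 + 4 v²)` -/
noncomputable def gmap (v : ℝ) : ℝ := 4 * v ^ 2 / (1 + 4 * v ^ 2)

/-- the law -/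
noncomputable def theLaw : Measure ℝ := nu.map gmap

theorem measurable_gmap : Measurable gmap := by
  unfold gmap
  fun_prop

theorem measurable_dens : Measurable (fun v : ℝ => ENNReal.ofReal (3 * v ^ 2)) := by
  fun_prop

theorem nu_Ioc {s : ℝ} (hs : 0 ≤ s) (hs1 : s ≤ 1) : nu (Set.Ioc 0 s) = ENNReal.ofReal (s ^ 3) := by
  unfold nu
  rw [withDensity_apply _ measurableSet_Ioc, Measure.restrict_restrict measurableSet_Ioc]
  have h1 : Set.Ioc 0 s ∩ Set.Ioc 0 1 = Set.Ioc 0 s := by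
    apply Set.inter_eq_left.2
    exact Set.Ioc_subset_Ioc_right hs1
  rw [h1, ← ofReal_integral_eq_lintegral_ofReal]
  · rw [← intervalIntegral.integral_of_le hs]
    congr 1
    rw [intervalIntegral.integral_const_mul, integral_pow]
    norm_num
    ring
  · have : IntegrableOn (fun v : ℝ => 3 * v ^ 2) (Set.Icc 0 s) :=
      (by fun_prop : Continuous fun v : ℝ => 3 * v ^ 2).integrableOn_Icc
    exact this.mono_set Set.Ioc_subset_Icc_self
  · exact Filter.Eventually.of_forall fun v => by positivity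

theorem nu_univ : nu Set.univ = 1 := by
  have h1 : nu Set.univ = nu (Set.Ioc 0 1) := by
    unfold nu
    rw [withDensity_apply _ MeasurableSet.univ, withDensity_apply _ measurableSet_Ioc,
      Measure.restrict_univ, Measure.restrict_restrict measurableSet_Ioc, Set.inter_self]
  rw [h1, nu_Ioc (by norm_num) le_rfl]
  norm_num

theorem gmap_mem {v : ℝ} (hv : 0 < v) : 0 < gmap v ∧ gmap v < 1 := by
  unfold gmap
  constructor
  · positivity
  · rw [div_lt_one (by positivity)]
    linarith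

theorem ae_nu : ∀ᵐ v ∂nu, 0 < v := by
  have h1 : ∀ᵐ v ∂(volume.restrict (Set.Ioc (0 : ℝ) 1)), 0 < v := by
    filter_upwards [ae_restrict_mem measurableSet_Ioc] with v hv
    exact hv.1
  exact (withDensity_absolutelyContinuous _ _).ae_le h1

theorem good_theLaw : Good theLaw := by
  have hprob : IsProbabilityMeasure theLaw := by
    constructor
    unfold theLaw
    rw [Measure.map_apply measurable_gmap MeasurableSet.univ, Set.preimage_univ, nu_univ]
  refine ⟨hprob, ?_, ?_, ?_⟩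
  · unfold theLaw
    have hmeas : MeasurableSet {w : ℝ | 0 < w ∧ w < 1} :=
      (measurableSet_Ioi.inter measurableSet_Iio : MeasurableSet (Set.Ioi (0:ℝ) ∩ Set.Iio 1))
    refine (ae_map_iff measurable_gmap.aemeasurable hmeas).2 ?_
    filter_upwards [ae_nu] with v hv
    exact gmap_mem hv
  · unfold theLaw
    rw [lintegral_map measurable_rho.ennreal_ofReal measurable_gmap]
    unfold nu
    have hm : Measurable (fun v => ENNReal.ofReal (rho (gmap v))) :=
      (measurable_rho.comp measurable_gmap).ennreal_ofReal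
    rw [lintegral_withDensity_eq_lintegral_mul _ measurable_dens hm]
    have h1 : ∫⁻ v in Set.Ioc (0 : ℝ) 1, ((fun v : ℝ => ENNReal.ofReal (3 * v ^ 2)) *
        fun v => ENNReal.ofReal (rho (gmap v))) v =
        ∫⁻ v in Set.Ioc (0 : ℝ) 1, ENNReal.ofReal (3 / 4) := by
      refine setLIntegral_congr_fun measurableSet_Ioc fun v hv => ?_
      simp only [Pi.mul_apply]
      have hv0 : 0 < v := hv.1
      rw [← ENNReal.ofReal_mul (by positivity)]
      congr 1
      unfold rho gmap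
      have : v ≠ 0 := hv0.ne'
      field_simp
      ring
    rw [h1, lintegral_const, Measure.restrict_apply_univ, Real.volume_Ioc]
    norm_num
  · intro s hs hs1
    unfold theLaw
    have hmeas : MeasurableSet {w : ℝ | w ≤ 4 * s ^ 2} := measurableSet_Iic
    rw [Measure.map_apply measurable_gmap hmeas, ← nu_Ioc hs hs1]
    refine measure_mono fun v hv => ?_
    simp only [Set.mem_preimage, Set.mem_ofPred_eq]
    have hv0 : 0 < v := hv.1
    have hvs : v ≤ s := hv.2
    unfold gmap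
    rw [div_le_iff₀ (by positivity)]
    have h2 : v ^ 2 ≤ s ^ 2 := pow_le_pow_left₀ hv0.le hvs 2
    nlinarith [sq_nonneg s, sq_nonneg v, mul_nonneg (sq_nonneg s) (sq_nonneg v)]

theorem ballistic_of_good {P : Measure ℝ} (hP : Good P) : Ballistic P := by
  unfold Ballistic
  have h1 : ∫⁻ w, ENNReal.ofReal (1 - w) / ENNReal.ofReal w ∂P =
      ∫⁻ w, ENNReal.ofReal (rho w) ∂P := by
    refine lintegral_congr_ae ?_
    filter_upwards [hP.ae] with w hw
    unfold rho
    rw [ENNReal.ofReal_div_of_pos hw.1]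
  rw [h1]
  refine hP.mean.trans_lt ?_
  rw [← ENNReal.ofReal_one]
  exact (ENNReal.ofReal_lt_ofReal_iff (by norm_num)).2 (by norm_num)

/-- the number of particles -/
def kk (N : ℕ) : ℕ := max 1 (N / 4)

theorem limit_bound {P : Measure ℝ} (hP : Good P) (C : ℝ) :
    Tendsto (fun N : ℕ => (Measure.pi fun _ : Fin N => P)
      {ω | ∃ π : Conf N (kk N) → ℝ, IsStat ω π ∧
        tmix ω π ≤ ENNReal.ofReal (C * (N : ℝ) ^ (3 / 2 : ℝ))}) atTop (𝓝 0) := by
  set C' : ℝ := |C| + 1 with hC'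
  have hC'pos : 0 < C' := by positivity
  set L : ℕ → ℕ := fun N => N - N / 4 - N / 2 - 1 with hLdef
  -- the bound tends to zero
  have hlim : Tendsto (fun N : ℕ => ENNReal.ofReal (Real.exp (-((N : ℝ) ^ (1 / 10 : ℝ) / 8))) +
      ENNReal.ofReal (8 * (4 * (L N : ℝ) + 8) ^ 2 * (3 / 4) ^ (L N))) atTop (𝓝 0) := by
    have h1 : Tendsto (fun N : ℕ => Real.exp (-((N : ℝ) ^ (1 / 10 : ℝ) / 8))) atTop (𝓝 0) := by
      apply Real.tendsto_exp_neg_atTop_nhds_zero.comp
      apply Tendsto.atTop_div_const (by norm_num)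
      exact (tendsto_rpow_atTop (by norm_num)).comp tendsto_natCast_atTop_atTop
    have hLt : Tendsto L atTop atTop := by
      rw [tendsto_atTop_atTop]
      intro b
      refine ⟨4 * b + 8, fun N hN => ?_⟩
      simp only [hLdef]
      omega
    have h2 : Tendsto (fun n : ℕ => 8 * (4 * (n : ℝ) + 8) ^ 2 * (3 / 4) ^ n) atTop (𝓝 0) := by
      have e2 := tendsto_pow_const_mul_const_pow_of_abs_lt_one 2
        (r := (3 / 4 : ℝ)) (by rw [abs_of_pos] <;> norm_num)
      have e1 := tendsto_pow_const_mul_const_pow_of_abs_lt_one 1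
        (r := (3 / 4 : ℝ)) (by rw [abs_of_pos] <;> norm_num)
      have e0 := tendsto_pow_const_mul_const_pow_of_abs_lt_one 0
        (r := (3 / 4 : ℝ)) (by rw [abs_of_pos] <;> norm_num)
      have h3 := ((e2.const_mul 128).add (e1.const_mul 512)).add (e0.const_mul 512)
      simp only [mul_zero, add_zero] at h3
      refine h3.congr fun n => ?_
      ring
    have h4 := (ENNReal.tendsto_ofReal h1).add (ENNReal.tendsto_ofReal (h2.comp hLt))
    simpa using h4
  -- the smallness condition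
  have hsmall : ∀ᶠ N : ℕ in atTop, 32 * C' * (N : ℝ) ^ (-(1 / 10) : ℝ) < 1 / 2 := by
    have h1 : Tendsto (fun N : ℕ => 32 * C' * (N : ℝ) ^ (-(1 / 10) : ℝ)) atTop
        (𝓝 (32 * C' * 0)) :=
      ((tendsto_rpow_neg_atTop (by norm_num : (0 : ℝ) < 1 / 10)).comp
        tendsto_natCast_atTop_atTop).const_mul _
    rw [mul_zero] at h1
    exact h1.eventually (gt_mem_nhds (by norm_num))
  refine tendsto_of_tendsto_of_tendsto_of_le_of_le' tendsto_const_nhds hlim
    (Eventually.of_forall fun _ => zero_le) ?_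
  filter_upwards [hsmall, eventually_ge_atTop 16] with N hN hN16
  have hN0 : (0 : ℝ) < N := by
    have : 0 < N := by omega
    exact_mod_cast this
  have hkk : kk N = N / 4 := by
    unfold kk
    omega
  rw [hkk]
  set s : ℝ := (N : ℝ) ^ (-(3 / 10) : ℝ) with hs
  have hs0 : 0 ≤ s := Real.rpow_nonneg hN0.le _
  have hs1 : s ≤ 1 := Real.rpow_le_one_of_one_le_of_nonpos (by
    have : 1 ≤ N := by omega
    exact_mod_cast this) (by norm_num)
  have hs2 : s ^ 2 = (N : ℝ) ^ (-(3 / 5) : ℝ) := by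
    rw [hs, ← Real.rpow_natCast, ← Real.rpow_mul hN0.le]
    norm_num
  have hs3 : s ^ 3 = (N : ℝ) ^ (-(9 / 10) : ℝ) := by
    rw [hs, ← Real.rpow_natCast, ← Real.rpow_mul hN0.le]
    norm_num
  have hk8 : (N : ℝ) / 8 ≤ ((N / 4 : ℕ) : ℝ) := by
    have : N ≤ 8 * (N / 4) := by omega
    have h2 : (N : ℝ) ≤ 8 * ((N / 4 : ℕ) : ℝ) := by exact_mod_cast this
    linarith
  have hkpos : (0 : ℝ) < ((N / 4 : ℕ) : ℝ) := by linarith
  set T : ℝ := C' * (N : ℝ) ^ (3 / 2 : ℝ) with hT
  have hTpos : 0 < T := by positivity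
  have hcond : 4 * s ^ 2 * T / ((N / 4 : ℕ) : ℝ) < 1 / 2 := by
    refine lt_of_le_of_lt ?_ hN
    rw [div_le_iff₀ hkpos, hs2, hT]
    have h1 : (N : ℝ) ^ (-(3 / 5) : ℝ) * (N : ℝ) ^ (3 / 2 : ℝ) =
        (N : ℝ) ^ (-(1 / 10) : ℝ) * (N : ℝ) := by
      rw [← Real.rpow_add hN0]
      nth_rewrite 3 [← Real.rpow_one (N : ℝ)]
      rw [← Real.rpow_add hN0]
      norm_num
    calc 4 * (N : ℝ) ^ (-(3 / 5) : ℝ) * (C' * (N : ℝ) ^ (3 / 2 : ℝ))
        = 4 * C' * ((N : ℝ) ^ (-(3 / 5) : ℝ) * (N : ℝ) ^ (3 / 2 : ℝ)) := by ring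
      _ = 32 * C' * (N : ℝ) ^ (-(1 / 10) : ℝ) * ((N : ℝ) / 8) := by rw [h1]; ring
      _ ≤ 32 * C' * (N : ℝ) ^ (-(1 / 10) : ℝ) * ((N / 4 : ℕ) : ℝ) := by
          refine mul_le_mul_of_nonneg_left hk8 ?_
          positivity
  have hbd := event_bound hP (N := N) (k := N / 4) (M := N / 2) (L := L N)
    (by simp only [hLdef]; omega) (by omega) hs0 hs1 hTpos.le hcond
  refine (measure_mono ?_).trans (hbd.trans ?_)
  · rintro ω ⟨π, hπ, hle⟩
    refine ⟨π, hπ, lt_of_le_of_lt hle ?_⟩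
    rw [ENNReal.ofReal_lt_ofReal_iff hTpos, hT]
    have h1 : C < C' := by
      rw [hC']
      linarith [le_abs_self C]
    have h2 : 0 < (N : ℝ) ^ (3 / 2 : ℝ) := Real.rpow_pos_of_pos hN0 _
    exact mul_lt_mul_of_pos_right h1 h2
  · refine add_le_add (ENNReal.ofReal_le_ofReal ?_) (ENNReal.ofReal_le_ofReal ?_)
    · have h1 : 1 - s ^ 3 ≤ Real.exp (-(s ^ 3)) := Real.one_sub_le_exp_neg _
      have h0 : 0 ≤ 1 - s ^ 3 := by
        have : s ^ 3 ≤ 1 := pow_le_one₀ hs0 hs1
        linarith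
      calc (1 - s ^ 3) ^ (N / 2 - N / 4) ≤ Real.exp (-(s ^ 3)) ^ (N / 2 - N / 4) :=
            pow_le_pow_left₀ h0 h1 _
        _ = Real.exp (((N / 2 - N / 4 : ℕ) : ℝ) * (-(s ^ 3))) := by rw [Real.exp_nat_mul]
        _ ≤ Real.exp (-((N : ℝ) ^ (1 / 10 : ℝ) / 8)) := by
            rw [Real.exp_le_exp]
            have h2 : (N : ℝ) / 8 ≤ ((N / 2 - N / 4 : ℕ) : ℝ) := by
              have : N ≤ 8 * (N / 2 - N / 4) := by omega
              have h3 : (N : ℝ) ≤ 8 * ((N / 2 - N / 4 : ℕ) : ℝ) := by exact_mod_cast this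
              linarith
            have h3 : (N : ℝ) ^ (1 / 10 : ℝ) = (N : ℝ) * s ^ 3 := by
              rw [hs3]
              nth_rewrite 2 [← Real.rpow_one (N : ℝ)]
              rw [← Real.rpow_add hN0]
              norm_num
            rw [h3]
            have h4 : 0 ≤ s ^ 3 := by positivity
            nlinarith
    · have h1 : (N : ℝ) ≤ 4 * (L N : ℝ) + 8 := by
        have : N ≤ 4 * L N + 8 := by
          simp only [hLdef]
          omega
        exact_mod_cast this
      have h2 : (N : ℝ) ^ 2 ≤ (4 * (L N : ℝ) + 8) ^ 2 := pow_le_pow_left₀ hN0.le h1 2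
      have h3 : (0 : ℝ) ≤ (3 / 4) ^ (L N) := by positivity
      nlinarith

end Pool.Agent.V11325.ExclRE
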