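import Mathlib

/-!
# The simple exclusion process in an environment on a segment: definitions
-/

open MeasureTheory

namespace Pool.Agent.V11325.ExclRE

/-- The configurations on `{1, …, N}` with exactly `k` occupied sites; a configuration is the set
of its occupied sites, and `i : Fin N` stands for the site `i + 1`. -/
abbrev Conf (N k : ℕ) : Type := {η : Finset (Fin N) // η.card = k}

/-- The rate at which a particle at `x` attempts to jump to `y`: `ω x` if `y = x + 1`,
`1 - ω x` if `y = x - 1`, and `0` otherwise. -/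
noncomputable def jump {N : ℕ} (ω : Fin N → ℝ) (x y : Fin N) : ℝ :=
  if y.val = x.val + 1 then ω x else if x.val = y.val + 1 then 1 - ω x else 0

/-- The rate of the transition `η → ζ`: the sum, over all occupied `x` and empty `y` such that
moving the particle from `x` to `y` turns `η` into `ζ`, of the jump rates from `x` to `y`. -/
noncomputable def rate {N k : ℕ} (ω : Fin N → ℝ) (η ζ : Conf N k) : ℝ :=
  ∑ x : Fin N, ∑ y : Fin N,
    if x ∈ η.1 ∧ y ∉ η.1 ∧ ζ.1 = insert y (η.1.erase x) then jump ω x y else 0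

/-- The generator of the simple exclusion process with `k` particles. -/
noncomputable def gen {N k : ℕ} (ω : Fin N → ℝ) : Matrix (Conf N k) (Conf N k) ℝ :=
  fun η ζ => if η = ζ then -∑ ξ ∈ Finset.univ.erase η, rate ω η ξ else rate ω η ζ

/-- `law ω t η ζ` is the probability `P_{ω,η}(η_t = ζ)`. -/
noncomputable def law {N k : ℕ} (ω : Fin N → ℝ) (t : ℝ) : Matrix (Conf N k) (Conf N k) ℝ :=
  NormedSpace.exp (t • gen (k := k) ω)

/-- `π` is a stationary distribution of the simple exclusion process with `k` particles. -/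
def IsStat {N k : ℕ} (ω : Fin N → ℝ) (π : Conf N k → ℝ) : Prop :=
  (∀ η, 0 ≤ π η) ∧ ∑ η, π η = 1 ∧ ∀ ζ, ∑ η, π η * gen ω η ζ = 0

/-- The total variation distance of two probability vectors. -/
noncomputable def tv {S : Type} [Fintype S] (p q : S → ℝ) : ℝ := (1 / 2) * ∑ s, |p s - q s|

/-- The mixing time: the infimum (in `[0, ∞]`) of the times `t ≥ 0` at which
`max_η ‖P_{ω,η}(η_t ∈ ·) - π‖_TV ≤ 1/4`. -/
noncomputable def tmix {N k : ℕ} (ω : Fin N → ℝ) (π : Conf N k → ℝ) : ENNReal :=
  ⨅ (t : NNReal) (_ : ∀ η, tv (law ω t η) π ≤ 1 / 4), (t : ENNReal)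

/-- The law `P` of `ω(1)` is ballistic: `E[(1 - ω(1)) / ω(1)] < 1`, where `1 / 0 = ∞`. -/
def Ballistic (P : Measure ℝ) : Prop :=
  ∫⁻ w, ENNReal.ofReal (1 - w) / ENNReal.ofReal w ∂P < 1

end Pool.Agent.V11325.ExclRE
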