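import Pool.Agent.V11325.ExclDet

/-!
# Exclusion on a segment: the probability estimate
-/

open Finset MeasureTheory ProbabilityTheory

namespace Pool.Agent.V11325.ExclRE

/-- The properties of the law of the environment. -/
structure Good (P : Measure ℝ) : Prop where
  prob : IsProbabilityMeasure P
  ae : ∀ᵐ w ∂P, 0 < w ∧ w < 1
  mean : ∫⁻ w, ENNReal.ofReal (rho w) ∂P ≤ ENNReal.ofReal (3 / 4)
  tail : ∀ s : ℝ, 0 ≤ s → s ≤ 1 → ENNReal.ofReal (s ^ 3) ≤ P {w | w ≤ 4 * s ^ 2}

theorem measurable_rho : Measurable rho := by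
  unfold rho
  fun_prop

variable {N : ℕ}

theorem measurable_fac (x z : Fin N) : Measurable (fun w => fac x z w) := by
  unfold fac
  by_cases h : z = x
  · simp only [if_pos h]
    exact measurable_rho.const_add 1
  · simp only [if_neg h]
    exact measurable_rho

theorem lintegral_fac {P : Measure ℝ} (hP : Good P) (x z : Fin N) :
    ∫⁻ w, ENNReal.ofReal (fac x z w) ∂P ≤
      if z = x then ENNReal.ofReal 2 else ENNReal.ofReal (3 / 4) := by
  have := hP.prob
  unfold fac
  by_cases h : z = x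
  · simp only [if_pos h]
    calc ∫⁻ w, ENNReal.ofReal (1 + rho w) ∂P
        ≤ ∫⁻ w, (1 + ENNReal.ofReal (rho w)) ∂P := by
          refine lintegral_mono fun w => ?_
          calc ENNReal.ofReal (1 + rho w) ≤ ENNReal.ofReal 1 + ENNReal.ofReal (rho w) :=
                ENNReal.ofReal_add_le
            _ = _ := by rw [ENNReal.ofReal_one]
      _ = 1 + ∫⁻ w, ENNReal.ofReal (rho w) ∂P := by
          rw [lintegral_add_left measurable_const, lintegral_const, measure_univ, mul_one]
      _ ≤ ENNReal.ofReal 1 + ENNReal.ofReal (3 / 4) := by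
          rw [ENNReal.ofReal_one]
          exact add_le_add le_rfl hP.mean
      _ ≤ ENNReal.ofReal 2 := by
          rw [← ENNReal.ofReal_add (by norm_num) (by norm_num)]
          exact ENNReal.ofReal_le_ofReal (by norm_num)
  · simp only [if_neg h]
    exact hP.mean

theorem lintegral_prod_fac {P : Measure ℝ} (hP : Good P) {x y : Fin N} (hxy : x < y) (L : ℕ)
    (hL : x.val + L + 1 ≤ y.val) :
    ∫⁻ ω, ∏ z ∈ Finset.Ico x y, ENNReal.ofReal (fac x z (ω z)) ∂(Measure.pi fun _ : Fin N => P) ≤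
      ENNReal.ofReal (2 * (3 / 4) ^ L) := by
  have := hP.prob
  have hind : iIndepFun (fun (z : Fin N) (ω : Fin N → ℝ) => ENNReal.ofReal (fac x z (ω z)))
      (Measure.pi fun _ : Fin N => P) :=
    iIndepFun_pi (μ := fun _ : Fin N => P) (X := fun z w => ENNReal.ofReal (fac x z w))
      (fun z => ((measurable_fac x z).ennreal_ofReal).aemeasurable)
  rw [lintegral_prod_eq_prod_lintegral_of_indepFun (Finset.Ico x y) _ hind
    (fun z => ((measurable_fac x z).ennreal_ofReal).comp (measurable_pi_apply z))]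
  have h1 : ∀ z : Fin N, ∫⁻ ω, ENNReal.ofReal (fac x z (ω z))
      ∂(Measure.pi fun _ : Fin N => P) = ∫⁻ w, ENNReal.ofReal (fac x z w) ∂P := by
    intro z
    exact (measurePreserving_eval (fun _ : Fin N => P) z).lintegral_comp
      ((measurable_fac x z).ennreal_ofReal)
  calc ∏ z ∈ Finset.Ico x y, ∫⁻ ω, ENNReal.ofReal (fac x z (ω z))
        ∂(Measure.pi fun _ : Fin N => P)
      ≤ ∏ z ∈ Finset.Ico x y, (if z = x then ENNReal.ofReal 2 else ENNReal.ofReal (3 / 4)) :=
        Finset.prod_le_prod' fun z _ => by rw [h1 z]; exact lintegral_fac hP x z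
    _ = ENNReal.ofReal 2 * ENNReal.ofReal (3 / 4) ^ (y.val - x.val - 1) := by
        rw [← Finset.Ioo_insert_left hxy, Finset.prod_insert Finset.left_notMem_Ioo, if_pos rfl]
        congr 1
        rw [Finset.prod_congr rfl (g := fun _ => ENNReal.ofReal (3 / 4)) (fun z hz => by
          rw [if_neg]
          exact (Finset.mem_Ioo.1 hz).1.ne'), Finset.prod_const, Fin.card_Ioo]
    _ ≤ ENNReal.ofReal 2 * ENNReal.ofReal (3 / 4) ^ L := by
        refine mul_le_mul_right ?_ _
        refine pow_le_pow_right_of_le_one' ?_ (by omega)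
        rw [← ENNReal.ofReal_one]
        exact ENNReal.ofReal_le_ofReal (by norm_num)
    _ = _ := by
        rw [← ENNReal.ofReal_pow (by norm_num), ← ENNReal.ofReal_mul (by norm_num)]

/-- the sum of products -/
noncomputable def GG (k M : ℕ) (ω : Fin N → ℝ) : ENNReal :=
  ∑ x : Fin N with x.val < M, ∑ y : Fin N with N ≤ y.val + k + 1,
    ∏ z ∈ Finset.Ico x y, ENNReal.ofReal (fac x z (ω z))

theorem measurable_term (x y : Fin N) : Measurable (fun ω : Fin N → ℝ =>
    ∏ z ∈ Finset.Ico x y, ENNReal.ofReal (fac x z (ω z))) :=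
  Finset.measurable_prod _ fun z _ =>
    ((measurable_fac x z).ennreal_ofReal).comp (measurable_pi_apply z)

theorem measurable_GG (k M : ℕ) : Measurable (GG (N := N) k M) := by
  unfold GG
  exact Finset.measurable_sum _ fun x _ => Finset.measurable_sum _ fun y _ => measurable_term x y

theorem lintegral_GG {P : Measure ℝ} (hP : Good P) {k M L : ℕ} (hL : M + k + 1 + L ≤ N) :
    ∫⁻ ω, GG k M ω ∂(Measure.pi fun _ : Fin N => P) ≤
      ENNReal.ofReal (2 * N ^ 2 * (3 / 4) ^ L) := by
  unfold GG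
  rw [lintegral_finsetSum _ fun x _ => Finset.measurable_sum _ fun y _ => measurable_term x y]
  have h1 : ∀ x ∈ (univ.filter fun x : Fin N => x.val < M),
      ∫⁻ ω : Fin N → ℝ, ∑ y : Fin N with N ≤ y.val + k + 1, ∏ z ∈ Finset.Ico x y,
        ENNReal.ofReal (fac x z (ω z)) ∂(Measure.pi fun _ : Fin N => P) ≤
        ∑ _y : Fin N, ENNReal.ofReal (2 * (3 / 4) ^ L) := by
    intro x hx
    simp only [mem_filter, mem_univ, true_and] at hx
    rw [lintegral_finsetSum _ fun y _ => measurable_term x y]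
    calc ∑ y : Fin N with N ≤ y.val + k + 1, ∫⁻ ω : Fin N → ℝ, ∏ z ∈ Finset.Ico x y,
          ENNReal.ofReal (fac x z (ω z)) ∂(Measure.pi fun _ : Fin N => P)
        ≤ ∑ y : Fin N with N ≤ y.val + k + 1, ENNReal.ofReal (2 * (3 / 4) ^ L) := by
          refine Finset.sum_le_sum fun y hy => ?_
          simp only [mem_filter, mem_univ, true_and] at hy
          exact lintegral_prod_fac hP (by rw [Fin.lt_def]; omega) L (by omega)
      _ ≤ _ := Finset.sum_le_sum_of_subset (Finset.filter_subset _ _)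
  refine (Finset.sum_le_sum h1).trans ?_
  refine (Finset.sum_le_sum_of_subset (Finset.filter_subset _ _)).trans ?_
  rw [Finset.sum_const, Finset.sum_const, Finset.card_univ, Fintype.card_fin, smul_smul,
    nsmul_eq_mul]
  rw [← ENNReal.ofReal_natCast, ← ENNReal.ofReal_mul (by positivity)]
  apply ENNReal.ofReal_le_ofReal
  push_cast
  ring_nf
  exact le_rfl

theorem pi_ae {P : Measure ℝ} (hP : Good P) :
    ∀ᵐ ω ∂(Measure.pi fun _ : Fin N => P), ∀ x, 0 < ω x ∧ ω x < 1 := by
  have := hP.prob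
  rw [ae_all_iff]
  intro x
  exact (Measure.quasiMeasurePreserving_eval (fun _ : Fin N => P) x).ae hP.ae

theorem notrap {P : Measure ℝ} (hP : Good P) {k M : ℕ} (hM : M ≤ N) {s : ℝ} (hs : 0 ≤ s)
    (hs1 : s ≤ 1) :
    (Measure.pi fun _ : Fin N => P) {ω | ∀ x : Fin N, k ≤ x.val → x.val < M → 4 * s ^ 2 < ω x} ≤
      ENNReal.ofReal ((1 - s ^ 3) ^ (M - k)) := by
  have := hP.prob
  have h1 : {ω : Fin N → ℝ | ∀ x : Fin N, k ≤ x.val → x.val < M → 4 * s ^ 2 < ω x} =
      Set.pi Set.univ (fun x : Fin N => if k ≤ x.val ∧ x.val < M then {w | 4 * s ^ 2 < w}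
        else Set.univ) := by
    ext ω
    simp only [Set.mem_ofPred_eq, Set.mem_pi, Set.mem_univ, forall_true_left]
    constructor
    · intro h x
      split_ifs with hx
      · exact h x hx.1 hx.2
      · exact Set.mem_univ _
    · intro h x hx1 hx2
      have := h x
      rw [if_pos ⟨hx1, hx2⟩] at this
      exact this
  rw [h1, Measure.pi_pi]
  have h2 : P {w | 4 * s ^ 2 < w} ≤ ENNReal.ofReal (1 - s ^ 3) := by
    have h3 : {w : ℝ | 4 * s ^ 2 < w} = {w : ℝ | w ≤ 4 * s ^ 2}ᶜ := by
      ext w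
      simp
    have hmeas : MeasurableSet {w : ℝ | w ≤ 4 * s ^ 2} := measurableSet_Iic
    rw [h3, prob_compl_eq_one_sub hmeas, ENNReal.ofReal_sub _ (by positivity),
      ENNReal.ofReal_one]
    exact tsub_le_tsub_left (hP.tail s hs hs1) 1
  have h4 : ∀ x : Fin N, P (if k ≤ x.val ∧ x.val < M then {w | 4 * s ^ 2 < w}
      else Set.univ) = if k ≤ x.val ∧ x.val < M then P {w | 4 * s ^ 2 < w} else 1 := by
    intro x
    split_ifs
    · rfl
    · exact measure_univ
  rw [Finset.prod_congr rfl fun x _ => h4 x, ← Finset.prod_filter, Finset.prod_const]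
  have h5 : (univ.filter fun x : Fin N => k ≤ x.val ∧ x.val < M).card = M - k := by
    rw [← Nat.card_Ico k M, ← Finset.card_image_of_injective _ Fin.val_injective]
    congr 1
    ext i
    simp only [mem_image, mem_filter, mem_univ, true_and, Finset.mem_Ico]
    constructor
    · rintro ⟨x, hx, rfl⟩
      exact hx
    · intro hi
      exact ⟨⟨i, by omega⟩, hi, rfl⟩
  rw [h5, ENNReal.ofReal_pow (by
    have : s ^ 3 ≤ 1 := pow_le_one₀ hs hs1
    linarith)]
  gcongr

open Classical in
/-- The probability estimate. -/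
theorem event_bound {P : Measure ℝ} (hP : Good P) {k M L : ℕ} (hL : M + k + 1 + L ≤ N)
    (hk : 0 < k) {s T : ℝ} (hs : 0 ≤ s) (hs1 : s ≤ 1) (hT0 : 0 ≤ T)
    (hT : 4 * s ^ 2 * T / k < 1 / 2) :
    (Measure.pi fun _ : Fin N => P)
      {ω | ∃ π : Conf N k → ℝ, IsStat ω π ∧ tmix ω π < ENNReal.ofReal T} ≤
      ENNReal.ofReal ((1 - s ^ 3) ^ (M - k)) + ENNReal.ofReal (8 * N ^ 2 * (3 / 4) ^ L) := by
  have := hP.prob
  have hsub : {ω : Fin N → ℝ | ∃ π : Conf N k → ℝ, IsStat ω π ∧ tmix ω π < ENNReal.ofReal T} ⊆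
      ({ω : Fin N → ℝ | ¬∀ x, 0 < ω x ∧ ω x < 1} ∪
        {ω | ∀ x : Fin N, k ≤ x.val → x.val < M → 4 * s ^ 2 < ω x}) ∪
        {ω | (1 / 4 : ENNReal) ≤ GG k M ω} := by
    rintro ω ⟨π, hπ, hlt⟩
    by_contra hcon
    simp only [Set.mem_union, Set.mem_ofPred_eq, not_or] at hcon
    obtain ⟨⟨h1, h1'⟩, h2⟩ := hcon
    rw [not_not] at h1
    rw [not_le] at h2
    push Not at h1'
    obtain ⟨x₀, hx1, hx2, hx3⟩ := h1'
    -- the real sum is `< 1/4`
    have hfac : ∀ x z : Fin N, 0 ≤ fac x z (ω z) := by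
      intro x z
      have h3 : 0 ≤ rho (ω z) := div_nonneg (by linarith [(h1 z).2]) (h1 z).1.le
      unfold fac
      split_ifs <;> linarith
    have hG : GG k M ω = ENNReal.ofReal (∑ x : Fin N with x.val < M,
        ∑ y : Fin N with N ≤ y.val + k + 1, ∏ z ∈ Finset.Ico x y, fac x z (ω z)) := by
      unfold GG
      rw [ENNReal.ofReal_sum_of_nonneg (fun x _ => Finset.sum_nonneg fun y _ =>
        Finset.prod_nonneg fun z _ => hfac x z)]
      refine Finset.sum_congr rfl fun x _ => ?_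
      rw [ENNReal.ofReal_sum_of_nonneg (fun y _ => Finset.prod_nonneg fun z _ => hfac x z)]
      refine Finset.sum_congr rfl fun y _ => ?_
      rw [ENNReal.ofReal_prod_of_nonneg (fun z _ => hfac x z)]
    have hlt4 : (∑ x : Fin N with x.val < M,
        ∑ y : Fin N with N ≤ y.val + k + 1, ∏ z ∈ Finset.Ico x y, fac x z (ω z)) < 1 / 4 := by
      have h4 : (1 / 4 : ENNReal) = ENNReal.ofReal (1 / 4) := by
        rw [ENNReal.ofReal_div_of_pos (by norm_num), ENNReal.ofReal_one]
        norm_num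
      rw [hG, h4] at h2
      exact (ENNReal.ofReal_lt_ofReal_iff (by norm_num)).1 h2
    -- so the distance is large up to time `T`
    apply absurd hlt
    rw [not_lt]
    unfold tmix
    refine le_iInf fun t => le_iInf fun ht => ?_
    by_contra hneg
    push Not at hneg
    have htT : (t : ℝ) < T := by
      have h5 : (t : ENNReal) = ENNReal.ofReal (t : ℝ) := (ENNReal.ofReal_coe_nnreal).symm
      rw [h5] at hneg
      exact (ENNReal.ofReal_lt_ofReal_iff_of_nonneg t.2).1 hneg
    obtain ⟨η₀, h6⟩ := tv_lower h1 hπ (by omega : M + k + 1 ≤ N) hk hx1 hx2 t.2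
    have h7 := ht η₀
    have h8 : ω x₀ * t / k ≤ 4 * s ^ 2 * T / k := by
      have hk' : (0 : ℝ) < k := by exact_mod_cast hk
      have h9 : ω x₀ * t ≤ 4 * s ^ 2 * T :=
        mul_le_mul hx3 htT.le t.2 (by positivity)
      exact (div_le_div_iff_of_pos_right hk').2 h9
    have h9 : tv (law ω (↑t) η₀) π ≤ 1 / 4 := h7
    have h10 : 1 - ω x₀ * (t : ℝ) / k - ∑ x : Fin N with x.val < M,
        ∑ y : Fin N with N ≤ y.val + k + 1, ∏ z ∈ Finset.Ico x y, fac x z (ω z) ≤
        tv (law ω (↑t) η₀) π := h6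
    linarith
  refine (measure_mono hsub).trans ?_
  refine (measure_union_le _ _).trans ?_
  refine add_le_add ?_ ?_
  · refine (measure_union_le _ _).trans ?_
    have h1 : (Measure.pi fun _ : Fin N => P) {ω : Fin N → ℝ | ¬∀ x, 0 < ω x ∧ ω x < 1} = 0 :=
      pi_ae hP
    rw [h1, zero_add]
    exact notrap hP (by omega) hs hs1
  · refine (meas_ge_le_lintegral_div (measurable_GG k M).aemeasurable (by norm_num)
      (by norm_num)).trans ?_
    calc (∫⁻ ω, GG k M ω ∂(Measure.pi fun _ : Fin N => P)) / (1 / 4)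
        ≤ ENNReal.ofReal (2 * N ^ 2 * (3 / 4) ^ L) / (1 / 4) := by
          gcongr
          exact lintegral_GG hP hL
      _ = ENNReal.ofReal (8 * N ^ 2 * (3 / 4) ^ L) := by
          have h4 : (1 / 4 : ENNReal) = ENNReal.ofReal (1 / 4) := by
            rw [ENNReal.ofReal_div_of_pos (by norm_num), ENNReal.ofReal_one]
            norm_num
          rw [h4, ← ENNReal.ofReal_div_of_pos (by norm_num)]
          congr 1
          ring

end Pool.Agent.V11325.ExclRE
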