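import Mathlib

/-!
# Uniqueness of the stationary distribution of an irreducible finite generator
-/

open Finset

namespace Pool.Agent.V11325.StatUnique

variable {S : Type} [Fintype S] [DecidableEq S]

/-- If a positive vector `π` is stationary for the irreducible generator `Q` then every stationary
vector is a multiple of `π`. -/
theorem unique_stat (Q : Matrix S S ℝ) (π : S → ℝ) (hpos : ∀ x, 0 < π x)
    (hstat : ∀ y, ∑ x, π x * Q x y = 0) (hoff : ∀ x y, x ≠ y → 0 ≤ Q x y)
    (hconn : ∀ x y, Relation.ReflTransGen (fun a b => a ≠ b ∧ 0 < Q a b) x y) (π' : S → ℝ)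
    (hstat' : ∀ y, ∑ x, π' x * Q x y = 0) : ∃ c, ∀ x, π' x = c * π x := by
  rcases isEmpty_or_nonempty S with hS | hS
  · exact ⟨0, fun x => (hS.false x).elim⟩
  obtain ⟨y₀, hy₀⟩ := Finite.exists_max (fun x => π' x / π x)
  refine ⟨π' y₀ / π y₀, ?_⟩
  have hpred : ∀ y, π' y / π y = π' y₀ / π y₀ → ∀ x, x ≠ y → 0 < Q x y →
      π' x / π x = π' y₀ / π y₀ := by
    intro y hy x hxy hQ
    have h1 : ∑ z, π z * Q z y * (π' y₀ / π y₀ - π' z / π z) = 0 := by
      have h2 : ∀ z, π z * Q z y * (π' y₀ / π y₀ - π' z / π z) =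
          (π' y₀ / π y₀) * (π z * Q z y) - π' z * Q z y := by
        intro z
        have := (hpos z).ne'
        field_simp
      rw [Finset.sum_congr rfl (fun z _ => h2 z), Finset.sum_sub_distrib, ← Finset.mul_sum,
        hstat y, hstat' y]
      ring
    have h3 : ∀ z ∈ univ, 0 ≤ π z * Q z y * (π' y₀ / π y₀ - π' z / π z) := by
      intro z _
      by_cases hz : z = y
      · rw [hz, hy, sub_self, mul_zero]
      · exact mul_nonneg (mul_nonneg (hpos z).le (hoff z y hz)) (sub_nonneg.2 (hy₀ z))
    have h4 := (Finset.sum_eq_zero_iff_of_nonneg h3).1 h1 x (mem_univ x)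
    have h5 : π x * Q x y ≠ 0 := (mul_pos (hpos x) hQ).ne'
    have h6 := (mul_eq_zero.1 h4).resolve_left h5
    linarith
  have hall : ∀ x, π' x / π x = π' y₀ / π y₀ := by
    intro x
    have h := hconn x y₀
    induction h using Relation.ReflTransGen.head_induction_on with
    | refl => rfl
    | head hab _ ih => exact hpred _ ih _ hab.1 hab.2
  intro x
  rw [← hall x]
  have := (hpos x).ne'
  field_simp

end Pool.Agent.V11325.StatUnique
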