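import Pool.Agent.V11325.ExclModel
import Pool.Agent.V11325.CtmcPos
import Pool.Agent.V11325.StatUnique

/-!
# Exclusion on a segment: reversibility, irreducibility, swap bound, current bound
-/

open Finset

namespace Pool.Agent.V11325.ExclRE

variable {N k : ℕ}

theorem jump_nonneg {ω : Fin N → ℝ} (h : ∀ x, 0 ≤ ω x ∧ ω x ≤ 1) (x y : Fin N) :
    0 ≤ jump ω x y := by
  unfold jump
  split_ifs
  · exact (h x).1
  · linarith [(h x).2]
  · exact le_rfl

theorem rate_nonneg {ω : Fin N → ℝ} (h : ∀ x, 0 ≤ ω x ∧ ω x ≤ 1) (η ζ : Conf N k) :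
    0 ≤ rate ω η ζ := by
  unfold rate
  refine Finset.sum_nonneg fun x _ => Finset.sum_nonneg fun y _ => ?_
  split_ifs
  · exact jump_nonneg h x y
  · exact le_rfl

theorem gen_off {ω : Fin N → ℝ} {η ζ : Conf N k} (h : η ≠ ζ) : gen ω η ζ = rate ω η ζ := by
  unfold gen
  rw [if_neg h]

theorem gen_off_nonneg {ω : Fin N → ℝ} (h : ∀ x, 0 ≤ ω x ∧ ω x ≤ 1) (η ζ : Conf N k)
    (hne : η ≠ ζ) : 0 ≤ gen ω η ζ := by
  rw [gen_off hne]
  exact rate_nonneg h η ζ

theorem gen_apply_sum (ω : Fin N → ℝ) (η : Conf N k) (g : Conf N k → ℝ) :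
    ∑ ζ, gen ω η ζ * g ζ = ∑ ζ, rate ω η ζ * (g ζ - g η) := by
  rw [← Finset.add_sum_erase _ _ (mem_univ η),
    ← Finset.add_sum_erase _ (fun ζ => rate ω η ζ * (g ζ - g η)) (mem_univ η)]
  have h1 : gen ω η η = -∑ ξ ∈ Finset.univ.erase η, rate ω η ξ := by
    unfold gen
    rw [if_pos rfl]
  rw [h1, sub_self, mul_zero, zero_add, neg_mul, Finset.sum_mul, ← Finset.sum_neg_distrib,
    ← Finset.sum_add_distrib]
  refine Finset.sum_congr rfl fun ζ hζ => ?_
  rw [gen_off (Finset.ne_of_mem_erase hζ).symm]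
  ring

theorem gen_row (ω : Fin N → ℝ) (η : Conf N k) : ∑ ζ, gen ω η ζ = 0 := by
  have h := gen_apply_sum ω η (fun _ => 1)
  simpa using h

/-- The weight `∏_{x ∈ η} m x`. -/
noncomputable def wt (m : Fin N → ℝ) (η : Conf N k) : ℝ := ∏ x ∈ η.1, m x

theorem wt_pos {m : Fin N → ℝ} (hm : ∀ x, 0 < m x) (η : Conf N k) : 0 < wt m η :=
  Finset.prod_pos fun x _ => hm x

/-- weight after moving a particle -/
theorem wt_move {m : Fin N → ℝ} {η ζ : Conf N k} {x y : Fin N} (hx : x ∈ η.1) (hy : y ∉ η.1)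
    (hζ : ζ.1 = insert y (η.1.erase x)) : m x * wt m ζ = m y * wt m η := by
  unfold wt
  have h1 : y ∉ η.1.erase x := fun h => hy (Finset.mem_of_mem_erase h)
  rw [hζ, Finset.prod_insert h1, ← Finset.mul_prod_erase η.1 m hx]
  ring

theorem move_symm {η ζ : Conf N k} {x y : Fin N} :
    (x ∈ η.1 ∧ y ∉ η.1 ∧ ζ.1 = insert y (η.1.erase x)) ↔
      (y ∈ ζ.1 ∧ x ∉ ζ.1 ∧ η.1 = insert x (ζ.1.erase y)) := by
  constructor
  · rintro ⟨hx, hy, hζ⟩
    have hxy : x ≠ y := fun h => hy (h ▸ hx)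
    refine ⟨?_, ?_, ?_⟩
    · rw [hζ]; exact Finset.mem_insert_self _ _
    · rw [hζ]
      simp [hxy]
    · rw [hζ, Finset.erase_insert (fun h => hy (Finset.mem_of_mem_erase h)),
        Finset.insert_erase hx]
  · rintro ⟨hy, hx, hη⟩
    have hxy : y ≠ x := fun h => hx (h ▸ hy)
    refine ⟨?_, ?_, ?_⟩
    · rw [hη]; exact Finset.mem_insert_self _ _
    · rw [hη]
      simp [hxy]
    · rw [hη, Finset.erase_insert (fun h => hx (Finset.mem_of_mem_erase h)),
        Finset.insert_erase hy]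

/-- `m` is reversible for the walk of one particle. -/
def Rev (ω m : Fin N → ℝ) : Prop := ∀ x y, m x * jump ω x y = m y * jump ω y x

theorem detailed_balance {ω m : Fin N → ℝ} (hm : ∀ x, 0 < m x) (hrev : Rev ω m)
    (η ζ : Conf N k) : wt m η * rate ω η ζ = wt m ζ * rate ω ζ η := by
  unfold rate
  rw [Finset.mul_sum, Finset.mul_sum]
  rw [show (∑ x : Fin N, wt m ζ * ∑ y : Fin N,
      if x ∈ ζ.1 ∧ y ∉ ζ.1 ∧ η.1 = insert y (ζ.1.erase x) then jump ω x y else 0) =
      ∑ x : Fin N, ∑ y : Fin N, wt m ζ *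
      (if x ∈ ζ.1 ∧ y ∉ ζ.1 ∧ η.1 = insert y (ζ.1.erase x) then jump ω x y else 0) from
      Finset.sum_congr rfl fun x _ => Finset.mul_sum _ _ _]
  rw [Finset.sum_comm (f := fun x y => wt m ζ *
      (if x ∈ ζ.1 ∧ y ∉ ζ.1 ∧ η.1 = insert y (ζ.1.erase x) then jump ω x y else 0))]
  refine Finset.sum_congr rfl fun x _ => ?_
  rw [Finset.mul_sum]
  refine Finset.sum_congr rfl fun y _ => ?_
  by_cases h : x ∈ η.1 ∧ y ∉ η.1 ∧ ζ.1 = insert y (η.1.erase x)
  · have h' := move_symm.1 h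
    rw [if_pos h, if_pos h']
    have h1 := wt_move (m := m) h.1 h.2.1 h.2.2
    have h2 := hrev x y
    have h3 : m x * (wt m η * jump ω x y) = m x * (wt m ζ * jump ω y x) := by
      calc m x * (wt m η * jump ω x y) = wt m η * (m x * jump ω x y) := by ring
        _ = (m y * wt m η) * jump ω y x := by rw [h2]; ring
        _ = m x * (wt m ζ * jump ω y x) := by rw [← h1]; ring
    exact mul_left_cancel₀ (hm x).ne' h3
  · have h' : ¬(y ∈ ζ.1 ∧ x ∉ ζ.1 ∧ η.1 = insert x (ζ.1.erase y)) := fun h'' =>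
      h (move_symm.2 h'')
    rw [if_neg h, if_neg h', mul_zero, mul_zero]

theorem stationary_of_rev {ω m : Fin N → ℝ} (hm : ∀ x, 0 < m x) (hrev : Rev ω m)
    (ζ : Conf N k) : ∑ η, wt m η * gen ω η ζ = 0 := by
  have h1 : ∀ η : Conf N k, wt m η * gen ω η ζ = wt m ζ * gen ω ζ η := by
    intro η
    by_cases h : η = ζ
    · rw [h]
    · rw [gen_off h, gen_off (Ne.symm h)]
      exact detailed_balance hm hrev η ζ
  rw [Finset.sum_congr rfl fun η _ => h1 η, ← Finset.mul_sum, gen_row, mul_zero]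

/-- swap bound -/
theorem swap_bound {m : Fin N → ℝ} (hm : ∀ x, 0 < m x) (x y : Fin N) :
    ∑ η : Conf N k with x ∈ η.1 ∧ y ∉ η.1, wt m η ≤ (m x / m y) * ∑ ζ : Conf N k, wt m ζ := by
  classical
  -- the swap map
  let g : Conf N k → Conf N k := fun η =>
    if h : x ∈ η.1 ∧ y ∉ η.1 then
      ⟨insert y (η.1.erase x), by
        rw [Finset.card_insert_of_notMem (fun h' => h.2 (Finset.mem_of_mem_erase h')),
          Finset.card_erase_of_mem h.1, η.2]
        have : 0 < η.1.card := Finset.card_pos.2 ⟨x, h.1⟩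
        rw [η.2] at this
        omega⟩
    else η
  have hg : ∀ η : Conf N k, x ∈ η.1 ∧ y ∉ η.1 → (g η).1 = insert y (η.1.erase x) := by
    intro η h
    simp only [g, dif_pos h]
  have hinj : Set.InjOn g (↑(univ.filter fun η : Conf N k => x ∈ η.1 ∧ y ∉ η.1)) := by
    intro η hη ζ hζ h
    simp only [coe_filter, mem_univ, true_and, Set.mem_ofPred_eq] at hη hζ
    have h1 := move_symm.1 ⟨hη.1, hη.2, hg η hη⟩
    have h2 := move_symm.1 ⟨hζ.1, hζ.2, hg ζ hζ⟩
    apply Subtype.ext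
    rw [h1.2.2, h2.2.2, h]
  have h1 : ∀ η ∈ univ.filter (fun η : Conf N k => x ∈ η.1 ∧ y ∉ η.1),
      wt m η = (m x / m y) * wt m (g η) := by
    intro η hη
    simp only [mem_filter, mem_univ, true_and] at hη
    have h2 := wt_move (m := m) hη.1 hη.2 (hg η hη)
    have := (hm y).ne'
    field_simp
    linarith
  rw [Finset.sum_congr rfl h1, ← Finset.mul_sum]
  refine mul_le_mul_of_nonneg_left ?_ (div_nonneg (hm x).le (hm y).le)
  rw [← Finset.sum_image (f := fun ζ => wt m ζ) hinj]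
  exact Finset.sum_le_univ_sum_of_nonneg fun ζ => (wt_pos hm ζ).le

/-- a legal neighbour move has positive rate -/
theorem rate_pos {ω : Fin N → ℝ} (h : ∀ x, 0 < ω x ∧ ω x < 1) {η ζ : Conf N k} {x y : Fin N}
    (hx : x ∈ η.1) (hy : y ∉ η.1) (hζ : ζ.1 = insert y (η.1.erase x))
    (hxy : y.val = x.val + 1 ∨ x.val = y.val + 1) : 0 < rate ω η ζ := by
  have hw : ∀ x, 0 ≤ ω x ∧ ω x ≤ 1 := fun x => ⟨(h x).1.le, (h x).2.le⟩
  have hj : 0 < jump ω x y := by
    unfold jump
    rcases hxy with h1 | h1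
    · rw [if_pos h1]; exact (h x).1
    · rw [if_neg (by omega), if_pos h1]; linarith [(h x).2]
  unfold rate
  refine lt_of_lt_of_le hj ?_
  have h1 : jump ω x y = if x ∈ η.1 ∧ y ∉ η.1 ∧ ζ.1 = insert y (η.1.erase x) then jump ω x y
      else 0 := by rw [if_pos ⟨hx, hy, hζ⟩]
  have hnn : ∀ x y, 0 ≤ (if x ∈ η.1 ∧ y ∉ η.1 ∧ ζ.1 = insert y (η.1.erase x) then jump ω x y
      else 0) := by
    intro x y
    split_ifs
    · exact jump_nonneg hw x y
    · exact le_rfl
  rw [h1]
  refine le_trans ?_ (Finset.single_le_sum (f := fun x => ∑ y : Fin N,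
    if x ∈ η.1 ∧ y ∉ η.1 ∧ ζ.1 = insert y (η.1.erase x) then jump ω x y else 0)
    (fun x _ => Finset.sum_nonneg fun y _ => hnn x y) (mem_univ x))
  exact Finset.single_le_sum (f := fun y =>
    if x ∈ η.1 ∧ y ∉ η.1 ∧ ζ.1 = insert y (η.1.erase x) then jump ω x y else 0)
    (fun y _ => hnn x y) (mem_univ y)

/-- the step relation -/
def Step (ω : Fin N → ℝ) (η ζ : Conf N k) : Prop := η ≠ ζ ∧ 0 < gen ω η ζ

theorem step_of_move {ω : Fin N → ℝ} (h : ∀ x, 0 < ω x ∧ ω x < 1) {η ζ : Conf N k} {x y : Fin N}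
    (hx : x ∈ η.1) (hy : y ∉ η.1) (hζ : ζ.1 = insert y (η.1.erase x))
    (hxy : y.val = x.val + 1 ∨ x.val = y.val + 1) : Step ω η ζ := by
  have hne : η ≠ ζ := by
    intro h'
    apply hy
    rw [h', hζ]
    exact Finset.mem_insert_self _ _
  refine ⟨hne, ?_⟩
  rw [gen_off hne]
  exact rate_pos h hx hy hζ hxy

/-- a left-packed configuration is determined by its cardinality -/
theorem packed_eq {η : Finset (Fin N)} (hη : ∀ x ∈ η, ∀ y : Fin N, x.val = y.val + 1 → y ∈ η) :
    η = univ.filter (fun x : Fin N => x.val < η.card) := by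
  have hdown : ∀ d : ℕ, ∀ x ∈ η, ∀ y : Fin N, x.val = y.val + d → y ∈ η := by
    intro d
    induction d with
    | zero =>
      intro x hx y hxy
      have : x = y := Fin.ext (by omega)
      rwa [← this]
    | succ d ih =>
      intro x hx y hxy
      have h1 : y.val + 1 < N := by have := x.2; omega
      have h2 : (⟨y.val + 1, h1⟩ : Fin N) ∈ η := ih x hx ⟨y.val + 1, h1⟩ (by simp only; omega)
      exact hη ⟨y.val + 1, h1⟩ h2 y rfl
  -- every element is `< card`
  have hsub : η ⊆ univ.filter (fun x : Fin N => x.val < η.card) := by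
    intro x hx
    simp only [mem_filter, mem_univ, true_and]
    have h1 : (univ.filter fun y : Fin N => y.val ≤ x.val) ⊆ η := by
      intro y hy
      simp only [mem_filter, mem_univ, true_and] at hy
      exact hdown (x.val - y.val) x hx y (by omega)
    have h2 := Finset.card_le_card h1
    have h3 : (univ.filter fun y : Fin N => y.val ≤ x.val).card = x.val + 1 := by
      have : (univ.filter fun y : Fin N => y.val ≤ x.val) = Finset.Iic x := by
        ext y
        simp only [mem_filter, mem_univ, true_and, Finset.mem_Iic, Fin.le_def]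
      rw [this, Fin.card_Iic]
    omega
  refine Finset.eq_of_subset_of_card_le hsub ?_
  have h4 : (univ.filter (fun x : Fin N => x.val < η.card)).card ≤ η.card := by
    have h5 : ((univ.filter (fun x : Fin N => x.val < η.card)).image Fin.val) ⊆
        Finset.range η.card := by
      intro i hi
      simp only [mem_image, mem_filter, mem_univ, true_and] at hi
      obtain ⟨x, hx, rfl⟩ := hi
      exact Finset.mem_range.2 hx
    have h6 := Finset.card_le_card h5
    rw [Finset.card_image_of_injective _ Fin.val_injective, Finset.card_range] at h6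
    exact h6
  exact h4

/-- every configuration is connected to a left-packed one -/
theorem to_packed {ω : Fin N → ℝ} (h : ∀ x, 0 < ω x ∧ ω x < 1) :
    ∀ (n : ℕ) (η : Conf N k), ∑ x ∈ η.1, x.val = n →
      ∃ ζ : Conf N k, ζ.1 = univ.filter (fun x : Fin N => x.val < k) ∧
        Relation.ReflTransGen (Step ω) η ζ ∧ Relation.ReflTransGen (Step ω) ζ η := by
  intro n
  induction n using Nat.strong_induction_on with
  | _ n ih =>
    intro η hn
    by_cases hp : ∀ x ∈ η.1, ∀ y : Fin N, x.val = y.val + 1 → y ∈ η.1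
    · refine ⟨η, ?_, Relation.ReflTransGen.refl, Relation.ReflTransGen.refl⟩
      have := packed_eq hp
      rwa [η.2] at this
    · push Not at hp
      obtain ⟨x, hx, y, hxy, hy⟩ := hp
      have hcard : (insert y (η.1.erase x)).card = k := by
        rw [Finset.card_insert_of_notMem (fun h' => hy (Finset.mem_of_mem_erase h')),
          Finset.card_erase_of_mem hx, η.2]
        have : 0 < η.1.card := Finset.card_pos.2 ⟨x, hx⟩
        rw [η.2] at this
        omega
      set ξ : Conf N k := ⟨insert y (η.1.erase x), hcard⟩ with hξ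
      have hs1 : Step ω η ξ := step_of_move h hx hy rfl (Or.inr hxy)
      have hback := move_symm.1 ⟨hx, hy, (rfl : ξ.1 = insert y (η.1.erase x))⟩
      have hs2 : Step ω ξ η := step_of_move h hback.1 hback.2.1 hback.2.2 (Or.inl hxy)
      have hlt : ∑ z ∈ ξ.1, z.val < n := by
        rw [← hn, ← Finset.add_sum_erase η.1 (fun z => z.val) hx]
        show ∑ z ∈ insert y (η.1.erase x), z.val < _
        rw [Finset.sum_insert (fun h' => hy (Finset.mem_of_mem_erase h'))]
        omega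
      obtain ⟨ζ, h1, h2, h3⟩ := ih _ hlt ξ rfl
      exact ⟨ζ, h1, Relation.ReflTransGen.head hs1 h2, h3.tail hs2⟩

theorem irreducible {ω : Fin N → ℝ} (h : ∀ x, 0 < ω x ∧ ω x < 1) (η ζ : Conf N k) :
    Relation.ReflTransGen (fun a b => a ≠ b ∧ 0 < gen ω a b) η ζ := by
  obtain ⟨η', h1, h2, -⟩ := to_packed h _ η rfl
  obtain ⟨ζ', h3, -, h4⟩ := to_packed h _ ζ rfl
  have h5 : η' = ζ' := Subtype.ext (h1.trans h3.symm)
  rw [h5] at h2
  exact h2.trans h4

end Pool.Agent.V11325.ExclRE
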