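import Pool.Agent.V11325.FlwNum

/-!
Analytic consequences of the kernel check for the flower counterexample (MP_38b438).
-/

namespace Pool.Agent.V11325.Flw

open Complex

/-- `β' = 5.65` rounded down to 40 bits -/
noncomputable def beta : ℝ := 6212240696934 / 1099511627776

lemma leafc_spec {cs : List Cert} {w : ℕ} {z : ℤ × ℤ} (h : leafc cs w z = true) (c : Cert)
    (hc : c ∈ cs) (hw : ¬ (c.lo ≤ w ∧ w < c.hi)) (u : ℕ)
    (hu : u = (2 * w) % 4096 ∨ u = (2 * w) % 4096 + 1) :
    max (fv z) (fv (cmul z W0)) + 125000000 + 8589934592 * (c.phi u : ℤ)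
      ≤ 6212240696934 + 8589934592 * (c.phi w : ℤ) := by
  unfold leafc at h
  split at h
  · exact absurd h (by simp)
  · rename_i k hk
    rw [List.all_eq_true] at h
    have h1 := h c hc
    rw [Bool.or_eq_true] at h1
    rcases h1 with h1 | h1
    · exfalso
      apply hw
      rw [Bool.and_eq_true] at h1
      refine ⟨Nat.le_of_ble_eq_true h1.1, ?_⟩
      have := h1.2
      unfold Nat.blt at this
      exact Nat.le_of_ble_eq_true this
    · have h2 := Nat.le_of_ble_eq_true h1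
      have h3 : c.phi u ≤ max (c.phi ((2 * w) % 4096)) (c.phi ((2 * w) % 4096 + 1)) := by
        rcases hu with rfl | rfl
        · exact le_max_left _ _
        · exact le_max_right _ _
      have h4 := Int.self_le_toNat (max (fv z) (fv (cmul z W0)) + (125000000 + 35184372088832))
      rw [hk] at h4
      have h5 : (k + 1 : ℕ) + 8589934592 * c.phi u ≤ 41396612785766 + 8589934592 * c.phi w := by
        refine le_trans ?_ h2
        gcongr
      have h6 : ((k + 1 : ℕ) : ℤ) + 8589934592 * (c.phi u : ℤ) ≤ 41396612785766 + 8589934592 * (c.phi w : ℤ) := by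
        exact_mod_cast h5
      linarith

lemma hcos (k t : ℝ) : HasDerivAt (fun t => Real.cos (k * t)) (-(k * Real.sin (k * t))) t := by
  have := ((hasDerivAt_id t).const_mul k).cos
  simp only [id] at this
  convert this using 1
  ring

lemma hsin (k t : ℝ) : HasDerivAt (fun t => Real.sin (k * t)) (k * Real.cos (k * t)) t := by
  have := ((hasDerivAt_id t).const_mul k).sin
  simp only [id] at this
  convert this using 1
  ring

/-- first derivative of `F t + 6000 t^2` -/
noncomputable def F1 (t : ℝ) : ℝ :=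
  2 * Real.pi * (5 * Real.sin (2 * Real.pi * t) + 8 * Real.cos (2 * Real.pi * t))
    + 66 * Real.pi * Real.sin (6 * Real.pi * t) - 10 * Real.pi * Real.sin (10 * Real.pi * t)
    + 60 * Real.pi * Real.cos (10 * Real.pi * t) + 12000 * t

/-- second derivative of `F t + 6000 t^2` -/
noncomputable def F2 (t : ℝ) : ℝ :=
  Real.pi ^ 2 * (20 * Real.cos (2 * Real.pi * t) - 32 * Real.sin (2 * Real.pi * t)
    + 396 * Real.cos (6 * Real.pi * t) - 100 * Real.cos (10 * Real.pi * t)
    - 600 * Real.sin (10 * Real.pi * t)) + 12000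

lemma F_d1 (t : ℝ) : HasDerivAt (fun t => F t + 6000 * t ^ 2) (F1 t) t := by
  unfold F F1
  have h := (((((hcos (2 * Real.pi) t).const_mul (-5)).add ((hsin (2 * Real.pi) t).const_mul 8)).sub
    ((hcos (6 * Real.pi) t).const_mul 11)).add (hcos (10 * Real.pi) t)).add
    ((hsin (10 * Real.pi) t).const_mul 6)
  have h2 := h.add (((hasDerivAt_id t).pow 2).const_mul 6000)
  refine HasDerivAt.congr_deriv h2 ?_
  simp only [id]
  push_cast
  ring

lemma F_d2 (t : ℝ) : HasDerivAt F1 (F2 t) t := by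
  unfold F1 F2
  have h := (((((((hsin (2 * Real.pi) t).const_mul 5).add ((hcos (2 * Real.pi) t).const_mul 8)).const_mul (2 * Real.pi)).add
    ((hsin (6 * Real.pi) t).const_mul (66 * Real.pi))).sub ((hsin (10 * Real.pi) t).const_mul (10 * Real.pi))).add
    ((hcos (10 * Real.pi) t).const_mul (60 * Real.pi))).add ((hasDerivAt_id t).const_mul 12000)
  refine HasDerivAt.congr_deriv h ?_
  ring

lemma F2_nonneg (t : ℝ) : 0 ≤ F2 t := by
  unfold F2
  have hp : Real.pi ^ 2 ≤ 10 := by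
    have := Real.pi_lt_d2
    nlinarith [Real.pi_pos]
  have hp0 : 0 ≤ Real.pi ^ 2 := by positivity
  have a1 := Real.neg_one_le_cos (2 * Real.pi * t)
  have a2 := Real.sin_le_one (2 * Real.pi * t)
  have a3 := Real.neg_one_le_cos (6 * Real.pi * t)
  have a4 := Real.cos_le_one (10 * Real.pi * t)
  have a5 := Real.sin_le_one (10 * Real.pi * t)
  have : -1148 ≤ (20 * Real.cos (2 * Real.pi * t) - 32 * Real.sin (2 * Real.pi * t)
    + 396 * Real.cos (6 * Real.pi * t) - 100 * Real.cos (10 * Real.pi * t)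
    - 600 * Real.sin (10 * Real.pi * t)) := by linarith
  nlinarith

lemma F_convex : ConvexOn ℝ Set.univ (fun t => F t + 6000 * t ^ 2) := by
  have hd : deriv (fun t => F t + 6000 * t ^ 2) = F1 := funext fun t => (F_d1 t).deriv
  apply convexOn_univ_of_deriv2_nonneg
  · exact fun t => (F_d1 t).differentiableAt
  · rw [hd]; exact fun t => (F_d2 t).differentiableAt
  · intro t
    simp only [Function.iterate_succ, Function.iterate_zero, Function.comp, id]
    rw [hd, (F_d2 t).deriv]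
    exact F2_nonneg t

lemma F_cell (a t : ℝ) (h1 : a ≤ t) (h2 : t ≤ a + 1 / 4096) :
    F t ≤ max (F a) (F (a + 1 / 4096)) + 1 / 10000 := by
  set l : ℝ := (t - a) * 4096 with hl
  have hl0 : 0 ≤ l := by rw [hl]; linarith
  have hl1 : l ≤ 1 := by rw [hl]; linarith
  have ht : t = (1 - l) * a + l * (a + 1 / 4096) := by rw [hl]; ring
  have hc := F_convex.2 (Set.mem_univ a) (Set.mem_univ (a + 1 / 4096)) (by linarith : 0 ≤ 1 - l) hl0 (by ring)
  simp only [smul_eq_mul] at hc
  rw [← ht] at hc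
  have m1 := le_max_left (F a) (F (a + 1 / 4096))
  have m2 := le_max_right (F a) (F (a + 1 / 4096))
  set m := max (F a) (F (a + 1 / 4096)) with hm
  have e1 : (1 - l) * F a + l * F (a + 1 / 4096) ≤ m := by nlinarith
  have e2 : (1 - l) * (6000 * a ^ 2) + l * (6000 * (a + 1 / 4096) ^ 2) - 6000 * t ^ 2 ≤ 1 / 10000 := by
    have : (1 - l) * (6000 * a ^ 2) + l * (6000 * (a + 1 / 4096) ^ 2) - 6000 * t ^ 2
        = 6000 * (l * (1 - l)) / 4096 ^ 2 := by
      rw [ht]; ring
    rw [this]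
    have : l * (1 - l) ≤ 1 / 4 := by nlinarith [sq_nonneg (l - 1 / 2)]
    linarith
  linarith

theorem num_main (c : Cert) (hc : c ∈ certs) (w : ℕ) (hw4 : w < 4096)
    (hw : ¬ (c.lo ≤ w ∧ w < c.hi)) (t : ℝ) (h1 : (w : ℝ) / 4096 ≤ t) (h2 : t ≤ ((w : ℝ) + 1) / 4096)
    (u : ℕ) (hu : u = (2 * w) % 4096 ∨ u = (2 * w) % 4096 + 1) :
    F t + (c.phi u : ℝ) / 128 ≤ beta + (c.phi w : ℝ) / 128 := by
  have h0 : Apx (E (((0 : ℕ) : ℝ) * 2 ^ 12 / 4096)) ((1099511627776, 0) : ℤ × ℤ) ((12 - (12 : ℕ)) * 12300) := by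
    simp [Apx, E_zero]
  obtain ⟨Z, hZ, hl⟩ := walk_spec (leafc certs) 12 le_rfl 0 _ h0 walk_ok w (by norm_num; exact hw4)
  rw [show 0 * 2 ^ 12 + w = w by simp] at hZ hl
  have hZ' : Apx (E ((w : ℝ) / 4096 + 1 / 4096)) (cmul Z W0) 147606 := by
    have := Apx.mul (E_norm _).le (E_norm _).le hZ W0_apx (by norm_num)
    rw [← E_add] at this
    exact this.mono (by norm_num)
  have f1 := fv_spec hZ (by norm_num) (by norm_num)
  have f2 := fv_spec hZ' (by norm_num) (by norm_num)
  have hL := leafc_spec hl c hc hw u hu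
  have hL' : (max (fv Z) (fv (cmul Z W0)) : ℝ) + 125000000 + 8589934592 * (c.phi u : ℝ)
      ≤ 6212240696934 + 8589934592 * (c.phi w : ℝ) := by exact_mod_cast hL
  have hcell := F_cell ((w : ℝ) / 4096) t h1 (by linarith [show ((w : ℝ) + 1) / 4096 = (w : ℝ) / 4096 + 1 / 4096 by ring])
  have m1 := le_max_left (fv Z : ℝ) (fv (cmul Z W0))
  have m2 := le_max_right (fv Z : ℝ) (fv (cmul Z W0))
  have hmx : 1099511627776 * max (F ((w : ℝ) / 4096)) (F ((w : ℝ) / 4096 + 1 / 4096)) ≤ (max (fv Z) (fv (cmul Z W0)) : ℝ) + 12000000 := by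
    rw [abs_le] at f1 f2
    rcases max_choice (F ((w : ℝ) / 4096)) (F ((w : ℝ) / 4096 + 1 / 4096)) with h | h
    · rw [h]; linarith [f1.1, f1.2]
    · rw [h]; linarith [f2.1, f2.2]
  unfold beta
  have : 1099511627776 * (F t + (c.phi u : ℝ) / 128) ≤ 1099511627776 * (6212240696934 / 1099511627776 + (c.phi w : ℝ) / 128) := by
    linarith
  exact le_of_mul_le_mul_left this (by norm_num)

/-! ### the reference orbit -/

/-- `m ↦ e^{2πi m/8191}` by binary powering -/
def hor : ℕ → ℕ → ℤ × ℤ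
  | 0, _ => (1099511627776, 0)
  | n + 1, m => if m % 2 = 1 then cmul (cmul (hor n (m / 2)) (hor n (m / 2))) V0
      else cmul (hor n (m / 2)) (hor n (m / 2))

lemma hor_spec : ∀ (n m : ℕ), n ≤ 13 → m < 2 ^ n → Apx (E ((m : ℝ) / 8191)) (hor n m) (9 * (2 ^ n - 1))
  | 0, m, _, hm => by
    have : m = 0 := by simpa using hm
    subst this
    simp [hor, Apx, E_zero]
  | n + 1, m, hn, hm => by
    have hm2 : m / 2 < 2 ^ n := by
      have : 2 ^ (n + 1) = 2 * 2 ^ n := by ring
      omega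
    have ih := hor_spec n (m / 2) (by omega) hm2
    have hn12 : (2:ℝ) ^ n ≤ 2 ^ 12 := pow_le_pow_right₀ (by norm_num) (by omega)
    have h1' : (1:ℝ) ≤ 2 ^ n := one_le_pow₀ (by norm_num)
    have hsq := Apx.mul (E_norm _).le (E_norm _).le ih ih (by nlinarith)
    rw [← E_add] at hsq
    rw [hor]
    have hp : (2:ℝ) ^ (n + 1) = 2 * 2 ^ n := by ring
    split_ifs with h
    · have := Apx.mul (E_norm _).le (E_norm _).le hsq V0_apx (by nlinarith)
      rw [← E_add] at this
      have hm' : (m : ℝ) / 8191 = ((m / 2 : ℕ) : ℝ) / 8191 + ((m / 2 : ℕ) : ℝ) / 8191 + 1 / 8191 := by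
        have : m = m / 2 + m / 2 + 1 := by omega
        have h2 : (m : ℝ) = ((m / 2 : ℕ) : ℝ) + ((m / 2 : ℕ) : ℝ) + 1 := by exact_mod_cast this
        rw [h2]
        have h3 : (((m / 2 : ℕ) : ℝ) + ((m / 2 : ℕ) : ℝ) + 1) / 8191 = ((m / 2 : ℕ) : ℝ) / 8191 + ((m / 2 : ℕ) : ℝ) / 8191 + 1 / 8191 := by ring
        exact h3
      rw [hm']
      exact this.mono (by rw [hp]; linarith)
    · have hm' : (m : ℝ) / 8191 = ((m / 2 : ℕ) : ℝ) / 8191 + ((m / 2 : ℕ) : ℝ) / 8191 := by
        have : m = m / 2 + m / 2 := by omega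
        have h2 : (m : ℝ) = ((m / 2 : ℕ) : ℝ) + ((m / 2 : ℕ) : ℝ) := by exact_mod_cast this
        rw [h2]
        have h3 : (((m / 2 : ℕ) : ℝ) + ((m / 2 : ℕ) : ℝ)) / 8191 = ((m / 2 : ℕ) : ℝ) / 8191 + ((m / 2 : ℕ) : ℝ) / 8191 := by ring
        exact h3
      rw [hm']
      exact hsq.mono (by rw [hp]; linarith)

/-- numerators of the 13-periodic orbit -/
def ms : Fin 13 → ℕ := ![461, 922, 1844, 3688, 7376, 6561, 4931, 1671, 3342, 6684, 5177, 2163, 4326]

lemma ms_lt : ∀ i, ms i < 2 ^ 13 := by decide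

lemma ref_ok : 13 * 6212240696934 + 13 * 5971389 < ∑ i : Fin 13, fv (hor 13 (ms i)) := by
  decide +kernel

theorem ref_main : 13 * beta < ∑ i : Fin 13, F ((ms i : ℝ) / 8191) := by
  have h : ∀ i : Fin 13, (fv (hor 13 (ms i)) : ℝ) - 5971389 ≤ 1099511627776 * F ((ms i : ℝ) / 8191) := by
    intro i
    have h1 := hor_spec 13 (ms i) le_rfl (ms_lt i)
    have h2 := fv_spec h1 (by norm_num) (by norm_num)
    rw [abs_le] at h2
    linarith [h2.1]
  have h3 := Finset.sum_le_sum (fun i (_ : i ∈ Finset.univ) => h i)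
  rw [Finset.sum_sub_distrib, ← Finset.mul_sum] at h3
  have h4 : (13 * 6212240696934 + 13 * 5971389 : ℝ) < ∑ i : Fin 13, (fv (hor 13 (ms i)) : ℝ) := by
    exact_mod_cast ref_ok
  simp only [Finset.sum_const, Finset.card_univ, Fintype.card_fin, nsmul_eq_mul] at h3
  unfold beta
  push_cast at h3
  linarith

end Pool.Agent.V11325.Flw
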