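import Mathlib

/-!
# Interference queues: a finitely supported sub-eigenvector
-/

open Finset Filter Topology

namespace Pool.Agent.V11325.Iq

variable {d : ℕ}

/-- sites -/
abbrev Site (d : ℕ) := Fin d → ℤ

/-- convolution with `a` -/
noncomputable def conv (a : Site d →₀ ℝ) (f : Site d → ℝ) (x : Site d) : ℝ :=
  ∑ j ∈ a.support, a j * f (x - j)

/-- convolution powers -/
noncomputable def pw (a : Site d →₀ ℝ) : ℕ → Site d → ℝ
  | 0, x => if x = 0 then 1 else 0
  | n + 1, x => conv a (pw a n) x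

/-- total mass -/
noncomputable def mass (a : Site d →₀ ℝ) : ℝ := ∑ j ∈ a.support, a j

theorem pw_nonneg {a : Site d →₀ ℝ} (h : ∀ j, 0 ≤ a j) (n : ℕ) (x : Site d) : 0 ≤ pw a n x := by
  induction n generalizing x with
  | zero => unfold pw; split_ifs <;> norm_num
  | succ n ih =>
    show 0 ≤ conv a (pw a n) x
    exact Finset.sum_nonneg fun j _ => mul_nonneg (h j) (ih _)

theorem pw_symm {a : Site d →₀ ℝ} (h : ∀ j, a (-j) = a j) (n : ℕ) (x : Site d) :
    pw a n (-x) = pw a n x := by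
  induction n generalizing x with
  | zero =>
    unfold pw
    simp
  | succ n ih =>
    show conv a (pw a n) (-x) = conv a (pw a n) x
    unfold conv
    refine Finset.sum_nbij' (fun j => -j) (fun j => -j) ?_ ?_ ?_ ?_ ?_
    · intro j hj
      rw [Finsupp.mem_support_iff] at hj ⊢
      rwa [h]
    · intro j hj
      rw [Finsupp.mem_support_iff] at hj ⊢
      rwa [h]
    · intro j _
      exact neg_neg j
    · intro j _
      exact neg_neg j
    · intro j _
      rw [h, ← ih]
      congr 2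
      abel

/-- supermultiplicativity -/
theorem pw_add_ge {a : Site d →₀ ℝ} (h : ∀ j, 0 ≤ a j) (m n : ℕ) (x y : Site d) :
    pw a m x * pw a n (y - x) ≤ pw a (m + n) y := by
  induction m generalizing x y with
  | zero =>
    by_cases hx : x = 0
    · subst hx
      simp [pw]
    · have : pw a 0 x = 0 := by simp [pw, hx]
      rw [this, zero_mul]
      exact pw_nonneg h _ _
  | succ m ih =>
    have e1 : m + 1 + n = (m + n) + 1 := by ring
    rw [e1]
    show conv a (pw a m) x * pw a n (y - x) ≤ conv a (pw a (m + n)) y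
    unfold conv
    rw [Finset.sum_mul]
    refine Finset.sum_le_sum fun j _ => ?_
    have h1 := ih (x - j) (y - j)
    have e2 : y - j - (x - j) = y - x := by abel
    rw [e2] at h1
    rw [mul_assoc]
    exact mul_le_mul_of_nonneg_left h1 (h j)

/-- box -/
noncomputable def box (R : ℕ) : Finset (Site d) := Fintype.piFinset (fun _ => Finset.Icc (-(R : ℤ)) R)

theorem mem_box {R : ℕ} {x : Site d} : x ∈ box R ↔ ∀ k, |x k| ≤ R := by
  unfold box
  rw [Fintype.mem_piFinset]
  simp only [Finset.mem_Icc, abs_le]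

theorem card_box (R : ℕ) : (box R : Finset (Site d)).card = (2 * R + 1) ^ d := by
  unfold box
  rw [Fintype.card_piFinset]
  simp only [Int.card_Icc, Finset.prod_const, Finset.card_univ, Fintype.card_fin]
  congr 1
  omega

theorem pw_support {a : Site d →₀ ℝ} {L : ℕ} (hL : ∀ j ∈ a.support, j ∈ (box L : Finset (Site d)))
    (n : ℕ) (x : Site d) (hx : pw a n x ≠ 0) : x ∈ (box (n * L) : Finset (Site d)) := by
  induction n generalizing x with
  | zero =>
    have h1 : x = 0 := by
      by_contra hne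
      exact hx (by simp [pw, hne])
    rw [mem_box, h1]
    simp
  | succ n ih =>
    have h1 : conv a (pw a n) x ≠ 0 := hx
    unfold conv at h1
    obtain ⟨j, hj, hne⟩ := Finset.exists_ne_zero_of_sum_ne_zero h1
    have h2 := ih (x - j) (right_ne_zero_of_mul hne)
    have h3 := hL j hj
    rw [mem_box] at *
    intro k
    have h4 := h2 k
    have h5 := h3 k
    have h6 : x k = (x - j) k + j k := by simp
    rw [h6]
    refine (abs_add_le _ _).trans ?_
    push_cast at *
    linarith

theorem pw_finite {a : Site d →₀ ℝ} {L : ℕ} (hL : ∀ j ∈ a.support, j ∈ (box L : Finset (Site d)))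
    (n : ℕ) : (Function.support (pw a n)).Finite :=
  (Finset.finite_toSet (box (n * L))).subset fun x hx => pw_support hL n x hx

theorem pw_mass {a : Site d →₀ ℝ} {L : ℕ} (hL : ∀ j ∈ a.support, j ∈ (box L : Finset (Site d)))
    (n : ℕ) : ∑' x, pw a n x = mass a ^ n := by
  induction n with
  | zero =>
    rw [tsum_eq_single 0]
    · simp [pw]
    · intro x hx
      simp [pw, hx]
  | succ n ih =>
    have h1 : ∀ x, pw a (n + 1) x = ∑ j ∈ a.support, a j * pw a n (x - j) := fun x => rfl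
    simp only [h1]
    have hs : Summable (pw a n) := summable_of_hasFiniteSupport (pw_finite hL n)
    have hs' : ∀ j : Site d, Summable (fun x => a j * pw a n (x - j)) := by
      intro j
      have := (Equiv.subRight j).summable_iff.2 hs
      exact this.mul_left _
    rw [Summable.tsum_finsetSum (fun j _ => hs' j)]
    have h2 : ∀ j ∈ a.support, ∑' x, a j * pw a n (x - j) = a j * mass a ^ n := by
      intro j _
      rw [tsum_mul_left, ← ih]
      congr 1
      exact (Equiv.subRight j).tsum_eq (pw a n)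
    rw [Finset.sum_congr rfl h2, ← Finset.sum_mul, pow_succ, mul_comm]
    rfl

/-- a large value -/
theorem pw_large {a : Site d →₀ ℝ} {L : ℕ} (hL : ∀ j ∈ a.support, j ∈ (box L : Finset (Site d)))
    (n : ℕ) : ∃ x, mass a ^ n / (2 * (n * L : ℕ) + 1 : ℝ) ^ d ≤ pw a n x := by
  by_contra hcon
  push Not at hcon
  have h1 : ∑' x, pw a n x = ∑ x ∈ (box (n * L) : Finset (Site d)), pw a n x := by
    apply tsum_eq_sum
    intro x hx
    by_contra hne
    exact hx (pw_support hL n x hne)
  have h2 : ∑ x ∈ (box (n * L) : Finset (Site d)), pw a n x <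
      ∑ x ∈ (box (n * L) : Finset (Site d)), mass a ^ n / (2 * (n * L : ℕ) + 1 : ℝ) ^ d := by
    apply Finset.sum_lt_sum_of_nonempty
    · exact ⟨0, by rw [mem_box]; intro k; simp; positivity⟩
    · intro x _
      exact hcon x
  rw [Finset.sum_const, card_box, nsmul_eq_mul, ← h1, pw_mass hL] at h2
  push_cast at h2
  rw [mul_div_cancel₀] at h2
  · exact lt_irrefl _ h2
  · positivity

/-- return mass -/
theorem pw_return {a : Site d →₀ ℝ} (ha : ∀ j, 0 ≤ a j) (hs : ∀ j, a (-j) = a j) {L : ℕ}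
    (hL : ∀ j ∈ a.support, j ∈ (box L : Finset (Site d))) (n : ℕ) :
    (mass a ^ n / (2 * (n * L : ℕ) + 1 : ℝ) ^ d) ^ 2 ≤ pw a (n + n) 0 := by
  obtain ⟨x, hx⟩ := pw_large hL n
  have h1 := pw_add_ge ha n n x 0
  rw [zero_sub, pw_symm hs] at h1
  refine le_trans ?_ h1
  rw [sq]
  have h2 : 0 ≤ mass a ^ n / (2 * (n * L : ℕ) + 1 : ℝ) ^ d := by
    apply div_nonneg
    · exact pow_nonneg (Finset.sum_nonneg fun j _ => ha j) _
    · positivity
  exact mul_le_mul hx hx h2 (pw_nonneg ha n x)

/-- exponential growth beats a polynomial -/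
theorem exists_large {r : ℝ} (hr : 1 < r) (L d : ℕ) :
    ∃ n : ℕ, 0 < n ∧ (2 * (n * L : ℕ) + 1 : ℝ) ^ d ≤ r ^ n := by
  have h1 : Tendsto (fun n : ℕ => (n : ℝ) ^ d / r ^ n) atTop (𝓝 0) :=
    tendsto_pow_const_div_const_pow_of_one_lt d hr
  have h2 : Tendsto (fun n : ℕ => (2 * L + 1 : ℝ) ^ d * ((n : ℝ) ^ d / r ^ n)) atTop
      (𝓝 ((2 * L + 1 : ℝ) ^ d * 0)) := h1.const_mul _
  rw [mul_zero] at h2
  obtain ⟨n, hn1, hn2⟩ := ((h2.eventually (gt_mem_nhds one_pos)).and
    (eventually_gt_atTop 0)).exists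
  refine ⟨n, hn2, ?_⟩
  have hn3 : (1 : ℝ) ≤ n := by exact_mod_cast hn2
  have h3 : (2 * (n * L : ℕ) + 1 : ℝ) ≤ (2 * L + 1) * n := by
    push_cast
    nlinarith
  have h4 : (2 * (n * L : ℕ) + 1 : ℝ) ^ d ≤ ((2 * L + 1) * n) ^ d :=
    pow_le_pow_left₀ (by positivity) h3 d
  refine h4.trans ?_
  rw [mul_pow]
  have h5 : 0 < r ^ n := by positivity
  rw [← mul_div_assoc, div_lt_one h5] at hn1
  exact hn1.le

/-- **A finitely supported sub-eigenvector** for every `ρ` below the total mass. -/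
theorem exists_sub {a : Site d →₀ ℝ} (ha : ∀ j, 0 ≤ a j) (hs : ∀ j, a (-j) = a j) {ρ : ℝ}
    (hρ : 0 < ρ) (hρ' : ρ < mass a) :
    ∃ (v : Site d → ℝ), (∀ x, 0 ≤ v x) ∧ (Function.support v).Finite ∧ 0 < v 0 ∧
      ∀ x, ρ * v x ≤ ∑ j ∈ a.support, a j * v (x - j) := by
  obtain ⟨L, hL⟩ : ∃ L : ℕ, ∀ j ∈ a.support, j ∈ (box L : Finset (Site d)) := by
    refine ⟨∑ j ∈ a.support, ∑ k, (j k).natAbs, ?_⟩
    intro j hj
    rw [mem_box]
    intro k
    have h1 : (j k).natAbs ≤ ∑ k, (j k).natAbs :=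
      Finset.single_le_sum (f := fun k => (j k).natAbs) (fun _ _ => Nat.zero_le _) (mem_univ k)
    have h2 : ∑ k, (j k).natAbs ≤ ∑ j ∈ a.support, ∑ k, (j k).natAbs :=
      Finset.single_le_sum (f := fun j : Site d => ∑ k, (j k).natAbs)
        (fun _ _ => Nat.zero_le _) hj
    have h3 : |j k| = ((j k).natAbs : ℤ) := (Int.natCast_natAbs _).symm
    rw [h3]
    exact_mod_cast h1.trans h2
  obtain ⟨n, hn, hbig⟩ := exists_large ((one_lt_div hρ).2 hρ') L d
  have hret : ρ ^ (n + n) ≤ pw a (n + n) 0 := by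
    refine le_trans ?_ (pw_return ha hs hL n)
    rw [pow_add, ← sq]
    apply pow_le_pow_left₀ (by positivity)
    rw [div_pow, le_div_iff₀ (by positivity)] at hbig
    rw [le_div_iff₀ (by positivity)]
    linarith
  refine ⟨fun x => ∑ k ∈ range (n + n), (ρ⁻¹) ^ k * pw a k x, ?_, ?_, ?_, ?_⟩
  · intro x
    exact Finset.sum_nonneg fun k _ => mul_nonneg (by positivity) (pw_nonneg ha k x)
  · apply Set.Finite.subset (Set.Finite.biUnion (Finset.finite_toSet (range (n + n)))
      (fun k _ => pw_finite hL k))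
    intro x hx
    obtain ⟨k, hk, hne⟩ := Finset.exists_ne_zero_of_sum_ne_zero (Function.mem_support.1 hx)
    exact Set.mem_biUnion hk (Function.mem_support.2 (right_ne_zero_of_mul hne))
  · have h1 : (ρ⁻¹) ^ 0 * pw a 0 0 ≤ ∑ k ∈ range (n + n), (ρ⁻¹) ^ k * pw a k (0 : Site d) :=
      Finset.single_le_sum (f := fun k => (ρ⁻¹) ^ k * pw a k (0 : Site d))
        (fun k _ => mul_nonneg (by positivity) (pw_nonneg ha k 0))
        (Finset.mem_range.2 (by omega))
    have h2 : (ρ⁻¹) ^ 0 * pw a 0 (0 : Site d) = 1 := by simp [pw]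
    linarith
  · intro x
    have h1 : ∑ j ∈ a.support, a j * ∑ k ∈ range (n + n), (ρ⁻¹) ^ k * pw a k (x - j) =
        ∑ k ∈ range (n + n), (ρ⁻¹) ^ k * pw a (k + 1) x := by
      simp only [Finset.mul_sum]
      rw [Finset.sum_comm]
      refine Finset.sum_congr rfl fun k _ => ?_
      show _ = (ρ⁻¹) ^ k * conv a (pw a k) x
      unfold conv
      rw [Finset.mul_sum]
      exact Finset.sum_congr rfl fun j _ => by ring
    rw [h1]
    have h2 : ∑ k ∈ range (n + n), (ρ⁻¹) ^ k * pw a (k + 1) x =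
        ρ * ∑ k ∈ range (n + n), (ρ⁻¹) ^ (k + 1) * pw a (k + 1) x := by
      rw [Finset.mul_sum]
      refine Finset.sum_congr rfl fun k _ => ?_
      rw [pow_succ]
      field_simp
    have h3 : ∑ k ∈ range (n + n), (ρ⁻¹) ^ (k + 1) * pw a (k + 1) x =
        ∑ k ∈ range (n + n), (ρ⁻¹) ^ k * pw a k x + (ρ⁻¹) ^ (n + n) * pw a (n + n) x -
          pw a 0 x := by
      have h4 := Finset.sum_range_succ' (fun k => (ρ⁻¹) ^ k * pw a k x) (n + n)
      rw [Finset.sum_range_succ] at h4
      simp only [pow_zero, one_mul] at h4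
      linarith
    rw [h2, h3]
    apply mul_le_mul_of_nonneg_left _ hρ.le
    have h5 : pw a 0 x ≤ (ρ⁻¹) ^ (n + n) * pw a (n + n) x := by
      by_cases hx : x = 0
      · subst hx
        have h6 : pw a 0 (0 : Site d) = 1 := by simp [pw]
        rw [h6, inv_pow, inv_mul_eq_div, one_le_div (by positivity)]
        exact hret
      · have h6 : pw a 0 x = 0 := by simp [pw, hx]
        rw [h6]
        exact mul_nonneg (by positivity) (pw_nonneg ha _ _)
    linarith

end Pool.Agent.V11325.Iq
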