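import Pool.Agent.V11325.IqA

/-!
# Interference queues: the consistency equations and the moving barrier
-/

open Finset Filter Topology

namespace Pool.Agent.V11325.Iq

variable {d : ℕ}

/-- Length of queue `i` just before time `t`: the number of arrivals before `t` minus the number of
accepted potential departures before `t`. -/
noncomputable def qpre (TA TD : Site d → ℕ → ℝ) (acc : Site d → ℕ → Prop) (i : Site d) (t : ℝ) :
    ℕ :=
  {n | TA i n < t}.ncard - {n | TD i n < t ∧ acc i n}.ncard

/-- Length of queue `i` at time `t`: the number of arrivals up to `t` minus the number of accepted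
potential departures up to `t`. -/
noncomputable def qlen (TA TD : Site d → ℕ → ℝ) (acc : Site d → ℕ → Prop) (i : Site d) (t : ℝ) :
    ℕ :=
  {n | TA i n ≤ t}.ncard - {n | TD i n ≤ t ∧ acc i n}.ncard

/-- The acceptance rule: the `n`-th potential departure of site `i`, which carries the mark
`U i n`, is accepted exactly when queue `i` is nonempty just before it and the mark is at most
`x_i / ∑_j a_j x_{i-j}`, the queue lengths being taken just before it. -/
def Consistent (a : Site d →₀ ℝ) (TA TD U : Site d → ℕ → ℝ) (acc : Site d → ℕ → Prop) : Prop :=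
  ∀ i n, acc i n ↔ 0 < qpre TA TD acc i (TD i n) ∧
    U i n * ∑ j ∈ a.support, a j * (qpre TA TD acc (i - j) (TD i n) : ℝ) ≤
      (qpre TA TD acc i (TD i n) : ℝ)

/-- **The moving barrier.** -/
theorem barrier {a : Site d →₀ ℝ} (ha : ∀ j, 0 ≤ a j) {TA TD U : Site d → ℕ → ℝ}
    {acc : Site d → ℕ → Prop} (hc : Consistent a TA TD U acc) {B : Finset (Site d)}
    {v : Site d → ℝ} (hv : ∀ i ∈ B, 0 < v i) (hv0 : ∀ i, i ∉ B → v i = 0) {ρ δ σ ε : ℝ}
    (hρ : 0 < ρ) (hδ : 0 < δ) (hσ : 0 < σ) (hε : 0 < ε)
    (hsub : ∀ i, ρ * v i ≤ ∑ j ∈ a.support, a j * v (i - j))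
    (hmono : ∀ i ∈ B, StrictMono (TD i)) (hfin : ∀ i ∈ B, ∀ t, {n | TD i n < t}.Finite)
    (hTD : ∀ i ∈ B, ∀ n, 1 ≤ TD i n)
    (H0 : ∀ i ∈ B, ∀ t, 1 ≤ t → (σ + ε * t) * v i ≤ ({n | TA i n < t}.ncard : ℝ) -
      ({n | TD i n < t ∧ U i n ≤ (1 + δ) / ρ}.ncard : ℝ))
    (H1 : ∀ i ∈ B, ∀ n t, TD i n < t → (σ + ε * t) * v i ≤
      (1 + δ) * (σ + ε * TD i n) * v i + (({n | TA i n < t}.ncard : ℝ) -
      ({m | TA i m < TD i n}.ncard : ℝ)) - 1 -
      ({m | (TD i n < TD i m ∧ TD i m < t) ∧ U i m ≤ (1 + δ) / ρ}.ncard : ℝ)) :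
    ∀ t, 1 ≤ t → ∀ i ∈ B, (σ + ε * t) * v i ≤ (qpre TA TD acc i t : ℝ) := by
  classical
  have main : ∀ N : ℕ, ∀ t, 1 ≤ t → ∑ j ∈ B, {n | TD j n < t}.ncard = N →
      ∀ i ∈ B, (σ + ε * t) * v i ≤ (qpre TA TD acc i t : ℝ) := by
    intro N
    induction N using Nat.strong_induction_on with
    | _ N ih =>
      intro t ht hN i hi
      have hf := hfin i hi t
      have hf1 : {n | TD i n < t ∧ acc i n}.Finite := hf.subset fun n hn => hn.1
      have hle : ({n | TA i n < t}.ncard : ℝ) - ({n | TD i n < t ∧ acc i n}.ncard : ℝ) ≤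
          (qpre TA TD acc i t : ℝ) := by
        unfold qpre
        have h2 : ({n | TA i n < t}.ncard : ℝ) ≤
            (({n | TA i n < t}.ncard - {n | TD i n < t ∧ acc i n}.ncard : ℕ) : ℝ) +
              ({n | TD i n < t ∧ acc i n}.ncard : ℝ) := by
          have h3 : {n | TA i n < t}.ncard ≤
              ({n | TA i n < t}.ncard - {n | TD i n < t ∧ acc i n}.ncard) +
                {n | TD i n < t ∧ acc i n}.ncard := by omega
          exact_mod_cast h3
        linarith
      -- exceptional accepted departures
      have hS : {n | (TD i n < t ∧ acc i n) ∧ ¬ U i n ≤ (1 + δ) / ρ}.Finite :=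
        hf1.subset fun n hn => hn.1
      rcases Set.eq_empty_or_nonempty {n | (TD i n < t ∧ acc i n) ∧ ¬ U i n ≤ (1 + δ) / ρ} with
        hemp | hne
      · have h1 : {n | TD i n < t ∧ acc i n} ⊆ {n | TD i n < t ∧ U i n ≤ (1 + δ) / ρ} := by
          intro n hn
          refine ⟨hn.1, ?_⟩
          by_contra hcon
          have : n ∈ {n | (TD i n < t ∧ acc i n) ∧ ¬ U i n ≤ (1 + δ) / ρ} := ⟨hn, hcon⟩
          rw [hemp] at this
          exact this
        have h2 : {n | TD i n < t ∧ acc i n}.ncard ≤
            {n | TD i n < t ∧ U i n ≤ (1 + δ) / ρ}.ncard :=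
          Set.ncard_le_ncard h1 (hf.subset fun n hn => hn.1)
        have h3 : ({n | TD i n < t ∧ acc i n}.ncard : ℝ) ≤
            ({n | TD i n < t ∧ U i n ≤ (1 + δ) / ρ}.ncard : ℝ) := by exact_mod_cast h2
        have h4 := H0 i hi t ht
        linarith
      · -- the last exceptional departure
        obtain ⟨n, hnS, hmax⟩ : ∃ n ∈ {n | (TD i n < t ∧ acc i n) ∧ ¬ U i n ≤ (1 + δ) / ρ},
            ∀ m ∈ {n | (TD i n < t ∧ acc i n) ∧ ¬ U i n ≤ (1 + δ) / ρ}, m ≤ n := by
          obtain ⟨n, hn, hn'⟩ := Set.exists_max_image _ id hS hne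
          exact ⟨n, hn, fun m hm => hn' m hm⟩
        obtain ⟨⟨hnt, hacc⟩, hU⟩ := hnS
        obtain ⟨r, hr⟩ : ∃ r, r = TD i n := ⟨_, rfl⟩
        have hr1 : 1 ≤ r := by rw [hr]; exact hTD i hi n
        have hNlt : ∑ j ∈ B, {m | TD j m < r}.ncard < N := by
          rw [← hN]
          apply Finset.sum_lt_sum
          · intro j hj
            refine Set.ncard_le_ncard (fun m hm => ?_) (hfin j hj t)
            have hm' : TD j m < r := hm
            rw [hr] at hm'
            exact hm'.trans hnt
          · refine ⟨i, hi, ?_⟩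
            apply Set.ncard_lt_ncard _ (hfin i hi t)
            refine ⟨fun m hm => ?_, fun hcon => ?_⟩
            · have hm' : TD i m < r := hm
              rw [hr] at hm'
              exact hm'.trans hnt
            · have h1 : n ∈ {m | TD i m < r} := hcon hnt
              have h2 : TD i n < r := h1
              rw [hr] at h2
              exact lt_irrefl _ h2
        have hIH := ih _ hNlt r hr1 rfl
        -- the rate bound
        have hσr : 0 < σ + ε * r := by positivity
        have hden : (σ + ε * r) * (ρ * v i) ≤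
            ∑ j ∈ a.support, a j * (qpre TA TD acc (i - j) r : ℝ) := by
          calc (σ + ε * r) * (ρ * v i) ≤ (σ + ε * r) * ∑ j ∈ a.support, a j * v (i - j) :=
                mul_le_mul_of_nonneg_left (hsub i) hσr.le
            _ = ∑ j ∈ a.support, a j * ((σ + ε * r) * v (i - j)) := by
                rw [Finset.mul_sum]
                exact Finset.sum_congr rfl fun j _ => by ring
            _ ≤ ∑ j ∈ a.support, a j * (qpre TA TD acc (i - j) r : ℝ) := by
                refine Finset.sum_le_sum fun j _ => mul_le_mul_of_nonneg_left ?_ (ha j)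
                by_cases hj : i - j ∈ B
                · exact hIH _ hj
                · rw [hv0 _ hj, mul_zero]
                  exact Nat.cast_nonneg _
        obtain ⟨hq, hUq⟩ := (hc i n).1 hacc
        rw [← hr] at hq hUq
        have hvi := hv i hi
        have hUpos : 0 < U i n := by
          have h1 : 0 < (1 + δ) / ρ := by positivity
          exact h1.trans (not_le.1 hU)
        have hqbig : (1 + δ) * (σ + ε * r) * v i ≤ (qpre TA TD acc i r : ℝ) := by
          have h1 : (1 + δ) / ρ * ((σ + ε * r) * (ρ * v i)) ≤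
              U i n * ∑ j ∈ a.support, a j * (qpre TA TD acc (i - j) r : ℝ) :=
            mul_le_mul (not_le.1 hU).le hden (by positivity) hUpos.le
          have h2 : (1 + δ) / ρ * ((σ + ε * r) * (ρ * v i)) = (1 + δ) * (σ + ε * r) * v i := by
            field_simp
          linarith
        -- counting
        have hqeq : (qpre TA TD acc i r : ℝ) = ({m | TA i m < r}.ncard : ℝ) -
            ({m | TD i m < r ∧ acc i m}.ncard : ℝ) := by
          have h1 : {m | TD i m < r ∧ acc i m}.ncard ≤ {m | TA i m < r}.ncard := by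
            unfold qpre at hq
            omega
          unfold qpre
          rw [Nat.cast_sub h1]
        have hcount : {m | TD i m < t ∧ acc i m}.ncard ≤ {m | TD i m < r ∧ acc i m}.ncard + 1 +
            {m | (TD i n < TD i m ∧ TD i m < t) ∧ U i m ≤ (1 + δ) / ρ}.ncard := by
          have hsubset : {m | TD i m < t ∧ acc i m} ⊆ ({m | TD i m < r ∧ acc i m} ∪ {n}) ∪
              {m | (TD i n < TD i m ∧ TD i m < t) ∧ U i m ≤ (1 + δ) / ρ} := by
            intro m hm
            rcases lt_trichotomy m n with h1 | h1 | h1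
            · left
              left
              refine ⟨?_, hm.2⟩
              rw [hr]
              exact hmono i hi h1
            · left
              right
              exact h1
            · right
              refine ⟨⟨hmono i hi h1, hm.1⟩, ?_⟩
              by_contra hcon
              have := hmax m ⟨hm, hcon⟩
              omega
          have hfr : ({m | TD i m < r ∧ acc i m} ∪ {n} ∪
              {m | (TD i n < TD i m ∧ TD i m < t) ∧ U i m ≤ (1 + δ) / ρ}).Finite := by
            refine Set.Finite.union (Set.Finite.union ?_ (Set.finite_singleton n)) ?_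
            · exact (hfin i hi r).subset fun m hm => hm.1
            · exact hf.subset fun m hm => hm.1.2
          refine (Set.ncard_le_ncard hsubset hfr).trans ?_
          refine (Set.ncard_union_le _ _).trans ?_
          have h2 := Set.ncard_union_le {m | TD i m < r ∧ acc i m} {n}
          rw [Set.ncard_singleton] at h2
          omega
        have hcount' : ({m | TD i m < t ∧ acc i m}.ncard : ℝ) ≤
            ({m | TD i m < r ∧ acc i m}.ncard : ℝ) + 1 +
            ({m | (TD i n < TD i m ∧ TD i m < t) ∧ U i m ≤ (1 + δ) / ρ}.ncard : ℝ) := by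
          exact_mod_cast hcount
        have h5 := H1 i hi n t hnt
        rw [← hr] at h5 hcount'
        linarith
  exact fun t ht i hi => main _ t ht rfl i hi

end Pool.Agent.V11325.Iq
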