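import Pool.Agent.V11325.IqB

/-!
# Interference queues: counting from the gaps of one site
-/

open Finset Filter Topology

namespace Pool.Agent.V11325.Iq

/-- partial sums -/
def psum (g : ℕ → ℝ) (n : ℕ) : ℝ := ∑ k ∈ range (n + 1), g k

theorem psum_strictMono {g : ℕ → ℝ} (hg : ∀ n, 0 < g n) : StrictMono (psum g) := by
  apply strictMono_nat_of_lt_succ
  intro n
  unfold psum
  rw [Finset.sum_range_succ _ (n + 1)]
  linarith [hg (n + 1)]

/-- the initial segment below `t` -/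
theorem cnt_spec {T : ℕ → ℝ} (hT : StrictMono T) {t : ℝ} (hub : ∃ n, t ≤ T n) :
    ∀ n, T n < t ↔ n < {n | T n < t}.ncard := by
  classical
  obtain ⟨K, hK⟩ : ∃ K, K = Nat.find hub := ⟨_, rfl⟩
  have h1 : t ≤ T K := by rw [hK]; exact Nat.find_spec hub
  have h2 : ∀ n, T n < t ↔ n < K := by
    intro n
    constructor
    · intro h
      by_contra hcon
      exact absurd (h1.trans (hT.monotone (not_lt.1 hcon))) (not_le.2 h)
    · intro h
      rw [hK] at h
      exact not_le.1 (Nat.find_min hub h)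
  have h3 : {n | T n < t} = Set.Iio K := by
    ext n
    exact h2 n
  have h4 : {n | T n < t}.ncard = K := by
    rw [h3, ← Finset.coe_Iio, Set.ncard_coe_finset, Nat.card_Iio]
  intro n
  rw [h4]
  exact h2 n

theorem cnt_finite {T : ℕ → ℝ} (hT : StrictMono T) {t : ℝ} (hub : ∃ n, t ≤ T n) :
    {n | T n < t}.Finite := by
  obtain ⟨K, hK⟩ := hub
  refine (Set.finite_Iio K).subset fun n hn => ?_
  by_contra hcon
  exact absurd (hK.trans (hT.monotone (not_lt.1 hcon))) (not_le.2 hn)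

theorem sum_Ico_psum (g : ℕ → ℝ) {m n : ℕ} (hmn : m ≤ n) :
    ∑ k ∈ Ico (m + 1) (n + 1), g k = psum g n - psum g m := by
  unfold psum
  rw [Finset.sum_Ico_eq_sub _ (by omega)]

theorem sum_Ico_const (c : ℝ) {m n : ℕ} (hmn : m ≤ n) :
    ∑ _k ∈ Ico m n, c = ((n : ℝ) - m) * c := by
  rw [Finset.sum_const, Nat.card_Ico, nsmul_eq_mul, Nat.cast_sub hmn]

/-- the event that everything goes well at one site -/
structure GoodSite (lam th e η : ℝ) (M : ℕ) (g h : ℕ → ℝ) (U : ℕ → ℝ) : Prop where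
  g_pos : ∀ n, 0 < g n
  h_pos : ∀ n, 0 < h n
  g_head : ∀ k < M, g k < 1 / M
  h_head : 1 ≤ h 0
  gS : ∀ n, M ≤ n → |∑ k ∈ Ico M n, (g k - 1 / lam)| ≤ e + η * n
  hS : ∀ n, 1 ≤ n → |∑ k ∈ Ico 1 n, (h k - 1)| ≤ e + η * n
  wS : ∀ m n, m ≤ n → ∑ k ∈ Ico m n, (if U k ≤ th then (1 : ℝ) else 0) ≤
    th * ((n : ℝ) - m) + e + η * n

section
variable {lam th e η : ℝ} {M : ℕ} {g h U : ℕ → ℝ}

theorem psum_head (hG : GoodSite lam th e η M g h U) (hM : 1 ≤ M) : psum g (M - 1) < 1 := by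
  unfold psum
  have h1 : M - 1 + 1 = M := by omega
  rw [h1]
  have h2 : ∑ k ∈ range M, g k < ∑ k ∈ range M, (1 / (M : ℝ)) := by
    apply Finset.sum_lt_sum_of_nonempty
    · exact ⟨0, Finset.mem_range.2 (by omega)⟩
    · intro k hk
      exact hG.g_head k (Finset.mem_range.1 hk)
  rw [Finset.sum_const, Finset.card_range, nsmul_eq_mul, mul_one_div, div_self] at h2
  · exact h2
  · have : (0 : ℝ) < M := by exact_mod_cast hM
    exact this.ne'

/-- `∑_{M ≤ k < n} g_k` -/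
theorem g_bounds (hG : GoodSite lam th e η M g h U) {n : ℕ} (hn : M ≤ n) :
    ((n : ℝ) - M) * (1 / lam) - (e + η * n) ≤ ∑ k ∈ Ico M n, g k ∧
      ∑ k ∈ Ico M n, g k ≤ ((n : ℝ) - M) * (1 / lam) + (e + η * n) := by
  have h1 := hG.gS n hn
  rw [Finset.sum_sub_distrib, sum_Ico_const _ hn, abs_le] at h1
  constructor <;> linarith [h1.1, h1.2]

theorem h_bounds (hG : GoodSite lam th e η M g h U) {n : ℕ} (hn : 1 ≤ n) :
    ((n : ℝ) - 1) - (e + η * n) ≤ ∑ k ∈ Ico 1 n, h k ∧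
      ∑ k ∈ Ico 1 n, h k ≤ ((n : ℝ) - 1) + (e + η * n) := by
  have h1 := hG.hS n hn
  rw [Finset.sum_sub_distrib, sum_Ico_const _ hn, abs_le] at h1
  push_cast at h1
  constructor <;> linarith [h1.1, h1.2]

theorem g_unbounded (hG : GoodSite lam th e η M g h U) (hlam : 0 < lam) (hη : η ≤ 1 / (2 * lam))
    (t : ℝ) : ∃ n, t ≤ psum g n := by
  have hl : 0 < 1 / (2 * lam) := by positivity
  obtain ⟨n, hn⟩ := exists_nat_ge ((t + e + M * (1 / lam)) / (1 / (2 * lam)))
  rw [div_le_iff₀ hl] at hn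
  refine ⟨max n M, ?_⟩
  have h1 := (g_bounds hG (n := max n M + 1) (by omega)).1
  have h2 : ∑ k ∈ Ico M (max n M + 1), g k ≤ psum g (max n M) := by
    unfold psum
    rw [Finset.range_eq_Ico]
    exact Finset.sum_le_sum_of_subset_of_nonneg (Finset.Ico_subset_Ico (Nat.zero_le _) le_rfl)
      fun k _ _ => (hG.g_pos k).le
  refine le_trans ?_ h2
  refine le_trans ?_ h1
  have h3 : (n : ℝ) ≤ ((max n M + 1 : ℕ) : ℝ) := by
    have : n ≤ max n M + 1 := by omega
    exact_mod_cast this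
  have h4 : 1 / lam = 1 / (2 * lam) + 1 / (2 * lam) := by
    field_simp
    ring
  set x : ℝ := ((max n M + 1 : ℕ) : ℝ) with hx
  have hx0 : 0 ≤ x := Nat.cast_nonneg _
  have h5 : η * x ≤ 1 / (2 * lam) * x := mul_le_mul_of_nonneg_right hη hx0
  have h6 : (n : ℝ) * (1 / (2 * lam)) ≤ x * (1 / (2 * lam)) :=
    mul_le_mul_of_nonneg_right h3 hl.le
  nlinarith

theorem h_unbounded (hG : GoodSite lam th e η M g h U) (hη : η ≤ 1 / 2)
    (t : ℝ) : ∃ n, t ≤ psum h n := by
  obtain ⟨n, hn⟩ := exists_nat_ge (2 * (t + e + 1))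
  refine ⟨n, ?_⟩
  have h1 := (h_bounds hG (n := n + 1) (by omega)).1
  have h2 : ∑ k ∈ Ico 1 (n + 1), h k ≤ psum h n := by
    unfold psum
    rw [Finset.range_eq_Ico]
    exact Finset.sum_le_sum_of_subset_of_nonneg (Finset.Ico_subset_Ico (Nat.zero_le _) le_rfl)
      fun k _ _ => (hG.h_pos k).le
  refine le_trans ?_ h2
  refine le_trans ?_ h1
  push_cast
  have h3 : η * ((n : ℝ) + 1) ≤ 1 / 2 * ((n : ℝ) + 1) :=
    mul_le_mul_of_nonneg_right hη (by positivity)
  linarith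

theorem psum_h_ge (hG : GoodSite lam th e η M g h U) (n : ℕ) : 1 ≤ psum h n := by
  have h1 : psum h 0 ≤ psum h n := (psum_strictMono hG.h_pos).monotone (Nat.zero_le n)
  have h2 : psum h 0 = h 0 := by simp [psum]
  linarith [hG.h_head]

/-- number of potential departures before `t` -/
theorem k_bound (hG : GoodSite lam th e η M g h U) (he : 0 ≤ e) (hη0 : 0 ≤ η) (hη : η ≤ 1 / 2)
    {t : ℝ} (ht : 1 ≤ t) :
    (({n | psum h n < t}.ncard : ℝ) ≤ t + e + η * ({n | psum h n < t}.ncard : ℝ)) ∧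
      ({n | psum h n < t}.ncard : ℝ) ≤ 2 * (t + e) := by
  obtain ⟨k, hk⟩ : ∃ k, k = {n | psum h n < t}.ncard := ⟨_, rfl⟩
  have hspec := cnt_spec (psum_strictMono hG.h_pos) (h_unbounded hG hη t)
  rw [← hk] at hspec ⊢
  have key : (k : ℝ) ≤ t + e + η * k := by
    rcases Nat.eq_zero_or_pos k with h0 | hpos
    · rw [h0]
      push_cast
      linarith
    · have h1 : psum h (k - 1) < t := (hspec (k - 1)).2 (by omega)
      have h2 : psum h (k - 1) = h 0 + ∑ m ∈ Ico 1 k, h m := by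
        unfold psum
        have h3 : k - 1 + 1 = k := by omega
        rw [h3, Finset.range_eq_Ico, Finset.sum_eq_sum_Ico_succ_bot hpos]
      have h3 := (h_bounds hG (n := k) hpos).1
      have h4 := hG.h_head
      linarith
  refine ⟨key, ?_⟩
  have h5 : η * (k : ℝ) ≤ 1 / 2 * k := mul_le_mul_of_nonneg_right hη (Nat.cast_nonneg _)
  linarith

/-- number of arrivals before `t` -/
theorem K_bound (hG : GoodSite lam th e η M g h U) (hM : 1 ≤ M) (he : 0 ≤ e) (hη0 : 0 ≤ η)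
    (hlam : 0 < lam) (hη : η ≤ 1 / (2 * lam)) {t : ℝ} (ht : 1 ≤ t) :
    M ≤ {n | psum g n < t}.ncard ∧
      ({n | psum g n < t}.ncard : ℝ) ≤ 2 * lam * (t + e) + 2 * M := by
  obtain ⟨K, hK⟩ : ∃ K, K = {n | psum g n < t}.ncard := ⟨_, rfl⟩
  have hspec := cnt_spec (psum_strictMono hG.g_pos) (g_unbounded hG hlam hη t)
  rw [← hK] at hspec ⊢
  have h1 : M ≤ K := by
    have h2 := (hspec (M - 1)).1 ((psum_head hG hM).trans_le ht)
    omega
  refine ⟨h1, ?_⟩
  have h2 : psum g (K - 1) < t := (hspec (K - 1)).2 (by omega)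
  have h3 : ∑ k ∈ Ico M K, g k ≤ psum g (K - 1) := by
    unfold psum
    have h4 : K - 1 + 1 = K := by omega
    rw [h4, Finset.range_eq_Ico]
    exact Finset.sum_le_sum_of_subset_of_nonneg (Finset.Ico_subset_Ico (Nat.zero_le _) le_rfl)
      fun k _ _ => (hG.g_pos k).le
  have h4 := (g_bounds hG h1).1
  have hKM : (M : ℝ) ≤ K := by exact_mod_cast h1
  have h5 : η * (K : ℝ) ≤ 1 / (2 * lam) * K := mul_le_mul_of_nonneg_right hη (Nat.cast_nonneg _)
  have h6 : ((K : ℝ) - M) * (1 / lam) - (e + 1 / (2 * lam) * K) ≤ t := by linarith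
  have h7 : ((K : ℝ) - M) * (1 / lam) - (e + 1 / (2 * lam) * K) =
      (K - 2 * M - 2 * lam * e) / (2 * lam) := by
    field_simp
    ring
  rw [h7, div_le_iff₀ (by positivity)] at h6
  nlinarith

/-- the constant in front of the small error -/
def CC (lam : ℝ) : ℝ := 4 * (lam + 1) ^ 2

/-- increments -/
theorem incr (hG : GoodSite lam th e η M g h U) (hM : 1 ≤ M) (he : 0 ≤ e) (hη0 : 0 ≤ η)
    (hlam : 0 < lam) (hη : η ≤ 1 / (2 * lam)) (hη2 : η ≤ 1 / 2) (hC : η * CC lam ≤ 1)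
    (hth0 : 0 ≤ th) (hth : th ≤ lam) (n : ℕ) {t : ℝ} (hnt : psum h n < t) :
    (lam - th) * (t - psum h n) - (2 + lam + (4 * lam + 2) * e) - η * CC lam * (t + M) ≤
      (({m | psum g m < t}.ncard : ℝ) - ({m | psum g m < psum h n}.ncard : ℝ)) -
      ({m | (psum h n < psum h m ∧ psum h m < t) ∧ U m ≤ th}.ncard : ℝ) := by
  classical
  obtain ⟨r, hr⟩ : ∃ r, r = psum h n := ⟨_, rfl⟩
  have hr1 : 1 ≤ r := by rw [hr]; exact psum_h_ge hG n
  rw [← hr] at hnt ⊢
  have ht1 : 1 ≤ t := hr1.trans hnt.le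
  obtain ⟨k, hk⟩ : ∃ k, k = {m | psum h m < t}.ncard := ⟨_, rfl⟩
  obtain ⟨K, hK⟩ : ∃ K, K = {m | psum g m < t}.ncard := ⟨_, rfl⟩
  obtain ⟨J, hJ⟩ : ∃ J, J = {m | psum g m < r}.ncard := ⟨_, rfl⟩
  have hmg := psum_strictMono hG.g_pos
  have hmh := psum_strictMono hG.h_pos
  have sk := cnt_spec hmh (h_unbounded hG hη2 t)
  have sK := cnt_spec hmg (g_unbounded hG hlam hη t)
  have sJ := cnt_spec hmg (g_unbounded hG hlam hη r)
  have bk := (k_bound hG he hη0 hη2 ht1).2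
  have bK := K_bound hG hM he hη0 hlam hη ht1
  have bJ := K_bound hG hM he hη0 hlam hη hr1
  rw [← hk] at sk bk
  rw [← hK] at sK bK ⊢
  rw [← hJ] at sJ bJ ⊢
  have hnk : n < k := (sk n).1 (by rw [← hr]; exact hnt)
  have hJK : J ≤ K := by
    by_contra hcon
    have h1 : psum g K < r := (sJ K).2 (by omega)
    have h2 := (sK K).1 (h1.trans hnt)
    omega
  -- arrivals
  have hA : lam * (t - r) - 1 - 2 * lam * e - 2 * lam * (η * (K + 1)) ≤ (K : ℝ) - J := by
    have h1 : t ≤ psum g K := by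
      by_contra hcon
      have := (sK K).1 (not_le.1 hcon)
      omega
    have h2 : psum g (J - 1) < r := (sJ (J - 1)).2 (by omega)
    have h3 : ∑ m ∈ Ico J (K + 1), g m = psum g K - psum g (J - 1) := by
      have := sum_Ico_psum g (m := J - 1) (n := K) (by omega)
      have h4 : J - 1 + 1 = J := by omega
      rwa [h4] at this
    have h5 : ∑ m ∈ Ico M J, g m + ∑ m ∈ Ico J (K + 1), g m = ∑ m ∈ Ico M (K + 1), g m :=
      Finset.sum_Ico_consecutive _ bJ.1 (by omega)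
    have h6 := (g_bounds hG (n := K + 1) (by omega)).2
    have h7 := (g_bounds hG bJ.1).1
    have hJr : (J : ℝ) ≤ K + 1 := by
      have : J ≤ K + 1 := by omega
      exact_mod_cast this
    have h8 : η * (J : ℝ) ≤ η * (K + 1) := mul_le_mul_of_nonneg_left hJr hη0
    push_cast at h6
    have h9 : t - r ≤ ((K : ℝ) + 1 - J) * (1 / lam) + (2 * e + 2 * (η * (K + 1))) := by
      have : ((K : ℝ) + 1 - M) * (1 / lam) - ((J : ℝ) - M) * (1 / lam) =
        ((K : ℝ) + 1 - J) * (1 / lam) := by ring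
      linarith
    have h10 : lam * (t - r) ≤ lam * (((K : ℝ) + 1 - J) * (1 / lam) +
        (2 * e + 2 * (η * (K + 1)))) := mul_le_mul_of_nonneg_left h9 hlam.le
    have h11 : lam * (((K : ℝ) + 1 - J) * (1 / lam) + (2 * e + 2 * (η * (K + 1)))) =
        ((K : ℝ) + 1 - J) + 2 * lam * e + 2 * lam * (η * (K + 1)) := by
      field_simp
      ring
    linarith
  -- departures with small mark
  have hD : ({m | (r < psum h m ∧ psum h m < t) ∧ U m ≤ th}.ncard : ℝ) ≤
      th * (t - r + 2 * e + 2 * (η * k)) + e + η * k := by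
    have h1 : {m | (r < psum h m ∧ psum h m < t) ∧ U m ≤ th} =
        (((Ico (n + 1) k).filter (fun m => U m ≤ th) : Finset ℕ) : Set ℕ) := by
      ext m
      simp only [Set.mem_ofPred_eq, Finset.coe_filter, Finset.mem_Ico]
      rw [hr, hmh.lt_iff_lt, sk m]
      constructor
      · rintro ⟨⟨h1, h2⟩, h3⟩
        exact ⟨⟨by omega, h2⟩, h3⟩
      · rintro ⟨⟨h1, h2⟩, h3⟩
        exact ⟨⟨by omega, h2⟩, h3⟩
    rw [h1, Set.ncard_coe_finset, Finset.card_filter]
    push_cast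
    have h2 := hG.wS (n + 1) k (by omega)
    refine h2.trans ?_
    -- the number of potential departures
    have h3 : ∑ m ∈ Ico (n + 1) k, h m < t - r := by
      rcases Nat.eq_or_lt_of_le (show n + 1 ≤ k by omega) with h4 | h4
      · rw [h4, Finset.Ico_self, Finset.sum_empty]
        linarith
      · have h5 := sum_Ico_psum h (m := n) (n := k - 1) (by omega)
        have h6 : k - 1 + 1 = k := by omega
        rw [h6] at h5
        rw [h5, ← hr]
        have h7 := (sk (k - 1)).2 (by omega)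
        linarith
    have h4 : ∑ m ∈ Ico 1 (n + 1), h m + ∑ m ∈ Ico (n + 1) k, h m = ∑ m ∈ Ico 1 k, h m :=
      Finset.sum_Ico_consecutive _ (by omega) (by omega)
    have h5 := (h_bounds hG (n := k) (by omega)).1
    have h6 := (h_bounds hG (n := n + 1) (by omega)).2
    have h7 : ((n + 1 : ℕ) : ℝ) ≤ k := by exact_mod_cast (show n + 1 ≤ k by omega)
    have h8 : η * ((n + 1 : ℕ) : ℝ) ≤ η * k := mul_le_mul_of_nonneg_left h7 hη0
    have h9 : (k : ℝ) - ((n + 1 : ℕ) : ℝ) ≤ t - r + 2 * e + 2 * (η * k) := by linarith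
    have h10 := mul_le_mul_of_nonneg_left h9 hth0
    linarith
  -- assembling
  unfold CC at hC ⊢
  have hk0 : (0 : ℝ) ≤ k := Nat.cast_nonneg _
  have e1 : η * (k : ℝ) ≤ η * (2 * (t + e)) := mul_le_mul_of_nonneg_left bk hη0
  have e2 : η * ((K : ℝ) + 1) ≤ η * (2 * lam * (t + e) + 2 * M + 1) :=
    mul_le_mul_of_nonneg_left (by linarith [bK.2]) hη0
  have e3 : th * (2 * (η * k)) ≤ lam * (2 * (η * (2 * (t + e)))) :=
    mul_le_mul hth (by linarith) (by positivity) hlam.le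
  have e4 : th * (2 * e) ≤ lam * (2 * e) := mul_le_mul_of_nonneg_right hth (by positivity)
  have e5 : 2 * lam * (η * (K + 1)) ≤ 2 * lam * (η * (2 * lam * (t + e) + 2 * M + 1)) :=
    mul_le_mul_of_nonneg_left e2 (by positivity)
  have hMr : (0 : ℝ) ≤ M := Nat.cast_nonneg _
  have ht0 : 0 ≤ t := by linarith
  have f1 : (4 * lam ^ 2 + 4 * lam + 2) * (t + e) + 4 * lam * M + 2 * lam ≤
      4 * (lam + 1) ^ 2 * (t + M) + 4 * (lam + 1) ^ 2 * (e + 1) := by nlinarith
  have f2 := mul_le_mul_of_nonneg_left f1 hη0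
  have f3 : η * (4 * (lam + 1) ^ 2 * (e + 1)) ≤ e + 1 := by
    have := mul_le_mul_of_nonneg_right hC (by linarith : 0 ≤ e + 1)
    linarith
  nlinarith

/-- from the start -/
theorem start_bound (hG : GoodSite lam th e η M g h U) (hM : 1 ≤ M) (he : 0 ≤ e) (hη0 : 0 ≤ η)
    (hlam : 0 < lam) (hη : η ≤ 1 / (2 * lam)) (hη2 : η ≤ 1 / 2) (hC : η * CC lam ≤ 1)
    (hth0 : 0 ≤ th) (hth : th ≤ lam) {t : ℝ} (ht1 : 1 ≤ t) :
    M + (lam - th) * (t - 1) - (2 + lam + (4 * lam + 2) * e) - η * CC lam * (t + M) ≤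
      ({m | psum g m < t}.ncard : ℝ) - ({m | psum h m < t ∧ U m ≤ th}.ncard : ℝ) := by
  classical
  obtain ⟨k, hk⟩ : ∃ k, k = {m | psum h m < t}.ncard := ⟨_, rfl⟩
  obtain ⟨K, hK⟩ : ∃ K, K = {m | psum g m < t}.ncard := ⟨_, rfl⟩
  have hmg := psum_strictMono hG.g_pos
  have hmh := psum_strictMono hG.h_pos
  have sk := cnt_spec hmh (h_unbounded hG hη2 t)
  have sK := cnt_spec hmg (g_unbounded hG hlam hη t)
  have bk := k_bound hG he hη0 hη2 ht1
  have bK := K_bound hG hM he hη0 hlam hη ht1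
  rw [← hk] at sk bk
  rw [← hK] at sK bK ⊢
  have hA : lam * (t - 1) - 1 - lam * e - lam * (η * (K + 1)) ≤ (K : ℝ) - M := by
    have h1 : t ≤ psum g K := by
      by_contra hcon
      have := (sK K).1 (not_le.1 hcon)
      omega
    have h2 := psum_head hG hM
    have h3 : ∑ m ∈ Ico M (K + 1), g m = psum g K - psum g (M - 1) := by
      have := sum_Ico_psum g (m := M - 1) (n := K) (by omega)
      have h4 : M - 1 + 1 = M := by omega
      rwa [h4] at this
    have h6 := (g_bounds hG (n := K + 1) (by omega)).2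
    push_cast at h6
    have h9 : t - 1 ≤ ((K : ℝ) + 1 - M) * (1 / lam) + (e + η * (K + 1)) := by linarith
    have h10 : lam * (t - 1) ≤ lam * (((K : ℝ) + 1 - M) * (1 / lam) +
        (e + η * (K + 1))) := mul_le_mul_of_nonneg_left h9 hlam.le
    have h11 : lam * (((K : ℝ) + 1 - M) * (1 / lam) + (e + η * (K + 1))) =
        ((K : ℝ) + 1 - M) + lam * e + lam * (η * (K + 1)) := by
      field_simp
      ring
    linarith
  have hD : ({m | psum h m < t ∧ U m ≤ th}.ncard : ℝ) ≤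
      th * (t + e + η * k) + e + η * k := by
    have h1 : {m | psum h m < t ∧ U m ≤ th} =
        (((Ico 0 k).filter (fun m => U m ≤ th) : Finset ℕ) : Set ℕ) := by
      ext m
      simp only [Set.mem_ofPred_eq, Finset.coe_filter, Finset.mem_Ico]
      rw [sk m]
      constructor
      · rintro ⟨h1, h2⟩
        exact ⟨⟨by omega, h1⟩, h2⟩
      · rintro ⟨⟨h1, h2⟩, h3⟩
        exact ⟨h2, h3⟩
    rw [h1, Set.ncard_coe_finset, Finset.card_filter]
    push_cast
    have h2 := hG.wS 0 k (by omega)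
    refine h2.trans ?_
    push_cast
    have h10 := mul_le_mul_of_nonneg_left bk.1 hth0
    linarith
  unfold CC at hC ⊢
  have hk0 : (0 : ℝ) ≤ k := Nat.cast_nonneg _
  have e1 : η * (k : ℝ) ≤ η * (2 * (t + e)) := mul_le_mul_of_nonneg_left bk.2 hη0
  have e2 : η * ((K : ℝ) + 1) ≤ η * (2 * lam * (t + e) + 2 * M + 1) :=
    mul_le_mul_of_nonneg_left (by linarith [bK.2]) hη0
  have e3 : th * (η * k) ≤ lam * (η * (2 * (t + e))) :=
    mul_le_mul hth (by linarith) (by positivity) hlam.le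
  have e4 : th * (1 + e) ≤ lam * (1 + e) := mul_le_mul_of_nonneg_right hth (by positivity)
  have e5 : lam * (η * (K + 1)) ≤ lam * (η * (2 * lam * (t + e) + 2 * M + 1)) :=
    mul_le_mul_of_nonneg_left e2 (by positivity)
  have hMr : (0 : ℝ) ≤ M := Nat.cast_nonneg _
  have ht0 : 0 ≤ t := by linarith
  have f1 : (2 * lam ^ 2 + 2 * lam + 2) * (t + e) + 2 * lam * M + lam ≤
      4 * (lam + 1) ^ 2 * (t + M) + 4 * (lam + 1) ^ 2 * (e + 1) := by nlinarith
  have f2 := mul_le_mul_of_nonneg_left f1 hη0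
  have f3 : η * (4 * (lam + 1) ^ 2 * (e + 1)) ≤ e + 1 := by
    have := mul_le_mul_of_nonneg_right hC (by linarith : 0 ≤ e + 1)
    linarith
  nlinarith

end

end Pool.Agent.V11325.Iq
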