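import Pool.Agent.V11325.IqC

/-!
# Interference queues: the probabilistic estimates
-/

open Finset Filter Topology MeasureTheory ProbabilityTheory

namespace Pool.Agent.V11325.Iq

/-- mean of the exponential law -/
theorem exp_mean {r : ℝ} (hr : 0 < r) :
    Integrable (fun x : ℝ => x) (expMeasure r) ∧ ∫ x, x ∂(expMeasure r) = 1 / r := by
  have hm : Measurable (exponentialPDF r) :=
    (measurable_exponentialPDFReal r).ennreal_ofReal
  have he : expMeasure r = volume.withDensity (exponentialPDF r) := rfl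
  have hlt : ∀ᵐ x ∂(volume : Measure ℝ), exponentialPDF r x < ⊤ :=
    Filter.Eventually.of_forall fun x => by
      rw [exponentialPDF_eq]
      exact ENNReal.ofReal_lt_top
  have hfun : (fun x : ℝ => (exponentialPDF r x).toReal • x) =
      (Set.Ioi (0 : ℝ)).indicator (fun x => r * (x ^ ((2 : ℝ) - 1) * Real.exp (-(r * x)))) := by
    funext x
    rw [exponentialPDF_eq]
    by_cases hx : 0 < x
    · rw [Set.indicator_of_mem (Set.mem_Ioi.2 hx), if_pos hx.le,
        ENNReal.toReal_ofReal (by positivity), smul_eq_mul]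
      have h2 : (2 : ℝ) - 1 = 1 := by norm_num
      rw [h2, Real.rpow_one]
      ring
    · rw [Set.indicator_of_notMem (fun h => hx (Set.mem_Ioi.1 h))]
      by_cases h0 : x = 0
      · rw [h0, smul_zero]
      · rw [if_neg (fun h => hx (lt_of_le_of_ne h (Ne.symm h0))), ENNReal.ofReal_zero,
          ENNReal.toReal_zero, zero_smul]
  have hval := Real.integral_rpow_mul_exp_neg_mul_Ioi (a := 2) (r := r) two_pos hr
  have hG : Real.Gamma 2 = 1 := Real.Gamma_two
  rw [hG, mul_one] at hval
  have hint0 : IntegrableOn (fun x : ℝ => x ^ ((2 : ℝ) - 1) * Real.exp (-(r * x)))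
      (Set.Ioi 0) := by
    by_contra hcon
    rw [integral_undef hcon] at hval
    have : 0 < (1 / r) ^ (2 : ℝ) := by positivity
    linarith
  have hint1 : Integrable ((Set.Ioi (0 : ℝ)).indicator
      (fun x => r * (x ^ ((2 : ℝ) - 1) * Real.exp (-(r * x))))) := by
    rw [integrable_indicator_iff measurableSet_Ioi]
    exact hint0.const_mul r
  constructor
  · rw [he, integrable_withDensity_iff_integrable_smul₀' hm.aemeasurable hlt, hfun]
    exact hint1
  · rw [he, integral_withDensity_eq_integral_toReal_smul₀ hm.aemeasurable hlt, hfun,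
      integral_indicator measurableSet_Ioi, integral_const_mul, hval]
    rw [Real.rpow_two]
    field_simp

/-- from convergence of averages to linear bounds -/
theorem lin_bound {x : ℕ → ℝ} {μ η : ℝ} (hη : 0 < η)
    (h : Tendsto (fun n : ℕ => (∑ k ∈ range n, x k) / n) atTop (𝓝 μ)) :
    ∃ e : ℕ, ∀ n : ℕ, |∑ k ∈ range n, (x k - μ)| ≤ e + η * n := by
  obtain ⟨n0, hn0⟩ := Metric.tendsto_atTop.1 h η hη
  obtain ⟨e, he⟩ := exists_nat_ge (∑ n ∈ range (n0 + 1), |∑ k ∈ range n, (x k - μ)|)
  refine ⟨e, fun n => ?_⟩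
  by_cases hn : n < n0 + 1
  · have h1 : |∑ k ∈ range n, (x k - μ)| ≤ ∑ n ∈ range (n0 + 1), |∑ k ∈ range n, (x k - μ)| :=
      Finset.single_le_sum (f := fun n => |∑ k ∈ range n, (x k - μ)|)
        (fun _ _ => abs_nonneg _) (Finset.mem_range.2 hn)
    have h2 : 0 ≤ η * n := by positivity
    linarith
  · have hn' : n0 ≤ n := by omega
    have hpos : (0 : ℝ) < n := by
      have : 0 < n := by omega
      exact_mod_cast this
    have h1 := hn0 n hn'
    rw [Real.dist_eq] at h1
    have h2 : ∑ k ∈ range n, (x k - μ) = ((∑ k ∈ range n, x k) / n - μ) * n := by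
      rw [Finset.sum_sub_distrib, Finset.sum_const, Finset.card_range, nsmul_eq_mul]
      field_simp
    rw [h2, abs_mul, abs_of_pos hpos]
    have h3 := mul_le_mul_of_nonneg_right h1.le hpos.le
    have h4 : (0 : ℝ) ≤ e := Nat.cast_nonneg _
    linarith

/-- index set of the random inputs -/
abbrev Idx (d : ℕ) := Site d × ℕ × Fin 3

/-- The random inputs of the graphical construction: `drv (i, n, 0)` are the gaps between arrivals
at site `i` (exponential with rate `lam`), `drv (i, n, 1)` the gaps between potential departures at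
site `i` (exponential with rate `1`), and `drv (i, n, 2)` the marks of the potential departures
(uniform on `[0, 1]`); all are independent. -/
structure Inputs {d : ℕ} (lam : ℝ) {Ω : Type} [MeasurableSpace Ω] (P : Measure Ω)
    (drv : Idx d → Ω → ℝ) : Prop where
  meas : ∀ p, Measurable (drv p)
  indep : iIndepFun drv P
  arr : ∀ i n, P.map (drv (i, n, 0)) = expMeasure lam
  dep : ∀ i n, P.map (drv (i, n, 1)) = expMeasure 1
  mark : ∀ i n, P.map (drv (i, n, 2)) = volume.restrict (Set.Icc 0 1)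

section
variable {d : ℕ} {lam : ℝ} {Ω : Type} [MeasurableSpace Ω] {P : Measure Ω}
  [IsProbabilityMeasure P] {drv : Idx d → Ω → ℝ}

theorem inj_idx (i : Site d) (c : Fin 3) : Function.Injective (fun n : ℕ => ((i, n, c) : Idx d)) := by
  intro m n h
  simpa using h

theorem lln (hI : Inputs lam P drv) (i : Site d) (c : Fin 3) {f : ℝ → ℝ} (hf : Measurable f)
    {μ : ℝ} (hlaw : ∀ n, P.map (drv (i, n, c)) = P.map (drv (i, 0, c)))
    (hint : Integrable (fun ω => f (drv (i, 0, c) ω)) P)
    (hμ : ∫ ω, f (drv (i, 0, c) ω) ∂P = μ) {η : ℝ} (hη : 0 < η) :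
    ∀ᵐ ω ∂P, ∃ e : ℕ, ∀ n : ℕ, |∑ k ∈ range n, (f (drv (i, k, c) ω) - μ)| ≤ e + η * n := by
  have h1 : iIndepFun (fun n : ℕ => drv (i, n, c)) P := hI.indep.precomp (inj_idx i c)
  have h2 := strong_law_ae_real (fun n ω => f (drv (i, n, c) ω)) hint
    (fun m n hmn => (h1.indepFun hmn).comp hf hf)
    (fun n => IdentDistrib.comp (⟨(hI.meas _).aemeasurable, (hI.meas _).aemeasurable, by
      rw [hlaw n]⟩ : IdentDistrib (drv (i, n, c)) (drv (i, 0, c)) P P) hf)
  filter_upwards [h2] with ω hω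
  have h3 := lin_bound hη hω
  rw [hμ] at h3
  exact h3

theorem lln_exp (hI : Inputs lam P drv) (i : Site d) (c : Fin 3) {r : ℝ} (hr : 0 < r)
    (hlaw : ∀ n, P.map (drv (i, n, c)) = expMeasure r) {η : ℝ} (hη : 0 < η) :
    ∀ᵐ ω ∂P, ∃ e : ℕ, ∀ n : ℕ, |∑ k ∈ range n, (drv (i, k, c) ω - 1 / r)| ≤ e + η * n := by
  obtain ⟨h1, h2⟩ := exp_mean hr
  refine lln hI i c (f := fun x => x) measurable_id (fun n => by rw [hlaw, hlaw]) ?_ ?_ hη
  · rw [← hlaw 0] at h1
    exact (integrable_map_measure measurable_id.aestronglyMeasurable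
      (hI.meas _).aemeasurable).1 h1
  · rw [← h2, ← hlaw 0]
    exact (integral_map (hI.meas _).aemeasurable measurable_id.aestronglyMeasurable).symm

theorem lln_mark (hI : Inputs lam P drv) (i : Site d) {th : ℝ} (hth : 0 ≤ th) {η : ℝ}
    (hη : 0 < η) : ∀ᵐ ω ∂P, ∃ e : ℕ, ∀ m n : ℕ, m ≤ n →
      ∑ k ∈ Ico m n, (if drv (i, k, 2) ω ≤ th then (1 : ℝ) else 0) ≤
        th * ((n : ℝ) - m) + e + η * n := by
  have hf : Measurable (fun x : ℝ => if x ≤ th then (1 : ℝ) else 0) :=
    Measurable.ite measurableSet_Iic measurable_const measurable_const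
  obtain ⟨μ, hμ⟩ : ∃ μ, μ = ∫ ω, (fun x : ℝ => if x ≤ th then (1 : ℝ) else 0) (drv (i, 0, 2) ω) ∂P :=
    ⟨_, rfl⟩
  have hμth : μ ≤ th := by
    rw [hμ, ← integral_map (hI.meas _).aemeasurable hf.aestronglyMeasurable, hI.mark]
    have h1 : (fun x : ℝ => if x ≤ th then (1 : ℝ) else 0) =
        (Set.Iic th).indicator (fun _ => (1 : ℝ)) := by
      funext x
      by_cases h : x ≤ th
      · rw [if_pos h, Set.indicator_of_mem (Set.mem_Iic.2 h)]
      · rw [if_neg h, Set.indicator_of_notMem (fun h' => h (Set.mem_Iic.1 h'))]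
    rw [h1, integral_indicator measurableSet_Iic, setIntegral_const, smul_eq_mul, mul_one,
      measureReal_restrict_apply measurableSet_Iic]
    have h2 : (Set.Iic th ∩ Set.Icc (0 : ℝ) 1) ⊆ Set.Icc 0 th := fun x hx => ⟨hx.2.1, hx.1⟩
    have h3 : volume.real (Set.Iic th ∩ Set.Icc (0 : ℝ) 1) ≤ volume.real (Set.Icc (0 : ℝ) th) :=
      measureReal_mono h2 (by rw [Real.volume_Icc]; exact ENNReal.ofReal_ne_top)
    refine h3.trans ?_
    rw [Real.volume_real_Icc, sub_zero]
    exact (max_eq_left hth).le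
  have h1 := lln hI i 2 hf (fun n => by rw [hI.mark, hI.mark]) (μ := μ) ?_ hμ.symm
    (by positivity : 0 < η / 2)
  · filter_upwards [h1] with ω hω
    obtain ⟨e, he⟩ := hω
    refine ⟨2 * e, fun m n hmn => ?_⟩
    have h2 := (abs_le.1 (he n)).2
    have h3 := (abs_le.1 (he m)).1
    rw [Finset.sum_sub_distrib, Finset.sum_const, Finset.card_range, nsmul_eq_mul] at h2 h3
    rw [Finset.sum_Ico_eq_sub _ hmn]
    have h4 : (m : ℝ) ≤ n := by exact_mod_cast hmn
    have h5 : ((n : ℝ) - m) * μ ≤ ((n : ℝ) - m) * th :=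
      mul_le_mul_of_nonneg_left hμth (by linarith)
    push_cast
    nlinarith
  · refine Integrable.of_bound (C := 1) (hf.comp (hI.meas _)).aestronglyMeasurable ?_
    refine Filter.Eventually.of_forall fun ω => ?_
    split_ifs <;> simp

theorem exp_pos_ae' {r : ℝ} (hr : 0 < r) {X : Ω → ℝ} (hX : Measurable X)
    (hl : P.map X = expMeasure r) : ∀ᵐ ω ∂P, 0 < X ω := by
  have : IsProbabilityMeasure (expMeasure r) := isProbabilityMeasure_expMeasure hr
  have h1 : (expMeasure r) (Set.Iic 0) = 0 := by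
    have h2 := cdf_expMeasure_eq hr (0 : ℝ)
    rw [cdf_eq_real] at h2
    simp only [le_refl, if_true, mul_zero, neg_zero, Real.exp_zero, sub_self] at h2
    rwa [measureReal_eq_zero_iff] at h2
  rw [← hl, Measure.map_apply hX measurableSet_Iic] at h1
  rw [ae_iff]
  convert h1 using 2
  ext ω
  simp

theorem exp_small {r : ℝ} (hr : 0 < r) {X : Ω → ℝ} (hX : Measurable X)
    (hl : P.map X = expMeasure r) {y : ℝ} (hy : 0 < y) : 0 < P (X ⁻¹' Set.Iio y) := by
  have : IsProbabilityMeasure (expMeasure r) := isProbabilityMeasure_expMeasure hr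
  rw [← Measure.map_apply hX measurableSet_Iio, hl]
  have h2 := cdf_expMeasure_eq hr (y / 2)
  rw [cdf_eq_real, if_pos (by positivity)] at h2
  have h3 : 0 < (expMeasure r).real (Set.Iic (y / 2)) := by
    rw [h2]
    have : Real.exp (-(r * (y / 2))) < 1 := by
      rw [Real.exp_lt_one_iff]
      have : 0 < r * (y / 2) := by positivity
      linarith
    linarith
  have h4 : 0 < expMeasure r (Set.Iic (y / 2)) := (ENNReal.toReal_pos_iff.1 h3).1
  refine h4.trans_le (measure_mono fun x hx => ?_)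
  have : x ≤ y / 2 := hx
  show x < y
  linarith

theorem exp_large {r : ℝ} (hr : 0 < r) {X : Ω → ℝ} (hX : Measurable X)
    (hl : P.map X = expMeasure r) {y : ℝ} (hy : 0 < y) : 0 < P (X ⁻¹' Set.Ici y) := by
  have : IsProbabilityMeasure (expMeasure r) := isProbabilityMeasure_expMeasure hr
  rw [← Measure.map_apply hX measurableSet_Ici, hl]
  have h2 := cdf_expMeasure_eq hr y
  rw [cdf_eq_real, if_pos hy.le] at h2
  have h3 : (expMeasure r).real (Set.Iic y)ᶜ = Real.exp (-(r * y)) := by
    rw [measureReal_compl measurableSet_Iic, h2]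
    simp
  have h4 : 0 < (expMeasure r).real (Set.Iic y)ᶜ := by
    rw [h3]
    exact Real.exp_pos _
  have h5 : 0 < expMeasure r (Set.Iic y)ᶜ := (ENNReal.toReal_pos_iff.1 h4).1
  refine h5.trans_le (measure_mono fun x hx => ?_)
  have : ¬ x ≤ y := hx
  show y ≤ x
  linarith

end

end Pool.Agent.V11325.Iq
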