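import Pool.Agent.V11325.IqD

/-!
# Interference queues: a good event of positive probability
-/

open Finset Filter Topology MeasureTheory ProbabilityTheory

namespace Pool.Agent.V11325.Iq

section
variable {d : ℕ} {lam : ℝ} {Ω : Type} [MeasurableSpace Ω] {P : Measure Ω}
  [IsProbabilityMeasure P] {drv : Idx d → Ω → ℝ}

/-- the late part of the good event -/
def late (drv : Idx d → Ω → ℝ) (lam th e η : ℝ) (M : ℕ) (B : Finset (Site d)) : Set Ω :=
  {ω | ∀ i ∈ B, (∀ n, M ≤ n → |∑ k ∈ Ico M n, (drv (i, k, 0) ω - 1 / lam)| ≤ e + η * n) ∧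
    (∀ n, 1 ≤ n → |∑ k ∈ Ico 1 n, (drv (i, k, 1) ω - 1)| ≤ e + η * n) ∧
    ∀ m n, m ≤ n → ∑ k ∈ Ico m n, (if drv (i, k, 2) ω ≤ th then (1 : ℝ) else 0) ≤
      th * ((n : ℝ) - m) + e + η * n}

/-- the indices used by the head start -/
noncomputable def headIdx (M : ℕ) (B : Finset (Site d)) : Finset (Idx d) :=
  B.biUnion (fun i => (range M).image (fun k => (i, k, (0 : Fin 3)))) ∪
    B.image (fun i => (i, 0, (1 : Fin 3)))

theorem mem_headIdx {M : ℕ} {B : Finset (Site d)} {i : Site d} {k : ℕ} {c : Fin 3} :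
    (i, k, c) ∈ headIdx M B ↔ i ∈ B ∧ ((c = 0 ∧ k < M) ∨ (c = 1 ∧ k = 0)) := by
  unfold headIdx
  simp only [mem_union, mem_biUnion, mem_image, mem_range, Prod.mk.injEq]
  constructor
  · rintro (⟨j, hj, k', hk', h1, h2, h3⟩ | ⟨j, hj, h1, h2, h3⟩)
    · subst h1 h2 h3
      exact ⟨hj, Or.inl ⟨rfl, hk'⟩⟩
    · subst h1 h2 h3
      exact ⟨hj, Or.inr ⟨rfl, rfl⟩⟩
  · rintro ⟨hi, (⟨h1, h2⟩ | ⟨h1, h2⟩)⟩
    · exact Or.inl ⟨i, hi, k, h2, rfl, rfl, h1.symm⟩
    · exact Or.inr ⟨i, hi, rfl, h2.symm, h1.symm⟩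

/-- the values required by the head start -/
def headSet (M : ℕ) (p : Idx d) : Set ℝ := if p.2.2 = 0 then Set.Iio (1 / (M : ℝ)) else Set.Ici 1

theorem head_pos (hlam : 0 < lam) (hI : Inputs lam P drv) {M : ℕ} (hM : 1 ≤ M)
    (B : Finset (Site d)) :
    0 < P (⋂ p ∈ headIdx M B, drv p ⁻¹' headSet M p) := by
  have hms : ∀ p ∈ headIdx M B, MeasurableSet (headSet M p) := by
    intro p _
    unfold headSet
    split_ifs
    · exact measurableSet_Iio
    · exact measurableSet_Ici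
  rw [hI.indep.measure_inter_preimage_eq_mul _ hms]
  apply pos_iff_ne_zero.2
  rw [Finset.prod_ne_zero_iff]
  rintro ⟨i, k, c⟩ hp
  rw [mem_headIdx] at hp
  obtain ⟨-, (⟨h1, -⟩ | ⟨h1, -⟩)⟩ := hp
  · subst h1
    unfold headSet
    rw [if_pos rfl]
    have hM' : (0 : ℝ) < M := by exact_mod_cast hM
    exact (exp_small hlam (hI.meas _) (hI.arr i k) (by positivity)).ne'
  · subst h1
    unfold headSet
    rw [if_neg (show ¬ ((1 : Fin 3) = 0) by decide)]
    exact (exp_large one_pos (hI.meas _) (hI.dep i k) one_pos).ne'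

theorem late_pos (hlam : 0 < lam) (hI : Inputs lam P drv) {th : ℝ} (hth : 0 ≤ th) {η : ℝ}
    (hη : 0 < η) (B : Finset (Site d)) : ∃ e : ℕ, ∀ M : ℕ, 0 < P (late drv lam th e η M B) := by
  have h0 : ∀ᵐ ω ∂P, ∀ i ∈ B, ∃ e : ℕ,
      (∀ n : ℕ, |∑ k ∈ range n, (drv (i, k, 0) ω - 1 / lam)| ≤ e + η / 2 * n) ∧
      (∀ n : ℕ, |∑ k ∈ range n, (drv (i, k, 1) ω - 1 / 1)| ≤ e + η / 2 * n) ∧
      ∀ m n : ℕ, m ≤ n → ∑ k ∈ Ico m n, (if drv (i, k, 2) ω ≤ th then (1 : ℝ) else 0) ≤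
        th * ((n : ℝ) - m) + e + η / 2 * n := by
    rw [Finset.eventually_all]
    intro i _
    filter_upwards [lln_exp hI i 0 hlam (hI.arr i) (by positivity : 0 < η / 2),
      lln_exp hI i 1 one_pos (hI.dep i) (by positivity : 0 < η / 2),
      lln_mark hI i hth (by positivity : 0 < η / 2)] with ω ⟨e1, h1⟩ ⟨e2, h2⟩ ⟨e3, h3⟩
    refine ⟨e1 + e2 + e3, fun n => ?_, fun n => ?_, fun m n hmn => ?_⟩
    · have := h1 n
      push_cast
      have a1 : (0 : ℝ) ≤ e2 := Nat.cast_nonneg _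
      have a2 : (0 : ℝ) ≤ e3 := Nat.cast_nonneg _
      linarith
    · have := h2 n
      push_cast
      have a1 : (0 : ℝ) ≤ e1 := Nat.cast_nonneg _
      have a2 : (0 : ℝ) ≤ e3 := Nat.cast_nonneg _
      linarith
    · have := h3 m n hmn
      push_cast
      have a1 : (0 : ℝ) ≤ e1 := Nat.cast_nonneg _
      have a2 : (0 : ℝ) ≤ e2 := Nat.cast_nonneg _
      linarith
  -- the event with one bound for all sites
  obtain ⟨Q, hQ⟩ : ∃ Q : ℕ → Set Ω, Q = fun (e : ℕ) => {ω | ∀ i ∈ B,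
      (∀ n : ℕ, |∑ k ∈ range n, (drv (i, k, 0) ω - 1 / lam)| ≤ e + η / 2 * n) ∧
      (∀ n : ℕ, |∑ k ∈ range n, (drv (i, k, 1) ω - 1 / 1)| ≤ e + η / 2 * n) ∧
      ∀ m n : ℕ, m ≤ n → ∑ k ∈ Ico m n, (if drv (i, k, 2) ω ≤ th then (1 : ℝ) else 0) ≤
        th * ((n : ℝ) - m) + e + η / 2 * n} := ⟨_, rfl⟩
  have h1 : ∀ᵐ ω ∂P, ω ∈ ⋃ e, Q e := by
    filter_upwards [h0] with ω hω
    choose! e he using hω
    rw [Set.mem_iUnion]
    refine ⟨∑ i ∈ B, e i, ?_⟩
    rw [hQ]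
    intro i hi
    obtain ⟨h2, h3, h4⟩ := he i hi
    have h5 : (e i : ℝ) ≤ ((∑ i ∈ B, e i : ℕ) : ℝ) := by
      exact_mod_cast Finset.single_le_sum (f := e) (fun _ _ => Nat.zero_le _) hi
    refine ⟨fun n => (h2 n).trans (by linarith), fun n => (h3 n).trans (by linarith),
      fun m n hmn => (h4 m n hmn).trans (by linarith)⟩
  have h2 : ∃ e, 0 < P (Q e) := by
    by_contra hcon
    push Not at hcon
    have h3 : P (⋃ e, Q e) = 0 := by
      rw [measure_iUnion_null_iff]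
      exact fun e => le_antisymm (hcon e) bot_le
    have h4 : P (⋃ e, Q e)ᶜ = 0 := h1
    have h5 : P Set.univ ≤ P (⋃ e, Q e) + P (⋃ e, Q e)ᶜ := by
      rw [← Set.union_compl_self (⋃ e, Q e)]
      exact measure_union_le _ _
    rw [h3, h4, measure_univ, add_zero] at h5
    exact absurd h5 (by simp)
  obtain ⟨e, he⟩ := h2
  refine ⟨2 * e, fun M => he.trans_le (measure_mono ?_)⟩
  intro ω hω
  rw [hQ] at hω
  intro i hi
  obtain ⟨h2, h3, h4⟩ := hω i hi
  refine ⟨fun n hn => ?_, fun n hn => ?_, fun m n hmn => ?_⟩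
  · rw [Finset.sum_Ico_eq_sub _ hn]
    have a1 := h2 n
    have a2 := h2 M
    have a3 : (M : ℝ) ≤ n := by exact_mod_cast hn
    have a4 := abs_sub (∑ k ∈ range n, (drv (i, k, 0) ω - 1 / lam))
      (∑ k ∈ range M, (drv (i, k, 0) ω - 1 / lam))
    push_cast
    nlinarith
  · rw [Finset.sum_Ico_eq_sub _ hn]
    have a1 := h3 n
    have a2 := h3 1
    rw [div_one] at a1 a2
    have a3 : ((1 : ℕ) : ℝ) ≤ n := by exact_mod_cast hn
    have a4 := abs_sub (∑ k ∈ range n, (drv (i, k, 1) ω - 1))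
      (∑ k ∈ range 1, (drv (i, k, 1) ω - 1))
    push_cast at *
    nlinarith
  · have a1 := h4 m n hmn
    have a2 : (0 : ℝ) ≤ e := Nat.cast_nonneg _
    have a3 : (0 : ℝ) ≤ n := Nat.cast_nonneg _
    push_cast
    nlinarith

/-- **The good event has positive probability.** -/
theorem good_pos (hlam : 0 < lam) (hI : Inputs lam P drv) {th : ℝ} (hth : 0 ≤ th) {η : ℝ}
    (hη : 0 < η) (B : Finset (Site d)) : ∃ e : ℕ, ∀ M : ℕ, 1 ≤ M →
      ∃ G : Set Ω, MeasurableSet G ∧ 0 < P G ∧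
        ∀ ω ∈ G, ∀ i ∈ B, GoodSite lam th e η M (fun k => drv (i, k, 0) ω)
          (fun k => drv (i, k, 1) ω) (fun k => drv (i, k, 2) ω) := by
  obtain ⟨e, he⟩ := late_pos hlam hI hth hη B
  refine ⟨e, fun M hM => ?_⟩
  obtain ⟨S, hS⟩ : ∃ S : Set (Idx d), S = {p | p ∈ headIdx M B} := ⟨_, rfl⟩
  obtain ⟨mm, hmm⟩ : ∃ mm : Idx d → MeasurableSpace Ω,
      mm = fun p => MeasurableSpace.comap (drv p) inferInstance := ⟨_, rfl⟩
  have hle : ∀ p, mm p ≤ ‹MeasurableSpace Ω› := by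
    intro p
    rw [hmm]
    exact (hI.meas p).comap_le
  have hind : iIndep mm P := by
    rw [hmm]
    exact hI.indep
  have hI2 : Indep (⨆ p ∈ S, mm p) (⨆ p ∈ Sᶜ, mm p) P :=
    indep_iSup_of_disjoint hle hind disjoint_compl_right
  have hmeas : ∀ (T : Set (Idx d)), ∀ p ∈ T, Measurable[⨆ p ∈ T, mm p] (drv p) := by
    intro T p hp
    have h1 : Measurable[mm p] (drv p) := by
      rw [hmm]
      exact comap_measurable (drv p)
    have h2 : mm p ≤ ⨆ p ∈ T, mm p := le_iSup₂ (f := fun p (_ : p ∈ T) => mm p) p hp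
    exact h1.mono h2 le_rfl
  have hA : MeasurableSet[⨆ p ∈ S, mm p] (⋂ p ∈ headIdx M B, drv p ⁻¹' headSet M p) := by
    refine @Finset.measurableSet_biInter _ _ (⨆ p ∈ S, mm p) _ (headIdx M B) fun p hp => ?_
    have h1 : Measurable[⨆ p ∈ S, mm p] (drv p) := hmeas S p (by rw [hS]; exact hp)
    apply h1
    unfold headSet
    split_ifs
    · exact measurableSet_Iio
    · exact measurableSet_Ici
  have hB : MeasurableSet[⨆ p ∈ Sᶜ, mm p] (late drv lam th e η M B) := by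
    have e0 : late drv lam th e η M B = ⋂ i ∈ B,
        ((⋂ n : ℕ, ⋂ _ : M ≤ n, {ω | |∑ k ∈ Ico M n, (drv (i, k, 0) ω - 1 / lam)| ≤ e + η * n}) ∩
        ((⋂ n : ℕ, ⋂ _ : 1 ≤ n, {ω | |∑ k ∈ Ico 1 n, (drv (i, k, 1) ω - 1)| ≤ e + η * n}) ∩
        (⋂ m : ℕ, ⋂ n : ℕ, ⋂ _ : m ≤ n, {ω | ∑ k ∈ Ico m n,
          (if drv (i, k, 2) ω ≤ th then (1 : ℝ) else 0) ≤ th * ((n : ℝ) - m) + e + η * n}))) := by
      ext ω
      simp only [late, Set.mem_ofPred_eq, Set.mem_iInter, Set.mem_inter_iff]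
    rw [e0]
    let m0 : MeasurableSpace Ω := ⨆ p ∈ Sᶜ, mm p
    have hmd : ∀ p ∈ Sᶜ, @Measurable Ω ℝ m0 _ (drv p) := hmeas Sᶜ
    refine Finset.measurableSet_biInter B fun i hi => ?_
    refine MeasurableSet.inter ?_ (MeasurableSet.inter ?_ ?_)
    · refine MeasurableSet.iInter fun n => MeasurableSet.iInter fun _ => ?_
      have h1 : @Measurable Ω ℝ m0 _ (fun ω => ∑ k ∈ Ico M n, (drv (i, k, 0) ω - 1 / lam)) := by
        refine Finset.measurable_fun_sum _ fun k hk => ?_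
        refine Measurable.sub_const (hmd _ ?_) _
        rw [hS]
        simp only [Set.mem_compl_iff, Set.mem_ofPred_eq, mem_headIdx, not_and, not_or]
        intro _
        rw [Finset.mem_Ico] at hk
        refine ⟨fun _ => by omega, fun h => absurd h (by decide)⟩
      exact measurableSet_le (measurable_norm.comp h1) measurable_const
    · refine MeasurableSet.iInter fun n => MeasurableSet.iInter fun _ => ?_
      have h1 : @Measurable Ω ℝ m0 _ (fun ω => ∑ k ∈ Ico 1 n, (drv (i, k, 1) ω - 1)) := by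
        refine Finset.measurable_fun_sum _ fun k hk => ?_
        refine Measurable.sub_const (hmd _ ?_) _
        rw [hS]
        simp only [Set.mem_compl_iff, Set.mem_ofPred_eq, mem_headIdx, not_and, not_or]
        intro _
        rw [Finset.mem_Ico] at hk
        refine ⟨fun h => absurd h (by decide), fun _ => by omega⟩
      exact measurableSet_le (measurable_norm.comp h1) measurable_const
    · refine MeasurableSet.iInter fun m => MeasurableSet.iInter fun n =>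
        MeasurableSet.iInter fun _ => ?_
      have h1 : @Measurable Ω ℝ m0 _ (fun ω => ∑ k ∈ Ico m n,
          (if drv (i, k, 2) ω ≤ th then (1 : ℝ) else 0)) := by
        refine Finset.measurable_fun_sum _ fun k hk => ?_
        refine Measurable.ite ?_ measurable_const measurable_const
        refine measurableSet_le (hmd _ ?_) measurable_const
        rw [hS]
        simp only [Set.mem_compl_iff, Set.mem_ofPred_eq, mem_headIdx, not_and, not_or]
        intro _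
        exact ⟨fun h => absurd h (by decide), fun h => absurd h (by decide)⟩
      exact measurableSet_le h1 measurable_const
  have hprod := (Indep_iff _ _ _).1 hI2 _ _ hA hB
  have hpos1 : 0 < P ((⋂ p ∈ headIdx M B, drv p ⁻¹' headSet M p) ∩ late drv lam th e η M B) := by
    rw [hprod]
    exact ENNReal.mul_pos (head_pos hlam hI hM B).ne' (he M).ne'
  have hgap : ∀ᵐ ω ∂P, ∀ p : Site d × ℕ, 0 < drv (p.1, p.2, 0) ω ∧ 0 < drv (p.1, p.2, 1) ω := by
    rw [ae_all_iff]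
    intro p
    filter_upwards [exp_pos_ae' hlam (hI.meas _) (hI.arr p.1 p.2),
      exp_pos_ae' one_pos (hI.meas _) (hI.dep p.1 p.2)] with ω h1 h2
    exact ⟨h1, h2⟩
  have hgm : MeasurableSet {ω | ∀ p : Site d × ℕ, 0 < drv (p.1, p.2, 0) ω ∧
      0 < drv (p.1, p.2, 1) ω} := by
    have : {ω | ∀ p : Site d × ℕ, 0 < drv (p.1, p.2, 0) ω ∧ 0 < drv (p.1, p.2, 1) ω} =
        ⋂ p : Site d × ℕ, ({ω | 0 < drv (p.1, p.2, 0) ω} ∩ {ω | 0 < drv (p.1, p.2, 1) ω}) := by
      ext ω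
      simp only [Set.mem_ofPred_eq, Set.mem_iInter, Set.mem_inter_iff]
    rw [this]
    exact MeasurableSet.iInter fun p => (measurableSet_lt measurable_const (hI.meas _)).inter
      (measurableSet_lt measurable_const (hI.meas _))
  have hSle : (⨆ p ∈ S, mm p) ≤ ‹MeasurableSpace Ω› := iSup₂_le fun p _ => hle p
  have hSle' : (⨆ p ∈ Sᶜ, mm p) ≤ ‹MeasurableSpace Ω› := iSup₂_le fun p _ => hle p
  refine ⟨((⋂ p ∈ headIdx M B, drv p ⁻¹' headSet M p) ∩ late drv lam th e η M B) ∩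
      {ω | ∀ p : Site d × ℕ, 0 < drv (p.1, p.2, 0) ω ∧ 0 < drv (p.1, p.2, 1) ω},
      ((hSle _ hA).inter (hSle' _ hB)).inter hgm, ?_, ?_⟩
  · rw [measure_inter_conull]
    · exact hpos1
    · exact hgap
  · rintro ω ⟨⟨h1, h2⟩, h3⟩ i hi
    simp only [Set.mem_iInter] at h1
    obtain ⟨l1, l2, l3⟩ := h2 i hi
    refine ⟨fun n => (h3 (i, n)).1, fun n => (h3 (i, n)).2, fun k hk => ?_, ?_, l1, l2, l3⟩
    · have h4 := h1 (i, k, 0) (mem_headIdx.2 ⟨hi, Or.inl ⟨rfl, hk⟩⟩)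
      unfold headSet at h4
      rw [if_pos rfl] at h4
      exact h4
    · have h4 := h1 (i, 0, 1) (mem_headIdx.2 ⟨hi, Or.inr ⟨rfl, rfl⟩⟩)
      unfold headSet at h4
      rw [if_neg (show ¬ ((1 : Fin 3) = 0) by decide)] at h4
      exact h4

end

end Pool.Agent.V11325.Iq
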