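import Pool.Agent.V11325.IqE

/-!
# Interference queues: instability
-/

open Finset Filter Topology MeasureTheory ProbabilityTheory

namespace Pool.Agent.V11325.Iq

/-- The system is stable: the vector of queue lengths `X i t` converges in distribution, as
`t → ∞`, to a law `ν` on `ℕ^{ℤ^d}` (convergence of all finite-dimensional distribution
functions). -/
def Stable {d : ℕ} {Ω : Type} [MeasurableSpace Ω] (P : Measure Ω) (X : Site d → ℝ → Ω → ℕ) :
    Prop :=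
  ∃ ν : Measure (Site d → ℕ), IsProbabilityMeasure ν ∧
    ∀ (F : Finset (Site d)) (k : Site d → ℕ),
      Tendsto (fun t => P {ω | ∀ i ∈ F, X i t ω ≤ k i}) atTop (𝓝 (ν {y | ∀ i ∈ F, y i ≤ k i}))

/-- arrival times -/
def arrT {d : ℕ} {Ω : Type} (drv : Idx d → Ω → ℝ) (ω : Ω) (i : Site d) : ℕ → ℝ :=
  psum (fun k => drv (i, k, 0) ω)

/-- times of the potential departures -/
def depT {d : ℕ} {Ω : Type} (drv : Idx d → Ω → ℝ) (ω : Ω) (i : Site d) : ℕ → ℝ :=
  psum (fun k => drv (i, k, 1) ω)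

/-- marks of the potential departures -/
def mkU {d : ℕ} {Ω : Type} (drv : Idx d → Ω → ℝ) (ω : Ω) (i : Site d) : ℕ → ℝ :=
  fun k => drv (i, k, 2) ω

theorem cnt_le_eq {T : ℕ → ℝ} (hT : StrictMono T) (hub : ∀ s, ∃ n, s ≤ T n) (t : ℝ) :
    ∃ t' > t, ∀ s, t < s → s ≤ t' → ∀ n, T n ≤ t ↔ T n < s := by
  classical
  have hex : ∃ n, t < T n := by
    obtain ⟨n, hn⟩ := hub (t + 1)
    exact ⟨n, by linarith⟩
  refine ⟨T (Nat.find hex), Nat.find_spec hex, fun s hs hs' n => ⟨fun h => h.trans_lt hs,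
    fun h => ?_⟩⟩
  have h1 : n < Nat.find hex := hT.lt_iff_lt.1 (h.trans_le hs')
  exact not_lt.1 (Nat.find_min hex h1)

/-- the queue length right after `t` -/
theorem qlen_ge {d : ℕ} {TA TD : Site d → ℕ → ℝ} {acc : Site d → ℕ → Prop} {i : Site d}
    (hA : StrictMono (TA i)) (hA' : ∀ s, ∃ n, s ≤ TA i n) (hD : StrictMono (TD i))
    (hD' : ∀ s, ∃ n, s ≤ TD i n) {f : ℝ → ℝ} (hf : Monotone f)
    (h : ∀ t, 1 ≤ t → f t ≤ (qpre TA TD acc i t : ℝ)) {t : ℝ} (ht : 1 ≤ t) :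
    f t ≤ (qlen TA TD acc i t : ℝ) := by
  obtain ⟨t1, ht1, h1⟩ := cnt_le_eq hA hA' t
  obtain ⟨t2, ht2, h2⟩ := cnt_le_eq hD hD' t
  have hs : t < min t1 t2 := lt_min ht1 ht2
  have e1 : {n | TA i n ≤ t} = {n | TA i n < min t1 t2} := by
    ext n
    exact h1 _ hs (min_le_left _ _) n
  have e2 : {n | TD i n ≤ t ∧ acc i n} = {n | TD i n < min t1 t2 ∧ acc i n} := by
    ext n
    simp only [Set.mem_ofPred_eq]
    rw [h2 _ hs (min_le_right _ _) n]
  have e3 : qlen TA TD acc i t = qpre TA TD acc i (min t1 t2) := by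
    unfold qlen qpre
    rw [e1, e2]
  rw [e3]
  exact (hf hs.le).trans (h _ (ht.trans hs.le))

theorem mass_ge_one {d : ℕ} {a : Site d →₀ ℝ} (ha0 : a 0 = 1) (ha : ∀ j, 0 ≤ a j) :
    1 ≤ mass a := by
  have h0 : (0 : Site d) ∈ a.support := by
    rw [Finsupp.mem_support_iff, ha0]
    norm_num
  have := Finset.single_le_sum (f := fun j => a j) (fun j _ => ha j) h0
  simp only [ha0] at this
  exact this

theorem CC_pos {lam : ℝ} (h : 0 < lam) : 0 < CC lam := by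
  unfold CC
  positivity

theorem arith0 {β V vi M c0 ε X t E δ : ℝ} (hV : 0 < V) (hvi : vi ≤ V) (hvi0 : 0 < vi)
    (hβ : β = 1 / (4 * V)) (hε : ε = c0 / (2 * V)) (hc0 : 0 < c0) (hX1 : X ≤ 1 / 4)
    (hX2 : X ≤ c0 / 2) (hM : 0 < M) (hM1 : E + 1 + c0 ≤ M / 2) (ht : 1 ≤ t) (hδ : 0 < δ) :
    (β * M + ε * t) * vi ≤ M + c0 * (t - 1) - E - X * (t + M) := by
  have b1 : β * vi ≤ 1 / 4 := by
    rw [hβ, div_mul_eq_mul_div, div_le_iff₀ (by positivity)]
    linarith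
  have b2 : ε * vi ≤ c0 / 2 := by
    rw [hε, div_mul_eq_mul_div, div_le_iff₀ (by positivity)]
    have := mul_le_mul_of_nonneg_left hvi hc0.le
    linarith
  have b3 : β * vi * M ≤ 1 / 4 * M := mul_le_mul_of_nonneg_right b1 hM.le
  have b4 : ε * vi * (t - 1) ≤ c0 / 2 * (t - 1) :=
    mul_le_mul_of_nonneg_right b2 (by linarith)
  have b5 : X * (t - 1) ≤ c0 / 2 * (t - 1) :=
    mul_le_mul_of_nonneg_right hX2 (by linarith)
  have b6 : X * (1 + M) ≤ 1 / 4 * (1 + M) :=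
    mul_le_mul_of_nonneg_right hX1 (by linarith)
  have e1 : (β * M + ε * t) * vi = β * vi * M + ε * vi * (t - 1) + ε * vi := by ring
  have e2 : X * (t + M) = X * (t - 1) + X * (1 + M) := by ring
  rw [e1, e2]
  linarith

theorem arith1 {β V W vi M c0 ε X t r E δ : ℝ} (hV : 0 < V) (hvi : vi ≤ V) (hvi0 : 0 < vi)
    (hWv : W ≤ vi) (hβ0 : 0 < β) (hε : ε = c0 / (2 * V)) (hc0 : 0 < c0)
    (hX2 : X ≤ c0 / 2) (hX3 : X ≤ δ * ε * W) (hX4 : X ≤ δ * β * W / 2) (hM : 0 < M)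
    (hM2 : E + 1 ≤ δ * β * W * M / 2) (hr : 1 ≤ r) (hrt : r < t) (hδ : 0 < δ) :
    (β * M + ε * t) * vi ≤
      (1 + δ) * (β * M + ε * r) * vi + (c0 * (t - r) - E - X * (t + M)) - 1 := by
  have hε0 : 0 < ε := by rw [hε]; positivity
  have b2 : ε * vi ≤ c0 / 2 := by
    rw [hε, div_mul_eq_mul_div, div_le_iff₀ (by positivity)]
    have := mul_le_mul_of_nonneg_left hvi hc0.le
    linarith
  have b4 : ε * vi * (t - r) ≤ c0 / 2 * (t - r) :=
    mul_le_mul_of_nonneg_right b2 (by linarith)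
  have b5 : X * (t - r) ≤ c0 / 2 * (t - r) :=
    mul_le_mul_of_nonneg_right hX2 (by linarith)
  have b6 : X * r ≤ δ * ε * W * r :=
    mul_le_mul_of_nonneg_right hX3 (by linarith)
  have b7 : X * M ≤ δ * β * W / 2 * M :=
    mul_le_mul_of_nonneg_right hX4 hM.le
  have b8 : δ * ε * W * r ≤ δ * ε * vi * r :=
    mul_le_mul_of_nonneg_right (mul_le_mul_of_nonneg_left hWv (by positivity)) (by linarith)
  have b9 : δ * β * W * M ≤ δ * β * vi * M :=
    mul_le_mul_of_nonneg_right (mul_le_mul_of_nonneg_left hWv (by positivity)) hM.le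
  have e1 : (β * M + ε * t) * vi = β * vi * M + ε * vi * (t - r) + ε * vi * r := by ring
  have e2 : X * (t + M) = X * (t - r) + X * r + X * M := by ring
  have e3 : (1 + δ) * (β * M + ε * r) * vi = β * vi * M + ε * vi * r + δ * β * vi * M +
      δ * ε * vi * r := by ring
  rw [e1, e2, e3]
  linarith

/-- with positive probability the queue at the origin grows linearly -/
theorem grows {d : ℕ} {a : Site d →₀ ℝ} (ha0 : a 0 = 1) (ha : ∀ j, 0 ≤ a j)
    (hs : ∀ j, a (-j) = a j) {lam : ℝ} (hlam : 1 / mass a < lam) {Ω : Type} [MeasurableSpace Ω]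
    {P : Measure Ω} [IsProbabilityMeasure P] {drv : Idx d → Ω → ℝ} (hI : Inputs lam P drv)
    {acc : Ω → Site d → ℕ → Prop}
    (hacc : ∀ᵐ ω ∂P, Consistent a (arrT drv ω) (depT drv ω) (mkU drv ω) (acc ω)) :
    ∃ G : Set Ω, MeasurableSet G ∧ 0 < P G ∧ ∃ c : ℝ, 0 < c ∧ ∀ ω ∈ G, ∀ t, 1 ≤ t →
      c * t ≤ (qlen (arrT drv ω) (depT drv ω) (acc ω) 0 t : ℝ) := by
  classical
  have hm1 := mass_ge_one ha0 ha
  have hlam0 : 0 < lam := lt_trans (by positivity) hlam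
  obtain ⟨ρ, hρ1, hρ2⟩ := exists_between (show 1 / lam < mass a by
    rw [div_lt_comm₀ hlam0 (by linarith)]
    exact hlam)
  have hρ : 0 < ρ := lt_trans (by positivity) hρ1
  have hlr : 1 < lam * ρ := by
    rw [div_lt_iff₀ hlam0] at hρ1
    linarith
  obtain ⟨v, hv0, hvf, hvpos, hsub⟩ := exists_sub ha hs hρ hρ2
  obtain ⟨B, hB⟩ : ∃ B : Finset (Site d), B = hvf.toFinset := ⟨_, rfl⟩
  have hBmem : ∀ i, i ∈ B ↔ v i ≠ 0 := by
    intro i
    rw [hB, Set.Finite.mem_toFinset, Function.mem_support]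
  have hvB : ∀ i ∈ B, 0 < v i := fun i hi => lt_of_le_of_ne (hv0 i) (Ne.symm ((hBmem i).1 hi))
  have hvB0 : ∀ i, i ∉ B → v i = 0 := fun i hi => by
    by_contra hne
    exact hi ((hBmem i).2 hne)
  have h0B : (0 : Site d) ∈ B := (hBmem 0).2 hvpos.ne'
  obtain ⟨imax, himax, hmax⟩ := B.exists_max_image v ⟨0, h0B⟩
  obtain ⟨imin, himin, hmin⟩ := B.exists_min_image v ⟨0, h0B⟩
  obtain ⟨V, hV⟩ : ∃ V, V = v imax := ⟨_, rfl⟩
  obtain ⟨W, hW⟩ : ∃ W, W = v imin := ⟨_, rfl⟩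
  rw [← hV] at hmax
  rw [← hW] at hmin
  have hVpos : 0 < V := by rw [hV]; exact hvB _ himax
  have hWpos : 0 < W := by rw [hW]; exact hvB _ himin
  -- parameters
  obtain ⟨δ, hδ⟩ : ∃ δ, δ = (lam * ρ - 1) / 2 := ⟨_, rfl⟩
  have hδ0 : 0 < δ := by rw [hδ]; linarith
  obtain ⟨th, hth⟩ : ∃ th, th = (1 + δ) / ρ := ⟨_, rfl⟩
  have hth0 : 0 < th := by rw [hth]; positivity
  have hthl : th < lam := by
    rw [hth, div_lt_iff₀ hρ, hδ]
    linarith
  obtain ⟨c0, hc0⟩ : ∃ c0, c0 = lam - th := ⟨_, rfl⟩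
  have hc0p : 0 < c0 := by rw [hc0]; linarith
  obtain ⟨β, hβ⟩ : ∃ β, β = 1 / (4 * V) := ⟨_, rfl⟩
  have hβ0 : 0 < β := by rw [hβ]; positivity
  obtain ⟨ε, hε⟩ : ∃ ε, ε = c0 / (2 * V) := ⟨_, rfl⟩
  have hε0 : 0 < ε := by rw [hε]; positivity
  obtain ⟨X, hX⟩ : ∃ X, X = min (1 / 4) (min (c0 / 2) (min (δ * ε * W) (δ * β * W / 2))) :=
    ⟨_, rfl⟩
  have hX0 : 0 < X := by
    rw [hX]
    exact lt_min (by norm_num) (lt_min (by positivity) (lt_min (by positivity) (by positivity)))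
  have hX1 : X ≤ 1 / 4 := by rw [hX]; exact min_le_left _ _
  have hX2 : X ≤ c0 / 2 := by rw [hX]; exact (min_le_right _ _).trans (min_le_left _ _)
  have hX3 : X ≤ δ * ε * W := by
    rw [hX]; exact (min_le_right _ _).trans ((min_le_right _ _).trans (min_le_left _ _))
  have hX4 : X ≤ δ * β * W / 2 := by
    rw [hX]; exact (min_le_right _ _).trans ((min_le_right _ _).trans (min_le_right _ _))
  have hCC := CC_pos hlam0
  obtain ⟨η, hη⟩ : ∃ η, η = min (1 / (2 * lam)) (min (1 / 2) (X / CC lam)) := ⟨_, rfl⟩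
  have hη0 : 0 < η := by
    rw [hη]
    exact lt_min (by positivity) (lt_min (by norm_num) (by positivity))
  have hη1 : η ≤ 1 / (2 * lam) := by rw [hη]; exact min_le_left _ _
  have hη2 : η ≤ 1 / 2 := by rw [hη]; exact (min_le_right _ _).trans (min_le_left _ _)
  have hηX : η * CC lam ≤ X := by
    have : η ≤ X / CC lam := by rw [hη]; exact (min_le_right _ _).trans (min_le_right _ _)
    rwa [le_div_iff₀ hCC] at this
  obtain ⟨e, he⟩ := good_pos hlam0 hI hth0.le hη0 B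
  obtain ⟨E, hE⟩ : ∃ E : ℝ, E = 2 + lam + (4 * lam + 2) * e := ⟨_, rfl⟩
  have hE0 : 0 < E := by rw [hE]; positivity
  obtain ⟨M0, hM0⟩ := exists_nat_ge (2 * (E + 1 + c0) + 2 * (E + 1) / (δ * β * W))
  obtain ⟨M, hM⟩ : ∃ M : ℕ, M = M0 + 1 := ⟨_, rfl⟩
  have hMr : 2 * (E + 1 + c0) + 2 * (E + 1) / (δ * β * W) ≤ (M : ℝ) := by
    rw [hM]
    push_cast
    linarith
  have hMp : (0 : ℝ) < M := by
    rw [hM]
    positivity
  have hM1 : E + 1 + c0 ≤ (M : ℝ) / 2 := by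
    have : 0 ≤ 2 * (E + 1) / (δ * β * W) := by positivity
    linarith
  have hM2 : E + 1 ≤ δ * β * W * M / 2 := by
    have h1 : 2 * (E + 1) / (δ * β * W) ≤ (M : ℝ) := by
      have : 0 ≤ 2 * (E + 1 + c0) := by positivity
      linarith
    rw [div_le_iff₀ (by positivity)] at h1
    linarith
  obtain ⟨G, hGm, hGp, hG⟩ := he M (by omega)
  -- remove the null set
  obtain ⟨N, hN⟩ : ∃ N, N = toMeasurable P {ω | ¬ Consistent a (arrT drv ω) (depT drv ω)
    (mkU drv ω) (acc ω)} := ⟨_, rfl⟩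
  have hNm : MeasurableSet N := by rw [hN]; exact measurableSet_toMeasurable _ _
  have hN0 : P N = 0 := by rw [hN, measure_toMeasurable]; exact hacc
  have hNc : ∀ ω, ω ∉ N → Consistent a (arrT drv ω) (depT drv ω) (mkU drv ω) (acc ω) := by
    intro ω hω
    by_contra hcon
    apply hω
    rw [hN]
    exact subset_toMeasurable _ _ hcon
  refine ⟨G \ N, hGm.diff hNm, ?_, ε * v 0, mul_pos hε0 hvpos, ?_⟩
  · rw [measure_sdiff_null hN0]
    exact hGp
  rintro ω ⟨hωG, hωN⟩ t ht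
  have hcons := hNc ω hωN
  have hgood := hG ω hωG
  have hM1' : 1 ≤ M := by omega
  have he0 : (0 : ℝ) ≤ (e : ℝ) := Nat.cast_nonneg _
  have hCle : η * CC lam ≤ 1 := hηX.trans (hX1.trans (by norm_num))
  have hb := barrier ha hcons hvB hvB0 (σ := β * M) (ε := ε) hρ hδ0 (by positivity) hε0 hsub
    (fun i hi => psum_strictMono (hgood i hi).h_pos)
    (fun i hi t => cnt_finite (psum_strictMono (hgood i hi).h_pos)
      (h_unbounded (hgood i hi) hη2 t))
    (fun i hi n => psum_h_ge (hgood i hi) n) ?_ ?_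
  · have hq := qlen_ge (i := 0) (TA := arrT drv ω) (TD := depT drv ω) (acc := acc ω)
      (psum_strictMono (hgood 0 h0B).g_pos) (g_unbounded (hgood 0 h0B) hlam0 hη1)
      (psum_strictMono (hgood 0 h0B).h_pos) (h_unbounded (hgood 0 h0B) hη2)
      (f := fun t => (β * M + ε * t) * v 0) ?_ (fun t ht => hb t ht 0 h0B) ht
    · refine le_trans ?_ hq
      have : 0 ≤ β * M * v 0 := by positivity
      nlinarith
    · intro x y hxy
      have : ε * x ≤ ε * y := mul_le_mul_of_nonneg_left hxy hε0.le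
      exact mul_le_mul_of_nonneg_right (by linarith) hvpos.le
  · intro i hi t ht
    have h1 := start_bound (hgood i hi) hM1' he0 hη0.le hlam0 hη1 hη2 hCle hth0.le hthl.le ht
    rw [← hE, ← hc0] at h1
    rw [hth] at h1
    have h2 := arith0 (t := t) (X := η * CC lam) (δ := δ) hVpos (hmax i hi) (hvB i hi) hβ hε hc0p
      (hηX.trans hX1) (hηX.trans hX2) hMp hM1 ht hδ0
    exact h2.trans h1
  · intro i hi n t hnt
    have h1 := incr (hgood i hi) hM1' he0 hη0.le hlam0 hη1 hη2 hCle hth0.le hthl.le n hnt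
    rw [← hE, ← hc0, hth] at h1
    have hr1 : 1 ≤ psum (fun k => drv (i, k, 1) ω) n := psum_h_ge (hgood i hi) n
    have h2 := arith1 (t := t) (r := psum (fun k => drv (i, k, 1) ω) n) (X := η * CC lam)
      (δ := δ) (E := E) hVpos (hmax i hi) (hvB i hi) (hmin i hi) hβ0 hε hc0p
      (hηX.trans hX2) (hηX.trans hX3) (hηX.trans hX4) hMp hM2 hr1 hnt hδ0
    have h3 : depT drv ω i = psum (fun k => drv (i, k, 1) ω) := rfl
    have h4 : arrT drv ω i = psum (fun k => drv (i, k, 0) ω) := rfl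
    have h5 : mkU drv ω i = fun k => drv (i, k, 2) ω := rfl
    rw [h3, h4, h5]
    linarith

/-- **Instability.** -/
theorem not_stable {d : ℕ} {a : Site d →₀ ℝ} (ha0 : a 0 = 1) (ha : ∀ j, 0 ≤ a j)
    (hs : ∀ j, a (-j) = a j) {lam : ℝ} (hlam : 1 / mass a < lam) {Ω : Type} [MeasurableSpace Ω]
    {P : Measure Ω} [IsProbabilityMeasure P] {drv : Idx d → Ω → ℝ} (hI : Inputs lam P drv)
    {acc : Ω → Site d → ℕ → Prop}
    (hacc : ∀ᵐ ω ∂P, Consistent a (arrT drv ω) (depT drv ω) (mkU drv ω) (acc ω)) :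
    ¬ Stable P (fun i t ω => qlen (arrT drv ω) (depT drv ω) (acc ω) i t) := by
  obtain ⟨G, hGm, hGp, c, hc, hG⟩ := grows ha0 ha hs hlam hI hacc
  rintro ⟨ν, hν, hlim⟩
  have hGc : P Gᶜ < 1 := by
    rw [prob_compl_eq_one_sub hGm]
    exact ENNReal.sub_lt_self ENNReal.one_ne_top one_ne_zero hGp.ne'
  have hle : ∀ K : ℕ, ν {y | ∀ i ∈ ({0} : Finset (Site d)), y i ≤ K} ≤ P Gᶜ := by
    intro K
    have h1 := hlim {0} (fun _ => K)
    refine le_of_tendsto h1 ?_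
    filter_upwards [eventually_ge_atTop (1 : ℝ), eventually_gt_atTop ((K : ℝ) / c)] with t ht ht'
    refine measure_mono fun ω hω => ?_
    intro hωG
    have h2 := hG ω hωG t ht
    have h3 : qlen (arrT drv ω) (depT drv ω) (acc ω) 0 t ≤ K := hω 0 (Finset.mem_singleton_self 0)
    have h4 : (qlen (arrT drv ω) (depT drv ω) (acc ω) 0 t : ℝ) ≤ K := by exact_mod_cast h3
    rw [div_lt_iff₀ hc] at ht'
    linarith
  have hmono : Monotone (fun K : ℕ => {y : Site d → ℕ | ∀ i ∈ ({0} : Finset (Site d)), y i ≤ K}) := by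
    intro K K' hK y hy i hi
    exact (hy i hi).trans hK
  have h5 := tendsto_measure_iUnion_atTop (μ := ν) hmono
  have h6 : (⋃ K : ℕ, {y : Site d → ℕ | ∀ i ∈ ({0} : Finset (Site d)), y i ≤ K}) = Set.univ := by
    ext y
    simp only [Set.mem_iUnion, Set.mem_univ, iff_true]
    refine ⟨y 0, fun i hi => ?_⟩
    rw [Finset.mem_singleton] at hi
    rw [hi]
  rw [h6, measure_univ] at h5
  have h7 : (1 : ENNReal) ≤ P Gᶜ := le_of_tendsto' h5 hle
  exact absurd h7 (not_le.2 hGc)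

end Pool.Agent.V11325.Iq
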