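import Pool.Agent.V11325.IqF

/-!
# Interference queues: existence of the graphical construction
-/

open Finset Filter Topology MeasureTheory ProbabilityTheory

namespace Pool.Agent.V11325.Iq

section
variable {d : ℕ}

/-- acceptance family of a Boolean function -/
def accOf (x : Site d × ℕ → Bool) (i : Site d) (n : ℕ) : Prop := x (i, n) = true

theorem qpre_congr {TA TD : Site d → ℕ → ℝ} {x y : Site d × ℕ → Bool} {k : Site d} {t : ℝ}
    (h : ∀ n, TD k n < t → x (k, n) = y (k, n)) :
    qpre TA TD (accOf x) k t = qpre TA TD (accOf y) k t := by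
  unfold qpre accOf
  have : {n | TD k n < t ∧ x (k, n) = true} = {n | TD k n < t ∧ y (k, n) = true} := by
    ext n
    simp only [Set.mem_ofPred_eq]
    constructor
    · rintro ⟨h1, h2⟩
      exact ⟨h1, by rw [← h n h1]; exact h2⟩
    · rintro ⟨h1, h2⟩
      exact ⟨h1, by rw [h n h1]; exact h2⟩
  rw [this]

/-- the acceptance rule for one potential departure -/
def rule (a : Site d →₀ ℝ) (TA TD U : Site d → ℕ → ℝ) (x : Site d × ℕ → Bool)
    (p : Site d × ℕ) : Prop :=
  0 < qpre TA TD (accOf x) p.1 (TD p.1 p.2) ∧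
    U p.1 p.2 * ∑ j ∈ a.support, a j * (qpre TA TD (accOf x) (p.1 - j) (TD p.1 p.2) : ℝ) ≤
      (qpre TA TD (accOf x) p.1 (TD p.1 p.2) : ℝ)

theorem rule_congr {a : Site d →₀ ℝ} {TA TD U : Site d → ℕ → ℝ} {x y : Site d × ℕ → Bool}
    {p : Site d × ℕ} (h1 : ∀ n, TD p.1 n < TD p.1 p.2 → x (p.1, n) = y (p.1, n))
    (h2 : ∀ j ∈ a.support, ∀ n, TD (p.1 - j) n < TD p.1 p.2 → x (p.1 - j, n) = y (p.1 - j, n)) :
    rule a TA TD U x p ↔ rule a TA TD U y p := by
  unfold rule
  rw [qpre_congr (TA := TA) h1]
  have : ∑ j ∈ a.support, a j * (qpre TA TD (accOf x) (p.1 - j) (TD p.1 p.2) : ℝ) =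
      ∑ j ∈ a.support, a j * (qpre TA TD (accOf y) (p.1 - j) (TD p.1 p.2) : ℝ) :=
    Finset.sum_congr rfl fun j hj => by rw [qpre_congr (TA := TA) (h2 j hj)]
  rw [this]

/-- **Existence.** If every site has finitely many potential departures before any time, the
consistency equations have a solution. -/
theorem exists_consistent (a : Site d →₀ ℝ) (TA TD U : Site d → ℕ → ℝ)
    (hfin : ∀ i t, {n | TD i n < t}.Finite) : ∃ acc, Consistent a TA TD U acc := by
  classical
  obtain ⟨C, hC⟩ : ∃ C : Site d × ℕ → Set (Site d × ℕ → Bool),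
      C = fun p => {x | x p = true ↔ rule a TA TD U x p} := ⟨_, rfl⟩
  have hCm : ∀ p x, x ∈ C p ↔ (x p = true ↔ rule a TA TD U x p) := by
    intro p x
    rw [hC]
    rfl
  -- closedness
  have hclosed : ∀ p, IsClosed (C p) := by
    intro p
    obtain ⟨D, hD⟩ : ∃ D : Set (Site d × ℕ), D = {p} ∪ (⋃ n ∈ {n | TD p.1 n < TD p.1 p.2},
      {(p.1, n)}) ∪ (⋃ j ∈ a.support, ⋃ n ∈ {n | TD (p.1 - j) n < TD p.1 p.2}, {(p.1 - j, n)}) :=
      ⟨_, rfl⟩
    have hDf : D.Finite := by
      rw [hD]
      refine ((Set.finite_singleton p).union ?_).union ?_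
      · exact (hfin _ _).biUnion fun n _ => Set.finite_singleton _
      · exact (Finset.finite_toSet a.support).biUnion fun j _ =>
          (hfin _ _).biUnion fun n _ => Set.finite_singleton _
    rw [← isOpen_compl_iff, isOpen_iff_forall_mem_open]
    intro x hx
    refine ⟨⋂ q ∈ D, {y | y q = x q}, ?_, ?_, ?_⟩
    · intro y hy
      simp only [Set.mem_iInter] at hy
      intro hyC
      apply hx
      rw [hCm] at hyC ⊢
      have e1 : y p = x p := hy p (by rw [hD]; exact Or.inl (Or.inl rfl))
      have e2 : rule a TA TD U y p ↔ rule a TA TD U x p := by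
        apply rule_congr
        · intro n hn
          refine hy (p.1, n) ?_
          rw [hD]
          exact Or.inl (Or.inr (Set.mem_biUnion (x := n) hn rfl))
        · intro j hj n hn
          refine hy (p.1 - j, n) ?_
          rw [hD]
          exact Or.inr (Set.mem_biUnion (x := j) hj (Set.mem_biUnion (x := n) hn rfl))
      rw [← e1, ← e2]
      exact hyC
    · refine hDf.isOpen_biInter fun q _ => ?_
      have h1 : IsOpen ((fun y : Site d × ℕ → Bool => y q) ⁻¹' {x q}) :=
        (isOpen_discrete {x q}).preimage (continuous_apply q)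
      exact h1
    · simp only [Set.mem_iInter]
      intro q _
      rfl
  -- finite satisfiability
  have hsat : ∀ m : ℕ, ∀ F : Finset (Site d × ℕ), F.card = m → ∃ x, ∀ p ∈ F, x ∈ C p := by
    intro m
    induction m with
    | zero =>
      intro F hF
      rw [Finset.card_eq_zero] at hF
      refine ⟨fun _ => false, fun p hp => ?_⟩
      rw [hF] at hp
      exact absurd hp (Finset.notMem_empty p)
    | succ m ih =>
      intro F hF
      have hne : F.Nonempty := by
        rw [← Finset.card_pos]
        omega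
      obtain ⟨p, hp, hmax⟩ := F.exists_max_image (fun q => TD q.1 q.2) hne
      obtain ⟨x, hx⟩ := ih (F.erase p) (by rw [Finset.card_erase_of_mem hp]; omega)
      refine ⟨Function.update x p (decide (rule a TA TD U x p)), fun q hq => ?_⟩
      have hagree : ∀ r : Site d × ℕ, r ≠ p →
          Function.update x p (decide (rule a TA TD U x p)) r = x r :=
        fun r hr => Function.update_of_ne hr _ _
      have hrule : ∀ q : Site d × ℕ, TD q.1 q.2 ≤ TD p.1 p.2 →
          (rule a TA TD U (Function.update x p (decide (rule a TA TD U x p))) q ↔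
            rule a TA TD U x q) := by
        intro q hq
        apply rule_congr
        · intro n hn
          apply hagree
          intro h
          have h1 : TD p.1 p.2 = TD q.1 n := by rw [← h]
          rw [h1] at hq
          exact absurd hn (not_lt.2 hq)
        · intro j _ n hn
          apply hagree
          intro h
          have h1 : TD p.1 p.2 = TD (q.1 - j) n := by rw [← h]
          rw [h1] at hq
          exact absurd hn (not_lt.2 hq)
      rw [hCm, hrule q (hmax q hq)]
      by_cases hqp : q = p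
      · subst hqp
        rw [Function.update_self, decide_eq_true_iff]
      · rw [hagree q hqp]
        exact (hCm q x).1 (hx q (Finset.mem_erase.2 ⟨hqp, hq⟩))
  obtain ⟨x, -, hx⟩ := isCompact_univ.inter_iInter_nonempty C hclosed (fun F => by
    obtain ⟨x, hx⟩ := hsat _ F rfl
    refine ⟨x, Set.mem_univ _, ?_⟩
    simp only [Set.mem_iInter]
    exact hx)
  rw [Set.mem_iInter] at hx
  exact ⟨accOf x, fun i n => (hCm (i, n) x).1 (hx (i, n))⟩

end

/-- laws of the inputs -/
noncomputable def lawOf {d : ℕ} (lam : ℝ) (p : Idx d) : Measure ℝ :=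
  if p.2.2 = 0 then expMeasure lam else if p.2.2 = 1 then expMeasure 1
    else volume.restrict (Set.Icc 0 1)

/-- **Existence of the network.** -/
theorem exists_network {d : ℕ} (a : Site d →₀ ℝ) {lam : ℝ} (hlam : 0 < lam) :
    ∃ (Ω : Type) (_ : MeasurableSpace Ω) (P : Measure Ω) (drv : Idx d → Ω → ℝ)
      (acc : Ω → Site d → ℕ → Prop), IsProbabilityMeasure P ∧ Inputs lam P drv ∧
      ∀ᵐ ω ∂P, Consistent a (arrT drv ω) (depT drv ω) (mkU drv ω) (acc ω) := by
  classical
  have hprob : ∀ p : Idx d, IsProbabilityMeasure (lawOf lam p) := by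
    intro p
    unfold lawOf
    split_ifs
    · exact isProbabilityMeasure_expMeasure hlam
    · exact isProbabilityMeasure_expMeasure one_pos
    · refine ⟨?_⟩
      rw [Measure.restrict_apply_univ, Real.volume_Icc]
      simp
  obtain ⟨P, hP⟩ : ∃ P : Measure (Idx d → ℝ), P = Measure.infinitePi (lawOf lam) := ⟨_, rfl⟩
  have hPp : IsProbabilityMeasure P := by rw [hP]; infer_instance
  obtain ⟨drv, hdrv⟩ : ∃ drv : Idx d → (Idx d → ℝ) → ℝ, drv = fun p ω => ω p := ⟨_, rfl⟩
  have hmap : ∀ p, P.map (drv p) = lawOf lam p := by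
    intro p
    rw [hP, hdrv]
    exact Measure.infinitePi_map_eval _ p
  have hI : Inputs lam P drv := by
    refine ⟨fun p => ?_, ?_, fun i n => ?_, fun i n => ?_, fun i n => ?_⟩
    · rw [hdrv]
      exact measurable_pi_apply p
    · rw [hP, hdrv]
      exact iIndepFun_infinitePi (P := lawOf lam) (X := fun _ x => x) (fun _ => measurable_id)
    · rw [hmap]
      rfl
    · rw [hmap]
      rfl
    · rw [hmap]
      rfl
  have hae : ∀ᵐ ω ∂P, ∃ acc, Consistent a (arrT drv ω) (depT drv ω) (mkU drv ω) acc := by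
    have h1 : ∀ᵐ ω ∂P, ∀ i : Site d, (∀ n, 0 < drv (i, n, 1) ω) ∧ ∃ e : ℕ, ∀ n : ℕ,
        |∑ k ∈ range n, (drv (i, k, 1) ω - 1 / 1)| ≤ e + (1 / 2) * n := by
      rw [ae_all_iff]
      intro i
      have h2 : ∀ᵐ ω ∂P, ∀ n, 0 < drv (i, n, 1) ω := by
        rw [ae_all_iff]
        exact fun n => exp_pos_ae' one_pos (hI.meas _) (hI.dep i n)
      filter_upwards [h2, lln_exp hI i 1 one_pos (hI.dep i) (by norm_num : (0 : ℝ) < 1 / 2)]
        with ω h3 h4
      exact ⟨h3, h4⟩
    filter_upwards [h1] with ω hω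
    apply exists_consistent
    intro i t
    obtain ⟨hpos, e, he⟩ := hω i
    refine cnt_finite (psum_strictMono hpos) ?_
    obtain ⟨n, hn⟩ := exists_nat_ge (2 * (t + e))
    refine ⟨n, ?_⟩
    have h2 := (abs_le.1 (he (n + 1))).1
    rw [Finset.sum_sub_distrib, Finset.sum_const, Finset.card_range, nsmul_eq_mul] at h2
    show t ≤ ∑ k ∈ range (n + 1), drv (i, k, 1) ω
    push_cast at h2
    linarith
  obtain ⟨acc, hacc⟩ : ∃ acc : (Idx d → ℝ) → Site d → ℕ → Prop, ∀ ω,
      (∃ acc, Consistent a (arrT drv ω) (depT drv ω) (mkU drv ω) acc) →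
        Consistent a (arrT drv ω) (depT drv ω) (mkU drv ω) (acc ω) := by
    refine ⟨fun ω => if h : ∃ acc, Consistent a (arrT drv ω) (depT drv ω) (mkU drv ω) acc
      then h.choose else fun _ _ => True, fun ω h => ?_⟩
    simp only [dif_pos h]
    exact h.choose_spec
  refine ⟨Idx d → ℝ, inferInstance, P, drv, acc, hPp, hI, ?_⟩
  filter_upwards [hae] with ω hω
  exact hacc ω hω

end Pool.Agent.V11325.Iq
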