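import Pool.Agent.V11325.PamOp

/-!
# Exponential generating functions
-/

open Filter Topology

namespace Pool.Agent.V11325.Pam

/-- exponential generating function -/
noncomputable def egf (c : ℕ → ℝ) (t : ℝ) : ℝ := ∑' n : ℕ, t ^ n / (n.factorial : ℝ) * c n

/-- at most geometric growth -/
def Bd (c : ℕ → ℝ) : Prop := ∃ K L : ℝ, 0 ≤ K ∧ 0 ≤ L ∧ ∀ n, |c n| ≤ K * L ^ n

theorem Bd.shift {c : ℕ → ℝ} (h : Bd c) : Bd (fun n => c (n + 1)) := by
  obtain ⟨K, L, hK, hL, h⟩ := h
  refine ⟨K * L, L, by positivity, hL, fun n => ?_⟩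
  have := h (n + 1)
  rw [pow_succ] at this
  calc |c (n + 1)| ≤ K * (L ^ n * L) := this
    _ = K * L * L ^ n := by ring

theorem Bd.sub {c d : ℕ → ℝ} (hc : Bd c) (hd : Bd d) : Bd (fun n => c n - d n) := by
  obtain ⟨K, L, hK, hL, h⟩ := hc
  obtain ⟨K', L', hK', hL', h'⟩ := hd
  refine ⟨K + K', max L L', by positivity, le_max_of_le_left hL, fun n => ?_⟩
  have h1 : L ^ n ≤ (max L L') ^ n := pow_le_pow_left₀ hL (le_max_left _ _) n
  have h2 : L' ^ n ≤ (max L L') ^ n := pow_le_pow_left₀ hL' (le_max_right _ _) n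
  calc |c n - d n| ≤ |c n| + |d n| := abs_sub _ _
    _ ≤ K * L ^ n + K' * L' ^ n := add_le_add (h n) (h' n)
    _ ≤ K * (max L L') ^ n + K' * (max L L') ^ n :=
        add_le_add (mul_le_mul_of_nonneg_left h1 hK) (mul_le_mul_of_nonneg_left h2 hK')
    _ = (K + K') * (max L L') ^ n := by ring

theorem egf_summable_norm {c : ℕ → ℝ} (h : Bd c) (t : ℝ) :
    Summable (fun n : ℕ => ‖t ^ n / (n.factorial : ℝ) * c n‖) := by
  obtain ⟨K, L, hK, hL, h⟩ := h
  have h1 : Summable (fun n : ℕ => K * ((|t| * L) ^ n / (n.factorial : ℝ))) :=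
    (Real.summable_pow_div_factorial (|t| * L)).mul_left K
  refine Summable.of_nonneg_of_le (fun n => norm_nonneg _) (fun n => ?_) h1
  rw [norm_mul, norm_div, norm_pow, Real.norm_eq_abs, Real.norm_eq_abs, Real.norm_eq_abs,
    Nat.abs_cast, mul_pow]
  calc |t| ^ n / (n.factorial : ℝ) * |c n| ≤ |t| ^ n / (n.factorial : ℝ) * (K * L ^ n) :=
        mul_le_mul_of_nonneg_left (h n) (by positivity)
    _ = K * (|t| ^ n * L ^ n / (n.factorial : ℝ)) := by ring

theorem egf_summable {c : ℕ → ℝ} (h : Bd c) (t : ℝ) :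
    Summable (fun n : ℕ => t ^ n / (n.factorial : ℝ) * c n) := (egf_summable_norm h t).of_norm

theorem egf_zero (c : ℕ → ℝ) : egf c 0 = c 0 := by
  unfold egf
  rw [tsum_eq_single 0]
  · simp
  · intro n hn
    rw [zero_pow hn, zero_div, zero_mul]

theorem egf_sub {c d : ℕ → ℝ} (hc : Bd c) (hd : Bd d) (t : ℝ) :
    egf (fun n => c n - d n) t = egf c t - egf d t := by
  unfold egf
  rw [← (egf_summable hc t).tsum_sub (egf_summable hd t)]
  exact tsum_congr fun n => by ring

theorem egf_nonneg {c : ℕ → ℝ} (hc : ∀ n, 0 ≤ c n) {t : ℝ} (ht : 0 ≤ t) : 0 ≤ egf c t :=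
  tsum_nonneg fun n => mul_nonneg (by positivity) (hc n)

theorem egf_mono {c d : ℕ → ℝ} (hc : Bd c) (hd : Bd d) (h : ∀ n, c n ≤ d n) {t : ℝ}
    (ht : 0 ≤ t) : egf c t ≤ egf d t := by
  refine (egf_summable hc t).tsum_le_tsum (fun n => ?_) (egf_summable hd t)
  exact mul_le_mul_of_nonneg_left (h n) (by positivity)

theorem egf_pos {c : ℕ → ℝ} (hb : Bd c) (hc : ∀ n, 0 ≤ c n) {k : ℕ} (hk : 0 < c k) {t : ℝ}
    (ht : 0 < t) : 0 < egf c t := by
  unfold egf
  refine (egf_summable hb t).tsum_pos (fun n => mul_nonneg (by positivity) (hc n)) k ?_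
  positivity

theorem egf_abs_le {c : ℕ → ℝ} {K L : ℝ} (hK : 0 ≤ K) (hL : 0 ≤ L) (h : ∀ n, |c n| ≤ K * L ^ n)
    {t T : ℝ} (ht : 0 ≤ t) (htT : t ≤ T) : |egf c t| ≤ K * Real.exp (T * L) := by
  have hb : Bd c := ⟨K, L, hK, hL, h⟩
  unfold egf
  have h1 : |∑' n : ℕ, t ^ n / (n.factorial : ℝ) * c n| ≤
      ∑' n : ℕ, ‖t ^ n / (n.factorial : ℝ) * c n‖ := by
    rw [← Real.norm_eq_abs]
    exact norm_tsum_le_tsum_norm (egf_summable_norm hb t)
  refine h1.trans ?_
  have h2 : Real.exp (T * L) = ∑' n : ℕ, (T * L) ^ n / (n.factorial : ℝ) := by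
    rw [Real.exp_eq_exp_ℝ, NormedSpace.exp_eq_tsum_div]
  rw [h2, ← tsum_mul_left]
  refine (egf_summable_norm hb t).tsum_le_tsum (fun n => ?_)
    ((Real.summable_pow_div_factorial (T * L)).mul_left K)
  rw [norm_mul, norm_div, norm_pow, Real.norm_eq_abs, Real.norm_eq_abs, Real.norm_eq_abs,
    Nat.abs_cast, abs_of_nonneg ht, mul_pow]
  have h3 : t ^ n ≤ T ^ n := pow_le_pow_left₀ ht htT n
  calc t ^ n / (n.factorial : ℝ) * |c n| ≤ T ^ n / (n.factorial : ℝ) * (K * L ^ n) :=
        mul_le_mul (div_le_div_of_nonneg_right h3 (by positivity)) (h n) (abs_nonneg _)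
          (div_nonneg (pow_nonneg (ht.trans htT) n) (by positivity))
    _ = K * (T ^ n * L ^ n / (n.factorial : ℝ)) := by ring

theorem egf_hasDerivAt {c : ℕ → ℝ} (h : Bd c) (t : ℝ) :
    HasDerivAt (egf c) (egf (fun n => c (n + 1)) t) t := by
  have hb := h
  obtain ⟨K, L, hK, hL, h⟩ := h
  set R : ℝ := |t| + 1 with hR
  have hR0 : 0 < R := by positivity
  -- bound for the derivatives
  have hsum : Summable (fun n : ℕ => (n : ℝ) * R ^ (n - 1) / (n.factorial : ℝ) * (K * L ^ n)) := by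
    rw [← summable_nat_add_iff 1]
    have h1 : Summable (fun n : ℕ => K * L * ((R * L) ^ n / (n.factorial : ℝ))) :=
      (Real.summable_pow_div_factorial (R * L)).mul_left (K * L)
    refine h1.congr fun n => ?_
    rw [Nat.factorial_succ, Nat.add_sub_cancel]
    push_cast
    have h2 : (n.factorial : ℝ) ≠ 0 := by positivity
    field_simp
    ring_nf
  have hder := hasDerivAt_tsum_of_isPreconnected (𝕜 := ℝ) (F := ℝ)
    (g := fun (n : ℕ) (s : ℝ) => s ^ n / (n.factorial : ℝ) * c n)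
    (g' := fun (n : ℕ) (s : ℝ) => (n : ℝ) * s ^ (n - 1) / (n.factorial : ℝ) * c n)
    (t := Metric.ball (0 : ℝ) R) (y₀ := 0) (y := t) hsum Metric.isOpen_ball
    (convex_ball (0 : ℝ) R).isPreconnected ?_ ?_ (Metric.mem_ball_self hR0)
    (egf_summable hb 0) ?_
  · refine hder.congr_deriv ?_
    have hs : Summable (fun n : ℕ => (n : ℝ) * t ^ (n - 1) / (n.factorial : ℝ) * c n) := by
      refine Summable.of_norm_bounded hsum fun n => ?_
      rw [norm_mul, norm_div, norm_mul, norm_pow, Real.norm_eq_abs, Real.norm_eq_abs,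
        Real.norm_eq_abs, Real.norm_eq_abs, Nat.abs_cast, Nat.abs_cast]
      have h3 : |t| ^ (n - 1) ≤ R ^ (n - 1) := pow_le_pow_left₀ (abs_nonneg _) (by linarith) _
      exact mul_le_mul (div_le_div_of_nonneg_right (mul_le_mul_of_nonneg_left h3
        (by positivity)) (by positivity)) (h n) (abs_nonneg _) (by positivity)
    rw [hs.tsum_eq_zero_add]
    simp only [Nat.cast_zero, zero_mul, zero_div, zero_add]
    unfold egf
    refine tsum_congr fun n => ?_
    rw [Nat.factorial_succ, Nat.add_sub_cancel]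
    push_cast
    have h2 : (n.factorial : ℝ) ≠ 0 := by positivity
    field_simp
  · intro n s _
    have h1 := ((hasDerivAt_pow n s).div_const (n.factorial : ℝ)).mul_const (c n)
    exact h1
  · intro n s hs
    rw [Metric.mem_ball, dist_zero_right, Real.norm_eq_abs] at hs
    rw [norm_mul, norm_div, norm_mul, norm_pow, Real.norm_eq_abs, Real.norm_eq_abs,
      Real.norm_eq_abs, Real.norm_eq_abs, Nat.abs_cast, Nat.abs_cast]
    have h3 : |s| ^ (n - 1) ≤ R ^ (n - 1) := pow_le_pow_left₀ (abs_nonneg _) hs.le _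
    exact mul_le_mul (div_le_div_of_nonneg_right (mul_le_mul_of_nonneg_left h3
      (by positivity)) (by positivity)) (h n) (abs_nonneg _) (by positivity)
  · rw [Metric.mem_ball, dist_zero_right, Real.norm_eq_abs]
    linarith

/-- if `c_0 ≤ c_1` and `c_n ≤ c_{n+2}` then the generating function of `c_{n+1} - c_n` is
nonnegative on `[0, ∞)` -/
theorem egf_shift_ge {c : ℕ → ℝ} (h : Bd c) (h01 : c 0 ≤ c 1) (hmono : ∀ n, c n ≤ c (n + 2))
    {t : ℝ} (ht : 0 ≤ t) : egf c t ≤ egf (fun n => c (n + 1)) t := by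
  have h1 := h.shift
  have h2 : Bd (fun n => c (n + 2)) := h1.shift
  have hd : ∀ s : ℝ, HasDerivAt (fun s => Real.exp s * (egf (fun n => c (n + 1)) s - egf c s))
      (Real.exp s * (egf (fun n => c (n + 2)) s - egf c s)) s := by
    intro s
    have h3 : HasDerivAt (egf (fun n => c (n + 1))) (egf (fun n => c (n + 2)) s) s :=
      egf_hasDerivAt h1 s
    have h4 := (Real.hasDerivAt_exp s).mul (h3.sub (egf_hasDerivAt h s))
    refine h4.congr_deriv ?_
    simp only [Pi.sub_apply]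
    ring
  have hmon : MonotoneOn (fun s => Real.exp s * (egf (fun n => c (n + 1)) s - egf c s))
      (Set.Ici 0) := by
    apply monotoneOn_of_deriv_nonneg (convex_Ici 0)
    · exact fun s _ => (hd s).continuousAt.continuousWithinAt
    · exact fun s _ => (hd s).differentiableAt.differentiableWithinAt
    · intro s hs
      rw [interior_Ici] at hs
      rw [(hd s).deriv]
      exact mul_nonneg (Real.exp_pos s).le (sub_nonneg.2 (egf_mono h h2 hmono (le_of_lt hs)))
  have h5 := hmon (Set.mem_Ici.2 le_rfl) (Set.mem_Ici.2 ht) ht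
  simp only [Real.exp_zero, one_mul, egf_zero] at h5
  have h6 : 0 ≤ Real.exp t * (egf (fun n => c (n + 1)) t - egf c t) := by
    have : c (0 + 1) = c 1 := rfl
    linarith
  have h7 := nonneg_of_mul_nonneg_right h6 (Real.exp_pos t)
  linarith

end Pool.Agent.V11325.Pam
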