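import Mathlib

/-!
# Simple random walk kernels: two-fold time convolutions increase along parity classes
-/

open Finset

namespace Pool.Agent.V11325.Pam

/-- `n`-step transition probabilities of simple random walk on `ℤ` -/
noncomputable def q : ℕ → ℤ → ℝ
  | 0, m => if m = 0 then 1 else 0
  | n + 1, m => (q n (m - 1) + q n (m + 1)) / 2

theorem q_zero (m : ℤ) : q 0 m = if m = 0 then 1 else 0 := rfl

theorem q_succ (n : ℕ) (m : ℤ) : q (n + 1) m = (q n (m - 1) + q n (m + 1)) / 2 := rfl

theorem q_nonneg (n : ℕ) (m : ℤ) : 0 ≤ q n m := by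
  induction n generalizing m with
  | zero => rw [q_zero]; split_ifs <;> norm_num
  | succ n ih => rw [q_succ]; have := ih (m - 1); have := ih (m + 1); linarith

theorem q_far (n : ℕ) (m : ℤ) (h : (n : ℤ) < |m|) : q n m = 0 := by
  induction n generalizing m with
  | zero =>
    rw [q_zero, if_neg]
    rintro rfl
    simp at h
  | succ n ih =>
    rw [q_succ, ih (m - 1), ih (m + 1)]
    · norm_num
    · push_cast at h
      rw [lt_abs] at h ⊢
      omega
    · push_cast at h
      rw [lt_abs] at h ⊢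
      omega

theorem q_odd (n : ℕ) (m : ℤ) (h : (n + m) % 2 = 1) : q n m = 0 := by
  induction n generalizing m with
  | zero =>
    rw [q_zero, if_neg]
    rintro rfl
    simp at h
  | succ n ih =>
    rw [q_succ, ih (m - 1), ih (m + 1)]
    · norm_num
    · push_cast at h
      omega
    · push_cast at h
      omega

theorem q_formula (n k : ℕ) : q n (2 * k - n) = n.choose k / 2 ^ n := by
  induction n generalizing k with
  | zero =>
    rw [q_zero]
    rcases Nat.eq_zero_or_pos k with rfl | hk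
    · simp
    · rw [if_neg (by push_cast; omega), Nat.choose_eq_zero_of_lt hk]
      simp
  | succ n ih =>
    rw [q_succ]
    rcases Nat.eq_zero_or_pos k with rfl | hk
    · have h1 := ih 0
      have h2 : q n (2 * ((0 : ℕ) : ℤ) - ((n + 1 : ℕ) : ℤ) - 1) = 0 := by
        apply q_far
        rw [lt_abs]
        right
        push_cast
        omega
      have h3 : (2 * ((0 : ℕ) : ℤ) - ((n + 1 : ℕ) : ℤ) + 1) = 2 * ((0 : ℕ) : ℤ) - (n : ℤ) := by
        push_cast
        ring
      rw [h2, h3, h1]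
      simp only [Nat.choose_zero_right, Nat.cast_one, zero_add]
      rw [pow_succ]
      field_simp
    · obtain ⟨k, rfl⟩ : ∃ j, k = j + 1 := ⟨k - 1, by omega⟩
      have h3 : (2 * ((k + 1 : ℕ) : ℤ) - ((n + 1 : ℕ) : ℤ) + 1) =
          2 * ((k + 1 : ℕ) : ℤ) - (n : ℤ) := by
        push_cast
        ring
      have h4 : (2 * ((k + 1 : ℕ) : ℤ) - ((n + 1 : ℕ) : ℤ) - 1) = 2 * (k : ℤ) - (n : ℤ) := by
        push_cast
        ring
      rw [h3, h4, ih k, ih (k + 1), Nat.choose_succ_succ, pow_succ]
      push_cast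
      field_simp

/-- the return probabilities satisfy `(i + 2) s_{i+2} = (i + 1) s_i` -/
theorem q_rec (i : ℕ) : ((i : ℝ) + 2) * q (i + 2) 0 = ((i : ℝ) + 1) * q i 0 := by
  rcases Nat.even_or_odd' i with ⟨k, rfl | rfl⟩
  · have h1 : q (2 * k) 0 = (Nat.centralBinom k : ℝ) / 2 ^ (2 * k) := by
      have := q_formula (2 * k) k
      rw [Nat.centralBinom]
      rw [← this]
      congr 1
      push_cast
      ring
    have h2 : q (2 * k + 2) 0 = (Nat.centralBinom (k + 1) : ℝ) / 2 ^ (2 * k + 2) := by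
      have := q_formula (2 * k + 2) (k + 1)
      rw [Nat.centralBinom]
      have h3 : 2 * (k + 1) = 2 * k + 2 := by ring
      rw [h3, ← this]
      congr 1
      push_cast
      ring
    rw [h1, h2]
    have h4 := Nat.succ_mul_centralBinom_succ k
    have h5 : ((k : ℝ) + 1) * (Nat.centralBinom (k + 1) : ℝ) =
        2 * (2 * k + 1) * (Nat.centralBinom k : ℝ) := by
      exact_mod_cast h4
    rw [pow_add]
    push_cast
    field_simp
    linear_combination h5
  · rw [q_odd (2 * k + 1) 0 (by push_cast; omega), q_odd (2 * k + 1 + 2) 0 (by push_cast; omega)]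
    ring

/-- two-fold convolution in time -/
noncomputable def B (N : ℕ) (a b : ℤ) : ℝ := ∑ p ∈ antidiagonal N, q p.1 a * q p.2 b

theorem B_nonneg (N : ℕ) (a b : ℤ) : 0 ≤ B N a b :=
  Finset.sum_nonneg fun _ _ => mul_nonneg (q_nonneg _ _) (q_nonneg _ _)

theorem B_symm (N : ℕ) (a b : ℤ) : B N a b = B N b a := by
  unfold B
  rw [← Finset.Nat.sum_antidiagonal_swap]
  refine Finset.sum_congr rfl fun p _ => ?_
  simp only [Prod.fst_swap, Prod.snd_swap]
  ring

theorem B_succ (N : ℕ) (a b : ℤ) :
    B (N + 1) a b = q 0 a * q (N + 1) b + (B N (a - 1) b + B N (a + 1) b) / 2 := by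
  unfold B
  rw [Finset.Nat.sum_antidiagonal_succ]
  congr 1
  rw [← Finset.sum_add_distrib, Finset.sum_div]
  refine Finset.sum_congr rfl fun p _ => ?_
  simp only [q_succ]
  ring

/-- the diagonal case -/
theorem B_diag (N : ℕ) : B (N + 2) 0 0 = B N 0 0 := by
  -- the first moment
  have hS : ∀ N : ℕ, 2 * ∑ p ∈ antidiagonal N, (p.1 : ℝ) * (q p.1 0 * q p.2 0) = N * B N 0 0 := by
    intro N
    have h1 : ∑ p ∈ antidiagonal N, (p.1 : ℝ) * (q p.1 0 * q p.2 0) =
        ∑ p ∈ antidiagonal N, (p.2 : ℝ) * (q p.1 0 * q p.2 0) := by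
      rw [← Finset.Nat.sum_antidiagonal_swap]
      refine Finset.sum_congr rfl fun p _ => ?_
      simp only [Prod.fst_swap, Prod.snd_swap]
      ring
    unfold B
    rw [two_mul]
    nth_rewrite 2 [h1]
    rw [← Finset.sum_add_distrib, Finset.mul_sum]
    refine Finset.sum_congr rfl fun p hp => ?_
    have h2 : (p.1 : ℝ) + p.2 = N := by exact_mod_cast Finset.HasAntidiagonal.mem_antidiagonal.1 hp
    rw [← h2]
    ring
  have h1 := hS (N + 2)
  have h2 := hS N
  have hq1 : q 1 0 = 0 := q_odd 1 0 (by norm_num)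
  have h3 : ∑ p ∈ antidiagonal (N + 2), (p.1 : ℝ) * (q p.1 0 * q p.2 0) =
      ∑ p ∈ antidiagonal N, ((p.1 : ℝ) + 1) * (q p.1 0 * q p.2 0) := by
    rw [Finset.Nat.sum_antidiagonal_succ, Finset.Nat.sum_antidiagonal_succ]
    simp only [Nat.cast_zero, zero_mul, zero_add, hq1, mul_zero]
    refine Finset.sum_congr rfl fun p _ => ?_
    have h4 := q_rec p.1
    push_cast
    have h5 : q (p.1 + 1 + 1) 0 = q (p.1 + 2) 0 := rfl
    rw [h5]
    linear_combination (q p.2 0) * h4
  rw [h3] at h1
  have h6 : ∑ p ∈ antidiagonal N, ((p.1 : ℝ) + 1) * (q p.1 0 * q p.2 0) =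
      ∑ p ∈ antidiagonal N, (p.1 : ℝ) * (q p.1 0 * q p.2 0) + B N 0 0 := by
    unfold B
    rw [← Finset.sum_add_distrib]
    exact Finset.sum_congr rfl fun p _ => by ring
  rw [h6] at h1
  push_cast at h1
  have h7 : (N : ℝ) + 2 ≠ 0 := by positivity
  have h8 : ((N : ℝ) + 2) * (B (N + 2) 0 0 - B N 0 0) = 0 := by linarith
  rcases mul_eq_zero.1 h8 with h9 | h9
  · exact absurd h9 h7
  · linarith

/-- **the two-fold convolutions increase along parity classes** -/
theorem B_mono (N : ℕ) (a b : ℤ) : B N a b ≤ B (N + 2) a b := by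
  induction N generalizing a b with
  | zero =>
    by_cases h : a = 0 ∧ b = 0
    · rw [h.1, h.2, B_diag]
    · have h1 : B 0 a b = 0 := by
        unfold B
        simp only [Finset.Nat.antidiagonal_zero, Finset.sum_singleton, q_zero]
        by_cases ha : a = 0
        · rw [if_neg (fun hb => h ⟨ha, hb⟩), mul_zero]
        · rw [if_neg ha, zero_mul]
      rw [h1]
      exact B_nonneg _ _ _
  | succ N ih =>
    have key : ∀ a b : ℤ, a ≠ 0 → B (N + 1) a b ≤ B (N + 1 + 2) a b := by
      intro a b ha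
      have h1 : N + 1 + 2 = (N + 2) + 1 := by ring
      rw [h1, B_succ, B_succ (N + 2), q_zero, if_neg ha]
      have h2 := ih (a - 1) b
      have h3 := ih (a + 1) b
      linarith
    by_cases ha : a = 0
    · by_cases hb : b = 0
      · rw [ha, hb, B_diag]
      · rw [B_symm, B_symm (N + 1 + 2)]
        exact key b a hb
    · exact key a b ha

end Pool.Agent.V11325.Pam
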