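import Pool.Agent.V11325.PamKernel

/-!
# Iterates of `P + V` minus iterates of `P` increase along parity classes
-/

open Finset

namespace Pool.Agent.V11325.Pam

/-- the transition operator of simple random walk -/
noncomputable def PP (f : ℤ → ℝ) : ℤ → ℝ := fun x => (f (x - 1) + f (x + 1)) / 2

/-- `P + V` -/
noncomputable def AA (V f : ℤ → ℝ) : ℤ → ℝ := fun x => PP f x + V x * f x

theorem PP_nonneg {f : ℤ → ℝ} (hf : ∀ x, 0 ≤ f x) (x : ℤ) : 0 ≤ PP f x := by
  unfold PP
  have := hf (x - 1)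
  have := hf (x + 1)
  linarith

theorem PP_mono {f g : ℤ → ℝ} (h : ∀ x, f x ≤ g x) (x : ℤ) : PP f x ≤ PP g x := by
  unfold PP
  have := h (x - 1)
  have := h (x + 1)
  linarith

theorem PPn_nonneg {f : ℤ → ℝ} (hf : ∀ x, 0 ≤ f x) (n : ℕ) (x : ℤ) : 0 ≤ PP^[n] f x := by
  induction n generalizing x with
  | zero => exact hf x
  | succ n ih => rw [Function.iterate_succ_apply']; exact PP_nonneg ih x

theorem AA_nonneg {V f : ℤ → ℝ} (hV : ∀ x, 0 ≤ V x) (hf : ∀ x, 0 ≤ f x) (x : ℤ) :
    0 ≤ AA V f x := by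
  unfold AA
  have h1 := PP_nonneg hf x
  have h2 := mul_nonneg (hV x) (hf x)
  linarith

theorem AAn_nonneg {V f : ℤ → ℝ} (hV : ∀ x, 0 ≤ V x) (hf : ∀ x, 0 ≤ f x) (n : ℕ) (x : ℤ) :
    0 ≤ (AA V)^[n] f x := by
  induction n generalizing x with
  | zero => exact hf x
  | succ n ih => rw [Function.iterate_succ_apply']; exact AA_nonneg hV ih x

theorem q_summable (n : ℕ) (g : ℤ → ℝ) : Summable (fun a => q n a * g a) := by
  apply summable_of_ne_finset_zero (s := Finset.Icc (-(n : ℤ)) n)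
  intro a ha
  rw [q_far, zero_mul]
  rw [Finset.mem_Icc] at ha
  rw [lt_abs]
  omega

theorem rep_tsum (n : ℕ) (f : ℤ → ℝ) (x : ℤ) : PP^[n] f x = ∑' a : ℤ, q n a * f (x + a) := by
  induction n generalizing x with
  | zero =>
    rw [tsum_eq_single 0]
    · simp [q_zero]
    · intro b hb
      rw [q_zero, if_neg hb, zero_mul]
  | succ n ih =>
    rw [Function.iterate_succ_apply']
    unfold PP
    have e1 : PP^[n] f (x - 1) = ∑' a : ℤ, q n (a + 1) * f (x + a) := by
      rw [ih, ← (Equiv.addRight (1 : ℤ)).tsum_eq]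
      refine tsum_congr fun a => ?_
      simp only [Equiv.coe_addRight]
      congr 2
      ring
    have e2 : PP^[n] f (x + 1) = ∑' a : ℤ, q n (a - 1) * f (x + a) := by
      rw [ih, ← (Equiv.addRight (-1 : ℤ)).tsum_eq]
      refine tsum_congr fun a => ?_
      simp only [Equiv.coe_addRight]
      congr 2
      ring
    have s1 : Summable (fun a : ℤ => q n (a + 1) * f (x + a)) := by
      have h := (q_summable n (fun a => f (x - 1 + a)))
      have h2 := (Equiv.addRight (1 : ℤ)).summable_iff.2 h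
      refine h2.congr fun a => ?_
      simp only [Function.comp_apply, Equiv.coe_addRight]
      congr 2
      ring
    have s2 : Summable (fun a : ℤ => q n (a - 1) * f (x + a)) := by
      have h := (q_summable n (fun a => f (x + 1 + a)))
      have h2 := (Equiv.addRight (-1 : ℤ)).summable_iff.2 h
      refine h2.congr fun a => ?_
      simp only [Function.comp_apply, Equiv.coe_addRight]
      congr 2
      ring
    show (PP^[n] f (x - 1) + PP^[n] f (x + 1)) / 2 = _
    rw [e1, e2, ← s1.tsum_add s2, ← tsum_div_const]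
    refine tsum_congr fun a => ?_
    rw [q_succ]
    ring

theorem rep (n R : ℕ) (hR : n ≤ R) (f : ℤ → ℝ) (x : ℤ) :
    PP^[n] f x = ∑ a ∈ Finset.Icc (-(R : ℤ)) R, q n a * f (x + a) := by
  rw [rep_tsum, tsum_eq_sum]
  intro a ha
  rw [q_far, zero_mul]
  rw [Finset.mem_Icc] at ha
  rw [lt_abs]
  omega

/-- the terms with exactly one potential factor -/
noncomputable def kk (V u : ℤ → ℝ) (m : ℕ) (x : ℤ) : ℝ :=
  ∑ p ∈ antidiagonal m, PP^[p.1] (fun y => V y * PP^[p.2] u y) x

theorem kk_rep (V u : ℤ → ℝ) (m R : ℕ) (hR : m ≤ R) (x : ℤ) :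
    kk V u m x = ∑ a ∈ Finset.Icc (-(R : ℤ)) R, ∑ b ∈ Finset.Icc (-(R : ℤ)) R,
      V (x + a) * u (x + a + b) * B m a b := by
  unfold kk
  have h1 : ∀ p ∈ antidiagonal m, PP^[p.1] (fun y => V y * PP^[p.2] u y) x =
      ∑ a ∈ Finset.Icc (-(R : ℤ)) R, ∑ b ∈ Finset.Icc (-(R : ℤ)) R,
        V (x + a) * u (x + a + b) * (q p.1 a * q p.2 b) := by
    intro p hp
    have h2 := Finset.HasAntidiagonal.mem_antidiagonal.1 hp
    rw [rep p.1 R (by omega)]
    refine Finset.sum_congr rfl fun a _ => ?_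
    rw [rep p.2 R (by omega), Finset.mul_sum, Finset.mul_sum]
    exact Finset.sum_congr rfl fun b _ => by ring
  rw [Finset.sum_congr rfl h1, Finset.sum_comm]
  refine Finset.sum_congr rfl fun a _ => ?_
  rw [Finset.sum_comm]
  refine Finset.sum_congr rfl fun b _ => ?_
  rw [← Finset.mul_sum]
  rfl

theorem kk_mono {V u : ℤ → ℝ} (hV : ∀ x, 0 ≤ V x) (hu : ∀ x, 0 ≤ u x) (m : ℕ) (x : ℤ) :
    kk V u m x ≤ kk V u (m + 2) x := by
  rw [kk_rep V u m (m + 2) (by omega), kk_rep V u (m + 2) (m + 2) le_rfl]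
  refine Finset.sum_le_sum fun a _ => Finset.sum_le_sum fun b _ => ?_
  exact mul_le_mul_of_nonneg_left (B_mono m a b) (mul_nonneg (hV _) (hu _))

theorem kk_succ (V u : ℤ → ℝ) (m : ℕ) (x : ℤ) :
    kk V u (m + 1) x = PP (kk V u m) x + V x * PP^[m + 1] u x := by
  unfold kk
  rw [Finset.Nat.sum_antidiagonal_succ]
  simp only [Function.iterate_zero, id_eq]
  rw [add_comm]
  congr 1
  unfold PP
  rw [← Finset.sum_add_distrib, Finset.sum_div]
  refine Finset.sum_congr rfl fun p _ => ?_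
  rw [Function.iterate_succ_apply']

/-- shifted version, `0` at `0` -/
noncomputable def kap (V u : ℤ → ℝ) : ℕ → ℤ → ℝ
  | 0, _ => 0
  | n + 1, x => kk V u n x

theorem kap_nonneg {V u : ℤ → ℝ} (hV : ∀ x, 0 ≤ V x) (hu : ∀ x, 0 ≤ u x) (n : ℕ) (x : ℤ) :
    0 ≤ kap V u n x := by
  cases n with
  | zero => exact le_rfl
  | succ n =>
    show 0 ≤ kk V u n x
    unfold kk
    refine Finset.sum_nonneg fun p _ => PPn_nonneg (fun y => ?_) _ _
    exact mul_nonneg (hV y) (PPn_nonneg hu _ _)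

theorem kap_mono {V u : ℤ → ℝ} (hV : ∀ x, 0 ≤ V x) (hu : ∀ x, 0 ≤ u x) (n : ℕ) (x : ℤ) :
    kap V u n x ≤ kap V u (n + 2) x := by
  cases n with
  | zero => exact kap_nonneg hV hu _ _
  | succ n => exact kk_mono hV hu n x

theorem kap_succ (V u : ℤ → ℝ) (n : ℕ) (x : ℤ) :
    kap V u (n + 1) x = PP (kap V u n) x + V x * PP^[n] u x := by
  cases n with
  | zero =>
    show kk V u 0 x = _
    simp [kk, PP, kap]
  | succ n => exact kk_succ V u n x

/-- the difference `(P + V)^n u - P^n u` -/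
noncomputable def cc (V u : ℤ → ℝ) (n : ℕ) (x : ℤ) : ℝ := (AA V)^[n] u x - PP^[n] u x

theorem cc_zero (V u : ℤ → ℝ) (x : ℤ) : cc V u 0 x = 0 := by
  simp [cc]

theorem cc_succ (V u : ℤ → ℝ) (n : ℕ) (x : ℤ) :
    cc V u (n + 1) x = PP (cc V u n) x + V x * cc V u n x + V x * PP^[n] u x := by
  unfold cc
  rw [Function.iterate_succ_apply', Function.iterate_succ_apply']
  unfold AA PP
  ring

theorem cc_one (V u : ℤ → ℝ) (x : ℤ) : cc V u 1 x = V x * u x := by
  rw [cc_succ]
  simp [PP, cc_zero]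

/-- **main monotonicity**: `c_{n+2} ≥ c_n` -/
theorem cc_mono {V u : ℤ → ℝ} (hV : ∀ x, 0 ≤ V x) (hu : ∀ x, 0 ≤ u x) (n : ℕ) (x : ℤ) :
    cc V u n x ≤ cc V u (n + 2) x := by
  have key : ∀ n x, 0 ≤ (cc V u (n + 2) x - kap V u (n + 2) x) - (cc V u n x - kap V u n x) := by
    intro n
    induction n with
    | zero =>
      intro x
      have h1 : cc V u 1 x = V x * u x := cc_one V u x
      have h2 : cc V u (0 + 2) x = PP (cc V u 1) x + V x * cc V u 1 x + V x * PP^[1] u x :=
        cc_succ V u 1 x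
      have h3 : kap V u (0 + 2) x = PP (kap V u 1) x + V x * PP^[1] u x := kap_succ V u 1 x
      have h4 : ∀ x, kap V u 1 x = V x * u x := by
        intro x
        rw [kap_succ]
        simp [kap, PP]
      have h5 : PP (kap V u 1) x = PP (cc V u 1) x := by
        unfold PP
        rw [h4, h4, cc_one, cc_one]
      have h6 : kap V u 0 x = 0 := rfl
      rw [cc_zero, h6, h2, h3, h5, h1]
      have h7 := mul_nonneg (hV x) (mul_nonneg (hV x) (hu x))
      linarith
    | succ n ih =>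
      intro x
      have h1 : cc V u (n + 1 + 2) x = PP (cc V u (n + 2)) x + V x * cc V u (n + 2) x +
          V x * PP^[n + 2] u x := cc_succ V u (n + 2) x
      have h2 : kap V u (n + 1 + 2) x = PP (kap V u (n + 2)) x + V x * PP^[n + 2] u x :=
        kap_succ V u (n + 2) x
      rw [h1, h2, cc_succ V u n, kap_succ V u n]
      have h3 := ih (x - 1)
      have h4 := ih (x + 1)
      have h5 := ih x
      have h6 := kap_mono hV hu n x
      have h7 : 0 ≤ V x * (cc V u (n + 2) x - cc V u n x) :=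
        mul_nonneg (hV x) (by linarith)
      unfold PP
      linarith
  have h1 := key n x
  have h2 := kap_mono hV hu n x
  linarith

end Pool.Agent.V11325.Pam
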