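import Pool.Agent.V11325.PamEgf

/-!
# The parabolic Anderson model on `ℤ`: existence, uniqueness and eventual monotonicity
-/

open Filter Topology

namespace Pool.Agent.V11325.Pam

/-- the discrete Laplacian `½ (f(x+1) + f(x-1) - 2 f(x))` -/
noncomputable def lap (f : ℤ → ℝ) (x : ℤ) : ℝ := (1 / 2) * (f (x + 1) + f (x - 1) - 2 * f x)

/-- `u` is the solution of the parabolic Anderson model with potential `ξ` and initial condition
`u₀`: for every `x`, `∂_t u(t, x) = Δ u(t, x) + ξ(x) u(t, x)` for all `t ≥ 0` (at `t = 0` the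
derivative is the right derivative), `u(0, ·) = u₀`, and `u` is bounded on `[0, T] × ℤ` for every
`T`. -/
structure IsPAM (ξ : ℤ → ℝ) (u₀ : ℤ → ℕ) (u : ℝ → ℤ → ℝ) : Prop where
  init : ∀ x, u 0 x = u₀ x
  bdd : ∀ T : ℝ, ∃ K : ℝ, ∀ t, 0 ≤ t → t ≤ T → ∀ x, |u t x| ≤ K
  deriv : ∀ x, ∀ t, 0 ≤ t →
    HasDerivWithinAt (fun s => u s x) (lap (u t) x + ξ x * u t x) (Set.Ici 0) t

/-- uniqueness -/
theorem IsPAM.unique {ξ : ℤ → ℝ} {u₀ : ℤ → ℕ} {M : ℝ} (hξ : ∀ x, |ξ x| ≤ M)
    {u v : ℝ → ℤ → ℝ} (hu : IsPAM ξ u₀ u) (hv : IsPAM ξ u₀ v) {t : ℝ} (ht : 0 ≤ t) (x : ℤ) :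
    u t x = v t x := by
  obtain ⟨K1, hK1⟩ := hu.bdd t
  obtain ⟨K2, hK2⟩ := hv.bdd t
  have hM : 0 ≤ M := (abs_nonneg _).trans (hξ 0)
  set K : ℝ := K1 + K2 with hK
  have hK0 : 0 ≤ K := by
    have h1 := (abs_nonneg _).trans (hK1 0 le_rfl ht 0)
    have h2 := (abs_nonneg _).trans (hK2 0 le_rfl ht 0)
    rw [hK]
    linarith
  set L : ℝ := 2 + M with hL
  have hL0 : 0 ≤ L := by rw [hL]; linarith
  have key : ∀ n : ℕ, ∀ s, 0 ≤ s → s ≤ t → ∀ x, |u s x - v s x| ≤
      K * ((L * s) ^ n / (n.factorial : ℝ)) := by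
    intro n
    induction n with
    | zero =>
      intro s hs hst x
      have h1 := hK1 s hs hst x
      have h2 := hK2 s hs hst x
      have h3 := abs_sub (u s x) (v s x)
      simp only [pow_zero, Nat.factorial_zero, Nat.cast_one, div_one, mul_one]
      rw [hK]
      linarith
    | succ n ih =>
      intro s hs hst x
      have hder : ∀ r, 0 ≤ r → HasDerivWithinAt (fun r => u r x - v r x)
          ((lap (u r) x + ξ x * u r x) - (lap (v r) x + ξ x * v r x)) (Set.Ici 0) r :=
        fun r hr => (hu.deriv x r hr).sub (hv.deriv x r hr)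
      have h1 := image_norm_le_of_norm_deriv_right_le_deriv_boundary (a := 0) (b := s)
        (f := fun r => u r x - v r x)
        (f' := fun r => (lap (u r) x + ξ x * u r x) - (lap (v r) x + ξ x * v r x))
        (B := fun r => K * ((L * r) ^ (n + 1) / ((n + 1).factorial : ℝ)))
        (B' := fun r => K * (L * ((L * r) ^ n / (n.factorial : ℝ))))
        (fun r hr => ((hder r hr.1).continuousWithinAt).mono (fun y hy => hy.1))
        (fun r hr => (hder r hr.1).mono (Set.Ici_subset_Ici.2 hr.1)) ?_ ?_ ?_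
        (Set.right_mem_Icc.2 hs)
      · exact h1
      · simp only [hu.init, hv.init, sub_self, norm_zero, mul_zero]
        positivity
      · intro r
        have h2 := (((hasDerivAt_id r).const_mul L).pow (n + 1)).div_const
          ((n + 1).factorial : ℝ)
        have h3 := h2.const_mul K
        refine h3.congr_deriv ?_
        rw [Nat.factorial_succ, Nat.add_sub_cancel]
        push_cast
        simp only [id_eq]
        have h4 : (n.factorial : ℝ) ≠ 0 := by positivity
        field_simp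
      · intro r hr
        have hrt : r ≤ t := hr.2.le.trans hst
        have a1 := ih r hr.1 hrt (x + 1)
        have a2 := ih r hr.1 hrt (x - 1)
        have a3 := ih r hr.1 hrt x
        set D : ℝ := K * ((L * r) ^ n / (n.factorial : ℝ)) with hD
        have e1 : (lap (u r) x + ξ x * u r x) - (lap (v r) x + ξ x * v r x) =
            (1 / 2) * (u r (x + 1) - v r (x + 1)) + (1 / 2) * (u r (x - 1) - v r (x - 1)) -
            (u r x - v r x) + ξ x * (u r x - v r x) := by
          unfold lap
          ring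
        have hξD : |ξ x * (u r x - v r x)| ≤ M * D := by
          rw [abs_mul]
          exact mul_le_mul (hξ x) a3 (abs_nonneg _) hM
        rw [Real.norm_eq_abs, e1]
        have h5 : K * (L * ((L * r) ^ n / (n.factorial : ℝ))) = L * D := by
          rw [hD]
          ring
        rw [h5, hL]
        rw [abs_le] at a1 a2 a3 hξD ⊢
        constructor
        · linarith [a1.1, a2.1, a3.2, hξD.1]
        · linarith [a1.2, a2.2, a3.1, hξD.2]
  have hlim : Tendsto (fun n : ℕ => K * ((L * t) ^ n / (n.factorial : ℝ))) atTop (𝓝 (K * 0)) :=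
    (FloorSemiring.tendsto_pow_div_factorial_atTop (L * t)).const_mul K
  have h1 : |u t x - v t x| ≤ K * 0 := ge_of_tendsto' hlim fun n => key n t ht le_rfl x
  rw [mul_zero] at h1
  have h2 := abs_eq_zero.1 (le_antisymm h1 (abs_nonneg _))
  linarith

theorem AA_bound {V f : ℤ → ℝ} {M K : ℝ} (hM : ∀ x, |V x| ≤ M) (hf : ∀ x, |f x| ≤ K) (x : ℤ) :
    |AA V f x| ≤ K * (1 + M) := by
  have h1 := hf (x - 1)
  have h2 := hf (x + 1)
  have h3 : |V x * f x| ≤ M * K := by
    rw [abs_mul]
    exact mul_le_mul (hM x) (hf x) (abs_nonneg _) ((abs_nonneg _).trans (hM x))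
  unfold AA PP
  rw [abs_le] at *
  constructor <;> linarith [h1.1, h1.2, h2.1, h2.2, h3.1, h3.2]

theorem AAn_bound {V f : ℤ → ℝ} {M K : ℝ} (hM : ∀ x, |V x| ≤ M) (hf : ∀ x, |f x| ≤ K) (n : ℕ)
    (x : ℤ) : |(AA V)^[n] f x| ≤ K * (1 + M) ^ n := by
  induction n generalizing x with
  | zero => simpa using hf x
  | succ n ih =>
    rw [Function.iterate_succ_apply', pow_succ, ← mul_assoc]
    exact AA_bound hM ih x

theorem PP_apply (f : ℤ → ℝ) (x : ℤ) : PP f x = (f (x - 1) + f (x + 1)) / 2 := rfl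

theorem PPn_bound {f : ℤ → ℝ} {K : ℝ} (hf : ∀ x, |f x| ≤ K) (n : ℕ)
    (x : ℤ) : |PP^[n] f x| ≤ K * 1 ^ n := by
  induction n generalizing x with
  | zero => simpa using hf x
  | succ n ih =>
    rw [Function.iterate_succ_apply', one_pow, mul_one]
    have h1 := ih (x - 1)
    have h2 := ih (x + 1)
    rw [one_pow, mul_one] at h1 h2
    rw [PP_apply]
    rw [abs_le] at *
    constructor <;> linarith [h1.1, h1.2, h2.1, h2.2]

/-- the candidate solution written with the reference value `e` of the potential -/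
noncomputable def sol (ξ : ℤ → ℝ) (u₀ : ℤ → ℕ) (e : ℝ) (t : ℝ) (x : ℤ) : ℝ :=
  Real.exp ((e - 1) * t) *
    egf (fun n => (AA (fun y => ξ y - e))^[n] (fun y => (u₀ y : ℝ)) x) t

theorem egf_lin {a b c : ℕ → ℝ} (ha : Bd a) (hb : Bd b) (hc : Bd c) (α : ℝ) (t : ℝ) :
    egf (fun n => (a n + b n) / 2 + α * c n) t = (egf a t + egf b t) / 2 + α * egf c t := by
  unfold egf
  have sa := egf_summable ha t
  have sb := egf_summable hb t
  have sc := egf_summable hc t
  rw [← sa.tsum_add sb, ← tsum_div_const, ← tsum_mul_left,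
    ← ((sa.add sb).div_const 2).tsum_add (sc.mul_left α)]
  exact tsum_congr fun n => by ring

theorem isPAM_sol {ξ : ℤ → ℝ} {u₀ : ℤ → ℕ} {M : ℝ} {C : ℕ} (hξ : ∀ x, |ξ x| ≤ M)
    (hu₀ : ∀ x, u₀ x ≤ C) (e : ℝ) : IsPAM ξ u₀ (sol ξ u₀ e) := by
  have hV : ∀ x, |ξ x - e| ≤ M + |e| := fun x => (abs_sub _ _).trans (by linarith [hξ x])
  have hf : ∀ x, |(u₀ x : ℝ)| ≤ (C : ℝ) := by
    intro x
    rw [Nat.abs_cast]
    exact_mod_cast hu₀ x
  have hM0 : 0 ≤ M + |e| := (abs_nonneg _).trans (hV 0)
  have hb : ∀ x, Bd (fun n => (AA (fun y => ξ y - e))^[n] (fun y => (u₀ y : ℝ)) x) := fun x =>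
    ⟨C, 1 + (M + |e|), Nat.cast_nonneg _, by positivity, fun n => AAn_bound hV hf n x⟩
  refine ⟨?_, ?_, ?_⟩
  · intro x
    unfold sol
    rw [mul_zero, Real.exp_zero, one_mul, egf_zero]
    rfl
  · intro T
    refine ⟨Real.exp (|e - 1| * T) * ((C : ℝ) * Real.exp (T * (1 + (M + |e|)))), ?_⟩
    intro t ht htT x
    unfold sol
    rw [abs_mul, abs_of_pos (Real.exp_pos _)]
    have h1 : (e - 1) * t ≤ |e - 1| * T := by
      have h2 : (e - 1) * t ≤ |e - 1| * t := mul_le_mul_of_nonneg_right (le_abs_self _) ht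
      exact h2.trans (mul_le_mul_of_nonneg_left htT (abs_nonneg _))
    exact mul_le_mul (Real.exp_le_exp.2 h1) (egf_abs_le (Nat.cast_nonneg _) (by positivity)
      (fun n => AAn_bound hV hf n x) ht htT) (abs_nonneg _) (Real.exp_pos _).le
  · intro x t ht
    apply HasDerivAt.hasDerivWithinAt
    have h1 : HasDerivAt (fun s : ℝ => Real.exp ((e - 1) * s)) (Real.exp ((e - 1) * t) * (e - 1))
        t := by
      have := ((hasDerivAt_id t).const_mul (e - 1)).exp
      simpa using this
    have h2 := h1.mul (egf_hasDerivAt (hb x) t)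
    refine h2.congr_deriv ?_
    have h3 : (fun n => (AA (fun y => ξ y - e))^[n + 1] (fun y => (u₀ y : ℝ)) x) =
        fun n => ((AA (fun y => ξ y - e))^[n] (fun y => (u₀ y : ℝ)) (x - 1) +
          (AA (fun y => ξ y - e))^[n] (fun y => (u₀ y : ℝ)) (x + 1)) / 2 +
          (ξ x - e) * (AA (fun y => ξ y - e))^[n] (fun y => (u₀ y : ℝ)) x := by
      funext n
      rw [Function.iterate_succ_apply']
      rfl
    rw [h3, egf_lin (hb (x - 1)) (hb (x + 1)) (hb x)]
    unfold lap sol
    ring

/-- **Eventual monotonicity, deterministic form.** If `0 < a ≤ ξ ≤ b` and the initial condition is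
bounded with at least one particle at the origin, then the solution is strictly increasing in time
at every site on `[T, ∞)` as soon as `(a / 2) * exp ((a / 2) T) ≥ 1` and `T ≥ 0`. -/
theorem strictMono {ξ : ℤ → ℝ} {a b : ℝ} (ha : 0 < a) (hξ : ∀ x, a ≤ ξ x ∧ ξ x ≤ b)
    {u₀ : ℤ → ℕ} {C : ℕ} (hu₀ : ∀ x, u₀ x ≤ C) (h1 : 1 ≤ u₀ 0) {u : ℝ → ℤ → ℝ}
    (hu : IsPAM ξ u₀ u) {T : ℝ} (hT : 0 ≤ T) (hT' : 1 ≤ (a / 2) * Real.exp ((a / 2) * T))
    (x : ℤ) : StrictMonoOn (fun t => u t x) (Set.Ici T) := by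
  have hξM : ∀ x, |ξ x| ≤ b := fun x => by
    rw [abs_of_nonneg (ha.le.trans (hξ x).1)]
    exact (hξ x).2
  set e : ℝ := a / 2 with he
  have he0 : 0 < e := by rw [he]; linarith
  set f : ℤ → ℝ := fun y => (u₀ y : ℝ) with hf
  have hf0 : ∀ y, 0 ≤ f y := fun y => Nat.cast_nonneg _
  have hfC : ∀ x, |f x| ≤ (C : ℝ) := by
    intro x
    rw [hf]
    simp only [Nat.abs_cast]
    exact_mod_cast hu₀ x
  -- the two representations
  have r1 : ∀ t, 0 ≤ t → u t x = sol ξ u₀ e t x := fun t ht =>
    hu.unique hξM (isPAM_sol hξM hu₀ e) ht x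
  have r2 : ∀ t, 0 ≤ t → u t x = sol ξ u₀ a t x := fun t ht =>
    hu.unique hξM (isPAM_sol hξM hu₀ a) ht x
  have hbb : ∀ c, Bd (fun n => (AA (fun y => ξ y - c))^[n] f x) := fun c =>
    ⟨C, 1 + (b + |c|), Nat.cast_nonneg _, by
      have := (abs_nonneg _).trans (hξM 0)
      positivity, fun n =>
      AAn_bound (fun x => (abs_sub _ _).trans (by linarith [hξM x])) hfC n x⟩
  have hbP : Bd (fun n => PP^[n] f x) := ⟨C, 1, Nat.cast_nonneg _, zero_le_one,
    fun n => PPn_bound hfC n x⟩
  set G : ℝ → ℝ := egf (fun n => (AA (fun y => ξ y - e))^[n] f x) with hG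
  set G0 : ℝ → ℝ := egf (fun n => (AA (fun y => ξ y - a))^[n] f x) with hG0
  set H : ℝ → ℝ := egf (fun n => PP^[n] f x) with hH
  -- `G ≥ exp (e t) H`
  have hGH : ∀ t, 0 ≤ t → Real.exp (e * t) * H t ≤ G t := by
    intro t ht
    have h2 : Real.exp ((e - 1) * t) * G t = Real.exp ((a - 1) * t) * G0 t := by
      have h3 := r1 t ht
      rw [r2 t ht] at h3
      exact h3.symm
    have h4 : Real.exp ((a - 1) * t) = Real.exp ((e - 1) * t) * Real.exp (e * t) := by
      rw [← Real.exp_add]
      congr 1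
      rw [he]
      ring
    rw [h4, mul_assoc] at h2
    have h5 : G t = Real.exp (e * t) * G0 t := mul_left_cancel₀ (Real.exp_pos _).ne' h2
    have h6 : H t ≤ G0 t := by
      apply egf_mono hbP (hbb a) _ ht
      intro n
      have h7 : ∀ n x, 0 ≤ cc (fun y => ξ y - a) f n x := by
        intro n
        induction n with
        | zero => intro x; rw [cc_zero]
        | succ n ih =>
          intro x
          rw [cc_succ]
          have h8 : 0 ≤ ξ x - a := by linarith [(hξ x).1]
          have h9 := PP_nonneg ih x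
          have h10 := mul_nonneg h8 (ih x)
          have h11 := mul_nonneg h8 (PPn_nonneg hf0 n x)
          linarith
      have h12 := h7 n x
      unfold cc at h12
      linarith
    rw [h5]
    exact mul_le_mul_of_nonneg_left h6 (Real.exp_pos _).le
  -- `G' - G ≥ - H`
  have hVe : ∀ x, 0 ≤ ξ x - e := fun x => by
    have := (hξ x).1
    rw [he]
    linarith
  have hdG : ∀ t, 0 ≤ t → G t - H t ≤ egf (fun n => (AA (fun y => ξ y - e))^[n + 1] f x) t := by
    intro t ht
    have hbc : Bd (fun n => cc (fun y => ξ y - e) f n x) := (hbb e).sub hbP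
    have h2 := egf_shift_ge hbc (by
      rw [cc_zero, cc_one]
      exact mul_nonneg (hVe x) (hf0 x)) (fun n => cc_mono hVe hf0 n x) ht
    have h3 : egf (fun n => cc (fun y => ξ y - e) f n x) t = G t - H t :=
      egf_sub (hbb e) hbP t
    have h4 : egf (fun n => cc (fun y => ξ y - e) f (n + 1) x) t =
        egf (fun n => (AA (fun y => ξ y - e))^[n + 1] f x) t - egf (fun n => PP^[n + 1] f x) t :=
      egf_sub (hbb e).shift hbP.shift t
    have h5 : 0 ≤ egf (fun n => PP^[n + 1] f x) t :=
      egf_nonneg (fun n => PPn_nonneg hf0 _ _) ht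
    rw [h3, h4] at h2
    linarith
  -- positivity of `H`
  have hHpos : ∀ t, 0 < t → 0 < H t := by
    intro t ht
    have h2 : ∀ m : ℕ, ∀ y : ℤ, |y| = m → 0 < PP^[m] f y := by
      intro m
      induction m with
      | zero =>
        intro y hy
        have hy0 : y = 0 := by simpa using hy
        rw [hy0]
        show (0 : ℝ) < ((u₀ 0 : ℕ) : ℝ)
        exact_mod_cast h1
      | succ m ih =>
        intro y hy
        rw [Function.iterate_succ_apply', PP_apply]
        have n1 := PPn_nonneg hf0 m (y - 1)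
        have n2 := PPn_nonneg hf0 m (y + 1)
        rcases le_total 0 y with hy0 | hy0
        · have h3 : |y - 1| = (m : ℤ) := by
            rw [abs_of_nonneg hy0] at hy
            push_cast at hy
            rw [abs_of_nonneg (by omega)]
            omega
          have := ih (y - 1) h3
          linarith
        · have h3 : |y + 1| = (m : ℤ) := by
            rw [abs_of_nonpos hy0] at hy
            push_cast at hy
            rw [abs_of_nonpos (by omega)]
            omega
          have := ih (y + 1) h3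
          linarith
    exact egf_pos hbP (fun n => PPn_nonneg hf0 n x) (k := x.natAbs)
      (h2 x.natAbs x (by rw [Int.natCast_natAbs])) ht
  -- the derivative
  have hder : ∀ t, HasDerivAt (fun s => sol ξ u₀ e s x) (Real.exp ((e - 1) * t) * ((e - 1) * G t +
      egf (fun n => (AA (fun y => ξ y - e))^[n + 1] f x) t)) t := by
    intro t
    have h2 : HasDerivAt (fun s : ℝ => Real.exp ((e - 1) * s)) (Real.exp ((e - 1) * t) * (e - 1))
        t := by
      have := ((hasDerivAt_id t).const_mul (e - 1)).exp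
      simpa using this
    have h3 := h2.mul (egf_hasDerivAt (hbb e) t)
    refine h3.congr_deriv ?_
    rw [hG]
    ring
  have hmono : StrictMonoOn (fun s => sol ξ u₀ e s x) (Set.Ici T) := by
    apply strictMonoOn_of_deriv_pos (convex_Ici T)
    · exact fun s _ => (hder s).continuousAt.continuousWithinAt
    · intro t ht
      rw [interior_Ici] at ht
      have ht' : T < t := ht
      have ht0 : 0 < t := lt_of_le_of_lt hT ht'
      rw [(hder t).deriv]
      apply mul_pos (Real.exp_pos _)
      have h2 := hGH t ht0.le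
      have h3 := hdG t ht0.le
      have h4 := hHpos t ht0
      have h5 : Real.exp (e * T) < Real.exp (e * t) :=
        Real.exp_lt_exp.2 (mul_lt_mul_of_pos_left ht' he0)
      have h6 : 1 < e * Real.exp (e * t) := by
        have := mul_lt_mul_of_pos_left h5 he0
        linarith
      have h7 : H t < e * (Real.exp (e * t) * H t) := by
        have := mul_lt_mul_of_pos_right h6 h4
        linarith
      have h8 : e * (Real.exp (e * t) * H t) ≤ e * G t := mul_le_mul_of_nonneg_left h2 he0.le
      linarith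
  intro s hs t ht hst
  have hs0 : 0 ≤ s := hT.trans hs
  have ht0 : 0 ≤ t := hT.trans ht
  show u s x < u t x
  rw [r1 s hs0, r1 t ht0]
  exact hmono hs ht hst

end Pool.Agent.V11325.Pam
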