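import Mathlib

/-!
# An inequality for generating functions
-/

namespace Pool.Agent.V11325.Park

open Real

theorem le_one_sub_exp_neg {z : ℝ} (hz : 0 ≤ z) : z / (1 + z) ≤ 1 - exp (-z) := by
  have h1 : 1 + z ≤ exp z := by linarith [add_one_le_exp z]
  have h2 : exp (-z) ≤ (1 + z)⁻¹ := by
    rw [exp_neg]
    exact inv_anti₀ (by linarith) h1
  have h3 : z / (1 + z) = 1 - (1 + z)⁻¹ := by
    field_simp
    ring
  rw [h3]
  linarith

theorem ineq0 {y : ℝ} (h0 : 0 ≤ y) (h1 : y ≤ 1 / 2) :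
    y * (1 - exp (-(54 * y ^ 2))) ≤ 1 - exp (-(25 * y ^ 2)) := by
  have h2 := le_one_sub_exp_neg (z := 25 * y ^ 2) (by positivity)
  refine le_trans ?_ h2
  rcases le_total (1 / 5) y with h3 | h3
  · have h4 : y * (1 - exp (-(54 * y ^ 2))) ≤ 1 / 2 := by
      have := exp_pos (-(54 * y ^ 2))
      nlinarith
    refine h4.trans ?_
    rw [div_le_div_iff₀ (by norm_num) (by positivity)]
    nlinarith
  · have h4 : 1 - exp (-(54 * y ^ 2)) ≤ 54 * y ^ 2 := by
      linarith [add_one_le_exp (-(54 * y ^ 2))]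
    have h5 : y * (1 - exp (-(54 * y ^ 2))) ≤ y * (54 * y ^ 2) :=
      mul_le_mul_of_nonneg_left h4 h0
    refine h5.trans ?_
    rw [le_div_iff₀ (by positivity)]
    have h6 : 0 ≤ y ^ 2 := sq_nonneg y
    have h7 : y * 54 * (1 + 25 * y ^ 2) ≤ 25 := by
      have h8 : y ^ 2 ≤ 1 / 25 := by nlinarith
      nlinarith
    nlinarith

theorem key {p g m G y : ℝ} (hp0 : 0 ≤ p) (hp1 : p ≤ 1 / 2) (hg0 : 0 ≤ g) (hg1 : g ≤ 1)
    (hm : 0 ≤ m) (hy0 : 0 ≤ y) (hy1 : y ≤ 1 / 2) (hG : G ≤ exp (27 * y ^ 2 - m * y)) :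
    G * (p * (1 - y) + (1 - p) / (1 - y)) - (1 - p) * g * (1 / (1 - y) - 1) ≤
      exp (54 * y ^ 2 - (m - (1 - 2 * p) + (1 - p) * g) * y) := by
  have hy2 : 0 < 1 - y := by linarith
  have hc0 : 0 ≤ (1 - p) * g := mul_nonneg (by linarith) hg0
  have hc1 : (1 - p) * g ≤ 1 := by nlinarith
  set c := (1 - p) * g with hc
  have hW : p * (1 - y) + (1 - p) / (1 - y) ≤ exp ((1 - 2 * p) * y + 2 * y ^ 2) := by
    have h1 : p * (1 - y) + (1 - p) / (1 - y) = 1 + (1 - 2 * p) * y + (1 - p) * y ^ 2 / (1 - y) := by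
      field_simp
      ring
    have h2 : (1 - p) * y ^ 2 / (1 - y) ≤ 2 * y ^ 2 := by
      rw [div_le_iff₀ hy2]
      have : 0 ≤ y ^ 2 := sq_nonneg y
      nlinarith
    rw [h1]
    linarith [add_one_le_exp ((1 - 2 * p) * y + 2 * y ^ 2)]
  have hW0 : 0 ≤ p * (1 - y) + (1 - p) / (1 - y) := by
    have : 0 ≤ (1 - p) / (1 - y) := div_nonneg (by linarith) hy2.le
    have : 0 ≤ p * (1 - y) := mul_nonneg hp0 hy2.le
    linarith
  set E := exp ((1 - 2 * p) * y) with hE
  set M := exp (-(m * y)) with hM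
  set X := exp (29 * y ^ 2) with hX
  set Y := exp (54 * y ^ 2) with hY
  have hEpos : 0 < E := exp_pos _
  have hMpos : 0 < M := exp_pos _
  have hXpos : 0 < X := exp_pos _
  have hYpos : 0 < Y := exp_pos _
  have hM1 : M ≤ 1 := by
    rw [hM, exp_le_one_iff]
    have := mul_nonneg hm hy0
    linarith
  have hE1 : E ≤ 1 / (1 - y) := by
    have h1 : E ≤ exp y := by
      rw [hE]
      exact exp_le_exp.2 (by nlinarith)
    have h2 : 1 - y ≤ exp (-y) := by linarith [add_one_le_exp (-y)]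
    have h3 : exp y ≤ 1 / (1 - y) := by
      rw [le_div_iff₀ hy2]
      calc exp y * (1 - y) ≤ exp y * exp (-y) := mul_le_mul_of_nonneg_left h2 (exp_pos y).le
        _ = 1 := by rw [← exp_add]; simp
    exact h1.trans h3
  have hGW : G * (p * (1 - y) + (1 - p) / (1 - y)) ≤ M * (E * X) := by
    calc G * (p * (1 - y) + (1 - p) / (1 - y))
        ≤ exp (27 * y ^ 2 - m * y) * (p * (1 - y) + (1 - p) / (1 - y)) :=
          mul_le_mul_of_nonneg_right hG hW0
      _ ≤ exp (27 * y ^ 2 - m * y) * exp ((1 - 2 * p) * y + 2 * y ^ 2) :=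
          mul_le_mul_of_nonneg_left hW (exp_pos _).le
      _ = M * (E * X) := by
          rw [hM, hE, hX, ← exp_add, ← exp_add, ← exp_add]
          congr 1
          ring
  have hR : M * (E * (Y * (1 - c * y))) ≤
      exp (54 * y ^ 2 - (m - (1 - 2 * p) + c) * y) := by
    have h1 : exp (54 * y ^ 2 - (m - (1 - 2 * p) + c) * y) = M * (E * (Y * exp (-(c * y)))) := by
      rw [hM, hE, hY, ← exp_add, ← exp_add, ← exp_add]
      congr 1
      ring
    rw [h1]
    have h2 : 1 - c * y ≤ exp (-(c * y)) := by linarith [add_one_le_exp (-(c * y))]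
    gcongr
  refine le_trans ?_ hR
  have hYX : y * (Y - 1) ≤ Y - X := by
    have h1 := ineq0 hy0 hy1
    have h2 : Y * exp (-(54 * y ^ 2)) = 1 := by
      rw [hY, ← exp_add]
      simp
    have h3 : Y * exp (-(25 * y ^ 2)) = X := by
      rw [hY, hX, ← exp_add]
      congr 1
      ring
    have h4 := mul_le_mul_of_nonneg_left h1 hYpos.le
    have h5 : Y * (y * (1 - exp (-(54 * y ^ 2)))) = y * (Y - Y * exp (-(54 * y ^ 2))) := by ring
    have h6 : Y * (1 - exp (-(25 * y ^ 2))) = Y - Y * exp (-(25 * y ^ 2)) := by ring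
    rw [h5, h6, h2, h3] at h4
    exact h4
  have hY1 : 1 ≤ Y := by
    rw [hY, one_le_exp_iff]
    positivity
  have hdiv : 1 / (1 - y) - 1 = y * (1 / (1 - y)) := by
    field_simp
    ring
  -- the core inequality
  have hcore : E * X - c * (1 / (1 - y) - 1) ≤ E * (Y * (1 - c * y)) := by
    rw [hdiv]
    have h1 : c * y * (E * Y - 1 / (1 - y)) ≤ c * y * (E * Y - E) :=
      mul_le_mul_of_nonneg_left (by linarith) (mul_nonneg hc0 hy0)
    have h2 : c * y * (E * Y - E) ≤ E * (y * (Y - 1)) := by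
      have h3 : 0 ≤ y * (E * (Y - 1)) := mul_nonneg hy0 (mul_nonneg hEpos.le (by linarith))
      have h4 : c * (y * (E * (Y - 1))) ≤ 1 * (y * (E * (Y - 1))) :=
        mul_le_mul_of_nonneg_right hc1 h3
      linarith
    have h5 : E * (y * (Y - 1)) ≤ E * (Y - X) := mul_le_mul_of_nonneg_left hYX hEpos.le
    nlinarith
  have hlast : M * (E * X) - c * (1 / (1 - y) - 1) ≤ M * (E * X - c * (1 / (1 - y) - 1)) := by
    have h1 : 0 ≤ c * (1 / (1 - y) - 1) := by
      rw [hdiv]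
      positivity
    nlinarith
  calc G * (p * (1 - y) + (1 - p) / (1 - y)) - c * (1 / (1 - y) - 1)
      ≤ M * (E * X) - c * (1 / (1 - y) - 1) := by linarith
    _ ≤ M * (E * X - c * (1 / (1 - y) - 1)) := hlast
    _ ≤ M * (E * (Y * (1 - c * y))) := mul_le_mul_of_nonneg_left hcore hMpos.le

end Pool.Agent.V11325.Park
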