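import Pool.Agent.TH996.ParkDefs

/-!
# The oriented binary tree as a Cayley graph of the free group on two generators
-/

namespace Pool.Agent.V11325.Park

open Pool.Agent.TH996.Parking

/-- The vertices: the elements of the free group on two generators. -/
abbrev W : Type := FreeGroup Bool

instance : MeasurableSpace W := ⊤

instance : DiscreteMeasurableSpace W := ⟨fun _ => MeasurableSpace.measurableSet_top⟩

theorem of_ne_one (i : Bool) : (FreeGroup.of i : W) ≠ 1 := FreeGroup.of_ne_one i

/-- The Cayley graph of the free group on two generators: the tree in which every vertex has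
exactly four neighbours. -/
def tree : SimpleGraph W where
  Adj x y := ∃ i : Bool, y = x * FreeGroup.of i ∨ x = y * FreeGroup.of i
  symm := ⟨fun _ _ ⟨i, h⟩ => ⟨i, h.symm⟩⟩
  loopless := ⟨fun x ⟨i, h⟩ => by
    rcases h with h | h
    · exact of_ne_one i (by simpa using h)
    · exact of_ne_one i (by simpa using h)⟩

theorem adj_iff {x y : W} : tree.Adj x y ↔
    y = x * FreeGroup.of true ∨ y = x * FreeGroup.of false ∨
      y = x * (FreeGroup.of true)⁻¹ ∨ y = x * (FreeGroup.of false)⁻¹ := by
  show (∃ i : Bool, y = x * FreeGroup.of i ∨ x = y * FreeGroup.of i) ↔ _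
  have h : ∀ i, x = y * FreeGroup.of i ↔ y = x * (FreeGroup.of i)⁻¹ := by
    intro i
    rw [eq_mul_inv_iff_mul_eq, eq_comm]
  simp only [h, Bool.exists_bool]
  tauto

noncomputable instance : tree.LocallyFinite := fun x => by
  have h : (tree.neighborSet x).Finite := by
    refine Set.Finite.subset (s := {x * FreeGroup.of true, x * FreeGroup.of false,
      x * (FreeGroup.of true)⁻¹, x * (FreeGroup.of false)⁻¹}) (Set.toFinite _) ?_
    intro y hy
    rw [SimpleGraph.mem_neighborSet, adj_iff] at hy
    simpa using hy
  exact h.fintype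

/-- The kernel: a car at `x` moves to `x a` or to `x b`, where `a` and `b` are the generators, with
probability `1 / 2` each. -/
noncomputable def ker (x y : W) : ℝ :=
  (if y = x * FreeGroup.of true then 1 / 2 else 0) + (if y = x * FreeGroup.of false then 1 / 2 else 0)

/-- The group of the left translations. -/
def trans : Subgroup (Equiv.Perm W) := (MulAction.toPermHom W W).range

theorem mem_trans {φ : Equiv.Perm W} : φ ∈ trans ↔ ∃ g : W, ∀ x, φ x = g * x := by
  constructor
  · rintro ⟨g, rfl⟩
    exact ⟨g, fun x => rfl⟩
  · rintro ⟨g, hg⟩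
    exact ⟨g, Equiv.ext fun x => (hg x).symm⟩

theorem of_ne (i j : Bool) (h : i ≠ j) : (FreeGroup.of i : W) ≠ FreeGroup.of j := fun h' =>
  h (FreeGroup.of_injective h')

theorem tree_connected : tree.Connected := by
  have h1 : ∀ g x : W, tree.Reachable x (x * g) := by
    intro g
    refine FreeGroup.induction_on g ?_ ?_ ?_ ?_
    · intro x
      rw [mul_one]
    · exact fun i x => SimpleGraph.Adj.reachable ⟨i, Or.inl rfl⟩
    · exact fun i _ x => SimpleGraph.Adj.reachable ⟨i, Or.inr (by rw [inv_mul_cancel_right])⟩
    · intro a b ha hb x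
      rw [← mul_assoc]
      exact (ha x).trans (hb (x * a))
  refine ⟨fun x y => ?_⟩
  have := h1 (x⁻¹ * y) x
  rwa [mul_inv_cancel_left] at this

theorem isKernel : IsKernel tree ker where
  nonneg u v := by
    unfold ker
    positivity
  supp u v h := by
    rw [adj_iff, not_or, not_or] at h
    unfold ker
    rw [if_neg h.1, if_neg h.2.1, add_zero]
  sum_one u := by
    unfold ker
    rw [Finset.sum_add_distrib, Finset.sum_ite_eq', Finset.sum_ite_eq', if_pos, if_pos]
    · norm_num
    · rw [SimpleGraph.mem_neighborFinset, adj_iff]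
      exact Or.inr (Or.inl rfl)
    · rw [SimpleGraph.mem_neighborFinset, adj_iff]
      exact Or.inl rfl

theorem isAut : IsAut tree ker trans where
  adj φ hφ u v := by
    obtain ⟨g, hg⟩ := mem_trans.1 hφ
    rw [hg, hg, adj_iff, adj_iff]
    simp only [mul_assoc, mul_right_inj]
  ker φ hφ u v := by
    obtain ⟨g, hg⟩ := mem_trans.1 hφ
    unfold ker
    rw [hg, hg]
    simp only [mul_assoc, mul_right_inj]

theorem isTransitive : IsTransitive trans := fun u v =>
  ⟨MulAction.toPermHom W W (v * u⁻¹), ⟨_, rfl⟩, by
    show v * u⁻¹ * u = v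
    rw [inv_mul_cancel_right]⟩

theorem stabOrbit_eq (u v : W) : stabOrbit trans u v = {v} := by
  ext w
  constructor
  · rintro ⟨φ, hφ, h1, h2⟩
    obtain ⟨g, hg⟩ := mem_trans.1 hφ
    rw [hg] at h1 h2
    have : g = 1 := by simpa using h1
    rw [this, one_mul] at h2
    exact h2.symm
  · rintro rfl
    exact ⟨1, trans.one_mem, rfl, rfl⟩

theorem isUnimodular : IsUnimodular trans := fun u v => by
  rw [stabOrbit_eq, stabOrbit_eq]
  exact ⟨Set.finite_singleton _, by rw [Set.ncard_singleton, Set.ncard_singleton]⟩

theorem isInfinitelyAccessible : IsInfinitelyAccessible tree ker trans := by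
  refine ⟨MulAction.toPermHom W W (FreeGroup.of true)⁻¹, ⟨_, rfl⟩, 1, ?_, ?_⟩
  · refine Set.infinite_range_of_injective fun m n h => ?_
    simp only [← map_pow] at h
    have h1 : ((FreeGroup.of true : W)⁻¹) ^ m * 1 = ((FreeGroup.of true)⁻¹) ^ n * 1 := h
    rw [mul_one, mul_one, inv_pow, inv_pow, inv_inj] at h1
    have h2 := congrArg FreeGroup.toWord h1
    rw [FreeGroup.toWord_of_pow, FreeGroup.toWord_of_pow] at h2
    have h3 := congrArg List.length h2
    simpa using h3
  · refine Relation.ReflTransGen.single ⟨⟨true, Or.inl ?_⟩, ?_⟩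
    · show (1 : W) = (FreeGroup.of true)⁻¹ * 1 * FreeGroup.of true
      simp
    · show 0 < ker ((FreeGroup.of true)⁻¹ * 1) 1
      unfold ker
      rw [if_pos (by simp)]
      positivity

/-! ### Positive words -/

/-- the product of the generators in a list -/
def pos (L : List Bool) : W := (L.map FreeGroup.of).prod

theorem toWord_pos (L : List Bool) : (pos L).toWord = L.map fun i => (i, true) := by
  induction L with
  | nil => rfl
  | cons i L ih =>
    have h1 : pos (i :: L) = FreeGroup.of i * pos L := by
      unfold pos
      rw [List.map_cons, List.prod_cons]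
    rw [h1, FreeGroup.toWord_mul, ih, FreeGroup.toWord_of]
    have h2 : [(i, true)] ++ L.map (fun i => (i, true)) = (i :: L).map fun i => (i, true) := rfl
    rw [h2]
    refine FreeGroup.IsReduced.reduce_eq ?_
    unfold FreeGroup.IsReduced
    rw [List.isChain_map]
    have h3 : ∀ (L : List Bool), L.IsChain fun a b => ((a, true) : Bool × Bool).1 =
        ((b, true) : Bool × Bool).1 → ((a, true) : Bool × Bool).2 = ((b, true) : Bool × Bool).2 := by
      intro L
      induction L with
      | nil => exact List.IsChain.nil
      | cons a L ih =>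
        cases L with
        | nil => exact List.IsChain.singleton _
        | cons b L => exact List.IsChain.cons_cons (fun _ => rfl) ih
    exact h3 _

theorem pos_injective : Function.Injective pos := by
  intro L L' h
  have h1 := congrArg FreeGroup.toWord h
  rw [toWord_pos, toWord_pos] at h1
  exact List.map_injective_iff.2 (fun a b hab => (Prod.ext_iff.1 hab).1) h1

theorem pos_append (L : List Bool) (i : Bool) : pos (L ++ [i]) = pos L * FreeGroup.of i := by
  unfold pos
  rw [List.map_append, List.prod_append]
  simp

theorem pos_cons (L : List Bool) (i : Bool) : pos (i :: L) = FreeGroup.of i * pos L := by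
  unfold pos
  rw [List.map_cons, List.prod_cons]

/-- the vertex from which one gets to `x` with the generator `i` -/
def par (i : Bool) (x : W) : W := x * (FreeGroup.of i)⁻¹

theorem par_mul (i : Bool) (x : W) : par i x * FreeGroup.of i = x := inv_mul_cancel_right _ _

theorem par_ne (x : W) : par true x ≠ par false x := by
  intro h
  unfold par at h
  rw [mul_right_inj, inv_inj] at h
  exact of_ne true false (by decide) h

/-- the ancestors of `y` -/
def anc (y : W) : Set W := {z | ∃ L, z * pos L = y}

theorem mem_anc_self (y : W) : y ∈ anc y := ⟨[], by simp [pos]⟩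

theorem par_mem_anc {y z : W} (h : z ∈ anc y) (i : Bool) : par i z ∈ anc y := by
  obtain ⟨L, hL⟩ := h
  refine ⟨i :: L, ?_⟩
  rw [pos_cons, ← mul_assoc, par_mul, hL]

theorem not_mem_anc_par (i : Bool) (y : W) : y ∉ anc (par i y) := by
  rintro ⟨L, hL⟩
  have h1 : y * pos (L ++ [i]) = y := by
    rw [pos_append, ← mul_assoc, hL, par_mul]
  have h2 : pos (L ++ [i]) = pos [] := by
    have : pos (L ++ [i]) = 1 := by simpa using h1
    rw [this]
    rfl
  have h3 := pos_injective h2
  simp at h3

theorem disj_anc (x : W) {z : W} (h1 : z ∈ anc (par true x)) (h2 : z ∈ anc (par false x)) :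
    False := by
  obtain ⟨L, hL⟩ := h1
  obtain ⟨L', hL'⟩ := h2
  have h3 : z * pos (L ++ [true]) = z * pos (L' ++ [false]) := by
    rw [pos_append, pos_append, ← mul_assoc, ← mul_assoc, hL, hL', par_mul, par_mul]
  have h4 := pos_injective (mul_left_cancel h3)
  have h5 := List.append_inj_right' h4 rfl
  simp at h5

end Pool.Agent.V11325.Park
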