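import Pool.Agent.TH996.Link
import Pool.Agent.TH996.Final
import Pool.Agent.V11325.ParkTree
import Pool.Agent.V11325.ParkAna

/-!
# The parking process on the oriented binary tree: generating functions
-/

namespace Pool.Agent.V11325.Park

open MeasureTheory Measure Finset
open Pool.Agent.TH996.Park Pool.Agent.TH996.Parking

/-! ### Resampling a set of coordinates -/

section pw

variable {ι X : Type*} [MeasurableSpace X]

open Classical in
/-- `y` on `A`, `x` off `A` -/
noncomputable def pw (A : Set ι) (x y : ι → X) : ι → X := fun i => if i ∈ A then y i else x i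

omit [MeasurableSpace X] in
theorem pw_mem {A : Set ι} {x y : ι → X} {i : ι} (h : i ∈ A) : pw A x y i = y i := if_pos h

omit [MeasurableSpace X] in
theorem pw_notMem {A : Set ι} {x y : ι → X} {i : ι} (h : i ∉ A) : pw A x y i = x i := if_neg h

theorem measurable_pw (A : Set ι) :
    Measurable (fun q : (ι → X) × (ι → X) => pw A q.1 q.2) := by
  refine measurable_pi_lambda _ fun i => ?_
  by_cases h : i ∈ A
  · have : (fun q : (ι → X) × (ι → X) => pw A q.1 q.2 i) = fun q => q.2 i := by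
      funext q
      exact pw_mem h
    rw [this]
    exact (measurable_pi_apply i).comp measurable_snd
  · have : (fun q : (ι → X) × (ι → X) => pw A q.1 q.2 i) = fun q => q.1 i := by
      funext q
      exact pw_notMem h
    rw [this]
    exact (measurable_pi_apply i).comp measurable_fst

variable (μ : ι → Measure X) [∀ i, IsProbabilityMeasure (μ i)]

theorem resamp_pw (A : Set ι) : Resamp (infinitePi μ) (infinitePi μ) (pw A) := by
  classical
  refine ⟨measurable_pw A, eq_infinitePi μ fun s t ht => ?_⟩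
  rw [map_apply (measurable_pw A) (.pi s.countable_toSet fun _ _ ↦ ht _)]
  have h : (fun q : (ι → X) × (ι → X) => pw A q.1 q.2) ⁻¹' ((s : Set ι).pi t) =
      ((s.filter fun i => ¬ i ∈ A : Finset ι) : Set ι).pi t ×ˢ
        ((s.filter fun i => i ∈ A : Finset ι) : Set ι).pi t := by
    ext q
    simp only [Set.mem_preimage, Set.mem_pi, Finset.mem_coe, Set.mem_prod, Finset.mem_filter]
    constructor
    · intro h1
      refine ⟨fun i hi => ?_, fun i hi => ?_⟩
      · have := h1 i hi.1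
        rwa [pw_notMem hi.2] at this
      · have := h1 i hi.1
        rwa [pw_mem hi.2] at this
    · rintro ⟨h1, h2⟩ i hi
      by_cases hA : i ∈ A
      · rw [pw_mem hA]
        exact h2 i ⟨hi, hA⟩
      · rw [pw_notMem hA]
        exact h1 i ⟨hi, hA⟩
  rw [h, prod_prod, infinitePi_pi _ (fun i _ => ht i), infinitePi_pi _ (fun i _ => ht i),
    mul_comm, Finset.prod_filter_mul_prod_filter_not]

theorem BM.prod {Ω κ : Type*} [MeasurableSpace Ω] (Q : Finset κ) {F : κ → Ω → ℝ}
    (h : ∀ q ∈ Q, BM (F q)) : BM (fun ω => ∏ q ∈ Q, F q ω) := by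
  classical
  induction Q using Finset.induction_on with
  | empty => simpa using BM.const (Ω := Ω) 1
  | insert a s ha ih =>
    simp only [Finset.prod_insert ha]
    exact (h a (by simp)).mul (ih fun i hi => h i (by simp [hi]))

theorem integral_prod_coord {κ : Type*} (e : κ → ι) (he : Function.Injective e) (Q : Finset κ)
    (f : κ → X → ℝ) (hf : ∀ q, BM (f q)) :
    ∫ x, ∏ q ∈ Q, f q (x (e q)) ∂(infinitePi μ) = ∏ q ∈ Q, ∫ z, f q z ∂(μ (e q)) := by
  classical
  induction Q using Finset.induction_on with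
  | empty => simp
  | insert a Q ha ih =>
    rw [Finset.prod_insert ha, ← ih]
    have h1 : ∀ x : ι → X, ∏ q ∈ insert a Q, f q (x (e q)) =
        (∏ q ∈ Q, f q (x (e q))) * f a (x (e a)) := fun x => by
      rw [Finset.prod_insert ha, mul_comm]
    simp_rw [h1]
    rw [(Resamp.pi μ (e a)).integral_mul (BM.prod Q fun q _ => (hf q).comp (measurable_pi_apply _))
      ((hf a).comp (measurable_pi_apply _)) (f a), mul_comm]
    · intro x v
      refine Finset.prod_congr rfl fun q hq => ?_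
      have hne : e q ≠ e a := fun h => ha (he h ▸ hq)
      rw [Function.update_of_ne hne]
    · intro x v
      rw [Function.update_self]

end pw

/-! ### The model -/

/-- the probability space -/
abbrev Om0 : Type := (W → Bool) × (ℕ × W × ℕ → W)

/-- the two vertices with an edge to `x` -/
def nbp (x : W) : Finset W := {par true x, par false x}

/-- the triple -/
noncomputable def S : Tri W := mkTri tree ker trans isKernel isAut isTransitive isUnimodular

/-- the law -/
noncomputable def mu (p : ℝ) : Measure Om0 := S.law0 p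

/-- visits before time `T` -/
def vis (T : ℕ) (x : W) (ω : Om0) : ℕ := ∑ t ∈ range T, An nbp t x (emb ω)

/-- departures -/
def dpt (T : ℕ) (x : W) (ω : Om0) : ℕ := ∑ t ∈ range T, Cn nbp t x (emb ω)

/-- departures from `y` to `x` -/
def out (T : ℕ) (y x : W) (ω : Om0) : ℕ :=
  ∑ t ∈ range T, ((range (Cn nbp t y (emb ω))).filter fun i => ω.2 (t, y, i) = x).card

theorem An_eq (t : ℕ) (x : W) (ω : Om0) : An nbp t x (emb ω) =
    ∑ y ∈ nbp x, ((range (Cn nbp t y (emb ω))).filter fun i => ω.2 (t, y, i) = x).card := by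
  unfold An Cn
  rw [ar_eq]
  refine Finset.sum_congr rfl fun y _ => ?_
  simp [emb]

theorem vis_eq (T : ℕ) (x : W) (ω : Om0) :
    vis T x ω = out T (par true x) x ω + out T (par false x) x ω := by
  unfold vis out
  rw [← Finset.sum_add_distrib]
  refine Finset.sum_congr rfl fun t _ => ?_
  rw [An_eq, nbp, Finset.sum_pair (par_ne x)]

theorem Cn_succ (t : ℕ) (x : W) (ω : Om0) :
    Cn nbp (t + 1) x (emb ω) = An nbp t x (emb ω) - Fn nbp t x (emb ω) := rfl

theorem Fn_succ (t : ℕ) (x : W) (ω : Om0) :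
    Fn nbp (t + 1) x (emb ω) = Fn nbp t x (emb ω) - An nbp t x (emb ω) := rfl

theorem Cn_zero (x : W) (ω : Om0) : Cn nbp 0 x (emb ω) = if ω.1 x then 1 else 0 := rfl

theorem Fn_zero (x : W) (ω : Om0) : Fn nbp 0 x (emb ω) = if ω.1 x then 0 else 1 := rfl

theorem Fn_eq (T : ℕ) (x : W) (ω : Om0) :
    Fn nbp T x (emb ω) = (if ω.1 x then 0 else 1) - vis T x ω := by
  induction T with
  | zero => simp [vis, Fn_zero]
  | succ T ih =>
    rw [Fn_succ, ih]
    unfold vis
    rw [Finset.sum_range_succ]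
    omega

theorem dpt_succ (T : ℕ) (x : W) (ω : Om0) :
    dpt (T + 1) x ω = if ω.1 x then vis T x ω + 1 else vis T x ω - 1 := by
  induction T with
  | zero =>
    unfold dpt vis
    simp [Cn_zero]
  | succ T ih =>
    have h1 : dpt (T + 1 + 1) x ω = dpt (T + 1) x ω + Cn nbp (T + 1) x (emb ω) := by
      unfold dpt
      rw [Finset.sum_range_succ _ (T + 1)]
    have h2 : vis (T + 1) x ω = vis T x ω + An nbp T x (emb ω) := by
      unfold vis
      rw [Finset.sum_range_succ]
    rw [h1, ih, Cn_succ, Fn_eq, h2]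
    split_ifs <;> omega

/-! ### Locality -/

/-- `ω` and `ω'` have the same data at the vertices in `A` -/
def Agree (A : Set W) (ω ω' : Om0) : Prop :=
  ∀ z ∈ A, ω.1 z = ω'.1 z ∧ ∀ t i, ω.2 (t, z, i) = ω'.2 (t, z, i)

theorem An_congr {ω ω' : Om0} (t : ℕ) (x : W)
    (h : ∀ i, Cn nbp t (par i x) (emb ω) = Cn nbp t (par i x) (emb ω') ∧
      ∀ j, ω.2 (t, par i x, j) = ω'.2 (t, par i x, j)) :
    An nbp t x (emb ω) = An nbp t x (emb ω') := by
  rw [An_eq, An_eq]
  refine Finset.sum_congr rfl fun y hy => ?_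
  have hy' : ∃ i, y = par i x := by
    rw [nbp, Finset.mem_insert, Finset.mem_singleton] at hy
    rcases hy with h | h
    · exact ⟨_, h⟩
    · exact ⟨_, h⟩
  obtain ⟨i, rfl⟩ := hy'
  rw [(h i).1]
  congr 1
  refine Finset.filter_congr fun j _ => ?_
  rw [(h i).2 j]

variable {A : Set W} {ω ω' : Om0}

theorem CF_congr (hA : ∀ z ∈ A, ∀ i, par i z ∈ A) (h : Agree A ω ω') (t : ℕ) : ∀ y ∈ A,
    Cn nbp t y (emb ω) = Cn nbp t y (emb ω') ∧ Fn nbp t y (emb ω) = Fn nbp t y (emb ω') := by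
  induction t with
  | zero =>
    intro y hy
    rw [Cn_zero, Cn_zero, Fn_zero, Fn_zero, (h y hy).1]
    exact ⟨rfl, rfl⟩
  | succ t ih =>
    intro y hy
    have h1 : An nbp t y (emb ω) = An nbp t y (emb ω') :=
      An_congr t y fun i => ⟨(ih _ (hA y hy i)).1, fun j => (h _ (hA y hy i)).2 t j⟩
    rw [Cn_succ, Cn_succ, Fn_succ, Fn_succ, h1, (ih y hy).2]
    exact ⟨rfl, rfl⟩

theorem An_congr' (hA : ∀ z ∈ A, ∀ i, par i z ∈ A) (h : Agree A ω ω') (t : ℕ) {x : W}
    (hx : ∀ i, par i x ∈ A) : An nbp t x (emb ω) = An nbp t x (emb ω') :=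
  An_congr t x fun i => ⟨(CF_congr hA h t _ (hx i)).1, fun j => (h _ (hx i)).2 t j⟩

theorem CF_congr' (hA : ∀ z ∈ A, ∀ i, par i z ∈ A) (h : Agree A ω ω') {x : W}
    (hx : ∀ i, par i x ∈ A) (h0 : ω.1 x = ω'.1 x) (t : ℕ) :
    Cn nbp t x (emb ω) = Cn nbp t x (emb ω') ∧ Fn nbp t x (emb ω) = Fn nbp t x (emb ω') := by
  induction t with
  | zero =>
    rw [Cn_zero, Cn_zero, Fn_zero, Fn_zero, h0]
    exact ⟨rfl, rfl⟩
  | succ t ih =>
    rw [Cn_succ, Cn_succ, Fn_succ, Fn_succ, An_congr' hA h t hx, ih.2]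
    exact ⟨rfl, rfl⟩

theorem vis_congr (hA : ∀ z ∈ A, ∀ i, par i z ∈ A) (h : Agree A ω ω') (T : ℕ) {x : W}
    (hx : ∀ i, par i x ∈ A) : vis T x ω = vis T x ω' :=
  Finset.sum_congr rfl fun t _ => An_congr' hA h t hx

theorem out_congr (hA : ∀ z ∈ A, ∀ i, par i z ∈ A) (h : Agree A ω ω') (T : ℕ) {y : W}
    (hy : y ∈ A) (x : W) : out T y x ω = out T y x ω' := by
  refine Finset.sum_congr rfl fun t _ => ?_
  rw [(CF_congr hA h t y hy).1]
  congr 1
  refine Finset.filter_congr fun j _ => ?_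
  rw [(h y hy).2 t j]

/-! ### Measurability -/

theorem measurable_vis (T : ℕ) (x : W) : Measurable (vis T x) :=
  Finset.measurable_fun_sum _ fun t _ => ((measurable_CF nbp t).2.2 x).comp measurable_emb

theorem measurable_dpt (T : ℕ) (x : W) : Measurable (dpt T x) :=
  Finset.measurable_fun_sum _ fun t _ => ((measurable_CF nbp t).1 x).comp measurable_emb

theorem measurable_out (T : ℕ) (y x : W) : Measurable (out T y x) := by
  refine Finset.measurable_fun_sum _ fun t _ => ?_
  have h := measurable_card (fun ω : Om W => Cn nbp t y ω) ((measurable_CF nbp t).1 y) t y x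
  have h2 := h.comp (measurable_emb (V := W))
  have h3 : (fun ω : Om0 => ((range (Cn nbp t y (emb ω))).filter fun i => ω.2 (t, y, i) = x).card) =
      (fun ω : Om W => ((range (Cn nbp t y ω)).filter
      fun i => ω.2.2 (t, y, i) = false ∧ ω.2.1 (t, y, i) = x).card) ∘ emb := by
    funext ω
    simp [emb]
  rw [h3]
  exact h2

theorem bm_spow {s : ℝ} (h0 : 0 ≤ s) (h1 : s ≤ 1) {f : Om0 → ℕ} (hf : Measurable f) :
    BM fun ω => s ^ f ω := by
  refine ⟨(measurable_of_countable (fun n : ℕ => s ^ n)).comp hf, 1, fun ω => ?_⟩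
  rw [abs_of_nonneg (pow_nonneg h0 _)]
  exact pow_le_one₀ h0 h1

/-! ### Independence -/

variable {p : ℝ}

theorem mu_prob (hp : 0 ≤ p ∧ p ≤ 1) : IsProbabilityMeasure (mu p) := law0_prob S hp

theorem resamp_mu (hp : 0 ≤ p ∧ p ≤ 1) (A : Set W) (B : Set (ℕ × W × ℕ)) :
    Resamp (mu p) (mu p) (fun ω ω' => (pw A ω.1 ω'.1, pw B ω.2 ω'.2)) := by
  have := bern_prob hp.1 hp.2
  have h1 := (resamp_pw (fun _ : W => bern p) A).left
    (infinitePi fun a : ℕ × W × ℕ => stepLaw S.nb S.K a.2.1)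
  have h2 := (resamp_pw (fun a : ℕ × W × ℕ => stepLaw S.nb S.K a.2.1) B).right
    (infinitePi fun _ : W => bern p)
  exact h1.comp h2

theorem resamp_mu2 (hp : 0 ≤ p ∧ p ≤ 1) (B : Set (ℕ × W × ℕ)) :
    Resamp (mu p) (infinitePi fun a : ℕ × W × ℕ => stepLaw S.nb S.K a.2.1)
      (fun ω ω' => (ω.1, pw B ω.2 ω')) := by
  have := bern_prob hp.1 hp.2
  exact (resamp_pw (fun a : ℕ × W × ℕ => stepLaw S.nb S.K a.2.1) B).right
    (infinitePi fun _ : W => bern p)

theorem resamp_mu1 (hp : 0 ≤ p ∧ p ≤ 1) (x : W) :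
    Resamp (mu p) (bern p) (fun ω β => (Function.update ω.1 x β, ω.2)) := by
  have := bern_prob hp.1 hp.2
  exact (Resamp.pi (fun _ : W => bern p) x).left
    (infinitePi fun a : ℕ × W × ℕ => stepLaw S.nb S.K a.2.1)

theorem indep_out (hp : 0 ≤ p ∧ p ≤ 1) {s : ℝ} (h0 : 0 ≤ s) (h1 : s ≤ 1) (T : ℕ) (x : W) :
    ∫ ω, s ^ out T (par true x) x ω * s ^ out T (par false x) x ω ∂(mu p) =
      (∫ ω, s ^ out T (par true x) x ω ∂(mu p)) * ∫ ω, s ^ out T (par false x) x ω ∂(mu p) := by
  have := mu_prob hp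
  refine (resamp_mu hp (anc (par false x)) {a | a.2.1 ∈ anc (par false x)}).integral_mul
    (bm_spow h0 h1 (measurable_out T _ x)) (bm_spow h0 h1 (measurable_out T _ x)) _ ?_ ?_
  · intro ω ω'
    have h : Agree (anc (par true x)) (pw (anc (par false x)) ω.1 ω'.1,
        pw {a | a.2.1 ∈ anc (par false x)} ω.2 ω'.2) ω := by
      intro z hz
      refine ⟨pw_notMem fun h => disj_anc x hz h, fun t i => ?_⟩
      have h2 : (t, z, i) ∉ {a : ℕ × W × ℕ | a.2.1 ∈ anc (par false x)} := fun h =>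
        disj_anc x hz h
      exact pw_notMem h2
    rw [out_congr (fun z hz i => par_mem_anc hz i) h T (mem_anc_self _) x]
  · intro ω ω'
    have h : Agree (anc (par false x)) (pw (anc (par false x)) ω.1 ω'.1,
        pw {a | a.2.1 ∈ anc (par false x)} ω.2 ω'.2) ω' := by
      intro z hz
      refine ⟨pw_mem hz, fun t i => ?_⟩
      have h2 : (t, z, i) ∈ {a : ℕ × W × ℕ | a.2.1 ∈ anc (par false x)} := hz
      exact pw_mem h2
    rw [out_congr (fun z hz i => par_mem_anc hz i) h T (mem_anc_self _) x]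

theorem prod_ite_pow (s : ℝ) (n : ℕ) (P : ℕ → Prop) [DecidablePred P] :
    s ^ ((range n).filter P).card = ∏ i ∈ range n, if P i then s else 1 := by
  rw [Finset.prod_ite, Finset.prod_const, Finset.prod_const_one, mul_one]

theorem integral_step (s : ℝ) (i : Bool) (y : W) :
    ∫ z, (if z = y * FreeGroup.of i then s else 1) ∂(stepLaw S.nb S.K y) = (1 + s) / 2 := by
  rw [Tri.integral_stepLaw]
  have h1 : ∀ z, S.K y z * (if z = y * FreeGroup.of i then s else 1) =
      S.K y z + (if z = y * FreeGroup.of i then S.K y z * (s - 1) else 0) := by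
    intro z
    split_ifs <;> ring
  simp_rw [h1]
  rw [Finset.sum_add_distrib, S.sum_one, Finset.sum_ite_eq', if_pos]
  · have h2 : S.K y (y * FreeGroup.of i) = 1 / 2 := by
      show ker y (y * FreeGroup.of i) = 1 / 2
      unfold ker
      cases i
      · rw [if_neg, if_pos rfl, zero_add]
        rw [mul_right_inj]
        exact of_ne false true (by decide)
      · rw [if_pos rfl, if_neg, add_zero]
        rw [mul_right_inj]
        exact of_ne true false (by decide)
    rw [h2]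
    ring
  · show y * FreeGroup.of i ∈ tree.neighborFinset y
    rw [SimpleGraph.mem_neighborFinset]
    exact ⟨i, Or.inl rfl⟩

/-- thinning -/
theorem thin (hp : 0 ≤ p ∧ p ≤ 1) {s : ℝ} (h0 : 0 ≤ s) (h1 : s ≤ 1) (T : ℕ) (i : Bool) (x : W) :
    ∫ ω, s ^ out T (par i x) x ω ∂(mu p) = ∫ ω, ((1 + s) / 2) ^ dpt T (par i x) ω ∂(mu p) := by
  have := mu_prob hp
  set y := par i x with hy
  have hx : x = y * FreeGroup.of i := (par_mul i x).symm
  rw [(resamp_mu2 hp {a : ℕ × W × ℕ | a.2.1 = y}).integral (bm_spow h0 h1 (measurable_out T y x))]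
  refine integral_congr_ae (Filter.Eventually.of_forall fun ω => ?_)
  simp only
  -- the number of departures does not depend on the resampled coordinates
  have hC : ∀ (ω' : ℕ × W × ℕ → W) (t : ℕ),
      Cn nbp t y (emb (ω.1, pw {a : ℕ × W × ℕ | a.2.1 = y} ω.2 ω')) = Cn nbp t y (emb ω) := by
    intro ω' t
    refine (CF_congr' (A := anc (par true y) ∪ anc (par false y))
      (ω := (ω.1, pw {a : ℕ × W × ℕ | a.2.1 = y} ω.2 ω')) (ω' := ω) ?_ ?_ ?_ rfl t).1
    · rintro z (hz | hz) j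
      · exact Or.inl (par_mem_anc hz j)
      · exact Or.inr (par_mem_anc hz j)
    · intro z hz
      have hzy : z ≠ y := by
        rintro rfl
        rcases hz with hz | hz
        · exact not_mem_anc_par _ _ hz
        · exact not_mem_anc_par _ _ hz
      refine ⟨rfl, fun t j => ?_⟩
      have h2 : (t, z, j) ∉ {a : ℕ × W × ℕ | a.2.1 = y} := hzy
      exact pw_notMem h2
    · intro j
      cases j
      · exact Or.inr (mem_anc_self _)
      · exact Or.inl (mem_anc_self _)
  have hout : ∀ ω' : ℕ × W × ℕ → W,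
      s ^ out T y x (ω.1, pw {a : ℕ × W × ℕ | a.2.1 = y} ω.2 ω') =
        ∏ q ∈ (range T).sigma fun t => range (Cn nbp t y (emb ω)),
          (if ω' (q.1, y, q.2) = y * FreeGroup.of i then s else 1) := by
    intro ω'
    unfold out
    rw [← Finset.prod_pow_eq_pow_sum, Finset.prod_sigma]
    refine Finset.prod_congr rfl fun t _ => ?_
    rw [hC ω' t, prod_ite_pow]
    refine Finset.prod_congr rfl fun j _ => ?_
    have h2 : pw {a : ℕ × W × ℕ | a.2.1 = y} ω.2 ω' (t, y, j) = ω' (t, y, j) := by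
      have h3 : (t, y, j) ∈ {a : ℕ × W × ℕ | a.2.1 = y} := rfl
      exact pw_mem h3
    simp only [h2, ← hx]
  simp_rw [hout]
  have he : Function.Injective (fun q : (Σ _ : ℕ, ℕ) => ((q.1, y, q.2) : ℕ × W × ℕ)) := by
    rintro ⟨a, b⟩ ⟨c, d⟩ h
    simp only [Prod.mk.injEq] at h
    obtain ⟨rfl, -, rfl⟩ := h
    rfl
  have hbm : ∀ _q : (Σ _ : ℕ, ℕ), BM (fun z : W => if z = y * FreeGroup.of i then s else (1 : ℝ)) :=
    fun _ => ⟨measurable_of_countable _, 1, fun z => by
      split_ifs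
      · rwa [abs_of_nonneg h0]
      · simp⟩
  have h4 := integral_prod_coord (fun a : ℕ × W × ℕ => stepLaw S.nb S.K a.2.1)
    (fun q : (Σ _ : ℕ, ℕ) => ((q.1, y, q.2) : ℕ × W × ℕ)) he
    ((range T).sigma fun t => range (Cn nbp t y (emb ω)))
    (fun _ z => if z = y * FreeGroup.of i then s else (1 : ℝ)) hbm
  rw [h4]
  simp only [integral_step]
  rw [Finset.prod_const, Finset.card_sigma]
  simp only [Finset.card_range]
  rfl

/-- generating function of the number of visits -/
noncomputable def GF (p : ℝ) (T : ℕ) (x : W) (s : ℝ) : ℝ := ∫ ω, s ^ vis T x ω ∂(mu p)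

theorem GF_zero (hp : 0 ≤ p ∧ p ≤ 1) (x : W) (s : ℝ) : GF p 0 x s = 1 := by
  have := mu_prob hp
  simp [GF, vis]

theorem GF_nonneg (T : ℕ) (x : W) {s : ℝ} (h0 : 0 ≤ s) : 0 ≤ GF p T x s :=
  integral_nonneg fun _ => pow_nonneg h0 _

theorem GF_le_one (hp : 0 ≤ p ∧ p ≤ 1) (T : ℕ) (x : W) {s : ℝ} (h0 : 0 ≤ s) (h1 : s ≤ 1) :
    GF p T x s ≤ 1 := by
  have := mu_prob hp
  calc GF p T x s ≤ ∫ _, (1 : ℝ) ∂(mu p) :=
        integral_mono ((bm_spow h0 h1 (measurable_vis T x)).integrable _) (integrable_const _)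
          fun ω => pow_le_one₀ h0 h1
    _ = 1 := by simp

theorem vis_upd (T : ℕ) (x : W) (ω : Om0) (β : Bool) :
    vis T x (Function.update ω.1 x β, ω.2) = vis T x ω := by
  refine vis_congr (A := anc (par true x) ∪ anc (par false x)) ?_ ?_ T ?_
  · rintro z (hz | hz) j
    · exact Or.inl (par_mem_anc hz j)
    · exact Or.inr (par_mem_anc hz j)
  · intro z hz
    have hzx : z ≠ x := by
      rintro rfl
      rcases hz with hz | hz
      · exact not_mem_anc_par _ _ hz
      · exact not_mem_anc_par _ _ hz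
    exact ⟨Function.update_of_ne hzx _ _, fun _ _ => rfl⟩
  · intro j
    cases j
    · exact Or.inr (mem_anc_self _)
    · exact Or.inl (mem_anc_self _)

theorem gf_dpt (hp : 0 ≤ p ∧ p ≤ 1) {r : ℝ} (h0 : 0 < r) (h1 : r ≤ 1) (T : ℕ) (y : W) :
    ∫ ω, r ^ dpt (T + 1) y ω ∂(mu p) = GF p T y r * (p * r + (1 - p) / r) -
      (1 - p) * GF p T y 0 * (1 / r - 1) := by
  have := mu_prob hp
  have := bern_prob hp.1 hp.2
  rw [(resamp_mu1 hp y).integral (bm_spow h0.le h1 (measurable_dpt (T + 1) y))]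
  have h2 : ∀ ω : Om0, ∫ β, r ^ dpt (T + 1) y (Function.update ω.1 y β, ω.2) ∂(bern p) =
      (p * r + (1 - p) / r) * r ^ vis T y ω + (-((1 - p) * (1 / r - 1))) * (0 : ℝ) ^ vis T y ω := by
    intro ω
    rw [integral_bern hp.1 hp.2, dpt_succ, dpt_succ, vis_upd, vis_upd]
    simp only [Function.update_self, if_true, Bool.false_eq_true, if_false]
    rcases Nat.eq_zero_or_pos (vis T y ω) with h | h
    · rw [h]
      simp only [zero_add, pow_one, Nat.zero_sub, pow_zero, mul_one]
      field_simp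
      ring
    · obtain ⟨n, hn⟩ : ∃ n, vis T y ω = n + 1 := ⟨vis T y ω - 1, by omega⟩
      rw [hn, Nat.add_sub_cancel]
      simp only [pow_succ, mul_zero, add_zero]
      field_simp
  simp_rw [h2]
  rw [integral_add (((bm_spow h0.le h1 (measurable_vis T y)).smul _).integrable _)
    (((bm_spow le_rfl zero_le_one (measurable_vis T y)).smul _).integrable _),
    integral_const_mul, integral_const_mul]
  unfold GF
  ring

/-- the recursion -/
theorem GF_succ (hp : 0 ≤ p ∧ p ≤ 1) {s : ℝ} (h0 : 0 ≤ s) (h1 : s ≤ 1) (T : ℕ) (x : W) :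
    GF p (T + 1) x s = (∫ ω, ((1 + s) / 2) ^ dpt (T + 1) (par true x) ω ∂(mu p)) *
      ∫ ω, ((1 + s) / 2) ^ dpt (T + 1) (par false x) ω ∂(mu p) := by
  rw [← thin hp h0 h1, ← thin hp h0 h1, ← indep_out hp h0 h1]
  unfold GF
  refine integral_congr_ae (Filter.Eventually.of_forall fun ω => ?_)
  simp only
  rw [vis_eq, pow_add]

/-! ### The mean -/

/-- mean number of visits before time `T` -/
noncomputable def mT (p : ℝ) (x : W) (T : ℕ) : ℝ := ∑ t ∈ range T, aT S p 0 x t

/-- almost surely every car makes a step of the kernel -/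
theorem ae_good (hp : 0 ≤ p ∧ p ≤ 1) : ∀ᵐ ω ∂(mu p), ∀ a : ℕ × W × ℕ,
    ω.2 a = a.2.1 * FreeGroup.of true ∨ ω.2 a = a.2.1 * FreeGroup.of false := by
  rw [ae_all_iff]
  intro a
  have := bern_prob hp.1 hp.2
  have h1 : MeasurePreserving (fun ω : Om0 => ω.2) (mu p)
      (infinitePi fun a : ℕ × W × ℕ => stepLaw S.nb S.K a.2.1) := measurePreserving_snd
  have h2 : MeasurePreserving (fun ξ : ℕ × W × ℕ → W => ξ a)
      (infinitePi fun a : ℕ × W × ℕ => stepLaw S.nb S.K a.2.1) (stepLaw S.nb S.K a.2.1) :=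
    measurePreserving_eval_infinitePi _ a
  have h3 := (h2.comp h1)
  have h4 : ∀ᵐ z ∂(stepLaw S.nb S.K a.2.1),
      z = a.2.1 * FreeGroup.of true ∨ z = a.2.1 * FreeGroup.of false := by
    unfold stepLaw
    rw [ae_iff, Measure.finsetSum_apply]
    refine Finset.sum_eq_zero fun z _ => ?_
    rw [Measure.smul_apply, smul_eq_mul]
    by_cases hz : z = a.2.1 * FreeGroup.of true ∨ z = a.2.1 * FreeGroup.of false
    · rw [dirac_apply' _ (MeasurableSet.of_discrete), Set.indicator_of_notMem, mul_zero]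
      intro h
      exact h hz
    · have h5 : S.K a.2.1 z = 0 := by
        rw [not_or] at hz
        show ker a.2.1 z = 0
        unfold ker
        rw [if_neg hz.1, if_neg hz.2, add_zero]
      rw [h5, ENNReal.ofReal_zero, zero_mul]
  exact h3.quasiMeasurePreserving.ae h4

theorem nbp_subset (x : W) : nbp x ⊆ S.nb x := by
  intro y hy
  show y ∈ tree.neighborFinset x
  rw [SimpleGraph.mem_neighborFinset, adj_iff]
  rw [nbp, Finset.mem_insert, Finset.mem_singleton] at hy
  unfold par at hy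
  tauto

theorem good_eq {ω : Om0} (h : ∀ a : ℕ × W × ℕ,
    ω.2 a = a.2.1 * FreeGroup.of true ∨ ω.2 a = a.2.1 * FreeGroup.of false) (t : ℕ) :
    ∀ x, Cn S.nb t x (emb ω) = Cn nbp t x (emb ω) ∧ Fn S.nb t x (emb ω) = Fn nbp t x (emb ω) := by
  induction t with
  | zero => exact fun x => ⟨rfl, rfl⟩
  | succ t ih =>
    intro x
    have h1 : An S.nb t x (emb ω) = An nbp t x (emb ω) := by
      unfold An
      rw [ar_eq, ar_eq]
      symm
      rw [Finset.sum_subset_zero_on_sdiff (nbp_subset x)]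
      · intro y hy
        rw [Finset.mem_sdiff] at hy
        rw [Finset.card_eq_zero, Finset.filter_eq_empty_iff]
        rintro j - ⟨-, hj⟩
        apply hy.2
        have h2 : ω.2 (t, y, j) = x := hj
        rw [nbp, Finset.mem_insert, Finset.mem_singleton]
        rcases h (t, y, j) with h3 | h3
        · left
          rw [← h2, h3]
          exact (mul_inv_cancel_right _ _).symm
        · right
          rw [← h2, h3]
          exact (mul_inv_cancel_right _ _).symm
      · intro y _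
        have h2 : cs nbp (emb ω).2.1 (emb ω).2.2 (c0 (emb ω).1) (f0 (emb ω).1) t y =
            cs S.nb (emb ω).2.1 (emb ω).2.2 (c0 (emb ω).1) (f0 (emb ω).1) t y := (ih y).1.symm
        rw [h2]
    have h2 : Cn S.nb (t + 1) x (emb ω) = An S.nb t x (emb ω) - Fn S.nb t x (emb ω) := rfl
    have h3 : Fn S.nb (t + 1) x (emb ω) = Fn S.nb t x (emb ω) - An S.nb t x (emb ω) := rfl
    rw [h2, h3, Cn_succ, Fn_succ, h1, (ih x).2]
    exact ⟨rfl, rfl⟩

theorem integral_Fn (hp : 0 ≤ p ∧ p ≤ 1) (T : ℕ) (x : W) :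
    ∫ ω, (Fn S.nb T x ω : ℝ) ∂(S.law p 0) = (1 - p) * GF p T x 0 := by
  have := mu_prob hp
  have := bern_prob hp.1 hp.2
  rw [law_emb S hp (bm_F S.nb T x)]
  have h1 : ∫ ω, (Fn S.nb T x (emb ω) : ℝ) ∂(S.law0 p) =
      ∫ ω, (Fn nbp T x (emb ω) : ℝ) ∂(mu p) := by
    refine integral_congr_ae ?_
    filter_upwards [ae_good hp] with ω hω
    rw [(good_eq hω T x).2]
  rw [h1, (resamp_mu1 hp x).integral ((bm_F nbp T x).comp measurable_emb)]
  unfold GF
  rw [← integral_const_mul]
  refine integral_congr_ae (Filter.Eventually.of_forall fun ω => ?_)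
  simp only
  rw [integral_bern hp.1 hp.2, Fn_eq, Fn_eq, vis_upd, vis_upd]
  simp only [Function.update_self, if_true, Bool.false_eq_true, if_false, Nat.zero_sub,
    Nat.cast_zero, mul_zero, zero_add]
  rcases Nat.eq_zero_or_pos (vis T x ω) with h | h
  · rw [h]
    simp
  · rw [Nat.sub_eq_zero_of_le (by omega : 1 ≤ vis T x ω), zero_pow (by omega)]
    simp

theorem mT_succ (hp : 0 ≤ p ∧ p ≤ 1) (T : ℕ) (x : W) :
    mT p x (T + 1) = mT p x T - (1 - 2 * p) + (1 - p) * GF p T x 0 := by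
  have h0 : (0 : ℝ) ≤ 0 ∧ (0 : ℝ) ≤ 1 := ⟨le_rfl, zero_le_one⟩
  have := law_prob S hp h0
  have h1 : ∀ ω, (Cn S.nb T x ω : ℝ) =
      (∑ t ∈ range T, (An S.nb t x ω : ℝ) + eta x ω + Fn S.nb T x ω) - Dn S T x ω := by
    intro ω
    have := Dn_eq S T x ω
    linarith
  have h2 : aT S p 0 x T = (∑ t ∈ range T, aT S p 0 x t + (2 * p - 1) + (1 - p) * GF p T x 0) -
      ∑ t ∈ range T, aT S p 0 x t := by
    conv_lhs => unfold aT
    simp_rw [h1]
    have b1 : BM fun ω : Om W => ∑ t ∈ range T, (An S.nb t x ω : ℝ) :=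
      BM.sum _ fun t _ => bm_A S.nb t x
    have b2 := bm_eta (V := W) x
    have b3 := bm_F S.nb T x
    have b4 : BM (Dn S T x) := BM.sum _ fun t _ => bm_C S.nb t x
    rw [integral_sub (((b1.add b2).add b3).integrable _) (b4.integrable _),
      integral_add ((b1.add b2).integrable _) (b3.integrable _),
      integral_add (b1.integrable _) (b2.integrable _), integral_eta S hp h0, integral_Fn hp,
      integral_finsetSum _ fun t _ => (bm_A S.nb t x).integrable _]
    have h3 : ∫ ω, Dn S T x ω ∂(S.law p 0) = ∑ t ∈ range T, aT S p 0 x t := by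
      unfold Dn aT
      exact integral_finsetSum _ fun t _ => (bm_C S.nb t x).integrable _
    have h4 : ∑ t ∈ range T, ∫ ω, (An S.nb t x ω : ℝ) ∂(S.law p 0) =
        ∑ t ∈ range T, aT S p 0 x t := by
      refine Finset.sum_congr rfl fun t _ => ?_
      rw [integral_A S hp h0, sub_zero, one_mul]
    rw [h3, h4]
  unfold mT
  rw [Finset.sum_range_succ, h2]
  ring

theorem mT_inv (hp : 0 ≤ p ∧ p ≤ 1) (T : ℕ) (x y : W) : mT p x T = mT p y T :=
  Finset.sum_congr rfl fun t _ => mean_inv S hp ⟨le_rfl, zero_le_one⟩ t x y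

theorem mT_nonneg (x : W) (T : ℕ) : 0 ≤ mT p x T := Finset.sum_nonneg fun _ _ => aT_nonneg _ _ _

theorem mT_mono (x : W) (T : ℕ) : mT p x T ≤ mT p x (T + 1) := by
  unfold mT
  rw [Finset.sum_range_succ]
  have : 0 ≤ aT S p 0 x T := aT_nonneg _ _ _
  linarith

/-- the main inequality -/
theorem GF_le (hp0 : 0 ≤ p) (hp1 : p ≤ 1 / 2) (T : ℕ) : ∀ (x : W) (s : ℝ), 0 ≤ s → s ≤ 1 →
    GF p T x s ≤ Real.exp (27 * (1 - s) ^ 2 - mT p x T * (1 - s)) := by
  have hp : 0 ≤ p ∧ p ≤ 1 := ⟨hp0, by linarith⟩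
  induction T with
  | zero =>
    intro x s _ _
    rw [GF_zero hp]
    simp only [mT, Finset.range_zero, Finset.sum_empty, zero_mul, sub_zero]
    rw [Real.one_le_exp_iff]
    positivity
  | succ T ih =>
    intro x s h0 h1
    rw [GF_succ hp h0 h1]
    have key' : ∀ y : W, ∫ ω, ((1 + s) / 2) ^ dpt (T + 1) y ω ∂(mu p) ≤
        Real.exp (54 * ((1 - s) / 2) ^ 2 - mT p x (T + 1) * ((1 - s) / 2)) := by
      intro y
      rw [gf_dpt hp (by linarith) (by linarith), mT_inv hp (T + 1) x y, mT_succ hp T y]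
      have hr : (1 + s) / 2 = 1 - (1 - s) / 2 := by ring
      rw [hr]
      refine key hp0 hp1 (GF_nonneg T y le_rfl) (GF_le_one hp T y le_rfl zero_le_one)
        (mT_nonneg y T) (by linarith) (by linarith) ?_
      have h3 := ih y (1 - (1 - s) / 2) (by linarith) (by linarith)
      rw [sub_sub_cancel] at h3
      exact h3
    have hnn : ∀ y : W, 0 ≤ ∫ ω, ((1 + s) / 2) ^ dpt (T + 1) y ω ∂(mu p) := fun y =>
      integral_nonneg fun _ => pow_nonneg (by linarith) _
    calc (∫ ω, ((1 + s) / 2) ^ dpt (T + 1) (par true x) ω ∂(mu p)) *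
          ∫ ω, ((1 + s) / 2) ^ dpt (T + 1) (par false x) ω ∂(mu p)
        ≤ Real.exp (54 * ((1 - s) / 2) ^ 2 - mT p x (T + 1) * ((1 - s) / 2)) *
          Real.exp (54 * ((1 - s) / 2) ^ 2 - mT p x (T + 1) * ((1 - s) / 2)) :=
          mul_le_mul (key' _) (key' _) (hnn _) (Real.exp_pos _).le
      _ = _ := by
          rw [← Real.exp_add]
          congr 1
          ring

/-- the bound for the mean -/
theorem mT_le (hp0 : 0 ≤ p) (hp1 : p < 1 / 2) (T : ℕ) (x : W) :
    mT p x T ≤ 27 + Real.log (1 / (1 - 2 * p)) := by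
  have hp : 0 ≤ p ∧ p ≤ 1 := ⟨hp0, by linarith⟩
  have h1 := GF_le hp0 hp1.le T x 0 le_rfl zero_le_one
  have h2 := mT_succ hp T x
  have h3 := mT_mono (p := p) x T
  have h4 := GF_nonneg (p := p) T x le_rfl
  have h5 : 1 - 2 * p ≤ GF p T x 0 := by nlinarith
  have h6 : 1 - 2 * p ≤ Real.exp (27 - mT p x T) := by
    refine (h5.trans h1).trans (le_of_eq ?_)
    congr 1
    ring
  have h7 : Real.log (1 - 2 * p) ≤ 27 - mT p x T := by
    rw [Real.log_le_iff_le_exp (by linarith)]
    exact h6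
  rw [one_div, Real.log_inv]
  linarith

/-! ### The lower bound -/

theorem integral_dpt (hp : 0 ≤ p ∧ p ≤ 1) (T : ℕ) (x : W) :
    ∫ ω, (dpt T x ω : ℝ) ∂(mu p) = mT p x T := by
  have := mu_prob hp
  unfold dpt mT
  push_cast
  rw [integral_finsetSum _ fun t _ => ((bm_C nbp t x).comp measurable_emb).integrable _]
  refine Finset.sum_congr rfl fun t _ => ?_
  unfold aT
  rw [law_emb S hp (bm_C S.nb t x)]
  refine integral_congr_ae ?_
  filter_upwards [ae_good hp] with ω hω
  rw [(good_eq hω t x).1]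

theorem bm_dpt (T : ℕ) (x : W) : BM fun ω : Om0 => (dpt T x ω : ℝ) := by
  unfold dpt
  push_cast
  exact BM.sum _ fun t _ => (bm_C nbp t x).comp measurable_emb

theorem jensen (hp : 0 ≤ p ∧ p ≤ 1) (T : ℕ) (x : W) :
    Real.exp (-(Real.log 2 * mT p x T)) ≤ ∫ ω, ((1 + (0 : ℝ)) / 2) ^ dpt T x ω ∂(mu p) := by
  have := mu_prob hp
  set m := mT p x T with hm
  have h1 : ∀ ω : Om0, Real.exp (-(Real.log 2 * m)) *
      (1 + (-Real.log 2) * ((dpt T x ω : ℝ) - m)) ≤ ((1 + (0 : ℝ)) / 2) ^ dpt T x ω := by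
    intro ω
    have h2 : ((1 + (0 : ℝ)) / 2) ^ dpt T x ω = Real.exp (-(Real.log 2 * m)) *
        Real.exp ((-Real.log 2) * ((dpt T x ω : ℝ) - m)) := by
      rw [← Real.exp_add]
      have h3 : -(Real.log 2 * m) + -Real.log 2 * ((dpt T x ω : ℝ) - m) =
          (dpt T x ω : ℝ) * (-Real.log 2) := by ring
      rw [h3, Real.exp_nat_mul, Real.exp_neg, Real.exp_log (by norm_num)]
      congr 1
      norm_num
    rw [h2]
    refine mul_le_mul_of_nonneg_left ?_ (Real.exp_pos _).le
    linarith [Real.add_one_le_exp ((-Real.log 2) * ((dpt T x ω : ℝ) - m))]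
  have b := bm_dpt T x
  have b1 : BM fun ω : Om0 => Real.exp (-(Real.log 2 * m)) *
      (1 + (-Real.log 2) * ((dpt T x ω : ℝ) - m)) :=
    ((BM.const 1).add ((b.sub (BM.const m)).smul _)).smul _
  have h4 := integral_mono (b1.integrable (mu p))
    ((bm_spow (by norm_num) (by norm_num) (measurable_dpt T x)).integrable (mu p)) h1
  refine le_trans (le_of_eq ?_) h4
  rw [integral_const_mul, integral_add ((BM.const 1).integrable _)
    (((b.sub (BM.const m)).smul _).integrable _), integral_const_mul,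
    integral_sub (b.integrable _) ((BM.const m).integrable _), integral_dpt hp]
  simp [← hm]

theorem GF_ge (hp : 0 ≤ p ∧ p ≤ 1) (T : ℕ) (x : W) :
    Real.exp (-(2 * Real.log 2 * mT p x (T + 1))) ≤ GF p (T + 1) x 0 := by
  rw [GF_succ hp le_rfl zero_le_one]
  have h1 := jensen hp (T + 1) (par true x)
  have h2 := jensen hp (T + 1) (par false x)
  rw [mT_inv hp _ _ x] at h1 h2
  calc Real.exp (-(2 * Real.log 2 * mT p x (T + 1))) =
        Real.exp (-(Real.log 2 * mT p x (T + 1))) * Real.exp (-(Real.log 2 * mT p x (T + 1))) := by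
        rw [← Real.exp_add]
        congr 1
        ring
    _ ≤ _ := mul_le_mul h1 h2 (Real.exp_pos _).le ((Real.exp_pos _).le.trans h1)

/-- lower bound for a bound of the mean -/
theorem le_of_bound (hp0 : 0 ≤ p) (hp1 : p < 1 / 2) (x : W) (M : ℝ) (hM : ∀ T, mT p x T ≤ M) :
    Real.log (1 / (1 - 2 * p)) ≤ 2 * Real.log 2 * M + Real.log 2 := by
  have hp : 0 ≤ p ∧ p ≤ 1 := ⟨hp0, by linarith⟩
  have h1 : ∀ T, Real.exp (-(2 * Real.log 2 * M)) ≤ GF p (T + 1) x 0 := by
    intro T
    refine le_trans (Real.exp_le_exp.2 ?_) (GF_ge hp T x)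
    have h2 := hM (T + 1)
    have h3 : 0 < Real.log 2 := Real.log_pos (by norm_num)
    nlinarith
  have hM0 : 0 ≤ M := (mT_nonneg x 0).trans (hM 0)
  -- the increments are eventually small
  have h2 : ∀ n : ℕ, (n : ℝ) * ((1 - p) * Real.exp (-(2 * Real.log 2 * M)) - (1 - 2 * p)) ≤ M := by
    intro n
    have h3 : ∀ n : ℕ, (n : ℝ) * ((1 - p) * Real.exp (-(2 * Real.log 2 * M)) - (1 - 2 * p)) ≤
        mT p x (n + 1) - mT p x 1 := by
      intro n
      induction n with
      | zero => simp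
      | succ n ih =>
        have h4 := mT_succ hp (n + 1) x
        have h5 := mul_le_mul_of_nonneg_left (h1 n) (by linarith : 0 ≤ 1 - p)
        push_cast
        linarith
    have h4 := h3 n
    have h5 := hM (n + 1)
    have h6 := mT_nonneg (p := p) x 1
    linarith
  have h3 : (1 - p) * Real.exp (-(2 * Real.log 2 * M)) - (1 - 2 * p) ≤ 0 := by
    by_contra hneg
    push Not at hneg
    obtain ⟨n, hn⟩ := exists_nat_gt
      (M / ((1 - p) * Real.exp (-(2 * Real.log 2 * M)) - (1 - 2 * p)))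
    rw [div_lt_iff₀ hneg] at hn
    linarith [h2 n]
  have h4 : Real.exp (-(2 * Real.log 2 * M)) ≤ 2 * (1 - 2 * p) := by
    have h5 := Real.exp_pos (-(2 * Real.log 2 * M))
    nlinarith
  have h5 : -(2 * Real.log 2 * M) ≤ Real.log (2 * (1 - 2 * p)) := by
    rw [Real.le_log_iff_exp_le (by linarith)]
    exact h4
  rw [Real.log_mul (by norm_num) (by linarith)] at h5
  rw [one_div, Real.log_inv]
  linarith

/-- **Bound for the expected number of visits.** -/
theorem visits_le (hp0 : 0 ≤ p) (hp1 : p < 1 / 2) (x : W) :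
    expectedVisits tree ker p x ≤ ENNReal.ofReal (27 + Real.log (1 / (1 - 2 * p))) :=
  expectedVisits_le tree ker trans isKernel isAut isTransitive isUnimodular ⟨hp0, by linarith⟩ x _
    fun T => mT_le hp0 hp1 T x

/-- **Lower bound for the expected number of visits.** -/
theorem visits_ge (hp0 : 0 ≤ p) (hp1 : p < 1 / 2) (x : W) :
    Real.log (1 / (1 - 2 * p)) ≤
      2 * Real.log 2 * (expectedVisits tree ker p x).toReal + Real.log 2 := by
  have hp : 0 ≤ p ∧ p ≤ 1 := ⟨hp0, by linarith⟩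
  refine le_of_bound hp0 hp1 x _ fun T => ?_
  have h1 := expectedVisits_eq tree ker trans isKernel isAut isTransitive isUnimodular hp x
  have h2 : ENNReal.ofReal (mT p x T) ≤ expectedVisits tree ker p x := by
    rw [h1]
    unfold mT
    rw [ENNReal.ofReal_sum_of_nonneg fun _ _ => aT_nonneg _ _ _]
    exact ENNReal.sum_le_tsum _
  have h3 : expectedVisits tree ker p x ≠ ⊤ :=
    ((visits_le hp0 hp1 x).trans_lt ENNReal.ofReal_lt_top).ne
  exact (ENNReal.ofReal_le_iff_le_toReal h3).1 h2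

end Pool.Agent.V11325.Park
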