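import Pool.Agent.V11325.Doeblin

/-!
# Cooperative Parrondo games: the chain and its ergodicity
-/

open Filter Topology Matrix

namespace Pool.Agent.V11325.Parrondo

open Pool.Agent.V11325.Doeblin

section defs

variable {N : ℕ} [NeZero N]

/-- The index `m_i(x) = 2 x_{i-1} + x_{i+1}` (cyclic indexing). -/
def nbr (x : Fin N → Bool) (i : Fin N) : Fin 4 :=
  if x (i - 1) then (if x (i + 1) then 3 else 2) else (if x (i + 1) then 1 else 0)

/-- One-step transition probabilities: a uniformly random player `i` tosses a `p_{m_i(x)}`-coin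
and `x_i` becomes `1` on heads and `0` on tails. -/
def trans {K : Type} [Field K] (p : Fin 4 → K) : Matrix (Fin N → Bool) (Fin N → Bool) K :=
  fun x y => ∑ i, (1 / (N : K)) *
    ((if y = Function.update x i true then p (nbr x i) else 0) +
      (if y = Function.update x i false then 1 - p (nbr x i) else 0))

/-- `π` is a probability distribution. -/
def IsProb (π : (Fin N → Bool) → ℝ) : Prop := (∀ x, 0 ≤ π x) ∧ ∑ x, π x = 1

/-- `π` is a stationary distribution of the chain with parameters `p`. -/
def IsStat (p : Fin 4 → ℝ) (π : (Fin N → Bool) → ℝ) : Prop := IsProb π ∧ π ᵥ* trans p = π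

/-- The chain is ergodic: there is a unique stationary distribution, and the chain converges to it
from every initial distribution. -/
def Ergodic (N : ℕ) [NeZero N] (p : Fin 4 → ℝ) : Prop :=
  ∃ π : (Fin N → Bool) → ℝ, IsStat p π ∧ (∀ π', IsStat p π' → π' = π) ∧
    ∀ ν, IsProb ν → ∀ y, Tendsto (fun n => (ν ᵥ* trans p ^ n) y) atTop (𝓝 (π y))

/-- The mean profit `(1/N) Σ_x π(x) Σ_i (p_{m_i(x)} - q_{m_i(x)})`. -/
def profit {K : Type} [Field K] (p : Fin 4 → K) (π : (Fin N → Bool) → K) : K :=
  (1 / (N : K)) * ∑ x, π x * ∑ i, (p (nbr x i) - (1 - p (nbr x i)))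

end defs

section erg

variable {N : ℕ} [NeZero N]

theorem stoch {p : Fin 4 → ℝ} (hp : ∀ j, 0 < p j ∧ p j < 1) :
    Stoch (trans p : Matrix (Fin N → Bool) (Fin N → Bool) ℝ) := by
  refine ⟨fun x y => ?_, fun x => ?_⟩
  · unfold trans
    refine Finset.sum_nonneg fun i _ => mul_nonneg (by positivity) (add_nonneg ?_ ?_)
    · split_ifs
      · exact (hp _).1.le
      · exact le_rfl
    · split_ifs
      · linarith [(hp (nbr x i)).2]
      · exact le_rfl
  · unfold trans
    rw [Finset.sum_comm]
    simp only [← Finset.mul_sum, Finset.sum_add_distrib, Finset.sum_ite_eq', Finset.mem_univ,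
      if_true, add_sub_cancel]
    rw [Finset.sum_const, Finset.card_univ, Fintype.card_fin]
    have : (N : ℝ) ≠ 0 := by exact_mod_cast NeZero.ne N
    simp [this]

theorem trans_pos {p : Fin 4 → ℝ} (hp : ∀ j, 0 < p j ∧ p j < 1) (x : Fin N → Bool) (i : Fin N)
    (b : Bool) : 0 < trans p x (Function.update x i b) := by
  unfold trans
  have hN : (0 : ℝ) < N := by exact_mod_cast Nat.pos_of_ne_zero (NeZero.ne N)
  have hnn : ∀ j ∈ Finset.univ, 0 ≤ (1 / (N : ℝ)) *
      ((if Function.update x i b = Function.update x j true then p (nbr x j) else 0) +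
      (if Function.update x i b = Function.update x j false then 1 - p (nbr x j) else 0)) := by
    intro j _
    refine mul_nonneg (by positivity) (add_nonneg ?_ ?_)
    · split_ifs
      · exact (hp _).1.le
      · exact le_rfl
    · split_ifs
      · linarith [(hp (nbr x j)).2]
      · exact le_rfl
  refine lt_of_lt_of_le ?_ (Finset.single_le_sum hnn (Finset.mem_univ i))
  have h1 := hp (nbr x i)
  apply mul_pos (by positivity)
  cases b
  · rw [if_pos rfl]
    split_ifs <;> linarith
  · rw [if_pos rfl]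
    split_ifs <;> linarith

/-- `y` on the first `k` coordinates, `x` on the others -/
def mix (x y : Fin N → Bool) (k : ℕ) : Fin N → Bool := fun j => if (j : ℕ) < k then y j else x j

theorem pow_pos {p : Fin 4 → ℝ} (hp : ∀ j, 0 < p j ∧ p j < 1) (x y : Fin N → Bool) :
    0 < (trans p ^ N) x y := by
  have key : ∀ k, k ≤ N → 0 < (trans p ^ k) x (mix x y k) := by
    intro k
    induction k with
    | zero =>
      intro _
      have h0 : mix x y 0 = x := by
        funext j
        simp [mix]
      rw [h0, pow_zero, Matrix.one_apply_eq]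
      exact one_pos
    | succ k ih =>
      intro hk
      have h1 := ih (by omega)
      rw [pow_succ, Matrix.mul_apply]
      have hnn : ∀ z ∈ Finset.univ, 0 ≤ (trans p ^ k) x z * trans p z (mix x y (k + 1)) :=
        fun z _ => mul_nonneg (((stoch hp).pow k).nonneg _ _) ((stoch hp).nonneg _ _)
      refine lt_of_lt_of_le ?_ (Finset.single_le_sum hnn (Finset.mem_univ (mix x y k)))
      apply mul_pos h1
      have h2 : mix x y (k + 1) = Function.update (mix x y k) ⟨k, by omega⟩ (y ⟨k, by omega⟩) := by
        funext j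
        unfold mix
        by_cases hj : j = ⟨k, by omega⟩
        · subst hj
          simp
        · rw [Function.update_of_ne hj]
          have h3 : (j : ℕ) ≠ k := fun h => hj (Fin.ext h)
          by_cases h4 : (j : ℕ) < k
          · rw [if_pos h4, if_pos (by omega)]
          · rw [if_neg h4, if_neg (by omega)]
      rw [h2]
      exact trans_pos hp _ _ _
  have h := key N le_rfl
  have h5 : mix x y N = y := by
    funext j
    simp [mix]
  rwa [h5] at h

/-- a stationary distribution of a chain with parameters in `(0, 1)` is its limit -/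
theorem ergodic_of_stat {p : Fin 4 → ℝ} (hp : ∀ j, 0 < p j ∧ p j < 1)
    {π : (Fin N → Bool) → ℝ} (hπ : IsStat p π) :
    (∀ π', IsStat p π' → π' = π) ∧
    ∀ ν, IsProb ν → ∀ y, Tendsto (fun n => (ν ᵥ* trans p ^ n) y) atTop (𝓝 (π y)) := by
  have hst : ∀ π' : (Fin N → Bool) → ℝ, IsStat p π' → ∀ n : ℕ, π' ᵥ* trans p ^ n = π' := by
    intro π' h n
    induction n with
    | zero => rw [pow_zero, Matrix.vecMul_one]
    | succ n ih => rw [pow_succ, ← Matrix.vecMul_vecMul, ih, h.2]
  have hconv : ∀ ν : (Fin N → Bool) → ℝ, IsProb ν → ∀ y,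
      Tendsto (fun n => (ν ᵥ* trans p ^ n) y) atTop (𝓝 (π y)) := by
    intro ν hν y
    have h1 := tendsto_zero (stoch (N := N) hp) (Nat.pos_of_ne_zero (NeZero.ne N)) (pow_pos hp)
      (ν - π)
      (by simp only [Pi.sub_apply, Finset.sum_sub_distrib, hν.2, hπ.1.2, sub_self]) y
    have h2 : (fun n => ((ν - π) ᵥ* trans p ^ n) y) = fun n => (ν ᵥ* trans p ^ n) y - π y := by
      funext n
      rw [Matrix.sub_vecMul, Pi.sub_apply, hst π hπ n]
    rw [h2] at h1
    have h3 := h1.add_const (π y)
    simp only [sub_add_cancel, zero_add] at h3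
    exact h3
  refine ⟨fun π' h => ?_, hconv⟩
  funext y
  have h1 := hconv π' h.1 y
  simp only [hst π' h] at h1
  exact tendsto_nhds_unique tendsto_const_nhds h1

/-- casting from the rationals -/
theorem trans_cast (p : Fin 4 → ℚ) (x y : Fin N → Bool) :
    ((trans p x y : ℚ) : ℝ) = trans (fun j => (p j : ℝ)) x y := by
  unfold trans
  push_cast
  refine Finset.sum_congr rfl fun i _ => ?_
  congr 1
  congr 1
  · split_ifs <;> simp
  · split_ifs <;> simp

theorem profit_cast (p : Fin 4 → ℚ) (π : (Fin N → Bool) → ℚ) :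
    ((profit p π : ℚ) : ℝ) = profit (fun j => (p j : ℝ)) (fun x => (π x : ℝ)) := by
  unfold profit
  push_cast
  rfl

/-- certificate for stationarity -/
theorem stat_of_cert {p : Fin 4 → ℚ} {w : (Fin N → Bool) → ℚ} (h0 : ∀ x, 0 ≤ w x)
    (h1 : ∑ x, w x = 1) (h2 : ∀ y, ∑ x, w x * trans p x y = w y) :
    IsStat (fun j => (p j : ℝ)) (fun x => (w x : ℝ)) := by
  refine ⟨⟨fun x => ?_, ?_⟩, ?_⟩
  · show (0 : ℝ) ≤ ((w x : ℚ) : ℝ)
    exact_mod_cast h0 x
  · show ∑ x, ((w x : ℚ) : ℝ) = 1
    exact_mod_cast h1
  funext y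
  have h3 := congrArg (fun z : ℚ => (z : ℝ)) (h2 y)
  simp only [Matrix.vecMul, dotProduct]
  rw [← h3]
  push_cast
  refine Finset.sum_congr rfl fun x _ => ?_
  rw [trans_cast]

end erg

end Pool.Agent.V11325.Parrondo
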