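import Pool.Agent.V11325.Ctmc

/-!
# Percolation with constant freezing: the model
-/

open Finset Filter Topology

namespace Pool.Agent.V11325.Pcf

open Pool.Agent.V11325.Ctmc

section model

variable {V E : Type}

/-- A state: `x.1 v = true` when the vertex `v` is warm (and `false` when it is frozen), and
`x.2 e = true` when the edge `e` is open. -/
abbrev State (V E : Type) := (V → Bool) × (E → Bool)

/-- The initial state: all vertices warm, all edges closed. -/
def start : State V E := (fun _ => true, fun _ => false)

/-- `u` and `v` are joined by an open edge (the edge `e` has endpoints `s e` and `t e`). -/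
def OpenStep (s t : E → V) (o : E → Bool) (u v : V) : Prop :=
  ∃ e, o e = true ∧ ((s e = u ∧ t e = v) ∨ (s e = v ∧ t e = u))

/-- The state after the edge `e` has opened. -/
def openEdge [DecidableEq E] (x : State V E) (e : E) : State V E :=
  (x.1, Function.update x.2 e true)

/-- The state after all vertices of `C` have become frozen. -/
def freeze [DecidableEq V] (x : State V E) (C : Finset V) : State V E :=
  (fun v => x.1 v && decide (v ∉ C), x.2)

variable [Fintype V] [DecidableEq V] [Fintype E] [DecidableEq E]

open Classical in
/-- The cluster of `v`: the vertices reached from `v` by open edges. -/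
noncomputable def cluster (s t : E → V) (o : E → Bool) (v : V) : Finset V :=
  univ.filter (fun u => Relation.ReflTransGen (OpenStep s t o) v u)

/-- The set of clusters. -/
noncomputable def clusters (s t : E → V) (o : E → Bool) : Finset (Finset V) :=
  univ.image (cluster s t o)

/-- The contribution to the row `x` of the generator of a jump from `x` to `y` at rate `1`. -/
def jump (x y z : State V E) : ℝ := (if y = z then 1 else 0) - (if x = z then 1 else 0)

/-- The generator of percolation with constant freezing at rate `α` on the graph with edges
`s e - t e`: a closed edge with two warm endpoints opens at rate `1`, every cluster is frozen at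
rate `α`. -/
noncomputable def gen (s t : E → V) (α : ℝ) : Matrix (State V E) (State V E) ℝ := fun x z =>
  (∑ e, if x.2 e = false ∧ x.1 (s e) = true ∧ x.1 (t e) = true then jump x (openEdge x e) z
    else 0) + ∑ C ∈ clusters s t x.2, α * jump x (freeze x C) z

/-- The probability that at time `u` the configuration of open edges is in `A`; the transition
function of the chain is the matrix exponential `exp (u Q)` of its generator `Q`. -/
noncomputable def probAt (s t : E → V) (α : ℝ) (A : Set (E → Bool)) (u : ℝ) : ℝ :=
  ∑ z : State V E, NormedSpace.exp (u • gen s t α) start z * A.indicator (fun _ => 1) z.2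

/-- `p` is the probability `μ(A)` that the final edge configuration is in `A`: the limit, as the
time tends to infinity, of the probability that the current configuration is in `A`. -/
def FinalProb (s t : E → V) (α : ℝ) (A : Set (E → Bool)) (p : ℝ) : Prop :=
  Tendsto (probAt s t α A) atTop (𝓝 p)

theorem sum_jump (x y : State V E) (h : State V E → ℝ) : ∑ z, jump x y z * h z = h y - h x := by
  unfold jump
  simp only [sub_mul, ite_mul, one_mul, zero_mul, Finset.sum_sub_distrib, Finset.sum_ite_eq,
    Finset.mem_univ, if_true]

theorem gen_apply (s t : E → V) (α : ℝ) (h : State V E → ℝ) (x : State V E) :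
    ∑ z, gen s t α x z * h z =
      (∑ e, if x.2 e = false ∧ x.1 (s e) = true ∧ x.1 (t e) = true then
        h (openEdge x e) - h x else 0) + ∑ C ∈ clusters s t x.2, α * (h (freeze x C) - h x) := by
  unfold gen
  simp only [add_mul, Finset.sum_add_distrib, Finset.sum_mul]
  congr 1
  · rw [Finset.sum_comm]
    refine Finset.sum_congr rfl fun e _ => ?_
    split_ifs
    · exact sum_jump _ _ _
    · simp
  · rw [Finset.sum_comm]
    refine Finset.sum_congr rfl fun C _ => ?_
    rw [← sum_jump x (freeze x C) h, Finset.mul_sum]
    exact Finset.sum_congr rfl fun z _ => by ring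

/-- number of warm vertices plus number of closed edges -/
def rk (x : State V E) : ℕ := (univ.filter (fun v => x.1 v = true)).card +
  (univ.filter (fun e => x.2 e = false)).card

theorem rk_open {x : State V E} {e : E} (he : x.2 e = false) : rk (openEdge x e) < rk x := by
  unfold rk openEdge
  apply Nat.add_lt_add_left
  apply Finset.card_lt_card
  refine ⟨?_, ?_⟩
  · intro e'
    simp only [mem_filter, mem_univ, true_and]
    intro h
    by_cases hee : e' = e
    · subst hee
      exact he
    · rwa [Function.update_of_ne hee] at h
  · intro h
    have := h (mem_filter.2 ⟨mem_univ e, he⟩)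
    simp at this

theorem rk_freeze {x : State V E} {C : Finset V} (hne : freeze x C ≠ x) :
    rk (freeze x C) < rk x := by
  unfold rk
  have h1 : (freeze x C).2 = x.2 := rfl
  rw [h1]
  apply Nat.add_lt_add_right
  apply Finset.card_lt_card
  refine ⟨?_, ?_⟩
  · intro v
    simp only [mem_filter, mem_univ, true_and, freeze, Bool.and_eq_true]
    exact fun h => h.1
  · intro h
    apply hne
    refine Prod.ext ?_ rfl
    funext v
    by_cases hv : x.1 v = true
    · have := h (mem_filter.2 ⟨mem_univ v, hv⟩)
      simp only [mem_filter, mem_univ, true_and] at this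
      rw [this, hv]
    · simp only [freeze]
      rw [Bool.not_eq_true] at hv
      rw [hv, Bool.false_and]

theorem openEdge_ne {x : State V E} {e : E} (he : x.2 e = false) : openEdge x e ≠ x := by
  intro h
  have := rk_open he
  rw [h] at this
  exact lt_irrefl _ this

theorem jump_off {x y z : State V E} (hz : z ≠ x) (h : jump x y z ≠ 0) : y = z := by
  unfold jump at h
  rw [if_neg hz.symm, sub_zero] at h
  by_contra hne
  exact h (if_neg hne)

theorem gen_off (s t : E → V) (α : ℝ) {x z : State V E} (hz : z ≠ x) (h : gen s t α x z ≠ 0) :
    rk z < rk x := by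
  unfold gen at h
  by_contra hcon
  apply h
  have h1 : (∑ e, if x.2 e = false ∧ x.1 (s e) = true ∧ x.1 (t e) = true then
      jump x (openEdge x e) z else 0) = 0 := by
    refine Finset.sum_eq_zero fun e _ => ?_
    split_ifs with h2
    · by_contra h3
      have h4 := jump_off hz h3
      rw [← h4] at hcon
      exact hcon (rk_open h2.1)
    · rfl
  have h2 : ∑ C ∈ clusters s t x.2, α * jump x (freeze x C) z = 0 := by
    refine Finset.sum_eq_zero fun C _ => ?_
    by_contra h3
    have h4 := jump_off hz (right_ne_zero_of_mul h3)
    rw [← h4] at hcon hz
    exact hcon (rk_freeze hz)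
  rw [h1, h2, add_zero]

theorem jump_self (x y : State V E) : jump x y x = if y = x then 0 else -1 := by
  unfold jump
  rw [if_pos (rfl : x = x)]
  by_cases h : y = x
  · rw [if_pos h, if_pos h, sub_self]
  · rw [if_neg h, if_neg h, zero_sub]

/-- the diagonal of the generator -/
theorem gen_diag (s t : E → V) {α : ℝ} (hα : 0 < α) (x : State V E) :
    gen s t α x x < 0 ∨ ∀ z, gen s t α x z = 0 := by
  classical
  have hA : ∀ e, (if x.2 e = false ∧ x.1 (s e) = true ∧ x.1 (t e) = true then
      jump x (openEdge x e) x else 0) ≤ 0 := by
    intro e
    split_ifs with h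
    · rw [jump_self, if_neg (openEdge_ne h.1)]
      norm_num
    · exact le_rfl
  have hB : ∀ C ∈ clusters s t x.2, α * jump x (freeze x C) x ≤ 0 := by
    intro C _
    rw [jump_self]
    split_ifs
    · simp
    · linarith
  by_cases h1 : ∃ e, x.2 e = false ∧ x.1 (s e) = true ∧ x.1 (t e) = true
  · left
    obtain ⟨e, he⟩ := h1
    unfold gen
    have h2 : (∑ e, if x.2 e = false ∧ x.1 (s e) = true ∧ x.1 (t e) = true then
        jump x (openEdge x e) x else 0) < 0 := by
      apply Finset.sum_neg' (fun e _ => hA e)
      refine ⟨e, mem_univ e, ?_⟩
      rw [if_pos he, jump_self, if_neg (openEdge_ne he.1)]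
      norm_num
    have h3 : ∑ C ∈ clusters s t x.2, α * jump x (freeze x C) x ≤ 0 :=
      Finset.sum_nonpos hB
    linarith
  · by_cases h2 : ∃ C ∈ clusters s t x.2, freeze x C ≠ x
    · left
      obtain ⟨C, hC, hne⟩ := h2
      unfold gen
      have h2 : (∑ e, if x.2 e = false ∧ x.1 (s e) = true ∧ x.1 (t e) = true then
          jump x (openEdge x e) x else 0) ≤ 0 := Finset.sum_nonpos fun e _ => hA e
      have h3 : ∑ C ∈ clusters s t x.2, α * jump x (freeze x C) x < 0 := by
        apply Finset.sum_neg' hB
        refine ⟨C, hC, ?_⟩
        rw [jump_self, if_neg hne]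
        linarith
      linarith
    · right
      intro z
      unfold gen
      have h3 : (∑ e, if x.2 e = false ∧ x.1 (s e) = true ∧ x.1 (t e) = true then
          jump x (openEdge x e) z else 0) = 0 := by
        refine Finset.sum_eq_zero fun e _ => ?_
        rw [if_neg]
        exact fun h => h1 ⟨e, h⟩
      have h4 : ∑ C ∈ clusters s t x.2, α * jump x (freeze x C) z = 0 := by
        refine Finset.sum_eq_zero fun C hC => ?_
        have h5 : freeze x C = x := by
          by_contra hne
          exact h2 ⟨C, hC, hne⟩
        rw [h5]
        simp [jump]
      rw [h3, h4, add_zero]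

/-- the final probability is given by any harmonic function with the right values at the
absorbing states -/
theorem finalProb_of_harmonic (s t : E → V) {α : ℝ} (hα : 0 < α) (A : Set (E → Bool))
    (h : State V E → ℝ)
    (hharm : ∀ x : State V E, (∑ e, if x.2 e = false ∧ x.1 (s e) = true ∧ x.1 (t e) = true then
        h (openEdge x e) - h x else 0) + ∑ C ∈ clusters s t x.2, α * (h (freeze x C) - h x) = 0)
    (habs : ∀ x : State V E, (∀ v, x.1 v = false) → h x = A.indicator (fun _ => 1) x.2) :
    FinalProb s t α A (h start) := by
  have h1 := absorb (gen s t α) rk Set.univ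
    (fun x _ y hy hne => ⟨gen_off s t α hy hne, Set.mem_univ _⟩)
    (fun x _ => gen_diag s t hα x) (fun z => A.indicator (fun _ => 1) z.2) h
    (fun x _ => by rw [gen_apply]; exact hharm x) ?_ start (Set.mem_univ _)
  · exact h1
  · intro x _ hz
    apply habs
    intro v
    by_contra hv
    rw [Bool.not_eq_false] at hv
    -- the cluster of `v` can still be frozen
    have h2 : gen s t α x x < 0 := by
      classical
      have hA : ∀ e, (if x.2 e = false ∧ x.1 (s e) = true ∧ x.1 (t e) = true then
          jump x (openEdge x e) x else 0) ≤ 0 := by
        intro e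
        split_ifs with h
        · rw [jump_self, if_neg (openEdge_ne h.1)]
          norm_num
        · exact le_rfl
      have hB : ∀ C ∈ clusters s t x.2, α * jump x (freeze x C) x ≤ 0 := by
        intro C _
        rw [jump_self]
        split_ifs
        · simp
        · linarith
      unfold gen
      have h2 : (∑ e, if x.2 e = false ∧ x.1 (s e) = true ∧ x.1 (t e) = true then
          jump x (openEdge x e) x else 0) ≤ 0 := Finset.sum_nonpos fun e _ => hA e
      have h3 : ∑ C ∈ clusters s t x.2, α * jump x (freeze x C) x < 0 := by
        apply Finset.sum_neg' hB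
        refine ⟨cluster s t x.2 v, mem_image_of_mem _ (mem_univ v), ?_⟩
        rw [jump_self, if_neg]
        · linarith
        · intro h4
          have h5 := congrFun (congrArg Prod.fst h4) v
          simp only [freeze, hv, Bool.true_and, decide_eq_true_eq] at h5
          apply h5
          unfold cluster
          simp only [mem_filter, mem_univ, true_and]
          exact Relation.ReflTransGen.refl
      linarith
    rw [hz x] at h2
    exact lt_irrefl _ h2

end model

end Pool.Agent.V11325.Pcf
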