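import Pool.Agent.V11325.PercPeierls

/-!
# Crossings of thin cylinders
-/

namespace Pool.Agent.V11325.Perc

open MeasureTheory Measure Finset

/-! ### Maps between grids -/

section

variable {A B A' B' : Type*} [Add A] [One A] [Add B] [One B] [Add A'] [One A'] [Add B'] [One B']

theorem Opn.map {ω : A' × B' × Bool → Bool} (φ : A → A') (ψ : B → B')
    (hφ : ∀ a, φ (a + 1) = φ a + 1) (hψ : ∀ b, ψ (b + 1) = ψ b + 1) {x y : A × B}
    (h : Opn (fun i => ω (φ i.1, ψ i.2.1, i.2.2)) x y) :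
    Opn ω (φ x.1, ψ x.2) (φ y.1, ψ y.2) := by
  rcases h with ⟨a, b⟩ | ⟨a, b⟩ | ⟨a, b⟩ | ⟨a, b⟩
  · exact Or.inl ⟨by rw [a, hφ], b⟩
  · exact Or.inr (Or.inl ⟨by rw [a, hφ], b⟩)
  · exact Or.inr (Or.inr (Or.inl ⟨by rw [a, hψ], b⟩))
  · exact Or.inr (Or.inr (Or.inr ⟨by rw [a, hψ], b⟩))

theorem Rst.map {ω : A' × B' × Bool → Bool} (φ : A → A') (ψ : B → B')
    (hφ : ∀ a, φ (a + 1) = φ a + 1) (hψ : ∀ b, ψ (b + 1) = ψ b + 1) {S : Set (A × B)}
    {T : Set (A' × B')} (hS : ∀ x ∈ S, (φ x.1, ψ x.2) ∈ T) {x y : A × B}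
    (h : Rst S (fun i => ω (φ i.1, ψ i.2.1, i.2.2)) x y) :
    Rst T ω (φ x.1, ψ x.2) (φ y.1, ψ y.2) := by
  unfold Rst at *
  induction h with
  | refl => exact Relation.ReflTransGen.refl
  | tail _ h2 ih => exact ih.tail ⟨h2.1.map φ ψ hφ hψ, hS _ h2.2.1, hS _ h2.2.2⟩

end

/-! ### The cylinder -/

section

variable {k : ℕ} [NeZero k]

/-- indices of the cylinder -/
abbrev CI (k : ℕ) : Type := ℤ × ZMod k × Bool

/-- columns from `a` to `b` -/
def slab (k : ℕ) (a b : ℤ) : Set (ℤ × ZMod k) := {x | a ≤ x.1 ∧ x.1 ≤ b}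

omit [NeZero k] in
theorem slab_mono {a b c d : ℤ} (h1 : c ≤ a) (h2 : b ≤ d) : slab k a b ⊆ slab k c d :=
  fun _ hx => ⟨h1.trans hx.1, hx.2.trans h2⟩

/-- crossing of the columns `a, …, b` -/
def Cr (k : ℕ) (a b : ℤ) : Set (CI k → Bool) :=
  {ω | ∃ y y', Rst (slab k a b) ω (a, y) (b, y')}

/-- the origin is joined to column `w` inside the columns `0, …, w` -/
def Hk (k : ℕ) (w : ℤ) : Set (CI k → Bool) :=
  {ω | ∃ y, Rst (slab k 0 w) ω (0, 0) (w, y)}

/-- the ring of column `c` is open -/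
def ring1 (k : ℕ) (c : ℤ) : Set (CI k → Bool) := {ω | ∀ j : ZMod k, ω (c, j, true) = true}

/-- one of the columns `a, …, a + w - 1` has an open ring -/
def Rg (k : ℕ) (a : ℤ) (w : ℕ) : Set (CI k → Bool) := {ω | ∃ i < w, ω ∈ ring1 k (a + i)}

/-- the window of indices -/
noncomputable def win (k : ℕ) [NeZero k] (a b : ℤ) : Finset (CI k) :=
  (Finset.Icc a b) ×ˢ ((univ : Finset (ZMod k)) ×ˢ (univ : Finset Bool))

theorem mem_win {a b : ℤ} {i : CI k} : i ∈ win k a b ↔ a ≤ i.1 ∧ i.1 ≤ b := by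
  simp [win]

theorem win_mono {a b c d : ℤ} (h1 : c ≤ a) (h2 : b ≤ d) : win k a b ⊆ win k c d := by
  intro i
  rw [mem_win, mem_win]
  omega

theorem Cr_dep (a b : ℤ) : Dep (win k a b) (Cr k a b) := by
  rintro ω ω' h ⟨y, y', hy⟩
  exact ⟨y, y', hy.dep fun a b c hab => h _ (mem_win.2 hab)⟩

theorem Hk_dep (w : ℤ) : Dep (win k 0 w) (Hk k w) := by
  rintro ω ω' h ⟨y, hy⟩
  exact ⟨y, hy.dep fun a b c hab => h _ (mem_win.2 hab)⟩

theorem ring1_dep {a b c : ℤ} (h1 : a ≤ c) (h2 : c ≤ b) : Dep (win k a b) (ring1 k c) := by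
  intro ω ω' h hω j
  rw [← h _ (mem_win.2 ⟨h1, h2⟩)]
  exact hω j

theorem Rg_dep {a b c : ℤ} {w : ℕ} (h1 : a ≤ c) (h2 : c + w ≤ b + 1) :
    Dep (win k a b) (Rg k c w) := by
  rintro ω ω' h ⟨i, hi, hω⟩
  exact ⟨i, hi, ring1_dep (by omega) (by omega) ω ω' h hω⟩

omit [NeZero k] in
theorem Cr_upper (a b : ℤ) : IsUpperSet (Cr k a b) := by
  rintro ω ω' h ⟨y, y', hy⟩
  exact ⟨y, y', hy.up h⟩

omit [NeZero k] in
theorem Hk_upper (w : ℤ) : IsUpperSet (Hk k w) := by
  rintro ω ω' h ⟨y, hy⟩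
  exact ⟨y, hy.up h⟩

omit [NeZero k] in
theorem ring1_upper (c : ℤ) : IsUpperSet (ring1 k c) := by
  intro ω ω' h hω j
  have := h (c, j, true)
  rw [hω j] at this
  exact top_le_iff.1 this

omit [NeZero k] in
theorem Rg_upper (a : ℤ) (w : ℕ) : IsUpperSet (Rg k a w) := by
  rintro ω ω' h ⟨i, hi, hω⟩
  exact ⟨i, hi, ring1_upper _ h hω⟩

omit [NeZero k] in
theorem Opn_col {ω : CI k → Bool} {x y : ℤ × ZMod k} (h : Opn ω x y) :
    y.1 ≤ x.1 + 1 ∧ x.1 ≤ y.1 + 1 := by
  rcases h with ⟨a, _⟩ | ⟨a, _⟩ | ⟨a, _⟩ | ⟨a, _⟩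
  · have := congrArg Prod.fst a
    simp only at this
    omega
  · have := congrArg Prod.fst a
    simp only at this
    omega
  · have := congrArg Prod.fst a
    simp only at this
    omega
  · have := congrArg Prod.fst a
    simp only at this
    omega

omit [NeZero k] in
/-- a path from the left of column `a` to the right of column `b` crosses `a, …, b` -/
theorem crossing {ω : CI k → Bool} {S : Set (ℤ × ZMod k)} {x y : ℤ × ZMod k} {a b : ℤ}
    (h : Rst S ω x y) (hab : a ≤ b) (hx : x.1 ≤ a) (hy : b ≤ y.1) : ω ∈ Cr k a b := by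
  rcases hab.eq_or_lt with rfl | hlt
  · exact ⟨0, 0, Relation.ReflTransGen.refl⟩
  by_contra hno
  have inv : ∀ z : ℤ × ZMod k, Rst S ω x z → z.1 ≤ a ∨ ∃ u, Rst (slab k a b) ω (a, u) z := by
    intro z hz
    unfold Rst at hz
    induction hz with
    | refl => exact Or.inl hx
    | @tail u v _ huv ih =>
      have hc := Opn_col huv.1
      by_cases hva : v.1 ≤ a
      · exact Or.inl hva
      right
      rcases ih with h1 | ⟨t, ht⟩
      · have h2 : u.1 = a := by omega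
        refine ⟨u.2, ?_⟩
        have h3 : (a, u.2) = u := by rw [← h2]
        rw [h3]
        exact Relation.ReflTransGen.single ⟨huv.1, ⟨by omega, by omega⟩, ⟨by omega, by omega⟩⟩
      · have h4 : u.1 ≠ b := by
          intro h5
          have h7 : (b, u.2) = u := by rw [← h5]
          exact hno ⟨t, u.2, by rw [h7]; exact ht⟩
        have h5 : a ≤ u.1 ∧ u.1 ≤ b := by
          rcases Relation.ReflTransGen.cases_tail ht with h6 | ⟨s, _, h6⟩
          · rw [h6]
            exact ⟨le_rfl, hab⟩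
          · exact h6.2.2
        exact ⟨t, Relation.ReflTransGen.tail ht ⟨huv.1, h5, ⟨by omega, by omega⟩⟩⟩
  rcases inv y h with h1 | ⟨u, hu⟩
  · omega
  · have h5 : y.1 ≤ b := by
      rcases Relation.ReflTransGen.cases_tail hu with h6 | ⟨s, _, h6⟩
      · rw [h6]
        exact hab
      · exact h6.2.2.2
    have h6 : y.1 = b := by omega
    have h7 : (b, y.2) = y := by rw [← h6]
    exact hno ⟨u, y.2, by rw [h7]; exact hu⟩

omit [NeZero k] in
theorem visit {ω : CI k → Bool} {S : Set (ℤ × ZMod k)} {x y : ℤ × ZMod k} {c : ℤ}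
    (h : Rst S ω x y) (hx : x.1 ≤ c) (hy : c ≤ y.1) :
    ∃ j, Rst S ω x (c, j) ∧ Rst S ω (c, j) y := by
  unfold Rst at *
  induction h using Relation.ReflTransGen.head_induction_on with
  | refl =>
    have : y.1 = c := by omega
    refine ⟨y.2, ?_, ?_⟩ <;> rw [← this]
  | @head a b hab hby ih =>
    by_cases hac : a.1 = c
    · refine ⟨a.2, ?_, ?_⟩
      · rw [← hac]
      · rw [← hac]
        exact Relation.ReflTransGen.head hab hby
    · have := Opn_col hab.1
      obtain ⟨j, h1, h2⟩ := ih (by omega)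
      exact ⟨j, Relation.ReflTransGen.head hab h1, h2⟩

theorem ring_conn {ω : CI k → Bool} {S : Set (ℤ × ZMod k)} {c : ℤ} (hω : ω ∈ ring1 k c)
    (hS : ∀ j, (c, j) ∈ S) (y y' : ZMod k) : Rst S ω (c, y) (c, y') := by
  have h1 : ∀ n : ℕ, Rst S ω (c, y) (c, y + n) := by
    intro n
    induction n with
    | zero =>
      simp only [Nat.cast_zero, add_zero]
      exact Relation.ReflTransGen.refl
    | succ n ih =>
      refine Relation.ReflTransGen.tail ih ⟨Or.inr (Or.inr (Or.inl ⟨?_, hω _⟩)), hS _, hS _⟩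
      simp [add_assoc]
  have h2 := h1 (y' - y).val
  rw [ZMod.natCast_zmod_val] at h2
  simpa using h2

theorem glue {ω : CI k → Bool} {a b c d e : ℤ} (h1 : ω ∈ Cr k a b) (h2 : ω ∈ Cr k c d)
    (h3 : ω ∈ ring1 k e) (hac : a ≤ c) (hce : c ≤ e) (heb : e ≤ b) (hbd : b ≤ d) :
    ω ∈ Cr k a d := by
  obtain ⟨y1, y2, h1⟩ := h1
  obtain ⟨y3, y4, h2⟩ := h2
  have h1' := h1.mono (slab_mono (k := k) (le_refl a) hbd)
  have h2' := h2.mono (slab_mono (k := k) hac (le_refl d))
  obtain ⟨j1, h4, _⟩ := visit (c := e) h1' (by simp only; omega) (by simp only; omega)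
  obtain ⟨j2, _, h5⟩ := visit (c := e) h2' (by simp only; omega) (by simp only; omega)
  have hS : ∀ j : ZMod k, ((e, j) : ℤ × ZMod k) ∈ slab k a d := fun j =>
    ⟨by simp only; omega, by simp only; omega⟩
  exact ⟨y1, y4, h4.trans ((ring_conn h3 hS j1 j2).trans h5)⟩

theorem glueH {ω : CI k → Bool} {w L e : ℤ} (h1 : ω ∈ Hk k w) (h2 : ω ∈ Cr k 0 L)
    (h3 : ω ∈ ring1 k e) (he : 0 ≤ e) (hew : e ≤ w) (hwL : w ≤ L) :
    ω ∈ Hk k L := by
  obtain ⟨y2, h1⟩ := h1
  obtain ⟨y3, y4, h2⟩ := h2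
  have h1' := h1.mono (slab_mono (k := k) (le_refl 0) hwL)
  obtain ⟨j1, h4, _⟩ := visit (c := e) h1' (by simp only; omega) (by simp only; omega)
  obtain ⟨j2, _, h5⟩ := visit (c := e) h2 (by simp only; omega) (by simp only; omega)
  have hS : ∀ j : ZMod k, ((e, j) : ℤ × ZMod k) ∈ slab k 0 L := fun j =>
    ⟨by simp only; omega, by simp only; omega⟩
  exact ⟨y4, h4.trans ((ring_conn h3 hS j1 j2).trans h5)⟩

/-! ### Probabilities -/

/-- the parameter -/
noncomputable def p0 : ℝ := 39 / 40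

theorem hp0 : (0 : ℝ) ≤ p0 ∧ p0 ≤ 1 := by unfold p0; norm_num

/-- the law on the cylinder -/
noncomputable abbrev PC (k : ℕ) : Measure (CI k → Bool) := PP (CI k) p0

/-- crossing probability -/
noncomputable def g (k L : ℕ) : ℝ := (PC k).real (Cr k 0 L)

theorem g_nonneg (L : ℕ) : 0 ≤ g k L := measureReal_nonneg

theorem g_le_one (L : ℕ) : g k L ≤ 1 := by
  have := PP_prob (ι := CI k) hp0
  exact measureReal_le_one

theorem g_anti {L L' : ℕ} (h : L ≤ L') : g k L' ≤ g k L := by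
  have := PP_prob (ι := CI k) hp0
  refine measureReal_mono ?_ (measure_ne_top _ _)
  rintro ω ⟨y, y', hy⟩
  exact crossing hy (by omega) (by simp) (by simp only; omega)

theorem Cr_shift (a : ℤ) (L : ℕ) : g k L ≤ (PC k).real (Cr k a (a + L)) := by
  have := PP_prob (ι := CI k) hp0
  unfold g
  rw [← transfer_real hp0 (Cr_dep 0 L) (fun i : CI k => ((i.1 + a, i.2.1, i.2.2) : CI k))]
  · refine measureReal_mono ?_ (measure_ne_top _ _)
    rintro ω ⟨y, y', hy⟩
    have := Rst.map (ω := ω) (fun i : ℤ => i + a) (fun j : ZMod k => j) (fun i => by ring)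
      (fun _ => rfl) (T := slab k a (a + L)) (fun x hx => ⟨?_, ?_⟩) hy
    · refine ⟨y, y', ?_⟩
      simp only [zero_add] at this
      rw [add_comm a]
      rw [add_comm a] at this
      exact this
    · have := hx.1; simp only; omega
    · have := hx.2; simp only; omega
  · intro i _ j _ hij
    simp only [Prod.mk.injEq] at hij
    exact Prod.ext (add_right_cancel hij.1) (Prod.ext hij.2.1 hij.2.2)

theorem ring1_prob (c : ℤ) : (PC k).real (ring1 k c) = p0 ^ k := by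
  have h := prob_all (ι := CI k) hp0 (fun j : ZMod k => (c, j, true))
    (fun a b hab => by simpa using hab) true
  rw [ZMod.card, if_pos rfl] at h
  exact h

theorem Rg_prob (a : ℤ) (w : ℕ) : (PC k).real (Rg k a w) = 1 - (1 - p0 ^ k) ^ w := by
  have := PP_prob (ι := CI k) hp0
  have hd : ∀ n : ℕ, Dep (win k (a + n) (a + n)) ((ring1 k (a + n))ᶜ) := fun n =>
    (ring1_dep le_rfl le_rfl).compl
  have h1 := indep_iInter (ι := CI k) hp0 (J := fun n => win k (a + n) (a + n))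
    (A := fun n => (ring1 k (a + n))ᶜ) (fun i j hij => by
      rw [Finset.disjoint_left]
      intro x hx hx'
      simp only [mem_win] at hx hx'
      omega) hd w
  have h2 : ∀ s ∈ range w, (PP (CI k) p0).real ((ring1 k (a + s))ᶜ) = 1 - p0 ^ k := by
    intro s _
    rw [probReal_compl_eq_one_sub (ring1_dep (a := a + s) (b := a + s) le_rfl le_rfl).measurableSet,
      ring1_prob]
  rw [prod_congr rfl h2, prod_const, card_range] at h1
  have h3 : (Rg k a w)ᶜ = {ω | ∀ s < w, ω ∈ (ring1 k (a + s))ᶜ} := by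
    ext ω
    simp only [Rg, Set.mem_compl_iff, Set.mem_ofPred_eq, not_exists, not_and]
  have h4 := probReal_compl_eq_one_sub (μ := PC k)
    (Rg_dep (k := k) (a := a) (b := a + w) (c := a) (w := w) le_rfl (by omega)).measurableSet
  rw [h3, h1] at h4
  linarith

theorem pow_bound {x : ℝ} (h0 : 0 ≤ x) (h1 : x ≤ 1) (w : ℕ) :
    (1 - x) ^ w * (1 + w * x) ≤ 1 := by
  have h2 : 1 + (w : ℝ) * x ≤ (1 + x) ^ w := one_add_mul_le_pow (by linarith) w
  calc (1 - x) ^ w * (1 + w * x) ≤ (1 - x) ^ w * (1 + x) ^ w :=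
        mul_le_mul_of_nonneg_left h2 (pow_nonneg (by linarith) _)
    _ = ((1 - x) * (1 + x)) ^ w := by rw [mul_pow]
    _ ≤ 1 := pow_le_one₀ (by nlinarith) (by nlinarith)

/-- rings exist -/
theorem Rg_lower (a : ℤ) : 1 - 1 / (1 + (39 / 20 : ℝ) ^ k) ≤ (PC k).real (Rg k a (2 ^ k)) := by
  rw [Rg_prob]
  have h1 := pow_bound (x := p0 ^ k) (pow_nonneg hp0.1 k) (pow_le_one₀ hp0.1 hp0.2) (2 ^ k)
  have h2 : ((2 ^ k : ℕ) : ℝ) * p0 ^ k = (39 / 20) ^ k := by
    push_cast
    rw [← mul_pow]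
    unfold p0
    norm_num
  rw [h2] at h1
  have h3 : (0 : ℝ) < 1 + (39 / 20) ^ k := by positivity
  have h4 : (1 - p0 ^ k) ^ (2 ^ k) ≤ 1 / (1 + (39 / 20 : ℝ) ^ k) := by
    rw [le_div_iff₀ h3]
    exact h1
  linarith

theorem Rg_half (a : ℤ) : 1 / 2 ≤ (PC k).real (Rg k a (2 ^ k)) := by
  refine le_trans ?_ (Rg_lower a)
  have h3 : (1 : ℝ) ≤ (39 / 20) ^ k := one_le_pow₀ (by norm_num)
  have h4 : 1 / (1 + (39 / 20 : ℝ) ^ k) ≤ 1 / 2 := by
    apply one_div_le_one_div_of_le <;> linarith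
  linarith

/-- the gluing inequality -/
theorem gluing {A B : ℕ} (hA : 2 ^ k ≤ A) (hB : 2 ^ k ≤ B) :
    g k A * g k B * (1 - 1 / (1 + (39 / 20 : ℝ) ^ k)) ≤ g k (A + B - 2 ^ k) := by
  have := PP_prob (ι := CI k) hp0
  set w : ℕ := 2 ^ k with hw
  set a : ℤ := (A : ℤ) - w with ha
  have ha0 : 0 ≤ a := by omega
  have e1 : ((A + B - w : ℕ) : ℤ) = a + B := by
    rw [Nat.cast_sub (by omega)]
    push_cast
    omega
  set D : ℤ := a + B with hD
  have d1 : Dep (win k 0 D) (Cr k 0 A) := (Cr_dep 0 A).mono (win_mono le_rfl (by omega))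
  have d2 : Dep (win k 0 D) (Cr k a (a + B)) := (Cr_dep a (a + B)).mono (win_mono ha0 (by omega))
  have d3 : Dep (win k 0 D) (Rg k a w) := Rg_dep ha0 (by omega)
  have f1 := fkg_up hp0 (Cr_upper (k := k) 0 A) (Cr_upper (k := k) a (a + B)) d1 d2
  have f2 := fkg_up hp0 ((Cr_upper (k := k) 0 A).inter (Cr_upper (k := k) a (a + B)))
    (Rg_upper (k := k) a w) (d1.inter d2) d3
  have hsub : Cr k 0 A ∩ Cr k a (a + B) ∩ Rg k a w ⊆ Cr k 0 D := by
    rintro ω ⟨⟨h1, h2⟩, ⟨i, hi, h3⟩⟩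
    exact glue h1 h2 h3 ha0 (by omega) (by omega) (by omega)
  have h1 := measureReal_mono hsub (measure_ne_top (PC k) _)
  have h2 : g k (A + B - w) = (PC k).real (Cr k 0 D) := by
    unfold g
    rw [e1]
  rw [h2]
  refine le_trans ?_ (f2.trans h1)
  have h3 : 0 ≤ 1 - 1 / (1 + (39 / 20 : ℝ) ^ k) := by
    have h3 : (0 : ℝ) < (39 / 20) ^ k := by positivity
    rw [sub_nonneg, div_le_one (by linarith)]
    linarith
  refine mul_le_mul ?_ (Rg_lower a) h3 measureReal_nonneg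
  refine le_trans ?_ f1
  exact mul_le_mul_of_nonneg_left (Cr_shift a B) measureReal_nonneg

/-- Peierls: the origin is joined to distance `w` -/
theorem Hk_prob {w : ℕ} (hw : (w : ℝ) ≤ 10 ^ k / 8) : 3 / 4 ≤ (PC k).real (Hk k w) := by
  have := PP_prob (ι := CI k) hp0
  have hk : 0 < k := Nat.pos_of_ne_zero (NeZero.ne k)
  refine (goodS_prob hk hw).trans ?_
  have e := transfer_real (p := p0) hp0 (goodS_dep w k)
    (fun i : ℤ × ℤ × Bool => ((i.1, (i.2.1 : ZMod k), i.2.2) : CI k)) (by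
      intro i hi j hj hij
      simp only [stripIdx, coe_product, Set.mem_prod, coe_Icc, Set.mem_Icc, coe_Ico,
        Set.mem_Ico, coe_univ, Set.mem_univ, and_true] at hi hj
      simp only [Prod.mk.injEq] at hij
      refine Prod.ext hij.1 (Prod.ext ?_ hij.2.2)
      have h1 := (ZMod.intCast_eq_intCast_iff _ _ _).1 hij.2.1
      have h2 := Int.emod_emod_of_dvd
      have h3 : i.2.1 % k = j.2.1 % k := h1
      rwa [Int.emod_eq_of_lt hi.2.1 hi.2.2, Int.emod_eq_of_lt hj.2.1 hj.2.2] at h3)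
  have e' : (PP (ℤ × ℤ × Bool) (39 / 40)).real (goodS w k) =
    (PP (ℤ × ℤ × Bool) p0).real (goodS w k) := rfl
  rw [e', ← e]
  refine measureReal_mono ?_ (measure_ne_top _ _)
  rintro ω ⟨y, hy⟩
  have := Rst.map (ω := ω) (fun i : ℤ => i) (fun j : ℤ => (j : ZMod k)) (fun i => rfl)
      (fun _ => by push_cast; rfl) (T := slab k 0 w) (fun x hx => ⟨hx.1, hx.2.1⟩) hy
  exact ⟨(y : ZMod k), by simpa using this⟩

theorem Cr_gap {ω : CI k → Bool} {L : ℕ} (h : ω ∈ Cr k 0 L) {c : ℕ} (hc : c < L) :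
    ∃ j : ZMod k, ω ((c : ℤ), j, false) = true := by
  by_contra hno
  push Not at hno
  obtain ⟨y, y', hy⟩ := h
  have inv : ∀ z : ℤ × ZMod k, Rst (slab k 0 L) ω (0, y) z → z.1 ≤ c := by
    intro z hz
    unfold Rst at hz
    induction hz with
    | refl => simp
    | @tail u v _ huv ih =>
      rcases huv.1 with ⟨a, b⟩ | ⟨a, b⟩ | ⟨a, b⟩ | ⟨a, b⟩
      · by_contra hv
        have h1 := congrArg Prod.fst a
        simp only at h1
        have h2 : u.1 = c := by omega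
        rw [h2] at b
        exact hno _ b
      · have h1 := congrArg Prod.fst a
        simp only at h1
        omega
      · have h1 := congrArg Prod.fst a
        simp only at h1
        omega
      · have h1 := congrArg Prod.fst a
        simp only at h1
        omega
  have := inv _ hy
  simp only at this
  omega

theorem g_exp (L : ℕ) : g k L ≤ (1 - (1 - p0) ^ k) ^ L := by
  have := PP_prob (ι := CI k) hp0
  have hA : ∀ c : ℕ, Dep (win k (c : ℤ) c) {ω : CI k → Bool | ∃ j : ZMod k, ω ((c : ℤ), j, false) = true} := by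
    rintro c ω ω' h ⟨j, hj⟩
    exact ⟨j, by rw [← h _ (mem_win.2 ⟨le_rfl, le_rfl⟩)]; exact hj⟩
  have h1 := indep_iInter (ι := CI k) hp0 (J := fun n => win k (n : ℤ) n)
    (A := fun c => {ω : CI k → Bool | ∃ j : ZMod k, ω ((c : ℤ), j, false) = true}) (fun i j hij => by
      rw [Finset.disjoint_left]
      intro x hx hx'
      simp only [mem_win] at hx hx'
      omega) hA L
  have h2 : ∀ s ∈ range L, (PP (CI k) p0).real
      {ω : CI k → Bool | ∃ j : ZMod k, ω ((s : ℤ), j, false) = true} = 1 - (1 - p0) ^ k := by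
    intro s _
    have h3 := probReal_compl_eq_one_sub (μ := PC k) (hA s).measurableSet
    have h4 : {ω : CI k → Bool | ∃ j : ZMod k, ω ((s : ℤ), j, false) = true}ᶜ =
        {ω | ∀ j : ZMod k, ω ((s : ℤ), j, false) = false} := by
      ext ω
      simp
    have h5 := prob_all (ι := CI k) hp0 (fun j : ZMod k => ((s : ℤ), j, false))
      (fun a b hab => by simpa using hab) false
    rw [ZMod.card] at h5
    rw [h4, h5] at h3
    simp only [Bool.false_eq_true, if_false] at h3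
    linarith
  rw [prod_congr rfl h2, prod_const, card_range] at h1
  rw [← h1]
  refine measureReal_mono ?_ (measure_ne_top _ _)
  intro ω hω c hc
  exact Cr_gap hω hc

end

end Pool.Agent.V11325.Perc
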