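import Pool.Agent.V11325.ParkProb

/-!
# Bernoulli product measures: events depending on finitely many coordinates, Harris inequality
-/

namespace Pool.Agent.V11325.Perc

open MeasureTheory Measure Finset
open Pool.Agent.TH996.Park Pool.Agent.V11325.Park

/-- the product Bernoulli law on `ι → Bool`: coordinates are independent, `true` with
probability `p` -/
noncomputable def PP (ι : Type*) (p : ℝ) : Measure (ι → Bool) := infinitePi fun _ : ι => bern p

/-- the event depends only on the coordinates in `J` -/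
def Dep {ι : Type*} (J : Finset ι) (A : Set (ι → Bool)) : Prop :=
  ∀ ω ω' : ι → Bool, (∀ j ∈ J, ω j = ω' j) → ω ∈ A → ω' ∈ A

section

variable {ι κ : Type*}

theorem PP_prob {p : ℝ} (hp : 0 ≤ p ∧ p ≤ 1) : IsProbabilityMeasure (PP ι p) := by
  have := bern_prob hp.1 hp.2
  unfold PP
  infer_instance

theorem Dep.iff {J : Finset ι} {A : Set (ι → Bool)} (h : Dep J A) {ω ω' : ι → Bool}
    (he : ∀ j ∈ J, ω j = ω' j) : ω ∈ A ↔ ω' ∈ A :=
  ⟨h ω ω' he, h ω' ω fun j hj => (he j hj).symm⟩

theorem Dep.mono {J K : Finset ι} {A : Set (ι → Bool)} (h : Dep J A) (hJ : J ⊆ K) : Dep K A :=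
  fun ω ω' he => h ω ω' fun j hj => he j (hJ hj)

theorem Dep.inter {J : Finset ι} {A B : Set (ι → Bool)} (hA : Dep J A) (hB : Dep J B) :
    Dep J (A ∩ B) := fun ω ω' he h => ⟨hA ω ω' he h.1, hB ω ω' he h.2⟩

theorem Dep.compl {J : Finset ι} {A : Set (ι → Bool)} (hA : Dep J A) : Dep J Aᶜ :=
  fun ω ω' he h h' => h ((hA.iff he).2 h')

open Classical in
/-- extension by `false` -/
noncomputable def ext0 (J : Finset ι) (x : J → Bool) : ι → Bool :=
  fun i => if h : i ∈ J then x ⟨i, h⟩ else false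

theorem ext0_mem (J : Finset ι) (x : J → Bool) {i : ι} (h : i ∈ J) : ext0 J x i = x ⟨i, h⟩ :=
  dif_pos h

theorem ext0_mono (J : Finset ι) {x y : J → Bool} (h : x ≤ y) : ext0 J x ≤ ext0 J y := by
  intro i
  by_cases hi : i ∈ J
  · rw [ext0_mem J x hi, ext0_mem J y hi]
    exact h _
  · simp [ext0, hi]

/-- the trace of an event -/
def tr (J : Finset ι) (A : Set (ι → Bool)) : Set (J → Bool) := {x | ext0 J x ∈ A}

theorem mem_iff_tr {J : Finset ι} {A : Set (ι → Bool)} (h : Dep J A) (ω : ι → Bool) :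
    ω ∈ A ↔ (fun j : J => ω j) ∈ tr J A :=
  h.iff fun j hj => by rw [ext0_mem J _ hj]

theorem tr_upper {J : Finset ι} {A : Set (ι → Bool)} (h : IsUpperSet A) : IsUpperSet (tr J A) :=
  fun _ _ hxy hx => h (ext0_mono J hxy) hx

theorem measurable_of_fin {J : Finset ι} (S : Set (J → Bool)) : MeasurableSet S :=
  S.toFinite.measurableSet

theorem Dep.measurableSet {J : Finset ι} {A : Set (ι → Bool)} (h : Dep J A) :
    MeasurableSet A := by
  have h1 : A = (fun (ω : ι → Bool) (j : J) => ω j) ⁻¹' tr J A := by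
    ext ω
    exact mem_iff_tr h ω
  rw [h1]
  exact (measurable_pi_lambda _ fun j => measurable_pi_apply _) (measurable_of_fin _)

theorem transfer_tr {p : ℝ} (hp : 0 ≤ p ∧ p ≤ 1) {J : Finset ι} {A : Set (ι → Bool)}
    (h : Dep J A) (e : ι → κ) (he : Set.InjOn e J) :
    (PP κ p) {ω | (fun i => ω (e i)) ∈ A} = (PP J p) (tr J A) := by
  have := bern_prob hp.1 hp.2
  have hinj : Function.Injective (fun j : J => e j) := fun a b hab =>
    Subtype.ext (he a.2 b.2 hab)
  have h1 := map_reindex (fun _ : κ => bern p) (fun j : J => e j) hinj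
  unfold PP
  rw [← h1, map_apply (measurable_pi_lambda _ fun j => measurable_pi_apply _)
    (measurable_of_fin _)]
  congr 1
  ext ω
  exact mem_iff_tr h _

theorem transfer {p : ℝ} (hp : 0 ≤ p ∧ p ≤ 1) {J : Finset ι} {A : Set (ι → Bool)}
    (h : Dep J A) (e : ι → κ) (he : Set.InjOn e J) :
    (PP κ p) {ω | (fun i => ω (e i)) ∈ A} = (PP ι p) A := by
  rw [transfer_tr hp h e he, ← transfer_tr hp h (fun i => i) (Set.injOn_id _)]
  rfl

theorem transfer_real {p : ℝ} (hp : 0 ≤ p ∧ p ≤ 1) {J : Finset ι} {A : Set (ι → Bool)}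
    (h : Dep J A) (e : ι → κ) (he : Set.InjOn e J) :
    (PP κ p).real {ω | (fun i => ω (e i)) ∈ A} = (PP ι p).real A := by
  unfold Measure.real
  rw [transfer hp h e he]

/-- the weight of a configuration -/
noncomputable def wt [Fintype ι] (p : ℝ) (x : ι → Bool) : ℝ :=
  ∏ i, if x i = true then p else 1 - p

theorem bern_real {p : ℝ} (hp : 0 ≤ p ∧ p ≤ 1) (b : Bool) :
    bern p {b} = ENNReal.ofReal (if b = true then p else 1 - p) := by
  cases b <;> simp [bern]

theorem PP_singleton [Fintype ι] {p : ℝ} (hp : 0 ≤ p ∧ p ≤ 1) (x : ι → Bool) :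
    (PP ι p).real {x} = wt p x := by
  classical
  have := bern_prob hp.1 hp.2
  have h1 : ({x} : Set (ι → Bool)) = ((univ : Finset ι) : Set ι).pi fun i => {x i} := by
    ext y
    simp [funext_iff]
  unfold PP Measure.real
  rw [h1, infinitePi_pi _ (fun i _ => measurableSet_singleton _)]
  simp_rw [bern_real hp]
  rw [← ENNReal.ofReal_prod_of_nonneg, ENNReal.toReal_ofReal]
  · rfl
  · exact prod_nonneg fun i _ => by split_ifs <;> linarith [hp.1, hp.2]
  · intro i _
    split_ifs <;> linarith [hp.1, hp.2]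

theorem wt_nonneg [Fintype ι] {p : ℝ} (hp : 0 ≤ p ∧ p ≤ 1) (x : ι → Bool) : 0 ≤ wt p x :=
  prod_nonneg fun i _ => by split_ifs <;> linarith [hp.1, hp.2]

theorem PP_eq_sum [Fintype ι] {p : ℝ} (hp : 0 ≤ p ∧ p ≤ 1) (S : Set (ι → Bool)) :
    (PP ι p).real S = by classical exact ∑ x, wt p x * (if x ∈ S then 1 else 0) := by
  classical
  have := PP_prob (ι := ι) hp
  have h1 : ((univ.filter fun x => x ∈ S : Finset (ι → Bool)) : Set (ι → Bool)) = S := by
    ext x
    rw [Finset.mem_coe, Finset.mem_filter]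
    exact ⟨fun h => h.2, fun h => ⟨Finset.mem_univ x, h⟩⟩
  conv_lhs => rw [← h1, ← sum_measureReal_singleton]
  simp only [PP_singleton hp, mul_ite, mul_one, mul_zero]
  rw [← Finset.sum_filter]

theorem fkg_fin {p : ℝ} [Fintype ι] (hp : 0 ≤ p ∧ p ≤ 1) {A B : Set (ι → Bool)}
    (hA : IsUpperSet A) (hB : IsUpperSet B) :
    (PP ι p).real A * (PP ι p).real B ≤ (PP ι p).real (A ∩ B) := by
  classical
  have := PP_prob (ι := ι) hp
  have hone : (PP ι p).real Set.univ = 1 := by simp
  have hmono : ∀ {S : Set (ι → Bool)}, IsUpperSet S →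
      Monotone (fun x => if x ∈ S then (1 : ℝ) else 0) := by
    intro S hS x y hxy
    by_cases hx : x ∈ S
    · simp [hx, hS hxy hx]
    · simp only [hx, if_false]
      split_ifs <;> norm_num
  have key := fkg (μ := wt (ι := ι) p) (f := fun x => if x ∈ A then (1 : ℝ) else 0)
    (g := fun x => if x ∈ B then (1 : ℝ) else 0) (fun x => wt_nonneg hp x)
    (fun x => by dsimp only [Pi.zero_apply]; split_ifs <;> norm_num)
    (fun x => by dsimp only [Pi.zero_apply]; split_ifs <;> norm_num)
    (hmono hA) (hmono hB) (by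
      intro a b
      apply le_of_eq
      unfold wt
      rw [← prod_mul_distrib, ← prod_mul_distrib]
      refine prod_congr rfl fun i _ => ?_
      simp only [Pi.inf_apply, Pi.sup_apply]
      have hb : ∀ u v : Bool, ((if u = true then p else 1 - p) * if v = true then p else 1 - p) =
          (if (u ⊓ v) = true then p else 1 - p) * if (u ⊔ v) = true then p else 1 - p := by
        intro u v
        cases u <;> cases v <;> simp [mul_comm]
      exact hb (a i) (b i))
  have e1 : ∑ x, wt (ι := ι) p x = 1 := by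
    rw [← hone, PP_eq_sum hp]
    simp
  rw [e1, one_mul] at key
  rw [PP_eq_sum hp A, PP_eq_sum hp B, PP_eq_sum hp (A ∩ B)]
  refine key.trans (le_of_eq (sum_congr rfl fun x _ => ?_))
  by_cases h1 : x ∈ A <;> by_cases h2 : x ∈ B <;> simp [h1, h2]

theorem real_eq_tr {p : ℝ} (hp : 0 ≤ p ∧ p ≤ 1) {J : Finset ι} {A : Set (ι → Bool)}
    (h : Dep J A) : (PP ι p).real A = (PP J p).real (tr J A) := by
  have := transfer_tr hp h (fun i => i) (Set.injOn_id _)
  unfold Measure.real
  rw [← this]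
  rfl

/-- Harris' inequality for increasing events depending on finitely many coordinates -/
theorem fkg_up {p : ℝ} (hp : 0 ≤ p ∧ p ≤ 1) {J : Finset ι} {A B : Set (ι → Bool)}
    (hA : IsUpperSet A) (hB : IsUpperSet B) (dA : Dep J A) (dB : Dep J B) :
    (PP ι p).real A * (PP ι p).real B ≤ (PP ι p).real (A ∩ B) := by
  rw [real_eq_tr hp dA, real_eq_tr hp dB, real_eq_tr hp (dA.inter dB)]
  exact fkg_fin hp (tr_upper hA) (tr_upper hB)

theorem fkg_low {p : ℝ} (hp : 0 ≤ p ∧ p ≤ 1) {J : Finset ι} {A B : Set (ι → Bool)}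
    (hA : IsLowerSet A) (hB : IsLowerSet B) (dA : Dep J A) (dB : Dep J B) :
    (PP ι p).real A * (PP ι p).real B ≤ (PP ι p).real (A ∩ B) := by
  have := PP_prob (ι := ι) hp
  have h1 := fkg_up hp hA.compl hB.compl dA.compl dB.compl
  have mA := dA.measurableSet
  have mB := dB.measurableSet
  have h2 : Aᶜ ∩ Bᶜ = (A ∪ B)ᶜ := by
    ext x
    simp
  rw [h2, probReal_compl_eq_one_sub mA, probReal_compl_eq_one_sub mB,
    probReal_compl_eq_one_sub (mA.union mB)] at h1
  have h3 := measureReal_union_add_inter (μ := PP ι p) (s := A) mB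
  nlinarith

theorem low_iInter {p q : ℝ} (hp : 0 ≤ p ∧ p ≤ 1) (hq : 0 ≤ q) {J : Finset ι}
    {A : ℕ → Set (ι → Bool)}
    (hA : ∀ n, IsLowerSet (A n)) (n : ℕ) (dA : ∀ s < n, Dep J (A s))
    (h : ∀ s < n, q ≤ (PP ι p).real (A s)) :
    q ^ n ≤ (PP ι p).real {ω | ∀ s < n, ω ∈ A s} := by
  have := PP_prob (ι := ι) hp
  induction n with
  | zero => simp
  | succ n ih =>
    have e : {ω : ι → Bool | ∀ s < n + 1, ω ∈ A s} = {ω | ∀ s < n, ω ∈ A s} ∩ A n := by
      ext ω
      simp only [Set.mem_ofPred_eq, Set.mem_inter_iff]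
      constructor
      · intro h1
        exact ⟨fun s hs => h1 s (by omega), h1 n (by omega)⟩
      · rintro ⟨h1, h2⟩ s hs
        rcases Nat.lt_succ_iff_lt_or_eq.1 hs with h3 | h3
        · exact h1 s h3
        · exact h3 ▸ h2
    rw [e, pow_succ]
    have ih' := ih (fun s hs => dA s (by omega)) (fun s hs => h s (by omega))
    have hl : IsLowerSet {ω : ι → Bool | ∀ s < n, ω ∈ A s} := by
      intro x y hxy hx s hs
      exact hA s hxy (hx s hs)
    have dl : Dep J {ω : ι → Bool | ∀ s < n, ω ∈ A s} := by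
      intro x y hxy hx s hs
      exact dA s (by omega) x y hxy (hx s hs)
    refine le_trans ?_ (fkg_low hp hl (hA n) dl (dA n (by omega)))
    exact mul_le_mul ih' (h n (by omega)) hq measureReal_nonneg

theorem BM.ind {Ω : Type*} [MeasurableSpace Ω] {A : Set Ω} (h : MeasurableSet A) :
    BM (A.indicator (fun _ => (1 : ℝ))) := by
  refine ⟨measurable_const.indicator h, 1, fun ω => ?_⟩
  by_cases hω : ω ∈ A <;> simp [hω]

/-- independence -/
theorem indep2 {p : ℝ} (hp : 0 ≤ p ∧ p ≤ 1) {J K : Finset ι} {A B : Set (ι → Bool)}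
    (hJK : Disjoint J K) (dA : Dep J A) (dB : Dep K B) :
    (PP ι p).real (A ∩ B) = (PP ι p).real A * (PP ι p).real B := by
  classical
  have := bern_prob hp.1 hp.2
  have mA := dA.measurableSet
  have mB := dB.measurableSet
  have key := (resamp_pw (fun _ : ι => bern p) (K : Set ι)).integral_mul (BM.ind mA) (BM.ind mB)
    (B.indicator (fun _ => (1 : ℝ))) (by
      intro x y
      have h1 : pw (K : Set ι) x y ∈ A ↔ x ∈ A := dA.iff fun j hj =>
        pw_notMem (fun hk => Finset.disjoint_left.1 hJK hj (by simpa using hk))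
      by_cases hx : x ∈ A
      · simp [hx, h1.2 hx]
      · simp [hx, h1]) (by
      intro x y
      have h1 : pw (K : Set ι) x y ∈ B ↔ y ∈ B := dB.iff fun j hj =>
        pw_mem (by simpa using hj)
      by_cases hx : y ∈ B
      · simp [hx, h1.2 hx]
      · simp [hx, h1])
  have e : (fun ω : ι → Bool => A.indicator (fun _ => (1 : ℝ)) ω * B.indicator (fun _ => (1 : ℝ)) ω)
      = (A ∩ B).indicator (fun _ => (1 : ℝ)) := by
    funext ω
    by_cases h1 : ω ∈ A <;> by_cases h2 : ω ∈ B <;> simp [h1, h2]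
  rw [e] at key
  have e1 : ∀ S : Set (ι → Bool), MeasurableSet S →
      ∫ ω, S.indicator (fun _ => (1 : ℝ)) ω ∂(infinitePi fun _ : ι => bern p) =
        (PP ι p).real S := by
    intro S hS
    rw [integral_indicator hS]
    simp [PP]
  rw [e1 _ (mA.inter mB), e1 _ mA, e1 _ mB] at key
  exact key

theorem indep_iInter {p : ℝ} (hp : 0 ≤ p ∧ p ≤ 1) {J : ℕ → Finset ι}
    {A : ℕ → Set (ι → Bool)} (hJ : ∀ a b, a ≠ b → Disjoint (J a) (J b))
    (dA : ∀ n, Dep (J n) (A n)) (n : ℕ) :
    (PP ι p).real {ω | ∀ s < n, ω ∈ A s} = ∏ s ∈ range n, (PP ι p).real (A s) := by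
  classical
  have := PP_prob (ι := ι) hp
  induction n with
  | zero => simp
  | succ n ih =>
    have e : {ω : ι → Bool | ∀ s < n + 1, ω ∈ A s} = {ω | ∀ s < n, ω ∈ A s} ∩ A n := by
      ext ω
      simp only [Set.mem_ofPred_eq, Set.mem_inter_iff]
      constructor
      · intro h1
        exact ⟨fun s hs => h1 s (by omega), h1 n (by omega)⟩
      · rintro ⟨h1, h2⟩ s hs
        rcases Nat.lt_succ_iff_lt_or_eq.1 hs with h3 | h3
        · exact h1 s h3
        · exact h3 ▸ h2
    have dl : Dep ((range n).biUnion J) {ω : ι → Bool | ∀ s < n, ω ∈ A s} := by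
      intro x y hxy hx s hs
      refine dA s x y (fun j hj => hxy j ?_) (hx s hs)
      simp only [mem_biUnion, mem_range]
      exact ⟨s, hs, hj⟩
    rw [e, indep2 hp (J := (range n).biUnion J) (K := J n) ?_ dl (dA n), ih, prod_range_succ]
    rw [Finset.disjoint_biUnion_left]
    intro i hi
    exact hJ i n (by have := mem_range.1 hi; omega)

/-- finitely many prescribed coordinates -/
theorem prob_all {p : ℝ} (hp : 0 ≤ p ∧ p ≤ 1) {α : Type*} [Fintype α] (e : α → ι)
    (he : Function.Injective e) (b : Bool) :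
    (PP ι p).real {ω | ∀ a, ω (e a) = b} = (if b = true then p else 1 - p) ^ Fintype.card α := by
  classical
  have := bern_prob hp.1 hp.2
  have h1 : {ω : ι → Bool | ∀ a, ω (e a) = b} =
      ((univ.image e : Finset ι) : Set ι).pi fun _ => {b} := by
    ext ω
    simp
  unfold PP Measure.real
  rw [h1, infinitePi_pi _ (fun i _ => measurableSet_singleton _)]
  rw [prod_const, card_image_of_injective _ he, card_univ, bern_real hp, ENNReal.toReal_pow,
    ENNReal.toReal_ofReal]
  split_ifs <;> linarith [hp.1, hp.2]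

end

end Pool.Agent.V11325.Perc
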