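import Pool.Agent.V11325.PercCyl

/-!
# The critical length of the cylinder
-/

namespace Pool.Agent.V11325.Perc

open MeasureTheory Measure Finset Filter

section

variable {k : ℕ} [NeZero k]

theorem g_zero : g k 0 = 1 := by
  have := PP_prob (ι := CI k) hp0
  have h : Cr k 0 ((0 : ℕ) : ℤ) = Set.univ := by
    ext ω
    simp only [Set.mem_univ, iff_true]
    exact ⟨0, 0, Relation.ReflTransGen.refl⟩
  unfold g
  rw [h]
  simp

variable (k) in
theorem exists_L : ∃ L, g k (L + 1) < 1 / 2 := by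
  have h1 : (1 - (1 - p0) ^ k : ℝ) < 1 := by
    have : (0 : ℝ) < (1 - p0) ^ k := pow_pos (by unfold p0; norm_num) k
    linarith
  have h0 : (0 : ℝ) ≤ 1 - (1 - p0) ^ k := by
    have : (1 - p0) ^ k ≤ 1 := pow_le_one₀ (by unfold p0; norm_num) (by unfold p0; norm_num)
    linarith
  obtain ⟨n, hn⟩ := exists_pow_lt_of_lt_one (show (0 : ℝ) < 1 / 2 by norm_num) h1
  refine ⟨n, lt_of_le_of_lt (g_exp (n + 1)) ?_⟩
  refine lt_of_le_of_lt ?_ hn
  exact pow_le_pow_of_le_one h0 h1.le (Nat.le_succ n)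

variable (k) in
open Classical in
/-- the critical length -/
noncomputable def Lk : ℕ := Nat.find (exists_L k)

theorem Lk_spec : g k (Lk k + 1) < 1 / 2 := by
  classical
  exact Nat.find_spec (exists_L k)

theorem Lk_half : 1 / 2 ≤ g k (Lk k) := by
  classical
  rcases Nat.eq_zero_or_pos (Lk k) with h | h
  · rw [h, g_zero]
    norm_num
  · have := Nat.find_min (exists_L k) (m := Lk k - 1) (by
      have : Lk k = Nat.find (exists_L k) := by unfold Lk; congr
      omega)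
    rw [not_lt] at this
    rwa [show Lk k - 1 + 1 = Lk k by omega] at this

theorem Lk_large {N : ℕ} (hN : (N : ℝ) ≤ 10 ^ k / 8) : N ≤ Lk k := by
  by_contra hlt
  push Not at hlt
  have h1 : g k N ≤ g k (Lk k + 1) := g_anti (by omega)
  have h2 := Lk_spec (k := k)
  have h3 : 3 / 4 ≤ g k N := by
    have := PP_prob (ι := CI k) hp0
    refine (Hk_prob hN).trans (measureReal_mono ?_ (measure_ne_top _ _))
    rintro ω ⟨y, hy⟩
    exact ⟨0, y, hy⟩
  linarith

/-- the origin is joined to distance `Lk` with probability bounded below -/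
theorem Hk_Lk (h : ((2 ^ k : ℕ) : ℝ) ≤ 10 ^ k / 8) : 3 / 16 ≤ (PC k).real (Hk k (Lk k)) := by
  have := PP_prob (ι := CI k) hp0
  have hw := Lk_large h
  set w : ℕ := 2 ^ k with hwdef
  set L : ℕ := Lk k with hL
  have d1 : Dep (win k 0 L) (Hk k w) := (Hk_dep (k := k) w).mono (win_mono le_rfl (by omega))
  have d2 : Dep (win k 0 L) (Rg k 0 w) := Rg_dep le_rfl (by omega)
  have d3 : Dep (win k 0 L) (Cr k 0 L) := Cr_dep 0 L
  have f1 := fkg_up hp0 (Hk_upper (k := k) w) (Rg_upper (k := k) 0 w) d1 d2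
  have f2 := fkg_up hp0 ((Hk_upper (k := k) w).inter (Rg_upper (k := k) 0 w))
    (Cr_upper (k := k) 0 L) (d1.inter d2) d3
  have hsub : Hk k w ∩ Rg k 0 w ∩ Cr k 0 L ⊆ Hk k L := by
    rintro ω ⟨⟨h1, ⟨i, hi, h3⟩⟩, h2⟩
    exact glueH h1 h2 h3 (by omega) (by omega) (by omega)
  have h1 := measureReal_mono hsub (measure_ne_top (PC k) _)
  refine le_trans ?_ (f2.trans h1)
  have a1 := Hk_prob (k := k) h
  have a2 := Rg_half (k := k) 0
  have a3 := Lk_half (k := k)
  have a4 : (3 : ℝ) / 8 ≤ (PP (CI k) p0).real (Hk k w ∩ Rg k 0 w) := by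
    refine le_trans ?_ f1
    nlinarith
  have a5 : (1 : ℝ) / 2 ≤ (PP (CI k) p0).real (Cr k 0 L) := a3
  nlinarith

theorem iterate {l : ℕ} (hl : 2 ^ k ≤ l) (n : ℕ) :
    g k l ^ (n + 1) * (1 - 1 / (1 + (39 / 20 : ℝ) ^ k)) ^ n ≤ g k (l + n * (l - 2 ^ k)) := by
  have hf : 0 ≤ 1 - 1 / (1 + (39 / 20 : ℝ) ^ k) := by
    have h3 : (0 : ℝ) < (39 / 20) ^ k := by positivity
    rw [sub_nonneg, div_le_one (by linarith)]
    linarith
  induction n with
  | zero => simp
  | succ n ih =>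
    have h1 := gluing (k := k) (A := l + n * (l - 2 ^ k)) (B := l) (by
      have : 0 ≤ n * (l - 2 ^ k) := Nat.zero_le _
      omega) hl
    have e : l + n * (l - 2 ^ k) + l - 2 ^ k = l + (n + 1) * (l - 2 ^ k) := by
      have : (n + 1) * (l - 2 ^ k) = n * (l - 2 ^ k) + (l - 2 ^ k) := by ring
      omega
    rw [e] at h1
    refine le_trans ?_ h1
    calc g k l ^ (n + 1 + 1) * (1 - 1 / (1 + (39 / 20 : ℝ) ^ k)) ^ (n + 1)
        = (g k l ^ (n + 1) * (1 - 1 / (1 + (39 / 20 : ℝ) ^ k)) ^ n) * g k l *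
          (1 - 1 / (1 + (39 / 20 : ℝ) ^ k)) := by ring
      _ ≤ g k (l + n * (l - 2 ^ k)) * g k l * (1 - 1 / (1 + (39 / 20 : ℝ) ^ k)) := by
          refine mul_le_mul_of_nonneg_right ?_ hf
          exact mul_le_mul_of_nonneg_right ih (g_nonneg _)

/-- crossing a fixed fraction of the critical length has a probability bounded away from `1` -/
theorem uncrossed {r : ℕ} (hr : 1 ≤ r) (h1 : 2 * r * (1 + 2 ^ k) ≤ Lk k)
    (h2 : (8 * r : ℝ) ≤ (39 / 20) ^ k) :
    1 / (6 * r + 3 : ℝ) ≤ 1 - g k ((Lk k + 1) / r) := by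
  set L := Lk k with hL
  set l := (L + 1) / r with hl
  set w := 2 ^ k with hw
  have hrl : L + 2 ≤ r * l + r := by
    have := Nat.lt_div_mul_add (a := L + 1) (b := r) (by omega)
    rw [← hl] at this
    rw [mul_comm]
    omega
  have hrw : 2 * r * (1 + w) = 2 * (r * w) + 2 * r := by ring
  have hwl : w ≤ l := by
    by_contra hlt
    push Not at hlt
    have : r * l ≤ r * w := Nat.mul_le_mul_left r hlt.le
    have h5 : 0 ≤ r * w := Nat.zero_le _
    omega
  have hle : L + 1 ≤ l + (2 * r) * (l - w) := by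
    clear_value l w L
    have h5 : (2 * r) * (l - w) + 2 * (r * w) = 2 * (r * l) := by
      have : (2 * r) * (l - w) + (2 * r) * w = (2 * r) * l := by
        rw [← Nat.mul_add, Nat.sub_add_cancel hwl]
      nlinarith
    omega
  have h3 : g k (l + (2 * r) * (l - w)) < 1 / 2 := lt_of_le_of_lt (g_anti hle) (Lk_spec (k := k))
  have h4 := iterate (k := k) hwl (2 * r)
  set X := (39 / 20 : ℝ) ^ k with hX
  have hr' : (1 : ℝ) ≤ r := by exact_mod_cast hr
  have hXpos : 0 < X := by positivity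
  have hf : (3 : ℝ) / 4 ≤ (1 - 1 / (1 + X)) ^ (2 * r) := by
    have h5 := one_add_mul_le_pow (a := -(1 / (1 + X))) (by
      have : 1 / (1 + X) ≤ 1 := by
        rw [div_le_one (by linarith)]
        linarith
      linarith) (2 * r)
    have h6 : (1 : ℝ) + -(1 / (1 + X)) = 1 - 1 / (1 + X) := by ring
    rw [h6] at h5
    refine le_trans ?_ h5
    push_cast
    have h7 : (2 * (r : ℝ)) * (1 / (1 + X)) ≤ 1 / 4 := by
      rw [mul_one_div, div_le_iff₀ (by linarith)]
      linarith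
    linarith
  have hg : g k l ^ (2 * r + 1) ≤ 2 / 3 := by
    have h5 : 0 ≤ g k l ^ (2 * r + 1) := pow_nonneg (g_nonneg l) _
    have h6 : g k l ^ (2 * r + 1) * (3 / 4) ≤ 1 / 2 :=
      le_trans (mul_le_mul_of_nonneg_left hf h5) (h4.trans h3.le)
    linarith
  have h8 := one_add_mul_le_pow (a := g k l - 1) (by have := g_nonneg (k := k) l; linarith)
    (2 * r + 1)
  rw [show (1 : ℝ) + (g k l - 1) = g k l by ring] at h8
  push_cast at h8
  rw [div_le_iff₀ (by linarith)]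
  nlinarith

end

theorem big_k (r : ℕ) (hr : 1 ≤ r) : ∀ᶠ k : ℕ in atTop, ∀ _ : NeZero k,
    2 * r * (1 + 2 ^ k) ≤ Lk k ∧ (8 * r : ℝ) ≤ (39 / 20) ^ k := by
  have t1 := tendsto_pow_atTop_atTop_of_one_lt (show (1 : ℝ) < 5 by norm_num)
  have t2 := tendsto_pow_atTop_atTop_of_one_lt (show (1 : ℝ) < 39 / 20 by norm_num)
  filter_upwards [t1.eventually_ge_atTop (32 * r : ℝ), t2.eventually_ge_atTop (8 * r : ℝ)]
    with k h1 h2 hk
  refine ⟨Lk_large ?_, h2⟩
  push_cast
  have h3 : (1 : ℝ) ≤ 2 ^ k := one_le_pow₀ (by norm_num)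
  have h4 : (10 : ℝ) ^ k = 5 ^ k * 2 ^ k := by
    rw [← mul_pow]
    norm_num
  rw [h4]
  have h5 : (32 * r : ℝ) * 2 ^ k ≤ 5 ^ k * 2 ^ k := mul_le_mul_of_nonneg_right h1 (by positivity)
  have hr' : (1 : ℝ) ≤ r := by exact_mod_cast hr
  nlinarith

end Pool.Agent.V11325.Perc
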