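import Pool.Agent.V11325.PercTorus

/-!
# Percolation on thin tori: the two probability estimates
-/

namespace Pool.Agent.V11325.Perc

open MeasureTheory Measure Finset Filter
open Pool.Agent.TH996.Park

section

variable {m k : ℕ} [NeZero m] [NeZero k]

omit [NeZero m] [NeZero k] in
theorem intCast_inj_window {L : ℕ} (hL : L < m) {i j : ℤ} (hi : 0 ≤ i ∧ i ≤ L) (hj : 0 ≤ j ∧ j ≤ L)
    (h : (i : ZMod m) = (j : ZMod m)) : i = j := by
  have h1 := (ZMod.intCast_eq_intCast_iff _ _ _).1 h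
  have h3 : i % m = j % m := h1
  rwa [Int.emod_eq_of_lt hi.1 (by omega), Int.emod_eq_of_lt hj.1 (by omega)] at h3

theorem large (hm : 3 ≤ m) (hk : 3 ≤ k) {L : ℕ} (hL : 2 * L < m) (hd : m / 2 + k / 2 ≤ 2 * L)
    (v : ZMod m × ZMod k) :
    (PC k).real (Hk k L) ≤ (PP (torus m k).edgeSet p0).real
      {ω | ∃ x y, (kept (torus m k) ω).Reachable v x ∧ (kept (torus m k) ω).Reachable v y ∧
        (torus m k).diam ≤ 2 * (torus m k).dist x y} := by
  have := PP_prob (ι := (torus m k).edgeSet) hp0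
  rw [← transfer_real hp0 (Hk_dep (k := k) L)
    (fun i : CI k => edg hm hk (v.1 + (i.1 : ZMod m), v.2 + i.2.1, i.2.2))]
  · refine measureReal_mono ?_ (measure_ne_top _ _)
    rintro ω ⟨y, hy⟩
    have h1 := Rst.map (ω := fun i => ω (edg hm hk i)) (fun i : ℤ => v.1 + (i : ZMod m))
      (fun j : ZMod k => v.2 + j) (fun i => by push_cast; ring) (fun j => by ring)
      (S := slab k 0 L) (T := Set.univ) (fun _ _ => Set.mem_univ _) hy
    simp only [Int.cast_zero, add_zero, Int.cast_natCast] at h1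
    refine ⟨v, (v.1 + (L : ZMod m), v.2 + y), SimpleGraph.Reachable.refl _,
      (kept_reach hm hk ω _ _).2 h1, ?_⟩
    have h2 := dist_lower hm hk hL v (v.2 + y)
    have h3 := torus_diam hm hk
    omega
  · intro i hi j hj hij
    have h1 := edg_inj hm hk hij
    simp only [Prod.mk.injEq] at h1
    rw [Finset.mem_coe, mem_win] at hi hj
    exact Prod.ext (intCast_inj_window (by omega) hi hj (add_left_cancel h1.1))
      (Prod.ext (add_left_cancel h1.2.1) h1.2.2)

/-! ### Lifting -/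

/-- the lift to the cylinder -/
def lift (σ : ZMod m × ZMod k × Bool → Bool) : CI k → Bool :=
  fun i => σ ((i.1 : ZMod m), i.2.1, i.2.2)

omit [NeZero m] [NeZero k] in
theorem lift_path {σ : ZMod m × ZMod k × Bool → Bool} {v u : ZMod m × ZMod k}
    (h : Rst Set.univ σ v u) (c : ℤ) (hc : (c : ZMod m) = v.1) :
    ∃ c' : ℤ, (c' : ZMod m) = u.1 ∧ Rst Set.univ (lift σ) (c, v.2) (c', u.2) := by
  unfold Rst at h
  induction h with
  | refl => exact ⟨c, hc, Relation.ReflTransGen.refl⟩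
  | @tail a b _ hab ih =>
    obtain ⟨c', h1, h2⟩ := ih
    rcases hab.1 with ⟨e, h⟩ | ⟨e, h⟩ | ⟨e, h⟩ | ⟨e, h⟩
    · refine ⟨c' + 1, by rw [e]; push_cast; rw [h1], h2.tail ⟨Or.inl ⟨?_, ?_⟩,
        Set.mem_univ _, Set.mem_univ _⟩⟩
      · rw [e]
      · simp only [lift]
        rw [h1]
        exact h
    · have e1 : a.1 = b.1 + 1 := by rw [e]
      have e2 : a.2 = b.2 := by rw [e]
      refine ⟨c' - 1, by push_cast; rw [h1, e1]; ring, h2.tail ⟨Or.inr (Or.inl ⟨?_, ?_⟩),
        Set.mem_univ _, Set.mem_univ _⟩⟩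
      · simp only [sub_add_cancel]
        rw [e2]
      · simp only [lift]
        push_cast
        rw [h1, e1]
        simpa using h
    · have e1 : b.1 = a.1 := by rw [e]
      have e2 : b.2 = a.2 + 1 := by rw [e]
      refine ⟨c', by rw [e1, h1], h2.tail ⟨Or.inr (Or.inr (Or.inl ⟨?_, ?_⟩)),
        Set.mem_univ _, Set.mem_univ _⟩⟩
      · rw [e2]
      · simp only [lift]
        rw [h1]
        exact h
    · have e1 : a.1 = b.1 := by rw [e]
      have e2 : a.2 = b.2 + 1 := by rw [e]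
      refine ⟨c', by rw [← e1, h1], h2.tail ⟨Or.inr (Or.inr (Or.inr ⟨?_, ?_⟩)),
        Set.mem_univ _, Set.mem_univ _⟩⟩
      · rw [e2]
      · simp only [lift]
        rw [h1, e1]
        exact h

omit [NeZero m] [NeZero k] in
theorem lift_uncrossed {σ : ZMod m × ZMod k × Bool → Bool} {l s : ℕ}
    (h : (fun i : CI k => σ ((i.1 : ZMod m) + ((s * (l + 1) : ℕ) : ZMod m), i.2.1, i.2.2)) ∉
      Cr k 0 l) (t : ℤ) :
    lift σ ∉ Cr k (s * (l + 1) + m * t) (s * (l + 1) + m * t + l) := by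
  rintro ⟨y, y', hy⟩
  apply h
  set η : CI k → Bool :=
    fun i : CI k => σ ((i.1 : ZMod m) + ((s * (l + 1) : ℕ) : ZMod m), i.2.1, i.2.2) with hη
  have e : lift σ = fun i : CI k =>
      η (i.1 - (s * (l + 1) + m * t), i.2.1, i.2.2) := by
    funext i
    simp only [lift, hη]
    congr 2
    push_cast
    simp
  rw [e] at hy
  have h1 := Rst.map (ω := η) (fun i : ℤ => i - (s * (l + 1) + m * t)) (fun j : ZMod k => j)
    (fun i => by ring) (fun _ => rfl) (T := slab k 0 l) (fun x hx => ⟨by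
      have := hx.1; simp only; omega, by have := hx.2; simp only; omega⟩) hy
  simp only [sub_self, add_sub_cancel_left] at h1
  exact ⟨y, y', h1⟩

omit [NeZero k] in
theorem next_window {l : ℕ} (hl : l + 1 ≤ m) (c : ℤ) :
    ∃ s : ℕ, s < m / (l + 1) ∧ ∃ t : ℤ, c ≤ s * (l + 1) + m * t ∧
      s * (l + 1) + m * t < c + 2 * (l + 1) := by
  have hm0 : 0 < m := Nat.pos_of_ne_zero (NeZero.ne m)
  have h1 := Int.emod_add_mul_ediv c m
  have h2 := Int.emod_nonneg c (show (m : ℤ) ≠ 0 by omega)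
  have h3 := Int.emod_lt_of_pos c (show (0 : ℤ) < m by omega)
  obtain ⟨ρ, hρ⟩ := Int.eq_ofNat_of_zero_le h2
  rw [hρ] at h1 h3
  set s := (ρ + l) / (l + 1) with hs
  have h4 : s * (l + 1) ≤ ρ + l := Nat.div_mul_le_self _ _
  have h5 : ρ + l < s * (l + 1) + (l + 1) := Nat.lt_div_mul_add (by omega)
  have hS := Nat.lt_div_mul_add (a := m) (b := l + 1) (by omega)
  by_cases hlt : s < m / (l + 1)
  · refine ⟨s, hlt, c / m, ?_, ?_⟩
    · have h6 : ρ ≤ s * (l + 1) := by omega
      have h7 : (ρ : ℤ) ≤ s * (l + 1) := by exact_mod_cast h6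
      omega
    · have h7 : (s : ℤ) * (l + 1) ≤ ρ + l := by exact_mod_cast h4
      omega
  · refine ⟨0, Nat.div_pos hl (by omega), c / m + 1, ?_, ?_⟩
    · have h8 : (m : ℤ) * (c / m + 1) = m * (c / m) + m := by ring
      rw [h8]
      simp only [Nat.cast_zero, zero_mul]
      omega
    · have h8 : (m : ℤ) * (c / m + 1) = m * (c / m) + m := by ring
      rw [h8]
      push Not at hlt
      have h9 : (m / (l + 1)) * (l + 1) ≤ s * (l + 1) := Nat.mul_le_mul_right _ hlt
      simp only [Nat.cast_zero, zero_mul]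
      omega

theorem close {σ : ZMod m × ZMod k × Bool → Bool} {l : ℕ} (hl : l + 1 ≤ m)
    (hB : ∀ s < m / (l + 1),
      (fun i : CI k => σ ((i.1 : ZMod m) + ((s * (l + 1) : ℕ) : ZMod m), i.2.1, i.2.2)) ∉
        Cr k 0 l) {x y : ℤ × ZMod k} (h : Rst Set.univ (lift σ) x y) :
    y.1 < x.1 + 3 * (l + 1) := by
  by_contra hlt
  push Not at hlt
  obtain ⟨s, hs, t, h1, h2⟩ := next_window hl x.1
  refine lift_uncrossed (hB s hs) t (crossing h (by omega) h1 (by omega))

theorem comp_small (hm : 3 ≤ m) (hk : 3 ≤ k) {l : ℕ} (hl : l + 1 ≤ m)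
    (ω : (torus m k).edgeSet → Bool)
    (hB : ∀ s < m / (l + 1),
      (fun i : CI k => ω (edg hm hk ((i.1 : ZMod m) + ((s * (l + 1) : ℕ) : ZMod m),
        i.2.1, i.2.2))) ∉ Cr k 0 l)
    (c : (kept (torus m k) ω).ConnectedComponent) : c.supp.ncard ≤ 6 * (l + 1) * k := by
  classical
  induction c using SimpleGraph.ConnectedComponent.ind with
  | _ v =>
  set c0 : ℤ := (v.1.val : ℤ) with hc0
  have hv : (c0 : ZMod m) = v.1 := by
    rw [hc0, Int.cast_natCast, ZMod.natCast_zmod_val]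
  set F : Finset (ZMod m × ZMod k) :=
    ((Finset.Ioo (c0 - 3 * (l + 1)) (c0 + 3 * (l + 1))) ×ˢ (univ : Finset (ZMod k))).image
      (fun q : ℤ × ZMod k => ((q.1 : ZMod m), q.2)) with hF
  have hsub : ((kept (torus m k) ω).connectedComponentMk v).supp ⊆ (F : Set (ZMod m × ZMod k)) := by
    intro u hu
    rw [SimpleGraph.ConnectedComponent.mem_supp_iff, SimpleGraph.ConnectedComponent.eq] at hu
    have h1 := (kept_reach hm hk ω _ _).1 hu.symm
    obtain ⟨c', h2, h3⟩ := lift_path h1 c0 hv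
    have a1 := close hl hB h3
    have a2 := close hl hB h3.symm
    simp only at a1 a2
    rw [Finset.mem_coe, hF, Finset.mem_image]
    refine ⟨(c', u.2), ?_, ?_⟩
    · rw [mem_product, Finset.mem_Ioo]
      exact ⟨⟨by simp only; omega, by simp only; omega⟩, mem_univ _⟩
    · simp only
      rw [h2]
  refine (Set.ncard_le_ncard hsub F.finite_toSet).trans ?_
  rw [Set.ncard_coe_finset]
  refine card_image_le.trans ?_
  rw [card_product, Int.card_Ioo, card_univ, ZMod.card]
  refine Nat.mul_le_mul_right k ?_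
  omega

theorem no_giant (hm : 3 ≤ m) (hk : 3 ≤ k) {l : ℕ} (hl : l + 1 ≤ m) {q C : ℝ}
    (hq0 : 0 ≤ q) (hq : q ≤ 1 - g k l)
    (hC : ((6 * (l + 1) * k : ℕ) : ℝ) < C * Fintype.card (ZMod m × ZMod k)) :
    (PP (torus m k).edgeSet p0).real
      {ω | ∃ c : (kept (torus m k) ω).ConnectedComponent,
        C * Fintype.card (ZMod m × ZMod k) ≤ (c.supp.ncard : ℝ)} ≤ 1 - q ^ (m / (l + 1)) := by
  classical
  have := PP_prob (ι := (torus m k).edgeSet) hp0
  have := PP_prob (ι := CI k) hp0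
  set A : ℕ → Set (ZMod m × ZMod k × Bool → Bool) := fun s =>
    {σ | (fun i : CI k => σ ((i.1 : ZMod m) + ((s * (l + 1) : ℕ) : ZMod m), i.2.1, i.2.2)) ∈
      (Cr k 0 l)ᶜ} with hA
  have hlow : ∀ s, IsLowerSet (A s) := by
    intro s σ σ' hσ h
    exact (Cr_upper (k := k) 0 l).compl (fun i => hσ _) h
  have huniv : ∀ s : Set (ZMod m × ZMod k × Bool → Bool), Dep univ s := by
    intro s σ σ' h hs
    have : σ = σ' := funext fun i => h i (mem_univ _)
    rwa [← this]
  have hprob : ∀ s, q ≤ (PP (ZMod m × ZMod k × Bool) p0).real (A s) := by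
    intro s
    have h1 := transfer_real hp0 (Cr_dep (k := k) 0 l).compl
      (fun i : CI k => (((i.1 : ZMod m) + ((s * (l + 1) : ℕ) : ZMod m), i.2.1, i.2.2) :
        ZMod m × ZMod k × Bool)) (by
        intro i hi j hj hij
        simp only [Prod.mk.injEq] at hij
        rw [Finset.mem_coe, mem_win] at hi hj
        exact Prod.ext (intCast_inj_window (by omega) hi hj (add_right_cancel hij.1))
          (Prod.ext hij.2.1 hij.2.2))
    rw [probReal_compl_eq_one_sub (Cr_dep (k := k) 0 l).measurableSet] at h1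
    exact hq.trans (le_of_eq h1.symm)
  have h2 := low_iInter hp0 hq0 hlow (m / (l + 1)) (J := univ) (fun s _ => huniv _)
    (fun s _ => hprob s)
  set B : Set (ZMod m × ZMod k × Bool → Bool) := {σ | ∀ s < m / (l + 1), σ ∈ A s} with hBdef
  have h3 := transfer_real hp0 (huniv B) (edg hm hk) ((edg_inj hm hk).injOn)
  rw [← h3] at h2
  set B' : Set ((torus m k).edgeSet → Bool) := {ω | (fun i => ω (edg hm hk i)) ∈ B} with hB'
  have hmeas : MeasurableSet B' := by
    have h4 : MeasurableSet B := (huniv B).measurableSet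
    exact (measurable_pi_lambda (fun (ω : (torus m k).edgeSet → Bool)
      (i : ZMod m × ZMod k × Bool) => ω (edg hm hk i)) fun i => measurable_pi_apply _) h4
  have h5 : {ω : (torus m k).edgeSet → Bool | ∃ c : (kept (torus m k) ω).ConnectedComponent,
        C * Fintype.card (ZMod m × ZMod k) ≤ (c.supp.ncard : ℝ)} ⊆ B'ᶜ := by
    rintro ω ⟨c, hc⟩ hω
    have h6 := comp_small hm hk hl ω (fun s hs => hω s hs) c
    have h7 : (c.supp.ncard : ℝ) ≤ ((6 * (l + 1) * k : ℕ) : ℝ) := by exact_mod_cast h6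
    linarith
  refine (measureReal_mono h5 (measure_ne_top _ _)).trans ?_
  rw [probReal_compl_eq_one_sub hmeas]
  linarith

end

end Pool.Agent.V11325.Perc
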