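import Pool.Agent.V11325.PercFkg

/-!
# Peierls' argument in a strip
-/

namespace Pool.Agent.V11325.Perc

open MeasureTheory Measure Finset

theorem rtg_mono {α : Type*} {r s : α → α → Prop} (h : ∀ a b, r a b → s a b) {x y : α}
    (hxy : Relation.ReflTransGen r x y) : Relation.ReflTransGen s x y := by
  induction hxy with
  | refl => exact Relation.ReflTransGen.refl
  | tail _ h2 ih => exact ih.tail (h _ _ h2)

/-! ### Open steps -/

section

variable {A B : Type*} [Add A] [One A] [Add B] [One B]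

/-- `x` and `y` are joined by an open edge; the index `(a, b, false)` is the edge from `(a, b)` to
`(a + 1, b)` and the index `(a, b, true)` is the edge from `(a, b)` to `(a, b + 1)`. -/
def Opn (ω : A × B × Bool → Bool) (x y : A × B) : Prop :=
  (y = (x.1 + 1, x.2) ∧ ω (x.1, x.2, false) = true) ∨
  (x = (y.1 + 1, y.2) ∧ ω (y.1, y.2, false) = true) ∨
  (y = (x.1, x.2 + 1) ∧ ω (x.1, x.2, true) = true) ∨
  (x = (y.1, y.2 + 1) ∧ ω (y.1, y.2, true) = true)

theorem Opn.symm {ω : A × B × Bool → Bool} {x y : A × B} (h : Opn ω x y) : Opn ω y x := by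
  unfold Opn at *
  tauto

/-- joined by an open path inside `S` -/
def Rst (S : Set (A × B)) (ω : A × B × Bool → Bool) (x y : A × B) : Prop :=
  Relation.ReflTransGen (fun a b => Opn ω a b ∧ a ∈ S ∧ b ∈ S) x y

theorem Rst.symm {S : Set (A × B)} {ω : A × B × Bool → Bool} {x y : A × B} (h : Rst S ω x y) :
    Rst S ω y x := by
  unfold Rst at *
  induction h with
  | refl => exact Relation.ReflTransGen.refl
  | tail _ h2 ih => exact Relation.ReflTransGen.head ⟨h2.1.symm, h2.2.2, h2.2.1⟩ ih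

theorem Rst.trans {S : Set (A × B)} {ω : A × B × Bool → Bool} {x y z : A × B} (h : Rst S ω x y)
    (h' : Rst S ω y z) : Rst S ω x z := Relation.ReflTransGen.trans h h'

theorem Rst.mono {S T : Set (A × B)} {ω : A × B × Bool → Bool} {x y : A × B} (h : Rst S ω x y)
    (hST : S ⊆ T) : Rst T ω x y :=
  rtg_mono (fun _ _ h => ⟨h.1, hST h.2.1, hST h.2.2⟩) h

theorem Opn.up {ω ω' : A × B × Bool → Bool} (hω : ω ≤ ω') {x y : A × B} (h : Opn ω x y) :
    Opn ω' x y := by
  have h1 : ∀ i, ω i = true → ω' i = true := fun i hi => by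
    have := hω i
    rw [hi] at this
    exact top_le_iff.1 this
  rcases h with ⟨a, b⟩ | ⟨a, b⟩ | ⟨a, b⟩ | ⟨a, b⟩
  · exact Or.inl ⟨a, h1 _ b⟩
  · exact Or.inr (Or.inl ⟨a, h1 _ b⟩)
  · exact Or.inr (Or.inr (Or.inl ⟨a, h1 _ b⟩))
  · exact Or.inr (Or.inr (Or.inr ⟨a, h1 _ b⟩))

theorem Rst.up {S : Set (A × B)} {ω ω' : A × B × Bool → Bool} (hω : ω ≤ ω') {x y : A × B}
    (h : Rst S ω x y) : Rst S ω' x y :=
  rtg_mono (fun _ _ h => ⟨h.1.up hω, h.2⟩) h

theorem Rst.dep {S : Set (A × B)} {ω ω' : A × B × Bool → Bool}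
    (hω : ∀ a b c, (a, b) ∈ S → ω (a, b, c) = ω' (a, b, c)) {x y : A × B}
    (h : Rst S ω x y) : Rst S ω' x y := by
  refine rtg_mono (fun u v h => ⟨?_, h.2⟩) h
  obtain ⟨h, hu, hv⟩ := h
  rcases h with ⟨a, b⟩ | ⟨a, b⟩ | ⟨a, b⟩ | ⟨a, b⟩
  · exact Or.inl ⟨a, by rw [← hω _ _ _ hu]; exact b⟩
  · exact Or.inr (Or.inl ⟨a, by rw [← hω _ _ _ hv]; exact b⟩)
  · exact Or.inr (Or.inr (Or.inl ⟨a, by rw [← hω _ _ _ hu]; exact b⟩))
  · exact Or.inr (Or.inr (Or.inr ⟨a, by rw [← hω _ _ _ hv]; exact b⟩))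

end

/-! ### The parity lemma -/

theorem zmod2_add_self (x : ZMod 2) : x + x = 0 := CharTwo.add_self_eq_zero x

theorem tele2 (f : ℕ → ZMod 2) (n : ℕ) :
    ∑ i ∈ range n, (f i + f (i + 1)) = f 0 + f n := by
  induction n with
  | zero => simp [zmod2_add_self]
  | succ n ih =>
    rw [sum_range_succ, ih]
    linear_combination zmod2_add_self (f n)

theorem parity {w k : ℕ} {r u : ℕ → ℕ → ZMod 2} (hk : 0 < k)
    (h0 : r 0 0 = 1) (hw : ∀ y < k, r w y = 0)
    (hu0 : ∀ x < w, u (x + 1) 0 = 1)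
    (hup : ∀ x < w, ∀ y < k, (r x y + r (x + 1) y) * (u (x + 1) y + u (x + 1) (y + 1)) = 0)
    (hri : ∀ x < w, ∀ y, y + 1 < k → (r x y + r x (y + 1)) * (u x (y + 1) + u (x + 1) (y + 1)) = 0)
    (hle : ∀ y, y + 1 < k → u 0 (y + 1) = 0) :
    ∃ x < w, u (x + 1) k ≠ 0 := by
  have hS : ∀ y < k, ∑ x ∈ range w, u (x + 1) y * (r x y + r (x + 1) y) = 1 := by
    intro y
    induction y with
    | zero =>
      intro _
      have h1 : ∀ x ∈ range w, u (x + 1) 0 * (r x 0 + r (x + 1) 0) = r x 0 + r (x + 1) 0 := by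
        intro x hx
        rw [hu0 x (mem_range.1 hx), one_mul]
      rw [sum_congr rfl h1, tele2 (fun x => r x 0), h0, hw 0 hk, add_zero]
    | succ y ih =>
      intro hy
      have hy' : y < k := by omega
      have ih := ih hy'
      have h1 : ∑ x ∈ range w, u (x + 1) (y + 1) * (r x (y + 1) + r (x + 1) (y + 1)) +
          ∑ x ∈ range w, u (x + 1) y * (r x y + r (x + 1) y) = 0 := by
        rw [← sum_add_distrib]
        have h2 : ∀ x ∈ range w, u (x + 1) (y + 1) * (r x (y + 1) + r (x + 1) (y + 1)) +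
            u (x + 1) y * (r x y + r (x + 1) y) =
            (u x (y + 1) * (r x y + r x (y + 1))) +
              (u (x + 1) (y + 1) * (r (x + 1) y + r (x + 1) (y + 1))) := by
          intro x hx
          have a1 := hup x (mem_range.1 hx) y hy'
          have a2 := hri x (mem_range.1 hx) y hy
          linear_combination a1 + a2 - zmod2_add_self (u (x + 1) (y + 1) * (r x y + r (x + 1) y)) +
            (zmod2_add_self (u (x+1) (y+1) * r x y)) + (zmod2_add_self (u (x+1) (y+1) * r x (y+1)))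
            - (zmod2_add_self (u (x+1) (y+1) * (r x y + r x (y + 1))))
            - (zmod2_add_self (u x (y+1) * (r x y + r x (y + 1))))
            + (zmod2_add_self (u (x + 1) (y + 1) * (r x y + r (x + 1) y)))
            - (zmod2_add_self (u (x+1) (y+1) * (r x y + r (x + 1) y)))
        rw [sum_congr rfl h2, tele2 (fun x => u x (y + 1) * (r x y + r x (y + 1))), hle y hy,
          hw y hy', hw (y + 1) hy]
        ring
      rw [ih] at h1
      have : ∀ z : ZMod 2, z + 1 = 0 → z = 1 := by decide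
      exact this _ h1
  have hk1 := hS (k - 1) (by omega)
  obtain ⟨x, hx, hx'⟩ : ∃ x ∈ range w, u (x + 1) (k - 1) * (r x (k - 1) + r (x + 1) (k - 1)) ≠ 0 := by
    by_contra h
    push Not at h
    rw [sum_eq_zero h] at hk1
    exact zero_ne_one hk1
  refine ⟨x, mem_range.1 hx, ?_⟩
  have h1 := hup x (mem_range.1 hx) (k - 1) (by omega)
  rw [show k - 1 + 1 = k by omega] at h1
  have : ∀ a b c : ZMod 2, a * b ≠ 0 → b * (a + c) = 0 → c ≠ 0 := by decide
  exact this _ _ _ hx' h1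

/-! ### The dual graph -/

/-- the graph of closed dual edges -/
def Dl (η : ℤ × ℤ × Bool → Bool) : SimpleGraph (ℤ × ℤ) where
  Adj P Q := (Q = (P.1, P.2 + 1) ∧ η (P.1 - 1, P.2, false) = false) ∨
    (P = (Q.1, Q.2 + 1) ∧ η (Q.1 - 1, Q.2, false) = false) ∨
    (Q = (P.1 + 1, P.2) ∧ η (P.1, P.2 - 1, true) = false) ∨
    (P = (Q.1 + 1, Q.2) ∧ η (Q.1, Q.2 - 1, true) = false)
  symm := ⟨fun P Q h => by tauto⟩
  loopless := ⟨fun P h => by
    rcases h with ⟨a, _⟩ | ⟨a, _⟩ | ⟨a, _⟩ | ⟨a, _⟩ <;>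
    · have h1 := congrArg Prod.fst a
      have h2 := congrArg Prod.snd a
      simp only at h1 h2
      omega⟩

/-- the strip -/
def strip (w k : ℕ) : Set (ℤ × ℤ) := {x | 0 ≤ x.1 ∧ x.1 ≤ w ∧ 0 ≤ x.2 ∧ x.2 < k}

theorem dual_path {w k : ℕ} (hk : 0 < k) {η : ℤ × ℤ × Bool → Bool}
    (h : ∀ y : ℤ, ¬ Rst (strip w k) η (0, 0) ((w : ℤ), y)) :
    ∃ X : ℕ, 1 ≤ X ∧ X ≤ w ∧ ∃ Q : ℤ × ℤ, (Dl η).Reachable ((X : ℤ), 0) Q ∧
      (Q.1 = 0 ∨ Q.2 = k) := by
  classical
  by_contra hcon
  push Not at hcon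
  set r : ℕ → ℕ → ZMod 2 := fun x y =>
    if Rst (strip w k) η (0, 0) ((x : ℤ), (y : ℤ)) then 1 else 0 with hr
  set u : ℕ → ℕ → ZMod 2 := fun x y =>
    if ∃ X : ℕ, 1 ≤ X ∧ X ≤ w ∧ (Dl η).Reachable ((X : ℤ), 0) ((x : ℤ), (y : ℤ)) then 1 else 0
    with hu
  have h2 : (1 : ZMod 2) + 1 = 0 := by decide
  obtain ⟨x, hx, hx'⟩ := parity (w := w) (k := k) (r := r) (u := u) hk
    (by simp only [hr]; exact if_pos Relation.ReflTransGen.refl)
    (fun y _ => by simp only [hr]; exact if_neg (h y))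
    (fun x hx => by
      simp only [hu]
      exact if_pos ⟨x + 1, by omega, by omega, by push_cast; exact SimpleGraph.Reachable.refl _⟩)
    (fun x hx y hy => by
      by_cases ho : η ((x : ℤ), (y : ℤ), false) = true
      · have e : Rst (strip w k) η (0, 0) ((x : ℤ), (y : ℤ)) ↔
            Rst (strip w k) η (0, 0) (((x + 1 : ℕ) : ℤ), (y : ℤ)) := by
          have s1 : ((x : ℤ), (y : ℤ)) ∈ strip w k := by
            simp only [strip, Set.mem_ofPred_eq]; omega
          have s2 : (((x + 1 : ℕ) : ℤ), (y : ℤ)) ∈ strip w k := by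
            simp only [strip, Set.mem_ofPred_eq]; omega
          have o1 : Opn η ((x : ℤ), (y : ℤ)) (((x + 1 : ℕ) : ℤ), (y : ℤ)) :=
            Or.inl ⟨by push_cast; rfl, ho⟩
          exact ⟨fun h => h.tail ⟨o1, s1, s2⟩, fun h => h.tail ⟨o1.symm, s2, s1⟩⟩
        have e2 : r x y = r (x + 1) y := by
          simp only [hr, e]
        rw [e2, zmod2_add_self, zero_mul]
      · have hf : η ((x : ℤ), (y : ℤ), false) = false := by simpa using ho
        have a1 : (Dl η).Adj (((x + 1 : ℕ) : ℤ), (y : ℤ)) (((x + 1 : ℕ) : ℤ), ((y + 1 : ℕ) : ℤ)) :=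
          Or.inl ⟨by push_cast; rfl, by push_cast; simpa using hf⟩
        have e2 : u (x + 1) y = u (x + 1) (y + 1) := by
          simp only [hu]
          congr 1
          apply propext
          constructor
          · rintro ⟨X, h1, h2, h3⟩
            exact ⟨X, h1, h2, h3.trans a1.reachable⟩
          · rintro ⟨X, h1, h2, h3⟩
            exact ⟨X, h1, h2, h3.trans a1.symm.reachable⟩
        rw [e2, zmod2_add_self, mul_zero])
    (fun x hx y hy => by
      by_cases ho : η ((x : ℤ), (y : ℤ), true) = true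
      · have e : Rst (strip w k) η (0, 0) ((x : ℤ), (y : ℤ)) ↔
            Rst (strip w k) η (0, 0) ((x : ℤ), ((y + 1 : ℕ) : ℤ)) := by
          have s1 : ((x : ℤ), (y : ℤ)) ∈ strip w k := by
            simp only [strip, Set.mem_ofPred_eq]; omega
          have s2 : ((x : ℤ), ((y + 1 : ℕ) : ℤ)) ∈ strip w k := by
            simp only [strip, Set.mem_ofPred_eq]; omega
          have o1 : Opn η ((x : ℤ), (y : ℤ)) ((x : ℤ), ((y + 1 : ℕ) : ℤ)) :=
            Or.inr (Or.inr (Or.inl ⟨by push_cast; rfl, ho⟩))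
          exact ⟨fun h => h.tail ⟨o1, s1, s2⟩, fun h => h.tail ⟨o1.symm, s2, s1⟩⟩
        have e2 : r x y = r x (y + 1) := by
          simp only [hr, e]
        rw [e2, zmod2_add_self, zero_mul]
      · have hf : η ((x : ℤ), (y : ℤ), true) = false := by simpa using ho
        have a1 : (Dl η).Adj ((x : ℤ), ((y + 1 : ℕ) : ℤ)) (((x + 1 : ℕ) : ℤ), ((y + 1 : ℕ) : ℤ)) :=
          Or.inr (Or.inr (Or.inl ⟨by push_cast; rfl, by push_cast; simpa using hf⟩))
        have e2 : u x (y + 1) = u (x + 1) (y + 1) := by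
          simp only [hu]
          congr 1
          apply propext
          constructor
          · rintro ⟨X, h1, h2, h3⟩
            exact ⟨X, h1, h2, h3.trans a1.reachable⟩
          · rintro ⟨X, h1, h2, h3⟩
            exact ⟨X, h1, h2, h3.trans a1.symm.reachable⟩
        rw [e2, zmod2_add_self, mul_zero])
    (fun y hy => by
      simp only [hu]
      refine if_neg ?_
      rintro ⟨X, h1, h2, h3⟩
      exact (hcon X h1 h2 _ h3).1 (by simp))
  apply hx'
  simp only [hu]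
  refine if_neg ?_
  rintro ⟨X, h1, h2, h3⟩
  exact (hcon X h1 h2 _ h3).2 (by simp)

/-! ### Long closed dual paths are unlikely -/

/-- the four directions -/
def dirv : Fin 4 → ℤ × ℤ
  | 0 => (0, 1)
  | 1 => (0, -1)
  | 2 => (1, 0)
  | 3 => (-1, 0)

/-- the index of the primal edge crossed by the dual edge from `P` in direction `a` -/
def cidx (P : ℤ × ℤ) : Fin 4 → ℤ × ℤ × Bool
  | 0 => (P.1 - 1, P.2, false)
  | 1 => (P.1 - 1, P.2 - 1, false)
  | 2 => (P.1, P.2 - 1, true)
  | 3 => (P.1 - 1, P.2 - 1, true)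

theorem cidx_inj {P Q : ℤ × ℤ} {a b : Fin 4} (h : cidx P a = cidx Q b) :
    (P = Q ∧ P + dirv a = Q + dirv b) ∨ (P = Q + dirv b ∧ P + dirv a = Q) := by
  obtain ⟨p, q⟩ := P
  obtain ⟨p', q'⟩ := Q
  fin_cases a <;> fin_cases b <;>
    simp only [cidx, dirv, Prod.mk.injEq, Prod.mk_add_mk, Fin.zero_eta, Fin.mk_one,
      Fin.reduceFinMk, reduceCtorEq, and_false, and_true] at h ⊢ <;> omega

theorem Dl_dir {η : ℤ × ℤ × Bool → Bool} {P Q : ℤ × ℤ} (h : (Dl η).Adj P Q) :
    ∃ a : Fin 4, Q = P + dirv a ∧ η (cidx P a) = false := by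
  obtain ⟨p, q⟩ := P
  obtain ⟨p', q'⟩ := Q
  rcases h with ⟨a, b⟩ | ⟨a, b⟩ | ⟨a, b⟩ | ⟨a, b⟩
  · exact ⟨0, by rw [a]; simp [dirv], b⟩
  · obtain ⟨h1, h2⟩ := Prod.mk.inj a
    simp only at h1 h2 b
    subst h1 h2
    refine ⟨1, by simp [dirv], ?_⟩
    simp only [cidx, add_sub_cancel_right]
    exact b
  · exact ⟨2, by rw [a]; simp [dirv], b⟩
  · obtain ⟨h1, h2⟩ := Prod.mk.inj a
    simp only at h1 h2 b
    subst h1 h2
    refine ⟨3, by simp [dirv], ?_⟩
    simp only [cidx, add_sub_cancel_right]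
    exact b

theorem Dl_dist {η : ℤ × ℤ × Bool → Bool} {P Q : ℤ × ℤ} (p : (Dl η).Walk P Q) :
    |Q.1 - P.1| + |Q.2 - P.2| ≤ (p.length : ℤ) := by
  induction p with
  | nil => simp
  | @cons a b c h p ih =>
    have h1 : |b.1 - a.1| + |b.2 - a.2| ≤ 1 := by
      rcases h with ⟨e, _⟩ | ⟨e, _⟩ | ⟨e, _⟩ | ⟨e, _⟩ <;> rw [e] <;> simp
    rw [SimpleGraph.Walk.length_cons]
    push_cast
    have h2 := abs_sub_le c.1 b.1 a.1
    have h3 := abs_sub_le c.2 b.2 a.2
    linarith

/-- position after `i` steps -/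
def posn (P : ℤ × ℤ) {n : ℕ} (d : Fin n → Fin 4) (i : ℕ) : ℤ × ℤ :=
  P + ∑ j ∈ univ.filter (fun j : Fin n => j.val < i), dirv (d j)

theorem posn_succ (P : ℤ × ℤ) {n : ℕ} (d : Fin n → Fin 4) (i : Fin n) :
    posn P d (i.val + 1) = posn P d i.val + dirv (d i) := by
  unfold posn
  have h : univ.filter (fun j : Fin n => j.val < i.val + 1) =
      insert i (univ.filter (fun j : Fin n => j.val < i.val)) := by
    ext j
    simp only [mem_filter, mem_univ, true_and, mem_insert, Fin.ext_iff]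
    omega
  rw [h, sum_insert (by simp)]
  abel

/-- there is a closed dual path from `P` to distance `n` -/
def far (P : ℤ × ℤ) (n : ℕ) : Set (ℤ × ℤ × Bool → Bool) :=
  {η | ∃ Q, (Dl η).Reachable P Q ∧ (n : ℤ) ≤ |Q.1 - P.1| + |Q.2 - P.2|}

theorem far_sub (P : ℤ × ℤ) (n : ℕ) : far P n ⊆
    ⋃ d ∈ (univ.filter fun d : Fin n → Fin 4 =>
        Function.Injective fun i : Fin n => cidx (posn P d i.val) (d i)),
      {η | ∀ i : Fin n, η (cidx (posn P d i.val) (d i)) = false} := by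
  classical
  rintro η ⟨Q, hQ, hn⟩
  obtain ⟨p, hp⟩ := hQ.exists_isPath
  have hlen : n ≤ p.length := by
    have := Dl_dist p
    have h2 : (n : ℤ) ≤ p.length := hn.trans this
    exact_mod_cast h2
  have hadj : ∀ i : Fin n, ∃ a : Fin 4, p.getVert (i.val + 1) = p.getVert i.val + dirv a ∧
      η (cidx (p.getVert i.val) a) = false := fun i =>
    Dl_dir (p.adj_getVert_succ (by have := i.2; omega))
  choose d hd hc using hadj
  have hpos : ∀ i : ℕ, i ≤ n → posn P d i = p.getVert i := by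
    intro i
    induction i with
    | zero =>
      intro _
      simp [posn]
    | succ i ih =>
      intro hi
      have h1 := posn_succ P d ⟨i, by omega⟩
      simp only at h1
      rw [h1, ih (by omega), ← hd ⟨i, by omega⟩]
  simp only [Set.mem_iUnion, mem_filter, mem_univ, true_and, exists_prop, Set.mem_ofPred_eq]
  refine ⟨d, ?_, fun i => ?_⟩
  · intro i j hij
    simp only at hij
    have e1 := hpos i.val (by have := i.2; omega)
    have e2 := hpos j.val (by have := j.2; omega)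
    have e3 := hpos (i.val + 1) (by have := i.2; omega)
    have e4 := hpos (j.val + 1) (by have := j.2; omega)
    have hinj := hp.getVert_injOn
    have m1 : i.val ∈ {i | i ≤ p.length} := by
      simp only [Set.mem_ofPred_eq]; have := i.2; omega
    have m2 : j.val ∈ {i | i ≤ p.length} := by
      simp only [Set.mem_ofPred_eq]; have := j.2; omega
    have m3 : i.val + 1 ∈ {i | i ≤ p.length} := by
      simp only [Set.mem_ofPred_eq]; have := i.2; omega
    have m4 : j.val + 1 ∈ {i | i ≤ p.length} := by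
      simp only [Set.mem_ofPred_eq]; have := j.2; omega
    rcases cidx_inj hij with ⟨h1, _⟩ | ⟨h1, h2⟩
    · rw [e1, e2] at h1
      exact Fin.ext (hinj m1 m2 h1)
    · rw [← posn_succ, e1, e4] at h1
      rw [← posn_succ, e3, e2] at h2
      have a1 := hinj m1 m4 h1
      have a2 := hinj m3 m2 h2
      omega
  · rw [hpos i.val (by have := i.2; omega)]
    exact hc i

theorem far_prob {p : ℝ} (hp : 0 ≤ p ∧ p ≤ 1) (P : ℤ × ℤ) (n : ℕ) :
    (PP (ℤ × ℤ × Bool) p).real (far P n) ≤ (4 * (1 - p)) ^ n := by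
  classical
  have := PP_prob (ι := ℤ × ℤ × Bool) hp
  refine (measureReal_mono (far_sub P n) (measure_ne_top _ _)).trans ?_
  refine (measureReal_biUnion_finset_le _ _).trans ?_
  have h1 : ∀ d ∈ (univ.filter fun d : Fin n → Fin 4 =>
        Function.Injective fun i : Fin n => cidx (posn P d i.val) (d i)),
      (PP (ℤ × ℤ × Bool) p).real {η | ∀ i : Fin n, η (cidx (posn P d i.val) (d i)) = false} =
        (1 - p) ^ n := by
    intro d hd
    rw [prob_all hp (fun i : Fin n => cidx (posn P d i.val) (d i)) (mem_filter.1 hd).2 false]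
    simp
  rw [sum_congr rfl h1, sum_const, nsmul_eq_mul, mul_pow]
  refine mul_le_mul_of_nonneg_right ?_ (pow_nonneg (by linarith [hp.2]) n)
  have h2 : ((univ.filter fun d : Fin n → Fin 4 =>
        Function.Injective fun i : Fin n => cidx (posn P d i.val) (d i)).card : ℝ) ≤
      ((univ : Finset (Fin n → Fin 4)).card : ℝ) := by
    exact_mod_cast card_filter_le _ _
  refine h2.trans (le_of_eq ?_)
  simp

/-- The crossing event in the strip. -/
def goodS (w k : ℕ) : Set (ℤ × ℤ × Bool → Bool) :=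
  {η | ∃ y : ℤ, Rst (strip w k) η (0, 0) ((w : ℤ), y)}

/-- the indices in the strip -/
noncomputable def stripIdx (w k : ℕ) : Finset (ℤ × ℤ × Bool) :=
  (Finset.Icc (0 : ℤ) w) ×ˢ ((Finset.Ico (0 : ℤ) k) ×ˢ (univ : Finset Bool))

theorem goodS_dep (w k : ℕ) : Dep (stripIdx w k) (goodS w k) := by
  rintro ω ω' h ⟨y, hy⟩
  refine ⟨y, hy.dep fun a b c hab => h _ ?_⟩
  simp only [strip, Set.mem_ofPred_eq] at hab
  simp only [stripIdx, mem_product, Finset.mem_Icc, Finset.mem_Ico, mem_univ, and_true]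
  omega

theorem sum_geo (w : ℕ) : ∑ i ∈ range w, ((1 : ℝ) / 10) ^ (i + 1) ≤ 1 / 9 := by
  have h1 : ∀ w : ℕ, ∑ i ∈ range w, ((1 : ℝ) / 10) ^ (i + 1) = 1 / 9 - (1 / 9) * (1 / 10) ^ w := by
    intro w
    induction w with
    | zero => simp
    | succ w ih =>
      rw [sum_range_succ, ih]
      ring
  rw [h1]
  have : (0 : ℝ) ≤ (1 / 9) * (1 / 10) ^ w := by positivity
  linarith

theorem goodS_prob {w k : ℕ} (hk : 0 < k) (hw : (w : ℝ) ≤ 10 ^ k / 8) :
    3 / 4 ≤ (PP (ℤ × ℤ × Bool) (39 / 40)).real (goodS w k) := by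
  have hp : (0 : ℝ) ≤ 39 / 40 ∧ (39 / 40 : ℝ) ≤ 1 := by norm_num
  have := PP_prob (ι := ℤ × ℤ × Bool) hp
  have h1 : (goodS w k)ᶜ ⊆ ⋃ i ∈ range w, far ((((i + 1 : ℕ) : ℤ)), 0) (min (i + 1) k) := by
    intro η hη
    have h2 : ∀ y : ℤ, ¬ Rst (strip w k) η (0, 0) ((w : ℤ), y) := fun y hy => hη ⟨y, hy⟩
    obtain ⟨X, hX1, hXw, Q, hQ, hQ'⟩ := dual_path hk h2
    simp only [Set.mem_iUnion, Finset.mem_range, exists_prop]
    refine ⟨X - 1, by omega, Q, ?_, ?_⟩
    · rw [show X - 1 + 1 = X by omega]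
      exact hQ
    · rw [show X - 1 + 1 = X by omega]
      simp only
      rcases hQ' with h | h
      · rw [h, zero_sub, abs_neg, Nat.abs_cast]
        have := abs_nonneg (Q.2 - 0)
        have h4 : ((min X k : ℕ) : ℤ) ≤ X := by exact_mod_cast min_le_left _ _
        linarith
      · rw [h, sub_zero, Nat.abs_cast]
        have := abs_nonneg (Q.1 - (X : ℤ))
        have h4 : ((min X k : ℕ) : ℤ) ≤ k := by exact_mod_cast min_le_right _ _
        linarith
  have h2 : (PP (ℤ × ℤ × Bool) (39 / 40)).real (goodS w k)ᶜ ≤ 1 / 4 := by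
    refine (measureReal_mono h1 (measure_ne_top _ _)).trans ((measureReal_biUnion_finset_le _ _).trans ?_)
    have h3 : ∀ i ∈ range w, (PP (ℤ × ℤ × Bool) (39 / 40)).real
        (far ((((i + 1 : ℕ) : ℤ)), 0) (min (i + 1) k)) ≤ (1 / 10) ^ (i + 1) + (1 / 10) ^ k := by
      intro i _
      refine (far_prob hp _ _).trans ?_
      rw [show (4 : ℝ) * (1 - 39 / 40) = 1 / 10 by norm_num]
      rcases le_total (i + 1) k with h | h
      · rw [min_eq_left h]
        have : (0 : ℝ) ≤ (1 / 10) ^ k := by positivity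
        linarith
      · rw [min_eq_right h]
        have : (0 : ℝ) ≤ (1 / 10) ^ (i + 1) := by positivity
        linarith
    refine (sum_le_sum h3).trans ?_
    rw [sum_add_distrib, sum_const, card_range, nsmul_eq_mul]
    have h4 := sum_geo w
    have h5 : (w : ℝ) * (1 / 10) ^ k ≤ 1 / 8 := by
      rw [div_pow, one_pow, mul_one_div, div_le_iff₀ (by positivity)]
      linarith
    linarith
  rw [probReal_compl_eq_one_sub (goodS_dep w k).measurableSet] at h2
  linarith

end Pool.Agent.V11325.Perc
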