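import Pool.Agent.V11325.PercLen

/-!
# Percolation on thin tori
-/

namespace Pool.Agent.V11325.Perc

open MeasureTheory Measure Finset Filter
open Pool.Agent.TH996.Park

/-! ### General definitions -/

/-- the graph of kept edges -/
def kept {V : Type} (G : SimpleGraph V) (ω : G.edgeSet → Bool) : SimpleGraph V where
  Adj x y := ∃ h : G.Adj x y, ω ⟨s(x, y), h⟩ = true
  symm := ⟨fun x y ⟨h, h'⟩ => ⟨h.symm, by
    have e : (⟨s(y, x), h.symm⟩ : G.edgeSet) = ⟨s(x, y), h⟩ := Subtype.ext Sym2.eq_swap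
    rw [e]
    exact h'⟩⟩
  loopless := ⟨fun x ⟨h, _⟩ => h.ne rfl⟩

/-- the torus graph -/
def torus (m k : ℕ) : SimpleGraph (ZMod m × ZMod k) where
  Adj x y := x ≠ y ∧ (y = (x.1 + 1, x.2) ∨ x = (y.1 + 1, y.2) ∨ y = (x.1, x.2 + 1) ∨
    x = (y.1, y.2 + 1))
  symm := ⟨fun x y h => ⟨h.1.symm, by tauto⟩⟩
  loopless := ⟨fun x h => h.1 rfl⟩

section

variable {m k : ℕ}

theorem one_ne (hm : 3 ≤ m) : (1 : ZMod m) ≠ 0 := by
  intro h
  have h1 : ((1 : ℕ) : ZMod m) = 0 := by simpa using h
  rw [ZMod.natCast_eq_zero_iff] at h1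
  have := Nat.le_of_dvd (by norm_num) h1
  omega

theorem two_ne (hm : 3 ≤ m) : (1 + 1 : ZMod m) ≠ 0 := by
  intro h
  have h1 : ((2 : ℕ) : ZMod m) = 0 := by
    push_cast
    rw [← h]
    norm_num
  rw [ZMod.natCast_eq_zero_iff] at h1
  have := Nat.le_of_dvd (by norm_num) h1
  omega

theorem adj_right (hm : 3 ≤ m) (x : ZMod m × ZMod k) : (torus m k).Adj x (x.1 + 1, x.2) := by
  refine ⟨fun h => one_ne hm ?_, Or.inl rfl⟩
  have := congrArg Prod.fst h
  simpa using this

theorem adj_up (hk : 3 ≤ k) (x : ZMod m × ZMod k) : (torus m k).Adj x (x.1, x.2 + 1) := by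
  refine ⟨fun h => one_ne hk ?_, Or.inr (Or.inr (Or.inl rfl))⟩
  have := congrArg Prod.snd h
  simpa using this

/-- the edge with a given index -/
def edg (hm : 3 ≤ m) (hk : 3 ≤ k) (i : ZMod m × ZMod k × Bool) : (torus m k).edgeSet :=
  if i.2.2 = true then ⟨s((i.1, i.2.1), (i.1, i.2.1 + 1)), adj_up hk (i.1, i.2.1)⟩
  else ⟨s((i.1, i.2.1), (i.1 + 1, i.2.1)), adj_right hm (i.1, i.2.1)⟩

theorem edg_inj (hm : 3 ≤ m) (hk : 3 ≤ k) : Function.Injective (edg hm hk) := by
  rintro ⟨a, b, c⟩ ⟨a', b', c'⟩ h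
  have h1 := congrArg Subtype.val h
  cases c <;> cases c'
  · simp only [edg, Bool.false_eq_true, if_false, Sym2.eq_iff, Prod.mk.injEq] at h1
    rcases h1 with ⟨⟨h1, h2⟩, _⟩ | ⟨⟨h1, h2⟩, h3, _⟩
    · rw [h1, h2]
    · exfalso
      apply two_ne hm
      rw [h1, add_assoc] at h3
      simpa using h3
  · simp only [edg, Bool.false_eq_true, if_false, if_true, Sym2.eq_iff, Prod.mk.injEq] at h1
    exfalso
    rcases h1 with ⟨⟨h1, h2⟩, h3, h4⟩ | ⟨⟨h1, h2⟩, h3, h4⟩
    · apply one_ne hm
      rw [h1] at h3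
      simpa using h3
    · apply one_ne hm
      rw [h1] at h3
      simpa using h3
  · simp only [edg, Bool.false_eq_true, if_false, if_true, Sym2.eq_iff, Prod.mk.injEq] at h1
    exfalso
    rcases h1 with ⟨⟨h1, h2⟩, h3, h4⟩ | ⟨⟨h1, h2⟩, h3, h4⟩
    · apply one_ne hk
      rw [h2] at h4
      simpa using h4
    · apply one_ne hm
      rw [h1] at h3
      simpa using h3
  · simp only [edg, if_true, Sym2.eq_iff, Prod.mk.injEq] at h1
    rcases h1 with ⟨⟨h1, h2⟩, _⟩ | ⟨⟨h1, h2⟩, _, h3⟩
    · rw [h1, h2]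
    · exfalso
      apply two_ne hk
      rw [h2, add_assoc] at h3
      simpa using h3

theorem kept_adj (hm : 3 ≤ m) (hk : 3 ≤ k) (ω : (torus m k).edgeSet → Bool)
    (x y : ZMod m × ZMod k) :
    (kept (torus m k) ω).Adj x y ↔ Opn (fun i => ω (edg hm hk i)) x y := by
  constructor
  · rintro ⟨h, h'⟩
    rcases h.2 with e | e | e | e
    · refine Or.inl ⟨e, ?_⟩
      subst e
      exact h'
    · refine Or.inr (Or.inl ⟨e, ?_⟩)
      subst e
      have e1 : edg hm hk (y.1, y.2, false) = ⟨s((y.1 + 1, y.2), y), h⟩ := Subtype.ext Sym2.eq_swap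
      simp only
      rw [e1]
      exact h'
    · refine Or.inr (Or.inr (Or.inl ⟨e, ?_⟩))
      subst e
      exact h'
    · refine Or.inr (Or.inr (Or.inr ⟨e, ?_⟩))
      subst e
      have e1 : edg hm hk (y.1, y.2, true) = ⟨s((y.1, y.2 + 1), y), h⟩ := Subtype.ext Sym2.eq_swap
      simp only
      rw [e1]
      exact h'
  · rintro (⟨e, h⟩ | ⟨e, h⟩ | ⟨e, h⟩ | ⟨e, h⟩)
    · subst e
      exact ⟨adj_right hm x, h⟩
    · subst e
      have : (kept (torus m k) ω).Adj y (y.1 + 1, y.2) := ⟨adj_right hm y, h⟩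
      exact this.symm
    · subst e
      exact ⟨adj_up hk x, h⟩
    · subst e
      have : (kept (torus m k) ω).Adj y (y.1, y.2 + 1) := ⟨adj_up hk y, h⟩
      exact this.symm

theorem kept_reach (hm : 3 ≤ m) (hk : 3 ≤ k) (ω : (torus m k).edgeSet → Bool)
    (x y : ZMod m × ZMod k) :
    (kept (torus m k) ω).Reachable x y ↔ Rst Set.univ (fun i => ω (edg hm hk i)) x y := by
  rw [SimpleGraph.reachable_iff_reflTransGen]
  unfold Rst
  constructor
  · exact rtg_mono fun a b h => ⟨(kept_adj hm hk ω a b).1 h, Set.mem_univ _, Set.mem_univ _⟩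
  · exact rtg_mono fun a b h => (kept_adj hm hk ω a b).2 h.1

/-! ### Distances -/

theorem walk_right (hm : 3 ≤ m) (x : ZMod m × ZMod k) (n : ℕ) :
    ∃ w : (torus m k).Walk x (x.1 + n, x.2), w.length = n := by
  induction n with
  | zero =>
    refine ⟨SimpleGraph.Walk.nil.copy rfl (by simp), by simp⟩
  | succ n ih =>
    obtain ⟨w, hw⟩ := ih
    have ha := adj_right (k := k) hm (x.1 + (n : ZMod m), x.2)
    refine ⟨(w.concat ha).copy rfl (by push_cast; simp [add_assoc]), ?_⟩
    simp [hw]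

theorem walk_up (hk : 3 ≤ k) (x : ZMod m × ZMod k) (n : ℕ) :
    ∃ w : (torus m k).Walk x (x.1, x.2 + n), w.length = n := by
  induction n with
  | zero =>
    refine ⟨SimpleGraph.Walk.nil.copy rfl (by simp), by simp⟩
  | succ n ih =>
    obtain ⟨w, hw⟩ := ih
    have ha := adj_up (m := m) hk (x.1, x.2 + (n : ZMod k))
    refine ⟨(w.concat ha).copy rfl (by push_cast; simp [add_assoc]), ?_⟩
    simp [hw]

theorem zmod_short [NeZero m] (z : ZMod m) : ∃ n : ℕ, n ≤ m / 2 ∧ (z = n ∨ z = -(n : ZMod m)) := by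
  refine ⟨z.valMinAbs.natAbs, ZMod.natAbs_valMinAbs_le z, ?_⟩
  have h := ZMod.coe_valMinAbs z
  rcases Int.natAbs_eq z.valMinAbs with h1 | h1
  · left
    conv_lhs => rw [← h, h1]
    rw [Int.cast_natCast]
  · right
    conv_lhs => rw [← h, h1]
    rw [Int.cast_neg, Int.cast_natCast]

theorem walk_first [NeZero m] (hm : 3 ≤ m) (x : ZMod m × ZMod k) (a : ZMod m) :
    ∃ w : (torus m k).Walk x (a, x.2), w.length ≤ m / 2 := by
  obtain ⟨n, hn, h | h⟩ := zmod_short (a - x.1)
  · obtain ⟨w, hw⟩ := walk_right hm x n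
    refine ⟨w.copy rfl (by rw [← h]; simp), by simpa [hw] using hn⟩
  · obtain ⟨w, hw⟩ := walk_right hm (a, x.2) n
    refine ⟨(w.copy rfl (by
      have : (n : ZMod m) = x.1 - a := by linear_combination h
      rw [this]
      simp : ((a, x.2).1 + (n : ZMod m), (a, x.2).2) = x)).reverse, by simpa [hw] using hn⟩

theorem walk_second [NeZero k] (hk : 3 ≤ k) (x : ZMod m × ZMod k) (a : ZMod k) :
    ∃ w : (torus m k).Walk x (x.1, a), w.length ≤ k / 2 := by
  obtain ⟨n, hn, h | h⟩ := zmod_short (a - x.2)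
  · obtain ⟨w, hw⟩ := walk_up hk x n
    refine ⟨w.copy rfl (by rw [← h]; simp), by simpa [hw] using hn⟩
  · obtain ⟨w, hw⟩ := walk_up hk (x.1, a) n
    refine ⟨(w.copy rfl (by
      have : (n : ZMod k) = x.2 - a := by linear_combination h
      rw [this]
      simp : ((x.1, a).1, (x.1, a).2 + (n : ZMod k)) = x)).reverse, by simpa [hw] using hn⟩

theorem walk_all [NeZero m] [NeZero k] (hm : 3 ≤ m) (hk : 3 ≤ k) (x y : ZMod m × ZMod k) :
    ∃ w : (torus m k).Walk x y, w.length ≤ m / 2 + k / 2 := by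
  obtain ⟨w1, h1⟩ := walk_first hm x y.1
  obtain ⟨w2, h2⟩ := walk_second hk (y.1, x.2) y.2
  refine ⟨w1.append w2, ?_⟩
  rw [SimpleGraph.Walk.length_append]
  omega

theorem torus_connected [NeZero m] [NeZero k] (hm : 3 ≤ m) (hk : 3 ≤ k) :
    (torus m k).Connected := by
  haveI : Nonempty (ZMod m × ZMod k) := ⟨(0, 0)⟩
  rw [SimpleGraph.connected_iff]
  exact ⟨fun x y => ⟨(walk_all hm hk x y).choose⟩, inferInstance⟩

theorem torus_diam [NeZero m] [NeZero k] (hm : 3 ≤ m) (hk : 3 ≤ k) :
    (torus m k).diam ≤ m / 2 + k / 2 := by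
  haveI : Nonempty (ZMod m × ZMod k) := ⟨(0, 0)⟩
  obtain ⟨u, v, h⟩ := (torus m k).exists_dist_eq_diam
  rw [← h]
  obtain ⟨w, hw⟩ := walk_all hm hk u v
  exact ((torus m k).dist_le w).trans hw

theorem walk_disp {x y : ZMod m × ZMod k} (w : (torus m k).Walk x y) :
    ∃ c : ℤ, |c| ≤ w.length ∧ y.1 = x.1 + c := by
  induction w with
  | nil => exact ⟨0, by simp, by simp⟩
  | @cons a b c h p ih =>
    obtain ⟨d, hd, he⟩ := ih
    have h1 : ∃ e : ℤ, |e| ≤ 1 ∧ b.1 = a.1 + e := by
      rcases h.2 with e | e | e | e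
      · exact ⟨1, by simp, by rw [e]; simp⟩
      · exact ⟨-1, by simp, by rw [e]; simp⟩
      · exact ⟨0, by simp, by rw [e]; simp⟩
      · exact ⟨0, by simp, by rw [e]; simp⟩
    obtain ⟨e, h2, h3⟩ := h1
    refine ⟨d + e, ?_, ?_⟩
    · rw [SimpleGraph.Walk.length_cons]
      push_cast
      exact (abs_add_le d e).trans (by linarith)
    · rw [he, h3]
      push_cast
      ring

theorem dist_lower [NeZero m] [NeZero k] (hm : 3 ≤ m) (hk : 3 ≤ k) {L : ℕ} (hL : 2 * L < m)
    (x : ZMod m × ZMod k) (y : ZMod k) :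
    L ≤ (torus m k).dist x (x.1 + (L : ZMod m), y) := by
  obtain ⟨w, hw⟩ := (torus_connected hm hk).exists_walk_length_eq_dist x (x.1 + (L : ZMod m), y)
  rw [← hw]
  obtain ⟨c, hc, he⟩ := walk_disp w
  by_contra hlt
  push Not at hlt
  have h1 : ((L : ℤ) : ZMod m) = (c : ZMod m) := by
    push_cast
    linear_combination he
  rw [ZMod.intCast_eq_intCast_iff_dvd_sub] at h1
  have h2 := abs_le.1 hc
  have h3 : (m : ℤ) ∣ L - c := by
    have := (dvd_neg (α := ℤ)).2 h1
    simpa using this
  have h4 := Int.le_of_dvd (by omega) h3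
  omega

/-! ### Transitivity, degree -/

theorem torus_trans (x y : ZMod m × ZMod k) : ∃ φ : torus m k ≃g torus m k, φ x = y := by
  refine ⟨⟨Equiv.addRight (y - x), ?_⟩, ?_⟩
  · intro a b
    simp only [Equiv.coe_addRight, torus, ne_eq]
    have e : ∀ (u v s : ZMod m × ZMod k), v + s = ((u + s).1 + 1, (u + s).2) ↔
        v = (u.1 + 1, u.2) := by
      intro u v s
      constructor
      · intro h
        have h1 := congrArg Prod.fst h
        have h2 := congrArg Prod.snd h
        simp only [Prod.fst_add, Prod.snd_add] at h1 h2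
        refine Prod.ext ?_ ?_
        · simp only
          linear_combination h1
        · simp only
          linear_combination h2
      · intro h
        rw [h]
        refine Prod.ext ?_ rfl
        simp only [Prod.fst_add]
        ring
    have e' : ∀ (u v s : ZMod m × ZMod k), v + s = ((u + s).1, (u + s).2 + 1) ↔
        v = (u.1, u.2 + 1) := by
      intro u v s
      constructor
      · intro h
        have h1 := congrArg Prod.fst h
        have h2 := congrArg Prod.snd h
        simp only [Prod.fst_add, Prod.snd_add] at h1 h2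
        refine Prod.ext ?_ ?_
        · simp only
          linear_combination h1
        · simp only
          linear_combination h2
      · intro h
        rw [h]
        refine Prod.ext rfl ?_
        simp only [Prod.snd_add]
        ring
    rw [e, e, e', e', add_left_inj (y - x)]
  · simp

theorem torus_degree (hm : 3 ≤ m) (hk : 3 ≤ k) (x : ZMod m × ZMod k) :
    ((torus m k).neighborSet x).ncard = 4 := by
  classical
  have h : (torus m k).neighborSet x =
      (({(x.1 + 1, x.2), (x.1 - 1, x.2), (x.1, x.2 + 1), (x.1, x.2 - 1)} :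
        Finset (ZMod m × ZMod k)) : Set (ZMod m × ZMod k)) := by
    ext y
    simp only [SimpleGraph.mem_neighborSet, coe_insert, coe_singleton, Set.mem_insert_iff,
      Set.mem_singleton_iff]
    constructor
    · rintro ⟨_, e | e | e | e⟩
      · exact Or.inl e
      · refine Or.inr (Or.inl ?_)
        rw [e]
        simp
      · exact Or.inr (Or.inr (Or.inl e))
      · refine Or.inr (Or.inr (Or.inr ?_))
        rw [e]
        simp
    · rintro (e | e | e | e)
      · rw [e]
        exact adj_right hm x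
      · rw [e]
        have := (adj_right (k := k) hm (x.1 - 1, x.2)).symm
        simpa using this
      · rw [e]
        exact adj_up hk x
      · rw [e]
        have := (adj_up (m := m) hk (x.1, x.2 - 1)).symm
        simpa using this
  rw [h, Set.ncard_coe_finset]
  have h1 := one_ne hm
  have h2 := two_ne hm
  have h3 := one_ne hk
  have h4 := two_ne hk
  have h1' : (-1 : ZMod m) ≠ 0 := by simpa using h1
  have h3' : (-1 : ZMod k) ≠ 0 := by simpa using h3
  rw [card_insert_of_notMem, card_insert_of_notMem, card_insert_of_notMem, card_singleton]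
  · simp only [mem_singleton, Prod.mk.injEq, true_and]
    intro h
    apply h4
    linear_combination h
  · simp only [mem_insert, mem_singleton, Prod.mk.injEq, not_or, not_and]
    refine ⟨fun h => absurd ?_ h1, fun h => absurd ?_ h1⟩ <;> linear_combination -h
  · simp only [mem_insert, mem_singleton, Prod.mk.injEq, not_or, not_and]
    refine ⟨fun h => absurd ?_ h2, fun h => absurd ?_ h1, fun h => absurd ?_ h1⟩ <;>
      linear_combination h

end

end Pool.Agent.V11325.Perc
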