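import Pool.Agent.V11325.StatUnique

/-!
# The multispecies TASEP on a ring
-/

open Finset

namespace Pool.Agent.V11325.Tasep

section model

variable {n : ℕ} [NeZero n]

/-- The word obtained from `w` when the entry at position `i` swaps places with its cyclic left
neighbour; `w i` is the entry at position `i`. Positions and entries are numbered from `0`. -/
def swapLeft (w : Equiv.Perm (Fin n)) (i : Fin n) : Equiv.Perm (Fin n) := w * Equiv.swap (i - 1) i

/-- The generator: the entry `w i` has a clock of rate `1 / t (w i)`; when it rings the entry swaps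
with its cyclic left neighbour if that neighbour is larger. -/
noncomputable def gen (t : Fin n → ℝ) : Matrix (Equiv.Perm (Fin n)) (Equiv.Perm (Fin n)) ℝ :=
  fun w w' => ∑ i, if w i < w (i - 1) then
    (1 / t (w i)) * ((if swapLeft w i = w' then 1 else 0) - (if w = w' then 1 else 0)) else 0

/-- Stationary distributions. -/
def IsStationary (t : Fin n → ℝ) (π : Equiv.Perm (Fin n) → ℝ) : Prop :=
  (∀ w, 0 ≤ π w) ∧ ∑ w, π w = 1 ∧ ∀ w', ∑ w, π w * gen t w w' = 0

/-- The event `E` which prescribes the positions of the small entries `0, …, k - 1`: the entry `a`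
is at position `pos a`. -/
def event (k : ℕ) (pos : Fin n → Fin n) : Finset (Equiv.Perm (Fin n)) :=
  univ.filter (fun w => ∀ a : Fin n, (a : ℕ) < k → w (pos a) = a)

/-- The arrangement of the large entries `k, …, n - 1`, read from left to right. -/
def arrangement (k : ℕ) (w : Equiv.Perm (Fin n)) : List (Fin n) :=
  ((List.finRange n).map w).filter (fun a => k ≤ (a : ℕ))

/-- The large entries in increasing order. -/
def increasing (n k : ℕ) : List (Fin n) := (List.finRange n).filter (fun a => k ≤ (a : ℕ))

/-- The arrangement is a cyclic rotation of `k (k+1) … (n-1)`. -/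
def CycAscending (k : ℕ) (w : Equiv.Perm (Fin n)) : Prop :=
  (arrangement k w).IsRotated (increasing n k)

/-- The conditional probability, given the event `E`, of the arrangement of the word `w ∈ E`. (A
word in `E` is determined by its arrangement.) -/
noncomputable def condProb (π : Equiv.Perm (Fin n) → ℝ) (k : ℕ) (pos : Fin n → Fin n)
    (w : Equiv.Perm (Fin n)) : ℝ := π w / ∑ w' ∈ event k pos, π w'

theorem swapLeft_apply (w : Equiv.Perm (Fin n)) (i j : Fin n) :
    swapLeft w i j = w (Equiv.swap (i - 1) i j) := rfl

theorem swapLeft_left (w : Equiv.Perm (Fin n)) (i : Fin n) : swapLeft w i (i - 1) = w i := by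
  rw [swapLeft_apply, Equiv.swap_apply_left]

theorem swapLeft_self (w : Equiv.Perm (Fin n)) (i : Fin n) : swapLeft w i i = w (i - 1) := by
  rw [swapLeft_apply, Equiv.swap_apply_right]

theorem swapLeft_swapLeft (w : Equiv.Perm (Fin n)) (i : Fin n) :
    swapLeft (swapLeft w i) i = w := by
  unfold swapLeft
  rw [mul_assoc, Equiv.swap_mul_self, mul_one]

/-- the inflow and the outflow at a word -/
theorem sum_gen (t : Fin n → ℝ) (π : Equiv.Perm (Fin n) → ℝ) (w' : Equiv.Perm (Fin n)) :
    ∑ w, π w * gen t w w' =
      (∑ i, if w' (i - 1) < w' i then (1 / t (w' (i - 1))) * π (swapLeft w' i) else 0) -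
        ∑ i, if w' i < w' (i - 1) then (1 / t (w' i)) * π w' else 0 := by
  unfold gen
  simp only [Finset.mul_sum]
  rw [Finset.sum_comm, ← Finset.sum_sub_distrib]
  refine Finset.sum_congr rfl fun i _ => ?_
  have h1 : ∀ w : Equiv.Perm (Fin n), π w * (if w i < w (i - 1) then
      (1 / t (w i)) * ((if swapLeft w i = w' then 1 else 0) - (if w = w' then 1 else 0)) else 0) =
      (if w = swapLeft w' i then (if w' (i - 1) < w' i then
        (1 / t (w' (i - 1))) * π (swapLeft w' i) else 0) else 0) -
      (if w = w' then (if w' i < w' (i - 1) then (1 / t (w' i)) * π w' else 0) else 0) := by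
    intro w
    have e1 : (swapLeft w i = w') ↔ (w = swapLeft w' i) := by
      constructor
      · intro h
        rw [← h, swapLeft_swapLeft]
      · intro h
        rw [h, swapLeft_swapLeft]
    have e2 : (if w = swapLeft w' i then (if w' (i - 1) < w' i then
        (1 / t (w' (i - 1))) * π (swapLeft w' i) else 0) else 0) =
        (if w i < w (i - 1) then (1 / t (w i)) * (π w * (if swapLeft w i = w' then 1 else 0))
          else 0) := by
      by_cases h : w = swapLeft w' i
      · rw [if_pos h, if_pos (e1.2 h), mul_one]
        subst h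
        rw [swapLeft_self, swapLeft_left]
      · rw [if_neg h, if_neg (fun h' => h (e1.1 h')), mul_zero, mul_zero, ite_self]
    have e3 : (if w = w' then (if w' i < w' (i - 1) then (1 / t (w' i)) * π w' else 0) else 0) =
        (if w i < w (i - 1) then (1 / t (w i)) * (π w * (if w = w' then 1 else 0)) else 0) := by
      by_cases h : w = w'
      · rw [if_pos h, if_pos h, mul_one, h]
      · rw [if_neg h, if_neg h, mul_zero, mul_zero, ite_self]
    rw [e2, e3]
    split_ifs <;> ring
  rw [Finset.sum_congr rfl (fun w _ => h1 w), Finset.sum_sub_distrib, Finset.sum_ite_eq',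
    Finset.sum_ite_eq', if_pos (mem_univ _), if_pos (mem_univ _)]

theorem gen_nonneg {t : Fin n → ℝ} (ht : ∀ i, 0 < t i) {w w' : Equiv.Perm (Fin n)} (h : w ≠ w') :
    0 ≤ gen t w w' := by
  unfold gen
  refine Finset.sum_nonneg fun i _ => ?_
  rw [if_neg h, sub_zero]
  have := ht (w i)
  split_ifs <;> positivity

theorem gen_pos {t : Fin n → ℝ} (ht : ∀ i, 0 < t i) {w : Equiv.Perm (Fin n)} {i : Fin n}
    (h : w i < w (i - 1)) : w ≠ swapLeft w i ∧ 0 < gen t w (swapLeft w i) := by
  have hne : w ≠ swapLeft w i := by
    intro h1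
    have h2 : w i = swapLeft w i i := by rw [← h1]
    rw [swapLeft_self] at h2
    rw [h2] at h
    exact lt_irrefl _ h
  refine ⟨hne, ?_⟩
  have h2 : ∀ j ∈ univ, 0 ≤ (if w j < w (j - 1) then
      (1 / t (w j)) * ((if swapLeft w j = swapLeft w i then 1 else 0) -
        (if w = swapLeft w i then 1 else 0)) else 0) := by
    intro j _
    rw [if_neg hne, sub_zero]
    have := ht (w j)
    split_ifs <;> positivity
  refine lt_of_lt_of_le ?_ (Finset.single_le_sum h2 (mem_univ i))
  rw [if_pos h, if_pos rfl, if_neg hne]
  have := ht (w i)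
  rw [sub_zero, mul_one]
  positivity

end model

end Pool.Agent.V11325.Tasep
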