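import Pool.Agent.V11325.UrnTime

/-!
# Four commuting bits give coexistence, and the existence of the scheme
-/

open Finset MeasureTheory ProbabilityTheory Filter Topology

namespace Pool.Agent.V11325.Urn

open Pool.Agent.TH996.Urn

/-- existence of the scheme -/
theorem exists_scheme {V : Type} [Fintype V] {s : ℕ} (G : SimpleGraph V) {x₀ : Config V s}
    (h0 : UrnsMono x₀) (h0' : 0 < total x₀) :
    ∃ (Ω : Type) (_ : MeasurableSpace Ω) (P : Measure Ω) (Y : ℕ → Ω → Config V s)
      (E : ℕ → Ω → ℝ), IsProbabilityMeasure P ∧ IsScheme G x₀ P Y E := by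
  obtain ⟨Ω, mΩ, P, X, hP, hX⟩ := exists_process G x₀ ⟨h0, h0'⟩
  have : IsProbabilityMeasure (expMeasure 1) := isProbabilityMeasure_expMeasure one_pos
  let Q : Measure (ℕ → ℝ) := Measure.infinitePi (fun _ : ℕ => expMeasure 1)
  have hfst : ∀ A : Set Ω, MeasurableSet A → (P.prod Q) {p | p.1 ∈ A} = P A := by
    intro A hA
    have : {p : Ω × (ℕ → ℝ) | p.1 ∈ A} = A ×ˢ Set.univ := by
      ext p
      simp
    rw [this, Measure.prod_prod, measure_univ, mul_one]
  refine ⟨Ω × (ℕ → ℝ), inferInstance, P.prod Q, fun n p => X n p.1, fun n p => p.2 n,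
    inferInstance, ?_, ?_, ?_, ?_, ?_⟩
  · refine ⟨?_, ?_, ?_⟩
    · intro n y
      exact (hX.meas n y).preimage measurable_fst
    · have := hfst {ω | X 0 ω = x₀} (hX.meas 0 x₀)
      rw [hX.init] at this
      exact this
    · intro n a y
      have h1 := hfst {ω | ∀ i : Fin (n + 1), X i ω = a i} (Wrap.meas_hist hX n a)
      have h2 := hfst {ω | (∀ i : Fin (n + 1), X i ω = a i) ∧ X (n + 1) ω = y}
        ((Wrap.meas_hist hX n a).inter (hX.meas (n + 1) y))
      have h3 := hX.markov n a y
      rw [← h1, ← h2] at h3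
      exact h3
  · intro n
    exact (measurable_pi_apply n).comp measurable_snd
  · intro n
    have h1 : (P.prod Q).map Prod.snd = Q := by
      rw [Measure.map_snd_prod, measure_univ, one_smul]
    have h2 : Q.map (fun e => e n) = expMeasure 1 := Measure.infinitePi_map_eval _ n
    rw [← h2, ← h1, Measure.map_map (measurable_pi_apply n) measurable_snd, h1]
    rfl
  · have h1 : iIndepFun (fun n (e : ℕ → ℝ) => e n) Q :=
      iIndepFun_infinitePi (P := fun _ : ℕ => expMeasure 1) (X := fun _ x => x)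
        (fun _ => measurable_id)
    rw [iIndepFun_iff_map_fun_eq_infinitePi_map (by fun_prop)] at h1 ⊢
    have h2 : (P.prod Q).map (fun (ω : Ω × (ℕ → ℝ)) (i : ℕ) => ω.2 i) = Q := by
      have : (fun (ω : Ω × (ℕ → ℝ)) (i : ℕ) => ω.2 i) = Prod.snd := rfl
      rw [this, Measure.map_snd_prod, measure_univ, one_smul]
    have h3 : ∀ n, (P.prod Q).map (fun p : Ω × (ℕ → ℝ) => p.2 n) = Q.map (fun e => e n) := by
      intro n
      have h4 : (P.prod Q).map Prod.snd = Q := by
        rw [Measure.map_snd_prod, measure_univ, one_smul]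
      conv_rhs => rw [← h4]
      rw [Measure.map_map (measurable_pi_apply n) measurable_snd]
      rfl
    rw [h2]
    simp_rw [h3]
    rw [← h1]
    have : (fun (ω : ℕ → ℝ) (i : ℕ) => ω i) = id := rfl
    rw [this, Measure.map_id]
  · have hm : Measurable (fun (ω : Ω) (n : ℕ) => X n ω) := by
      rw [measurable_pi_iff]
      intro n
      have : Countable (Config V s) := inferInstance
      refine measurable_to_countable' fun y => hX.meas n y
    exact indepFun_prod (X := fun (ω : Ω) (n : ℕ) => X n ω) (Y := fun e : ℕ → ℝ => e) hm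
      measurable_id

/-- flipBit the `k`-th bit of a word -/
def flipBit (w : Fin 4 → Bool) (k : Fin 4) : Fin 4 → Bool := fun j => if j = k then !(w j) else w j

/-- parity -/
def par (w : Fin 4 → Bool) : Bool := ((w 0 ^^ w 1) ^^ (w 2 ^^ w 3))

/-- the amplitude used with three types -/
def amp3 (w : Fin 4 → Bool) : ℕ := if par w then 0 else if w 0 = w 1 then 2 else 3

/-- the type used with three types -/
def col3 (w : Fin 4 → Bool) : ℕ := if w 0 = w 1 then 0 else if w 0 = w 2 then 1 else 2

/-- the amplitude used with four types -/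
def amp4 (w : Fin 4 → Bool) : ℕ := if par w then 0 else 1

/-- the type used with four types -/
def col4 (w : Fin 4 → Bool) : ℕ :=
  if w 0 = w 1 then (if w 0 = w 2 then 3 else 0) else if w 0 = w 2 then 1 else 2

/-- what is needed of a pair (amplitude, colouring) with `q` colours -/
structure Pattern (q : ℕ) (amp col : (Fin 4 → Bool) → ℕ) : Prop where
  lt : ∀ w, col w < q
  pos : ∀ w, par w = false → 0 < amp w
  zero : ∀ w, par w = true → amp w = 0
  bal : ∀ w, par w = true → ∀ c < q,
    2 * (∑ k, if col (flipBit w k) = c then amp (flipBit w k) else 0) < ∑ k, amp (flipBit w k)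
  reach : ∀ w, par w = false → ∀ c < q, ∃ i j, col (flipBit (flipBit w i) j) = c
  two : ∀ w, par w = false → col w ≠ col (flipBit (flipBit w 0) 2)

theorem pattern3 : Pattern 3 amp3 col3 where
  lt := by decide
  pos := by decide
  zero := by decide
  bal := by decide
  reach := by decide
  two := by decide

theorem pattern4 : Pattern 4 amp4 col4 where
  lt := by decide
  pos := by decide
  zero := by decide
  bal := by decide
  reach := by decide
  two := by decide

theorem par_flip (w : Fin 4 → Bool) (k : Fin 4) : par (flipBit w k) = !(par w) := by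
  revert w k
  decide

/-- A graph whose vertices carry four bits such that every vertex has exactly one neighbour
flipping each of the bits, and `m ≥ 1` other neighbours, which have the same bits. -/
structure FourBits {V ι : Type} [Fintype ι] (G : SimpleGraph V) (π : V → Fin 4 → Bool)
    (nb : V → ι → V) (e : V → Fin 4 → ι) (m : ℕ) : Prop where
  adj : ∀ v u, G.Adj v u ↔ ∃ i, u = nb v i
  inj : ∀ v, Function.Injective (nb v)
  einj : ∀ v, Function.Injective (e v)
  flips : ∀ v k, π (nb v (e v k)) = flipBit (π v) k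
  keeps : ∀ v i, (∀ k, i ≠ e v k) → π (nb v i) = π v
  card : Fintype.card ι = 4 + m

section
variable {V ι : Type} [Fintype V] [Fintype ι] {G : SimpleGraph V} {π : V → Fin 4 → Bool}
  {nb : V → ι → V} {e : V → Fin 4 → ι} {m : ℕ}

open Classical in
theorem FourBits.sum_adj (h : FourBits G π nb e m) (v : V) (g : (Fin 4 → Bool) → ℝ) :
    (∑ u, if G.Adj v u then g (π u) else 0) = ∑ k, g (flipBit (π v) k) + m * g (π v) := by
  have h1 : (∑ u, if G.Adj v u then g (π u) else 0) = ∑ i, g (π (nb v i)) := by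
    rw [← Finset.sum_filter]
    have h2 : univ.filter (fun u => G.Adj v u) = univ.image (nb v) := by
      ext u
      simp only [mem_filter, mem_univ, true_and, mem_image, h.adj v u]
      constructor
      · rintro ⟨i, hi⟩
        exact ⟨i, hi.symm⟩
      · rintro ⟨i, hi⟩
        exact ⟨i, hi.symm⟩
    rw [h2, Finset.sum_image (fun i _ j _ hij => h.inj v hij)]
  rw [h1, ← Finset.sum_add_sum_compl (univ.image (e v)),
    Finset.sum_image (fun i _ j _ hij => h.einj v hij)]
  congr 1
  · exact Finset.sum_congr rfl fun k _ => by rw [h.flips]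
  · have h3 : ∀ i ∈ (univ.image (e v))ᶜ, g (π (nb v i)) = g (π v) := by
      intro i hi
      rw [h.keeps v i]
      intro k hk
      simp only [mem_compl, mem_image, mem_univ, true_and, not_exists] at hi
      exact hi k hk.symm
    rw [Finset.sum_congr rfl h3, Finset.sum_const, Finset.card_compl,
      Finset.card_image_of_injective _ (h.einj v), Finset.card_univ, Fintype.card_fin, h.card,
      nsmul_eq_mul, Nat.add_sub_cancel_left]

/-- four bits and a pattern give a strictly balanced configuration -/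
theorem FourBits.sbc (h : FourBits G π nb e m) (hm : 0 < m) {q : ℕ} {amp col : (Fin 4 → Bool) → ℕ}
    (hp : Pattern q amp col) {s : ℕ} (hs : q ≤ s) (v₀ : V) :
    IsSBC G (univ.filter (fun v => par (π v) = false))
      (fun v => (⟨col (π v), (hp.lt _).trans_le hs⟩ : Fin s)) (fun v => (amp (π v) : ℝ)) m := by
  classical
  have hmem : ∀ v, v ∈ univ.filter (fun v => par (π v) = false) ↔ par (π v) = false := by
    intro v
    simp
  have hnot : ∀ v, v ∉ univ.filter (fun v => par (π v) = false) ↔ par (π v) = true := by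
    intro v
    simp
  have hflip : ∀ v k, G.Adj v (nb v (e v k)) := fun v k => (h.adj _ _).2 ⟨_, rfl⟩
  refine ⟨by exact_mod_cast hm, ?_, ?_, ?_, ?_, ?_, ?_, ?_⟩
  · intro v hv
    exact_mod_cast hp.pos _ ((hmem v).1 hv)
  · intro v hv
    exact_mod_cast hp.zero _ ((hnot v).1 hv)
  · intro v hv
    rw [h.sum_adj v (fun w => (amp w : ℝ))]
    have h1 : ∑ k, (amp (flipBit (π v) k) : ℝ) = 0 := by
      refine Finset.sum_eq_zero fun k _ => ?_
      rw [hp.zero _ (by rw [par_flip, (hmem v).1 hv]; rfl), Nat.cast_zero]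
    rw [h1, zero_add]
  · intro u hu v hv hadj
    obtain ⟨i, hi⟩ := (h.adj u v).1 hadj
    have h1 : π v = π u := by
      rw [hi]
      refine h.keeps u i fun k hk => ?_
      have h2 := (hmem v).1 hv
      rw [hi, hk, h.flips, par_flip, (hmem u).1 hu] at h2
      exact absurd h2 (by decide)
    simp only [h1]
  · obtain ⟨v₁, h1⟩ : ∃ v, par (π v) = false := by
      rcases Bool.eq_false_or_eq_true (par (π v₀)) with h1 | h1
      · refine ⟨nb v₀ (e v₀ 0), ?_⟩
        rw [h.flips, par_flip, h1]
        rfl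
      · exact ⟨v₀, h1⟩
    refine ⟨v₁, (hmem _).2 h1, nb (nb v₁ (e v₁ 0)) (e (nb v₁ (e v₁ 0)) 2), ?_, ?_⟩
    · rw [hmem, h.flips, h.flips, par_flip, par_flip, h1]
      rfl
    · intro hcon
      rw [Fin.mk.injEq, h.flips, h.flips] at hcon
      exact hp.two _ h1 hcon
  · intro z hz _ c
    have hz' := (hnot z).1 hz
    rw [h.sum_adj z (fun w => (amp w : ℝ)), hp.zero _ hz', Nat.cast_zero, mul_zero, add_zero]
    have h1 : (∑ u, if G.Adj z u ∧ (⟨col (π u), (hp.lt _).trans_le hs⟩ : Fin s) = c then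
        (amp (π u) : ℝ) else 0) =
        ∑ u, if G.Adj z u then (if col (π u) = (c : ℕ) then (amp (π u) : ℝ) else 0) else 0 := by
      refine Finset.sum_congr rfl fun u _ => ?_
      by_cases h2 : G.Adj z u
      · by_cases h3 : col (π u) = (c : ℕ)
        · rw [if_pos ⟨h2, Fin.ext h3⟩, if_pos h2, if_pos h3]
        · rw [if_neg (fun h4 => h3 (by rw [← h4.2])), if_pos h2, if_neg h3]
      · rw [if_neg (fun h4 => h2 h4.1), if_neg h2]
    rw [h1, h.sum_adj z (fun w => if col w = (c : ℕ) then (amp w : ℝ) else 0), hp.zero _ hz',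
      Nat.cast_zero, ite_self, mul_zero, add_zero]
    by_cases hc : (c : ℕ) < q
    · have h2 := hp.bal _ hz' c hc
      exact_mod_cast h2
    · have h2 : ∀ k, ¬ col (flipBit (π z) k) = (c : ℕ) := by
        intro k hk
        exact hc (hk ▸ hp.lt _)
      simp only [h2, if_false, Finset.sum_const_zero, mul_zero]
      have h3 := hp.pos (flipBit (π z) 0) (by rw [par_flip, hz']; rfl)
      have h4 : (amp (flipBit (π z) 0) : ℝ) ≤ ∑ k, (amp (flipBit (π z) k) : ℝ) :=
        Finset.single_le_sum (f := fun k => (amp (flipBit (π z) k) : ℝ))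
          (fun _ _ => Nat.cast_nonneg _) (mem_univ 0)
      have h5 : (0 : ℝ) < (amp (flipBit (π z) 0) : ℝ) := by exact_mod_cast h3
      linarith
  · refine ⟨fun _ => 1, fun u hu hno => ?_⟩
    exfalso
    refine hno (nb u (e u 0)) ?_ (hflip u 0)
    rw [hmem, h.flips, par_flip, (hnot u).1 hu]
    rfl

/-- `q` types coexist forever with probability at least `1/2`, for the scheme with `s` types on
`G`, from a suitable initial configuration -/
def Coexist {V : Type} [Fintype V] (G : SimpleGraph V) (s q : ℕ) : Prop :=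
  ∃ x₀ : Config V s, UrnsMono x₀ ∧ 0 < total x₀ ∧
    (∃ (Ω : Type) (_ : MeasurableSpace Ω) (P : Measure Ω) (Y : ℕ → Ω → Config V s)
      (E : ℕ → Ω → ℝ), IsProbabilityMeasure P ∧ IsScheme G x₀ P Y E) ∧
    ∀ (Ω : Type) [MeasurableSpace Ω] (P : Measure Ω) [IsProbabilityMeasure P]
      (Y : ℕ → Ω → Config V s) (E : ℕ → Ω → ℝ), IsScheme G x₀ P Y E →
      (∀ᵐ ω ∂P, Tendsto (fun n => ringTime Y E n ω) atTop atTop) ∧
      ∃ A : Set Ω, MeasurableSet A ∧ 1 / 2 ≤ P A ∧
        ∀ ω ∈ A, ∀ t : ℝ, 0 ≤ t → ∀ c : Fin s, (c : ℕ) < q → ∃ v, 0 < stateAt Y E t ω v c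

theorem FourBits.coexist (h : FourBits G π nb e m) (hm : 0 < m) {q : ℕ}
    {amp col : (Fin 4 → Bool) → ℕ} (hp : Pattern q amp col) {s : ℕ} (hs : q ≤ s) (v₀ : V) :
    Coexist G s q := by
  classical
  obtain ⟨x₀, h0, h0', hx⟩ := sbc_coexist (h.sbc hm hp hs v₀)
  refine ⟨x₀, h0, h0', exists_scheme G h0 h0', ?_⟩
  intro Ω mΩ P hP Y E hYE
  refine ⟨ae_ring h0 h0' hYE, ?_⟩
  have h1 := hx Ω P Y hYE.jump
  have h2 : ENNReal.ofReal (1 / 2) = 1 / 2 := by
    rw [ENNReal.ofReal_div_of_pos two_pos]
    simp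
  rw [h2] at h1
  refine ⟨_, ?_, h1, ?_⟩
  · have hcount : Countable (Config V s) := inferInstance
    have h3 : ∀ n, ∀ v ∈ univ.filter (fun v => par (π v) = false),
        MeasurableSet {ω | 0 < Y n ω v ⟨col (π v), (hp.lt _).trans_le hs⟩} := by
      intro n v _
      have h4 : {ω | 0 < Y n ω v ⟨col (π v), (hp.lt _).trans_le hs⟩} =
          ⋃ y ∈ {y : Config V s | 0 < y v ⟨col (π v), (hp.lt _).trans_le hs⟩},
            {ω | Y n ω = y} := by
        ext ω
        simp
      rw [h4]
      exact MeasurableSet.biUnion (Set.to_countable _) fun y _ => hYE.jump.meas n y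
    have h5 : {ω | ∀ n, ∀ v ∈ univ.filter (fun v => par (π v) = false),
        0 < Y n ω v ⟨col (π v), (hp.lt _).trans_le hs⟩} =
        ⋂ n, ⋂ v ∈ univ.filter (fun v => par (π v) = false),
          {ω | 0 < Y n ω v ⟨col (π v), (hp.lt _).trans_le hs⟩} := by
      ext ω
      simp only [Set.mem_ofPred_eq, Set.mem_iInter]
    rw [h5]
    exact MeasurableSet.iInter fun n => Finset.measurableSet_biInter _ fun v hv => h3 n v hv
  intro ω hω t _ c hc
  obtain ⟨v₁, h3⟩ : ∃ v, par (π v) = false := by
    rcases Bool.eq_false_or_eq_true (par (π v₀)) with h1 | h1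
    · refine ⟨nb v₀ (e v₀ 0), ?_⟩
      rw [h.flips, par_flip, h1]
      rfl
    · exact ⟨v₀, h1⟩
  obtain ⟨i, j, hij⟩ := hp.reach _ h3 _ hc
  refine ⟨nb (nb v₁ (e v₁ i)) (e (nb v₁ (e v₁ i)) j), ?_⟩
  unfold stateAt
  have h4 := hω (sSup {n : ℕ | ringTime Y E n ω ≤ t}) (nb (nb v₁ (e v₁ i)) (e (nb v₁ (e v₁ i)) j)) (by
    simp only [mem_filter, mem_univ, true_and]
    rw [h.flips, h.flips, par_flip, par_flip, h3]
    rfl)
  have h5 : (⟨col (π (nb (nb v₁ (e v₁ i)) (e (nb v₁ (e v₁ i)) j))), (hp.lt _).trans_le hs⟩ : Fin s) = c := by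
    apply Fin.ext
    show col (π (nb (nb v₁ (e v₁ i)) (e (nb v₁ (e v₁ i)) j))) = (c : ℕ)
    rw [h.flips, h.flips, hij]
  rw [h5] at h4
  exact h4

end

end Pool.Agent.V11325.Urn
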