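import Pool.Agent.TH996.Urn.SbcMain

/-!
# Strictly balanced configurations: quantitative coexistence

Adapted from `Pool.Agent.TH996.Urn.SbcMain0` (the same argument; the conclusion is that every
process started from one explicit configuration keeps all the colours with probability at
least `1/2`).
-/

set_option linter.unusedSectionVars false
set_option linter.unusedVariables false

open Finset MeasureTheory

namespace Pool.Agent.V11325.Urn

open Pool.Agent.TH996.Urn Pool.Agent.TH996.Urn.SbcMain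

variable {V : Type} [Fintype V] {s : ℕ} {G : SimpleGraph V} {K : Finset V} {χ : V → Fin s}
  {φ ψ : V → ℝ} {μ : ℝ}

/-- The core: a Lyapunov function gives coexistence. -/
theorem core_coexist (h : IsSBC G K χ φ μ) (hφ : ∑ v, φ v ^ 2 = 1)
    (hψ : ∀ u, u ∉ K → (∀ v ∈ K, ¬ G.Adj u v) → 0 < ψ u)
    (H1 : ∃ C ε : ℝ, 0 < C ∧ 0 < ε ∧ ε ≤ 1 ∧ ∀ x : Config V s, InR G K χ φ ψ ε x →
      Pop G (fun y => ZZ K χ y / SS χ φ y ^ 2) x ≤
        ZZ K χ x / SS χ φ x ^ 2 + C * (1 + qq G K x) / SS χ φ x ^ 2)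
    (H2 : ∃ κ C ε : ℝ, 0 < κ ∧ 0 < C ∧ 0 < ε ∧ ε ≤ 1 ∧ ∀ x : Config V s, InR G K χ φ ψ ε x →
      Pop G (fun y => YY G K y / SS χ φ y ^ 2) x ≤
        YY G K x / SS χ φ x ^ 2 + (C - κ * qq G K x) / SS χ φ x ^ 2)
    (H3 : ∃ C ε : ℝ, 0 < C ∧ 0 < ε ∧ ε ≤ 1 ∧ ∀ x : Config V s, InR G K χ φ ψ ε x →
      Pop G (fun y => LL G K ψ y / SS χ φ y) x ≤
        LL G K ψ x / SS χ φ x + C * (1 + qq G K x) / SS χ φ x ^ 2)
    (H4 : ∃ c C ε : ℝ, 0 < c ∧ 0 < C ∧ 0 < ε ∧ ε ≤ 1 ∧ ∀ x : Config V s, InR G K χ φ ψ ε x →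
      Pop G (fun y => 1 / SS χ φ y) x ≤
        1 / SS χ φ x - c / SS χ φ x ^ 2 + C * (1 + qq G K x) / SS χ φ x ^ 3) :
    ∃ x₀ : Config V s, UrnsMono x₀ ∧ 0 < total x₀ ∧
      ∀ (Ω : Type) [MeasurableSpace Ω] (P : Measure Ω) [IsProbabilityMeasure P]
        (X : ℕ → Ω → Config V s), IsUrnProcess G x₀ P X →
          ENNReal.ofReal (1 / 2) ≤ P {ω | ∀ n, ∀ v ∈ K, 0 < X n ω v (χ v)} := by
  classical
  obtain ⟨C1, ε1, hC1, hε1, hε1', H1⟩ := H1
  obtain ⟨κ, C2, ε2, hκ, hC2, hε2, hε2', H2⟩ := H2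
  obtain ⟨C3, ε3, hC3, hε3, hε3', H3⟩ := H3
  obtain ⟨c, C4, ε4, hc, hC4, hε4, hε4', H4⟩ := H4
  obtain ⟨u₀, hu₀, -⟩ := h.two
  obtain ⟨u₁, hu₁, hmin⟩ := K.exists_min_image φ ⟨u₀, hu₀⟩
  have hp1 := h.φ_pos u₁ hu₁
  -- constants
  obtain ⟨γ, hγ⟩ : ∃ γ : ℝ, γ = (C1 + C3 + 1) / κ + 1 := ⟨_, rfl⟩
  have hγ1 : 1 ≤ γ := by
    rw [hγ]
    have : 0 ≤ (C1 + C3 + 1) / κ := by positivity
    linarith
  have hγκ : C1 + C3 + 1 ≤ γ * κ := by
    rw [hγ, add_mul, div_mul_cancel₀ _ hκ.ne']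
    linarith
  obtain ⟨B, hB⟩ : ∃ B : ℝ, B = (C1 + C3 + γ * C2 + 1) / c + 1 := ⟨_, rfl⟩
  have hB1 : 1 ≤ B := by
    rw [hB]
    have : 0 ≤ (C1 + C3 + γ * C2 + 1) / c := by positivity
    linarith
  have hBc : C1 + C3 + γ * C2 + 1 ≤ B * c := by
    rw [hB, add_mul, div_mul_cancel₀ _ hc.ne']
    linarith
  obtain ⟨ε0, hε0d⟩ : ∃ ε0 : ℝ, ε0 = min (min ε1 ε2) (min ε3 ε4) := ⟨_, rfl⟩
  have hε0 : 0 < ε0 := by
    rw [hε0d]
    exact lt_min (lt_min hε1 hε2) (lt_min hε3 hε4)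
  have h01 : ε0 ≤ ε1 := by rw [hε0d]; exact (min_le_left _ _).trans (min_le_left _ _)
  have h02 : ε0 ≤ ε2 := by rw [hε0d]; exact (min_le_left _ _).trans (min_le_right _ _)
  have h03 : ε0 ≤ ε3 := by rw [hε0d]; exact (min_le_right _ _).trans (min_le_left _ _)
  have h04 : ε0 ≤ ε4 := by rw [hε0d]; exact (min_le_right _ _).trans (min_le_right _ _)
  have h0le : ε0 ≤ 1 := h01.trans hε1'
  obtain ⟨F, hF⟩ : ∃ F : ℝ, F = ∑ v, φ v := ⟨_, rfl⟩
  have hF0 : 0 ≤ F := by
    rw [hF]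
    exact Finset.sum_nonneg fun v _ => φ_nonneg h v
  obtain ⟨e, hed⟩ : ∃ e : ℝ, e = min (min (ε0 ^ 2) (1 / C4)) (min (1 / (F + 1))
    (φ u₁ ^ 2 / 2)) := ⟨_, rfl⟩
  have he : 0 < e := by
    rw [hed]
    exact lt_min (lt_min (by positivity) (by positivity)) (lt_min (by positivity)
      (by positivity))
  have he1 : e ≤ ε0 ^ 2 := by rw [hed]; exact (min_le_left _ _).trans (min_le_left _ _)
  have he2 : e ≤ 1 / C4 := by rw [hed]; exact (min_le_left _ _).trans (min_le_right _ _)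
  have he3 : e ≤ 1 / (F + 1) := by rw [hed]; exact (min_le_right _ _).trans (min_le_left _ _)
  have he4 : e ≤ φ u₁ ^ 2 / 2 := by
    rw [hed]
    exact (min_le_right _ _).trans (min_le_right _ _)
  have he0 : e ≤ ε0 := by nlinarith
  -- the region
  obtain ⟨R, hR⟩ : ∃ R : Set (Config V s), R = {x | Good x ∧ 0 < SS χ φ x ∧
    Psi G K χ φ ψ γ B x < e} := ⟨_, rfl⟩
  have hRm : ∀ x, x ∈ R ↔ Good x ∧ 0 < SS χ φ x ∧ Psi G K χ φ ψ γ B x < e := by
    intro x
    rw [hR]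
    rfl
  have hparts : ∀ x : Config V s, 0 < SS χ φ x →
      0 ≤ ZZ K χ x / SS χ φ x ^ 2 + (-1) ∧ 0 ≤ γ * (YY G K x / SS χ φ x ^ 2) ∧
      0 ≤ LL G K ψ x / SS χ φ x ∧ 0 ≤ B * (1 / SS χ φ x) := by
    intro x hS
    refine ⟨?_, ?_, ?_, ?_⟩
    · have h1 := Z_ge h hφ x
      have h2 : 1 ≤ ZZ K χ x / SS χ φ x ^ 2 := by
        rw [one_le_div (by positivity)]
        exact h1
      linarith
    · have := YY_nonneg (G := G) (K := K) x
      positivity
    · exact div_nonneg (LL_nonneg hψ x) hS.le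
    · positivity
  have hPsi0 : ∀ x : Config V s, 0 < SS χ φ x → 0 ≤ Psi G K χ φ ψ γ B x := by
    intro x hS
    obtain ⟨a1, a2, a3, a4⟩ := hparts x hS
    unfold Psi
    linarith
  have hbounds : ∀ x ∈ R, 1 ≤ e * SS χ φ x ∧ B * (1 / SS χ φ x) ≤ e ∧ InR G K χ φ ψ ε0 x ∧
      ZZ K χ x ≤ (1 + e) * SS χ φ x ^ 2 := by
    intro x hx
    rw [hRm] at hx
    obtain ⟨hg, hS, hΨ⟩ := hx
    obtain ⟨a1, a2, a3, a4⟩ := hparts x hS
    unfold Psi at hΨ
    have b1 : ZZ K χ x / SS χ φ x ^ 2 ≤ 1 + e := by linarith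
    have b2 : γ * (YY G K x / SS χ φ x ^ 2) ≤ e := by linarith
    have b3 : LL G K ψ x / SS χ φ x ≤ e := by linarith
    have b4 : B * (1 / SS χ φ x) ≤ e := by linarith
    have c1 : ZZ K χ x ≤ (1 + e) * SS χ φ x ^ 2 := by
      rwa [div_le_iff₀ (by positivity)] at b1
    have c3 : LL G K ψ x ≤ e * SS χ φ x := by rwa [div_le_iff₀ hS] at b3
    have c4 : 1 ≤ e * SS χ φ x := by
      rw [mul_one_div, div_le_iff₀ hS] at b4
      linarith
    have hSq : 0 < SS χ φ x ^ 2 := by positivity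
    have c2 : YY G K x ≤ ε0 ^ 2 * SS χ φ x ^ 2 := by
      have h1 : YY G K x / SS χ φ x ^ 2 ≤ e := by
        have h2 : 0 ≤ YY G K x / SS χ φ x ^ 2 := div_nonneg (YY_nonneg x) hSq.le
        nlinarith
      rw [div_le_iff₀ hSq] at h1
      exact h1.trans (mul_le_mul_of_nonneg_right he1 hSq.le)
    refine ⟨c4, b4, ⟨hg, hS, ?_, ?_, ?_, ?_⟩, c1⟩
    · exact c4.trans (mul_le_mul_of_nonneg_right he0 hS.le)
    · exact c1.trans (mul_le_mul_of_nonneg_right (by linarith) hSq.le)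
    · intro z hz
      have h1 : nn x z ^ 2 ≤ YY G K x :=
        Finset.single_le_sum (f := fun z => nn x z ^ 2) (fun _ _ => sq_nonneg _) hz
      have h2 : nn x z ^ 2 ≤ (ε0 * SS χ φ x) ^ 2 := by
        rw [mul_pow]
        exact h1.trans c2
      exact le_of_sq_le_sq h2 (by positivity)
    · exact c3.trans (mul_le_mul_of_nonneg_right he0 hS.le)
  -- the drift
  have hdrift : ∀ x ∈ R, Pop G (Psi G K χ φ ψ γ B) x ≤ Psi G K χ φ ψ γ B x := by
    intro x hx
    obtain ⟨d1, d2, d3, -⟩ := hbounds x hx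
    have hg := d3.good
    have hS := d3.S_pos
    rw [Pop_Psi γ B hg]
    have i1 := H1 x (InR_mono h01 d3)
    have i2 := H2 x (InR_mono h02 d3)
    have i3 := H3 x (InR_mono h03 d3)
    have i4 := H4 x (InR_mono h04 d3)
    unfold Psi
    set S := SS χ φ x with hSd
    set Q := qq G K x with hQd
    have hQ : 0 ≤ Q := qq_nonneg x
    have j2 := mul_le_mul_of_nonneg_left i2 (by linarith : (0:ℝ) ≤ γ)
    have j4 := mul_le_mul_of_nonneg_left i4 (by linarith : (0:ℝ) ≤ B)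
    have hS2 : 0 < S ^ 2 := by positivity
    -- the error term
    have k1 : B * (C4 * (1 + Q) / S ^ 3) ≤ (1 + Q) / S ^ 2 := by
      have k2 : B * (C4 * (1 + Q) / S ^ 3) = (B * (1 / S)) * C4 * ((1 + Q) / S ^ 2) := by
        field_simp
      rw [k2]
      have k3 : B * (1 / S) * C4 ≤ 1 := by
        have k4 : B * (1 / S) * C4 ≤ (1 / C4) * C4 :=
          mul_le_mul_of_nonneg_right (d2.trans he2) hC4.le
        rwa [one_div_mul_cancel hC4.ne'] at k4
      have k5 : 0 ≤ (1 + Q) / S ^ 2 := by positivity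
      calc B * (1 / S) * C4 * ((1 + Q) / S ^ 2) ≤ 1 * ((1 + Q) / S ^ 2) :=
            mul_le_mul_of_nonneg_right k3 k5
        _ = (1 + Q) / S ^ 2 := one_mul _
    have k6 : C1 * (1 + Q) / S ^ 2 + γ * ((C2 - κ * Q) / S ^ 2) + C3 * (1 + Q) / S ^ 2 +
        B * (- (c / S ^ 2)) + (1 + Q) / S ^ 2 ≤ 0 := by
      have k7 : C1 * (1 + Q) / S ^ 2 + γ * ((C2 - κ * Q) / S ^ 2) + C3 * (1 + Q) / S ^ 2 +
        B * (- (c / S ^ 2)) + (1 + Q) / S ^ 2 =
        -(((B * c - (C1 + C3 + γ * C2 + 1)) + Q * (γ * κ - (C1 + C3 + 1))) / S ^ 2) := by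
        ring
      rw [k7, neg_nonpos]
      apply div_nonneg _ hS2.le
      have := mul_nonneg hQ (by linarith : 0 ≤ γ * κ - (C1 + C3 + 1))
      linarith
    linarith
  -- positivity of `S` after one step
  have hstepS : ∀ x ∈ R, ∀ v c, 0 < SS χ φ (step G x v c) := by
    intro x hx v c
    obtain ⟨d1, -, d3, -⟩ := hbounds x hx
    have h1 := SS_step (G := G) (χ := χ) (φ_nonneg h) d3.good v c
    rw [← hF] at h1
    have h2 : F + 1 ≤ SS χ φ x := by
      have h3 : e * SS χ φ x ≤ 1 / (F + 1) * SS χ φ x :=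
        mul_le_mul_of_nonneg_right he3 d3.S_pos.le
      have h4 : 1 ≤ 1 / (F + 1) * SS χ φ x := d1.trans h3
      rw [one_div, inv_mul_eq_div, le_div_iff₀ (by linarith)] at h4
      linarith
    linarith
  -- the iteration
  obtain ⟨a, ha0, haS⟩ : ∃ a : ℕ → Config V s → ℝ, (a 0 = fun x => if x ∈ R then 1 else 0) ∧
      ∀ t, a (t + 1) = fun x => if x ∈ R then Pop G (a t) x else 0 :=
    ⟨fun t => Nat.rec (fun x => if x ∈ R then 1 else 0)
      (fun _ f x => if x ∈ R then Pop G f x else 0) t, rfl, fun t => rfl⟩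
  have hlow : ∀ t, ∀ x, Good x → 0 < SS χ φ x → 1 - (1 / e) * Psi G K χ φ ψ γ B x ≤ a t x := by
    intro t
    induction t with
    | zero =>
      intro x hg hS
      rw [ha0]
      have h0 := hPsi0 x hS
      by_cases hx : x ∈ R
      · simp only [if_pos hx]
        have : 0 ≤ (1 / e) * Psi G K χ φ ψ γ B x := by positivity
        linarith
      · simp only [if_neg hx]
        have h1 : e ≤ Psi G K χ φ ψ γ B x := by
          by_contra hcon
          exact hx ((hRm x).2 ⟨hg, hS, not_le.1 hcon⟩)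
        have h2 : 1 ≤ (1 / e) * Psi G K χ φ ψ γ B x := by
          rw [one_div, inv_mul_eq_div, one_le_div he]
          exact h1
        linarith
    | succ t ih =>
      intro x hg hS
      rw [haS t]
      by_cases hx : x ∈ R
      · simp only [if_pos hx]
        have h1 : Pop G (fun y => 1 + (-(1 / e)) * Psi G K χ φ ψ γ B y) x ≤ Pop G (a t) x := by
          apply Pop_le
          intro v c hv
          have := ih (step G x v c) (step_good G hg hv) (hstepS x hx v c)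
          linarith
        have h2 : Pop G (fun y => 1 + (-(1 / e)) * Psi G K χ φ ψ γ B y) x =
            1 + (-(1 / e)) * Pop G (Psi G K χ φ ψ γ B) x := by
          rw [Pop_add (G := G) (fun _ => (1 : ℝ)) (fun y => (-(1 / e)) * Psi G K χ φ ψ γ B y) x,
            Pop_const G 1 hg.2, Pop_mul]
        rw [h2] at h1
        have h3 := hdrift x hx
        have h4 : (1 / e) * Pop G (Psi G K χ φ ψ γ B) x ≤ (1 / e) * Psi G K χ φ ψ γ B x :=
          mul_le_mul_of_nonneg_left h3 (by positivity)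
        linarith
      · simp only [if_neg hx]
        have h1 : e ≤ Psi G K χ φ ψ γ B x := by
          by_contra hcon
          exact hx ((hRm x).2 ⟨hg, hS, not_le.1 hcon⟩)
        have h2 : 1 ≤ (1 / e) * Psi G K χ φ ψ γ B x := by
          rw [one_div, inv_mul_eq_div, one_le_div he]
          exact h1
        linarith
  -- the initial configuration
  obtain ⟨M, hM0, hSM, hΨM⟩ := ini_small (G := G) (K := K) (χ := χ) (ψ := ψ) h hφ γ
    (B := B) (e := e / 2) (by linarith) (by linarith)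
  obtain ⟨x₀, hx₀⟩ : ∃ x₀ : Config V s, x₀ = ini K χ φ M := ⟨_, rfl⟩
  rw [← hx₀] at hSM hΨM
  have hgood : Good x₀ := by
    refine ⟨by rw [hx₀]; exact ini_mono M, ?_⟩
    by_contra hcon
    have h1 : ∀ v c, x₀ v c = 0 := by
      intro v c
      by_contra hne
      exact hcon ((total_pos_iff x₀).2 ⟨v, c, Nat.pos_of_ne_zero hne⟩)
    have h2 : SS χ φ x₀ = 0 := by
      unfold SS xi nn
      simp only [h1, Nat.cast_zero, Finset.sum_const_zero, mul_zero, sub_zero]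
    linarith
  have hx₀R : ∀ t, 1 / 2 ≤ a t x₀ := by
    intro t
    have h1 := hlow t x₀ hgood hSM
    have h2 : (1 / e) * Psi G K χ φ ψ γ B x₀ ≤ (1 / e) * (e / 2) :=
      mul_le_mul_of_nonneg_left hΨM.le (by positivity)
    have h3 : (1 / e) * (e / 2) = 1 / 2 := by field_simp
    linarith
  -- the process
  refine ⟨x₀, hgood.1, hgood.2, ?_⟩
  intro Ω mΩ P hP X hX
  have hint := fun t => integral_iter G P hgood hX R a
    (fun x hx => by rw [ha0]; simp only [if_pos hx])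
    (fun x hx => by rw [ha0]; simp only [if_neg hx])
    (fun t x hx => by rw [haS t]; simp only [if_pos hx])
    (fun t x hx => by rw [haS t]; simp only [if_neg hx]) t
  have hcount : Countable (Config V s) := inferInstance
  have hmeasR : ∀ i, MeasurableSet {ω | X i ω ∈ R} := by
    intro i
    have : {ω | X i ω ∈ R} = ⋃ y ∈ R, {ω | X i ω = y} := by
      ext ω
      simp only [Set.mem_ofPred_eq, Set.mem_iUnion, exists_prop, exists_eq_right']
    rw [this]
    exact MeasurableSet.biUnion (Set.to_countable R) fun y _ => hX.meas i y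
  have hmeas : ∀ t, MeasurableSet {ω | ∀ i, i ≤ t → X i ω ∈ R} := by
    intro t
    have : {ω | ∀ i, i ≤ t → X i ω ∈ R} = ⋂ i, ⋂ (_ : i ≤ t), {ω | X i ω ∈ R} := by
      ext ω
      simp only [Set.mem_ofPred_eq, Set.mem_iInter]
    rw [this]
    exact MeasurableSet.iInter fun i => MeasurableSet.iInter fun _ => hmeasR i
  -- the event that the process never leaves the region
  have hall : ENNReal.ofReal (1 / 2) ≤ P (⋂ t, {ω | ∀ i, i ≤ t → X i ω ∈ R}) := by
    have h1 : Filter.Tendsto (fun t => P {ω | ∀ i, i ≤ t → X i ω ∈ R}) Filter.atTop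
        (nhds (P (⋂ t, {ω | ∀ i, i ≤ t → X i ω ∈ R}))) := by
      apply tendsto_measure_iInter_atTop (fun t => (hmeas t).nullMeasurableSet)
      · intro t t' htt ω hω i hi
        exact hω i (hi.trans htt)
      · exact ⟨0, measure_ne_top _ _⟩
    refine ge_of_tendsto' h1 fun t => ?_
    have h2 := hint t
    have h3 : P {ω | ∀ i, i ≤ t → X i ω ∈ R} =
        ENNReal.ofReal (P.real {ω | ∀ i, i ≤ t → X i ω ∈ R}) := by
      rw [Measure.real, ENNReal.ofReal_toReal (measure_ne_top _ _)]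
    rw [h3, h2]
    exact ENNReal.ofReal_le_ofReal (hx₀R t)
  -- on this event all the colours of the balanced configuration survive
  have hbad : (⋂ t, {ω | ∀ i, i ≤ t → X i ω ∈ R}) ⊆ {ω | ∀ n, ∀ v ∈ K, 0 < X n ω v (χ v)} := by
    intro ω hω n v hv
    rw [Set.mem_iInter] at hω
    have hin : ∀ i, X i ω ∈ R := fun i => hω i i le_rfl
    obtain ⟨-, -, d3, d4⟩ := hbounds _ (hin n)
    refine present h hφ d3.S_pos d4 hv ?_
    have h1 := hmin v hv
    have h2 : φ u₁ ^ 2 ≤ φ v ^ 2 := pow_le_pow_left₀ hp1.le h1 2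
    have h3 : 0 < φ u₁ ^ 2 := by positivity
    linarith
  exact hall.trans (measure_mono hbad)

/-- **A strictly balanced configuration gives coexistence**, quantitative form: from a suitable
initial configuration, with probability at least `1/2` every vertex of `K` holds, at all times,
balls of its own colour. -/
theorem sbc_coexist (h : IsSBC G K χ φ μ) :
    ∃ x₀ : Config V s, UrnsMono x₀ ∧ 0 < total x₀ ∧
      ∀ (Ω : Type) [MeasurableSpace Ω] (P : Measure Ω) [IsProbabilityMeasure P]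
        (X : ℕ → Ω → Config V s), IsUrnProcess G x₀ P X →
          ENNReal.ofReal (1 / 2) ≤ P {ω | ∀ n, ∀ v ∈ K, 0 < X n ω v (χ v)} := by
  obtain ⟨φ', h', hφ'⟩ := SbcMain.normal h
  obtain ⟨ψ, hψ⟩ := h'.out
  exact core_coexist h' hφ' (fun u hu hu' => (hψ u hu hu').1) (sm1 h' hφ' hψ) (sm2 h' hφ' hψ)
    (sm3 h' hφ' hψ) (sm4 h' hφ' hψ)

end Pool.Agent.V11325.Urn
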