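import Pool.Agent.V11325.UrnSbc

/-!
# The urn scheme in continuous time
-/

open Finset MeasureTheory ProbabilityTheory Filter Topology

namespace Pool.Agent.V11325.Urn

open Pool.Agent.TH996.Urn

section
variable {V : Type} {s : ℕ} [Fintype V] {Ω : Type}

/-- The time of the `n`-th nucleation, when the successive configurations are `Y 0, Y 1, …` and the
`k`-th configuration is kept for the time `E k / total (Y k)`. -/
noncomputable def ringTime (Y : ℕ → Ω → Config V s) (E : ℕ → Ω → ℝ) (n : ℕ) (ω : Ω) : ℝ :=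
  ∑ k ∈ range n, E k ω / (total (Y k ω) : ℝ)

/-- The configuration at time `t`: it is `Y n` for `ringTime n ≤ t < ringTime (n + 1)`. -/
noncomputable def stateAt (Y : ℕ → Ω → Config V s) (E : ℕ → Ω → ℝ) (t : ℝ) (ω : Ω) :
    Config V s :=
  Y (sSup {n : ℕ | ringTime Y E n ω ≤ t}) ω

/-- The competing urn scheme on `G` in continuous time, started from `x₀`, given by its jump chain
`Y` (the ball whose clock rings first is uniformly distributed among the balls present) and by
independent standard exponential variables `E k`, independent of the jump chain: when `m` balls are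
present the time until the first of their independent rate-`1` clocks rings is exponential with
rate `m`, hence `E k / m`. -/
structure IsScheme [MeasurableSpace Ω] (G : SimpleGraph V) (x₀ : Config V s) (P : Measure Ω)
    (Y : ℕ → Ω → Config V s) (E : ℕ → Ω → ℝ) : Prop where
  jump : IsUrnProcess G x₀ P Y
  meas : ∀ n, Measurable (E n)
  law : ∀ n, P.map (E n) = expMeasure 1
  indep : iIndepFun E P
  indep_jump : IndepFun (fun ω n => Y n ω) (fun ω n => E n ω) P

end

/-- one step adds at most one ball to each urn -/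
theorem total_step_le {V : Type} [Fintype V] {s : ℕ} {G : SimpleGraph V} (x : Config V s)
    (v : V) (c : Fin s) : total (step G x v c) ≤ total x + Fintype.card V := by
  classical
  unfold total
  have h1 : ∀ u, ∑ d, step G x v c u d ≤ ∑ d, x u d + 1 := by
    intro u
    have h2 : ∀ d, step G x v c u d ≤ x u d + if d = c then 1 else 0 := by
      intro d
      unfold step
      split_ifs <;> omega
    calc ∑ d, step G x v c u d ≤ ∑ d, (x u d + if d = c then 1 else 0) :=
          Finset.sum_le_sum fun d _ => h2 d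
      _ = ∑ d, x u d + 1 := by
          rw [Finset.sum_add_distrib, Finset.sum_ite_eq' univ c, if_pos (mem_univ c)]
  calc ∑ u, ∑ d, step G x v c u d ≤ ∑ u, (∑ d, x u d + 1) := Finset.sum_le_sum fun u _ => h1 u
    _ = ∑ u, ∑ d, x u d + Fintype.card V := by
        rw [Finset.sum_add_distrib, Finset.sum_const, Finset.card_univ, smul_eq_mul, mul_one]

theorem ae_total {V : Type} [Fintype V] {s : ℕ} {G : SimpleGraph V} {x₀ : Config V s}
    (h0 : UrnsMono x₀) (h0' : 0 < total x₀) {Ω : Type} [MeasurableSpace Ω] {P : Measure Ω}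
    [IsProbabilityMeasure P] {Y : ℕ → Ω → Config V s} (hY : IsUrnProcess G x₀ P Y) :
    ∀ᵐ ω ∂P, ∀ n, 0 < total (Y n ω) ∧ total (Y n ω) ≤ total x₀ + n * Fintype.card V := by
  have hinit : ∀ᵐ ω ∂P, Y 0 ω = x₀ := by
    have h1 : P {ω | Y 0 ω = x₀}ᶜ = 0 := by
      rw [prob_compl_eq_zero_iff (hY.meas 0 x₀)]
      exact hY.init
    exact h1
  filter_upwards [hinit, Wrap.ae_step hY] with ω h1 h2 n
  have key : ∀ n, Good (Y n ω) ∧ total (Y n ω) ≤ total x₀ + n * Fintype.card V := by
    intro n
    induction n with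
    | zero =>
      rw [h1]
      exact ⟨⟨h0, h0'⟩, by omega⟩
    | succ n ih =>
      obtain ⟨v, c, hv, hst⟩ := h2 n
      rw [hst]
      refine ⟨step_good G ih.1 hv, ?_⟩
      have h3 := total_step_le (G := G) (Y n ω) v c
      have h4 := ih.2
      have h5 : (n + 1) * Fintype.card V = n * Fintype.card V + Fintype.card V := by ring
      omega
  exact ⟨(key n).1.2, (key n).2⟩

theorem exp_pos_ae {Ω : Type} [MeasurableSpace Ω] {P : Measure Ω} [IsProbabilityMeasure P]
    {E : Ω → ℝ} (hm : Measurable E) (hl : P.map E = expMeasure 1) : ∀ᵐ ω ∂P, 0 < E ω := by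
  have : IsProbabilityMeasure (expMeasure 1) := isProbabilityMeasure_expMeasure one_pos
  have h1 : (expMeasure 1) (Set.Iic 0) = 0 := by
    have h2 := cdf_expMeasure_eq one_pos (0 : ℝ)
    rw [cdf_eq_real] at h2
    simp only [le_refl, if_true, mul_zero, neg_zero, Real.exp_zero, sub_self] at h2
    rwa [measureReal_eq_zero_iff] at h2
  rw [← hl, Measure.map_apply hm measurableSet_Iic] at h1
  rw [ae_iff]
  convert h1 using 2
  ext ω
  simp

/-- deterministic divergence -/
theorem diverge {e : ℕ → ℝ} {N : ℕ → ℝ} {c D m : ℝ} (he : ∀ k, 0 ≤ e k) (hN : ∀ k, 0 < N k)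
    (hNle : ∀ k : ℕ, N k ≤ c + k * D) (hc : 0 ≤ c) (hD : 0 < D) (hm : 0 < m)
    (hlim : Tendsto (fun n : ℕ => (∑ k ∈ range n, min (e k) 1) / n) atTop (𝓝 m)) :
    Tendsto (fun n => ∑ k ∈ range n, e k / N k) atTop atTop := by
  have hmono : Monotone (fun n => ∑ k ∈ range n, e k / N k) := by
    apply monotone_nat_of_le_succ
    intro n
    rw [Finset.sum_range_succ]
    have := div_nonneg (he n) (hN n).le
    linarith
  rcases tendsto_atTop_of_monotone hmono with h | ⟨l, hl⟩
  · exact h
  exfalso
  -- the block sums do not tend to zero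
  have hl2 : Tendsto (fun n => ∑ k ∈ range (2 * n), e k / N k) atTop (𝓝 l) :=
    hl.comp (tendsto_id.const_mul_atTop' (by norm_num))
  have hdiff : Tendsto (fun n => ∑ k ∈ range (2 * n), e k / N k - ∑ k ∈ range n, e k / N k) atTop
      (𝓝 0) := by
    have := hl2.sub hl
    rwa [sub_self] at this
  have hs2 : Tendsto (fun n : ℕ => (∑ k ∈ range (2 * n), min (e k) 1) / (2 * n : ℕ)) atTop (𝓝 m) :=
    hlim.comp (tendsto_id.const_mul_atTop' (by norm_num))
  have hblock : Tendsto (fun n : ℕ => 2 * ((∑ k ∈ range (2 * n), min (e k) 1) / (2 * n : ℕ)) -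
      (∑ k ∈ range n, min (e k) 1) / n) atTop (𝓝 (2 * m - m)) := (hs2.const_mul 2).sub hlim
  have hcn : Tendsto (fun n : ℕ => c / n + 2 * D) atTop (𝓝 (0 + 2 * D)) :=
    (tendsto_const_div_atTop_nhds_zero_nat c).add_const _
  have hq := hblock.div hcn (by positivity)
  have hle : ∀ᶠ n : ℕ in atTop, (2 * ((∑ k ∈ range (2 * n), min (e k) 1) / (2 * n : ℕ)) -
      (∑ k ∈ range n, min (e k) 1) / n) / (c / n + 2 * D) ≤
      ∑ k ∈ range (2 * n), e k / N k - ∑ k ∈ range n, e k / N k := by
    filter_upwards [eventually_gt_atTop 0] with n hn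
    have hn' : (0 : ℝ) < n := by exact_mod_cast hn
    have h1 : ∀ f : ℕ → ℝ, ∑ k ∈ range (2 * n), f k - ∑ k ∈ range n, f k =
        ∑ k ∈ Ico n (2 * n), f k := by
      intro f
      rw [Finset.sum_Ico_eq_sub _ (by omega)]
    rw [h1]
    have h2 : (2 * ((∑ k ∈ range (2 * n), min (e k) 1) / (2 * n : ℕ)) -
      (∑ k ∈ range n, min (e k) 1) / n) / (c / n + 2 * D) =
      (∑ k ∈ Ico n (2 * n), min (e k) 1) / (c + 2 * n * D) := by
      rw [← h1]
      push_cast
      field_simp
    rw [h2, Finset.sum_div]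
    refine Finset.sum_le_sum fun k hk => ?_
    rw [Finset.mem_Ico] at hk
    have h3 : N k ≤ c + 2 * n * D := by
      refine (hNle k).trans ?_
      have : (k : ℝ) ≤ 2 * n := by exact_mod_cast hk.2.le
      nlinarith
    have h4 : min (e k) 1 ≤ e k := min_le_left _ _
    calc min (e k) 1 / (c + 2 * n * D) ≤ e k / (c + 2 * n * D) :=
          div_le_div_of_nonneg_right h4 (by positivity)
      _ ≤ e k / N k := div_le_div_of_nonneg_left (he k) (hN k) h3
  have hfin := le_of_tendsto_of_tendsto hq hdiff hle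
  have : 0 < (2 * m - m) / (0 + 2 * D) := by
    apply div_pos <;> linarith
  linarith

/-- the nucleation times tend to infinity -/
theorem ae_ring {V : Type} [Fintype V] {s : ℕ} {G : SimpleGraph V} {x₀ : Config V s}
    (h0 : UrnsMono x₀) (h0' : 0 < total x₀) {Ω : Type} [MeasurableSpace Ω] {P : Measure Ω}
    [IsProbabilityMeasure P] {Y : ℕ → Ω → Config V s} {E : ℕ → Ω → ℝ}
    (h : IsScheme G x₀ P Y E) :
    ∀ᵐ ω ∂P, Tendsto (fun n => ringTime Y E n ω) atTop atTop := by
  have hpos : ∀ᵐ ω ∂P, ∀ n, 0 < E n ω := by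
    rw [ae_all_iff]
    exact fun n => exp_pos_ae (h.meas n) (h.law n)
  have hmin : Measurable (fun x : ℝ => min x 1) := measurable_id.min measurable_const
  have hint : Integrable (fun ω => min (E 0 ω) 1) P := by
    refine Integrable.of_bound (C := 1) (hmin.comp (h.meas 0)).aestronglyMeasurable ?_
    filter_upwards [hpos] with ω hω
    rw [Real.norm_eq_abs, abs_le]
    exact ⟨by have := le_min (hω 0).le (zero_le_one (α := ℝ)); linarith, min_le_right _ _⟩
  have hlln := strong_law_ae_real (fun n ω => min (E n ω) 1) hint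
    (fun i j hij => (h.indep.indepFun hij).comp hmin hmin)
    (fun i => IdentDistrib.comp (⟨(h.meas i).aemeasurable, (h.meas 0).aemeasurable, by
      rw [h.law, h.law]⟩ : IdentDistrib (E i) (E 0) P P) hmin)
  have hm : 0 < P[fun ω => min (E 0 ω) 1] := by
    rw [integral_pos_iff_support_of_nonneg_ae _ hint]
    · have h1 : P (Function.support (fun ω => min (E 0 ω) 1)) = 1 := by
        rw [← prob_compl_eq_zero_iff₀]
        · have h2 : ∀ᵐ ω ∂P, ω ∈ Function.support (fun ω => min (E 0 ω) 1) := by
            filter_upwards [hpos] with ω hω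
            exact (lt_min (hω 0) one_pos).ne'
          exact h2
        · exact (measurableSet_support (hmin.comp (h.meas 0))).nullMeasurableSet
      rw [h1]
      exact one_pos
    · filter_upwards [hpos] with ω hω
      exact (lt_min (hω 0) one_pos).le
  filter_upwards [hpos, ae_total h0 h0' h.jump, hlln] with ω h1 h2 h3
  unfold ringTime
  have hne : Nonempty V := by
    obtain ⟨v, -⟩ := (total_pos_iff x₀).1 h0'
    exact ⟨v⟩
  have hD : (0 : ℝ) < (Fintype.card V : ℝ) := by exact_mod_cast Fintype.card_pos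
  refine diverge (c := (total x₀ : ℝ)) (D := (Fintype.card V : ℝ)) (fun k => (h1 k).le)
    (fun k => ?_) (fun k => ?_) (Nat.cast_nonneg _) hD hm h3
  · exact_mod_cast (h2 k).1
  · exact_mod_cast (h2 k).2

end Pool.Agent.V11325.Urn
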